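import Mathlib
set_option autoImplicit false

namespace Pool.CS

/-- `ℓ²(α)` -/
noncomputable abbrev l2 (α : Type) := lp (fun _ : α => ℂ) 2

theorem memlp_pm {α β : Type} (e : α ≃ β) (f : l2 α) :
    Memℓp (E := fun _ : β => ℂ) (fun b => f (e.symm b)) 2 := by
  have h := lp.memℓp f
  rw [memℓp_gen_iff (by norm_num)] at h ⊢
  exact (e.symm.summable_iff (f := fun i => ‖f i‖ ^ (2 : ENNReal).toReal)).2 h

/-- the unitary `ℓ²(α) → ℓ²(β)` of a bijection: `(pm e f) b = f (e⁻¹ b)`. -/
noncomputable def pm {α β : Type} (e : α ≃ β) : l2 α ≃ₗᵢ[ℂ] l2 β where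
  toFun f := ⟨fun b => f (e.symm b), memlp_pm e f⟩
  invFun f := ⟨fun a => f (e a), memlp_pm e.symm f⟩
  map_add' f g := by ext b; rfl
  map_smul' c f := by ext b; rfl
  left_inv f := by ext a; simp
  right_inv f := by ext a; simp
  norm_map' f := by
    rw [lp.norm_eq_tsum_rpow (by norm_num), lp.norm_eq_tsum_rpow (by norm_num)]
    congr 1
    exact e.symm.tsum_eq (fun i => ‖f i‖ ^ (2 : ENNReal).toReal)

/-- `pm` as a continuous linear map. -/
noncomputable def pmL {α β : Type} (e : α ≃ β) : l2 α →L[ℂ] l2 β :=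
  ((pm e).toContinuousLinearEquiv : l2 α →L[ℂ] l2 β)

theorem pmL_apply {α β : Type} (e : α ≃ β) (f : l2 α) (b : β) : pmL e f b = f (e.symm b) := rfl

/-- point mass. -/
noncomputable def dlt {α : Type} (x : α) : l2 α :=
  letI := Classical.decEq α; lp.single 2 x (1 : ℂ)

theorem pmL_dlt {α β : Type} (e : α ≃ β) (x : α) : pmL e (dlt x) = dlt (e x) := by
  classical
  ext b
  rw [pmL_apply]
  unfold dlt
  by_cases h : b = e x
  · subst h
    simp [lp.single_apply]
  · have h' : e.symm b ≠ x := fun hh => h (by rw [← hh]; simp)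
    simp [lp.single_apply, h, h']

theorem pmL_mul {α : Type} (e e' : α ≃ α) : pmL e * pmL e' = pmL (e'.trans e) := by
  ext f b
  rfl

section
variable {G : Type} [Group G]

/-- left translation: `(lam g f) h = f (g⁻¹ h)`. -/
noncomputable def lam (g : G) : l2 G →L[ℂ] l2 G := pmL (Equiv.mulLeft g)

/-- right translation: `(rho g f) h = f (h g)`. -/
noncomputable def rho (g : G) : l2 G →L[ℂ] l2 G := pmL (Equiv.mulRight g⁻¹)

theorem lam_apply (g : G) (f : l2 G) (h : G) : lam g f h = f (g⁻¹ * h) := rfl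

theorem rho_apply (g : G) (f : l2 G) (h : G) : rho g f h = f (h * g) := by
  show f ((Equiv.mulRight g⁻¹).symm h) = _
  simp

theorem lam_mul (g h : G) : lam (g * h) = lam g * lam h := by
  ext f x
  show f ((g * h)⁻¹ * x) = f (h⁻¹ * (g⁻¹ * x))
  rw [mul_inv_rev, mul_assoc]

theorem lam_one : lam (1 : G) = 1 := by
  ext f x
  show f ((1 : G)⁻¹ * x) = f x
  simp

theorem lam_dlt (g h : G) : lam g (dlt h) = dlt (g * h) := pmL_dlt _ _

theorem rho_dlt (g h : G) : rho g (dlt h) = dlt (h * g⁻¹) := pmL_dlt _ _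

theorem star_lam (g : G) : star (lam g) = lam g⁻¹ := by
  have h1 : star (lam g) * lam g = 1 := by
    have := (ContinuousLinearMap.inner_map_map_iff_adjoint_comp_self (lam g)).1
      (fun x y => (pm (Equiv.mulLeft g)).inner_map_map x y)
    exact this
  have h2 : lam g * lam g⁻¹ = 1 := by rw [← lam_mul, mul_inv_cancel, lam_one]
  calc star (lam g) = star (lam g) * (lam g * lam g⁻¹) := by rw [h2, mul_one]
    _ = lam g⁻¹ := by rw [← mul_assoc, h1, one_mul]

theorem lam_mem_unitary (g : G) : lam g ∈ unitary (l2 G →L[ℂ] l2 G) := by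
  rw [Unitary.mem_iff, star_lam, ← lam_mul, ← lam_mul]
  simp [lam_one]

/-- closed star-algebra generated by the left translations by elements of `s`. -/
noncomputable def CRs (s : Set G) : StarSubalgebra ℂ (l2 G →L[ℂ] l2 G) :=
  (StarAlgebra.adjoin ℂ (lam '' s)).topologicalClosure

variable (G) in
/-- the reduced group C*-algebra. -/
noncomputable def CR : StarSubalgebra ℂ (l2 G →L[ℂ] l2 G) := CRs (Set.univ : Set G)

theorem CR_eq : CR G = (StarAlgebra.adjoin ℂ
    {T : l2 G →L[ℂ] l2 G | ∃ g : G, ∀ (f : l2 G) (h : G), T f h = f (g⁻¹ * h)}).topologicalClosure := by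
  unfold CR CRs
  congr 2
  ext T
  simp only [Set.image_univ, Set.mem_range, Set.mem_ofPred_eq]
  constructor
  · rintro ⟨g, rfl⟩
    exact ⟨g, fun f h => rfl⟩
  · rintro ⟨g, hg⟩
    refine ⟨g, ?_⟩
    ext f x
    rw [hg]
    rfl

end

/-! ### the concrete gadget: letters 0,1,2 = a,b,c ; 3 = w ; 4 = z -/

abbrev C5 := FreeGroup (Fin 5)
abbrev D3 := DihedralGroup 3

/-- the letter `a, b, c` with index `i`. -/
def ltr (i : ZMod 3) : C5 := FreeGroup.of ⟨i.val, lt_trans (ZMod.val_lt i) (by norm_num)⟩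

/-- `t (ρ^i) = letter i`, `t (ρ^i σ) = letter i * w`. -/
def tt : D3 → C5
  | .r i => ltr i
  | .sr i => ltr (-i) * FreeGroup.of 3

/-- the cocycle. -/
def kk : D3 → C5
  | .r i => FreeGroup.of 0 * (ltr i)⁻¹
  | .sr i => FreeGroup.of 0 * (ltr (-i))⁻¹

/-- the action on letters. -/
def imgs (g : D3) : Fin 5 → C5 :=
  ![tt g, tt (g * .r 1), tt (g * .r 2), (tt g)⁻¹ * tt (g * .sr 0), FreeGroup.of 4]

/-- the action as endomorphisms. -/
def actE (g : D3) : C5 →* C5 := FreeGroup.lift (imgs g)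

theorem actE_r (g : D3) (i : ZMod 3) : actE g (tt (.r i)) = tt (g * .r i) := by
  fin_cases i
  · show actE g (FreeGroup.of 0) = tt (g * .r 0)
    have : g * DihedralGroup.r (0 : ZMod 3) = g := by
      rw [← DihedralGroup.one_def, mul_one]
    rw [this, actE, FreeGroup.lift_apply_of]; rfl
  · show actE g (FreeGroup.of 1) = tt (g * .r 1)
    rw [actE, FreeGroup.lift_apply_of]; rfl
  · show actE g (FreeGroup.of 2) = tt (g * .r 2)
    rw [actE, FreeGroup.lift_apply_of]; rfl

theorem actE_w (g : D3) : actE g (FreeGroup.of 3) = (tt g)⁻¹ * tt (g * .sr 0) := by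
  rw [actE, FreeGroup.lift_apply_of]; rfl

theorem actE_z (g : D3) : actE g (FreeGroup.of 4) = FreeGroup.of 4 := by
  rw [actE, FreeGroup.lift_apply_of]; rfl

theorem tt_w (g : D3) (i : ZMod 3) :
    (tt (g * .r i))⁻¹ * tt (g * .sr (-i)) = (tt g)⁻¹ * tt (g * .sr 0) := by
  cases g with
  | r j =>
    show (ltr (j + i))⁻¹ * (ltr (-(-i - j)) * FreeGroup.of 3) =
      (ltr j)⁻¹ * (ltr (-(0 - j)) * FreeGroup.of 3)
    have h1 : -(-i - j) = j + i := by ring
    have h2 : -(0 - j) = j := by ring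
    rw [h1, h2]; group
  | sr j =>
    show (ltr (-(j + i)) * FreeGroup.of 3)⁻¹ * ltr (-i - j) =
      (ltr (-j) * FreeGroup.of 3)⁻¹ * ltr (0 - j)
    have h1 : -i - j = -(j + i) := by ring
    have h2 : 0 - j = -j := by ring
    rw [h1, h2]; group

theorem actE_tt (g h : D3) : actE g (tt h) = tt (g * h) := by
  cases h with
  | r i => exact actE_r g i
  | sr i =>
    have e1 : tt (.sr i) = tt (.r (-i)) * FreeGroup.of 3 := rfl
    rw [e1, map_mul, actE_r, actE_w, ← tt_w g (-i)]
    have : g * DihedralGroup.sr (- -i) = g * DihedralGroup.sr i := by rw [neg_neg]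
    rw [this]; group

theorem actE_mul (g h : D3) : actE (g * h) = (actE g).comp (actE h) := by
  apply FreeGroup.ext_hom
  intro i
  fin_cases i
  · show actE (g * h) (tt (.r 0)) = actE g (actE h (tt (.r 0)))
    simp only [actE_tt, mul_assoc]
  · show actE (g * h) (tt (.r 1)) = actE g (actE h (tt (.r 1)))
    simp only [actE_tt, mul_assoc]
  · show actE (g * h) (tt (.r 2)) = actE g (actE h (tt (.r 2)))
    simp only [actE_tt, mul_assoc]
  · show actE (g * h) (FreeGroup.of 3) = actE g (actE h (FreeGroup.of 3))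
    rw [actE_w, actE_w, map_mul, map_inv, actE_tt, actE_tt, mul_assoc]
  · show actE (g * h) (FreeGroup.of 4) = actE g (actE h (FreeGroup.of 4))
    rw [actE_z, actE_z, actE_z]

theorem actE_one : actE 1 = MonoidHom.id C5 := by
  apply FreeGroup.ext_hom
  intro i
  fin_cases i
  · show actE 1 (tt (.r 0)) = tt (.r 0)
    rw [actE_tt, one_mul]
  · show actE 1 (tt (.r 1)) = tt (.r 1)
    rw [actE_tt, one_mul]
  · show actE 1 (tt (.r 2)) = tt (.r 2)
    rw [actE_tt, one_mul]
  · show actE 1 (FreeGroup.of 3) = FreeGroup.of 3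
    rw [actE_w, one_mul]
    show (ltr 0)⁻¹ * (ltr (-0) * FreeGroup.of 3) = _
    rw [neg_zero]; group
  · exact actE_z 1

/-- the action of `S₃` on the free group. -/
def actM : D3 →* MulAut C5 where
  toFun g := MonoidHom.toMulEquiv (actE g) (actE g⁻¹)
    (by rw [← actE_mul, inv_mul_cancel, actE_one]) (by rw [← actE_mul, mul_inv_cancel, actE_one])
  map_one' := by
    ext x
    show actE 1 x = x
    rw [actE_one]; rfl
  map_mul' g h := by
    ext x
    show actE (g * h) x = actE g (actE h x)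
    rw [actE_mul]; rfl

theorem actM_apply (g : D3) (x : C5) : actM g x = actE g x := rfl

/-! ### group theoretic definitions -/

abbrev F2 := FreeGroup (Fin 2)

/-- a homomorphism to a finite group. -/
structure FQ (P : Type) [Group P] where
  Q : Type
  [grp : Group Q]
  [fin : Finite Q]
  φ : P →* Q

attribute [instance] FQ.grp FQ.fin

/-- residual finiteness. -/
def RF (P : Type) [Group P] : Prop := ∀ x : P, x ≠ 1 → ∃ q : FQ P, q.φ x ≠ 1

/-- the cyclic subgroup `⟨y⟩` is separable. -/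
def Sep (P : Type) [Group P] (y : P) : Prop :=
  ∀ x : P, x ∉ Subgroup.zpowers y → ∃ q : FQ P, q.φ x ∉ Subgroup.zpowers (q.φ y)

/-- cofinally many finite quotients in which the order of `y` can be boosted without changing the
kernel on `J(F2)`. -/
def Boost {P : Type} [Group P] (J : F2 →* P) (y : P) : Prop :=
  ∀ q : FQ P, ∃ q2 : FQ P, q2.φ.ker ≤ q.φ.ker ∧ ∀ M : ℕ, 0 < M → ∃ q3 : FQ P,
    q3.φ.ker ≤ q2.φ.ker ∧ (∀ p, q2.φ (J p) = 1 → q3.φ (J p) = 1) ∧ M ∣ orderOf (q3.φ y)

/-- a finite set with commuting actions of `P` and `S`, the latter free. -/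
structure Bdl (S P : Type) [Group S] [Group P] where
  X : Type
  [fin : Finite X]
  [ne : Nonempty X]
  [actP : MulAction P X]
  [actS : MulAction S X]
  comm : ∀ (p : P) (s : S) (x : X), p • s • x = s • p • x
  free : ∀ (s : S) (x : X), s • x = x → s = 1

attribute [instance] Bdl.fin Bdl.ne Bdl.actP Bdl.actS

/-- fullness of a bundle relative to a finite quotient. -/
def Full {S P : Type} [Group S] [Group P] (B : Bdl S P) (J : F2 →* P) (q : FQ P) : Prop :=
  ∀ (x : B.X) (s : S), ∃ p : F2, q.φ (J p) = 1 ∧ J p • x = s • x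

def Bun (S : Type) [Group S] {P : Type} [Group P] (J : F2 →* P) : Prop :=
  ∀ q : FQ P, ∃ B : Bdl S P, Full B J q

/-- the invariants carried along the tower. -/
structure Good (S : Type) [Group S] {P : Type} [Group P] (J : F2 →* P) (G : Set P) : Prop where
  tf : ∀ g : P, g ≠ 1 → ¬ IsOfFinOrder g
  cnt : Countable P
  inj : Function.Injective J
  cent : ∀ g : P, (∀ p, g * J p = J p * g) → g = 1
  rf : RF P
  sep : ∀ y ∈ G, Sep P y
  boost : ∀ y ∈ G, Boost J y
  bun : Bun S J
  gen : Subgroup.normalClosure G = ⊤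

/-- the cocycle gadget. -/
structure Gadget (S C : Type) [Group S] [Group C] where
  act : S →* MulAut C
  k : S → C
  a : C
  z : C
  eA : C →* Multiplicative ℤ
  eZ : C →* Multiplicative ℤ
  finS : Finite S
  cntC : Countable C
  tfC : ∀ c : C, c ≠ 1 → ¬ IsOfFinOrder c
  rfC : RF C
  coc : ∀ s t, k (s * t) = k s * act s (k t)
  ptw : ∀ s, ∃ c : C, k s = c⁻¹ * act s c
  fix : ∀ c : C, (∀ s, k s * act s c * (k s)⁻¹ = c) → c = 1
  zfix : ∀ s, act s z = z
  eA_a : eA a = Multiplicative.ofAdd 1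
  eA_z : eA z = 1
  eZ_a : eZ a = 1
  eZ_z : eZ z = Multiplicative.ofAdd 1
  eA_act : ∀ s c, eA (act s c) = eA c
  eZ_act : ∀ s c, eZ (act s c) = eZ c
  eA_k : ∀ s, eA (k s) = 1
  eZ_k : ∀ s, eZ (k s) = 1
  gen : ∀ N : Subgroup C, N.Normal → (∀ s, ∀ c ∈ N, act s c ∈ N) → a ∈ N → z ∈ N → N = ⊤

section Kgroup
variable {S C P : Type} [Group S] [Group C] [Group P]

/-- equivariant functions on a bundle. -/
def EqF (g : Gadget S C) (B : Bdl S P) : Subgroup (B.X → C) where
  carrier := {f | ∀ s x, f (s • x) = g.act s (f x)}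
  mul_mem' {f h} hf hh s x := by
    show f (s • x) * h (s • x) = g.act s (f x * h x)
    rw [hf s x, hh s x, map_mul]
  one_mem' s x := by
    show (1 : C) = g.act s 1
    rw [map_one]
  inv_mem' {f} hf s x := by
    show (f (s • x))⁻¹ = g.act s (f x)⁻¹
    rw [hf s x, map_inv]

theorem EqF_apply (g : Gadget S C) (B : Bdl S P) (f : EqF g B) (s : S) (x : B.X) :
    (f : B.X → C) (s • x) = g.act s ((f : B.X → C) x) := f.2 s x

/-- translation action of `P` on equivariant functions: `(p f)(x) = f (p⁻¹ x)`. -/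
def tr (g : Gadget S C) (B : Bdl S P) : P →* MulAut (EqF g B) where
  toFun p :=
    { toFun := fun f => ⟨fun x => (f : B.X → C) (p⁻¹ • x), fun s x => by
        show (f : B.X → C) (p⁻¹ • s • x) = _
        rw [B.comm, EqF_apply]⟩
      invFun := fun f => ⟨fun x => (f : B.X → C) (p • x), fun s x => by
        show (f : B.X → C) (p • s • x) = _
        rw [B.comm, EqF_apply]⟩
      left_inv := fun f => by
        ext x
        show (f : B.X → C) (p⁻¹ • p • x) = _
        rw [inv_smul_smul]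
      right_inv := fun f => by
        ext x
        show (f : B.X → C) (p • p⁻¹ • x) = _
        rw [smul_inv_smul]
      map_mul' := fun f h => rfl }
  map_one' := by
    ext f x
    show (f : B.X → C) ((1 : P)⁻¹ • x) = _
    rw [inv_one, one_smul]
    rfl
  map_mul' p q := by
    ext f x
    show (f : B.X → C) ((p * q)⁻¹ • x) = (f : B.X → C) (q⁻¹ • p⁻¹ • x)
    rw [mul_inv_rev, mul_smul]

theorem tr_apply (g : Gadget S C) (B : Bdl S P) (p : P) (f : EqF g B) (x : B.X) :
    (tr g B p f : B.X → C) x = (f : B.X → C) (p⁻¹ • x) := rfl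

/-- the group `K = EqF ⋊ P`. -/
abbrev KK (g : Gadget S C) (B : Bdl S P) := EqF g B ⋊[tr g B] P

/-- twisted equivariant functions. -/
def IsTw (g : Gadget S C) (B : Bdl S P) (b : B.X → C) : Prop :=
  ∀ s x, b (s • x) = g.act s (b x) * (g.k s)⁻¹

/-- the second embedding `p ↦ (x ↦ b x (b (p⁻¹ x))⁻¹, p)`. -/
def i2 (g : Gadget S C) (B : Bdl S P) (b : B.X → C) (hb : IsTw g B b) : P →* KK g B where
  toFun p := ⟨⟨fun x => b x * (b (p⁻¹ • x))⁻¹, fun s x => by
    show b (s • x) * (b (p⁻¹ • s • x))⁻¹ = _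
    rw [B.comm, hb, hb]
    simp [mul_assoc]⟩, p⟩
  map_one' := by
    apply SemidirectProduct.ext
    · ext x
      show b x * (b ((1 : P)⁻¹ • x))⁻¹ = 1
      rw [inv_one, one_smul, mul_inv_cancel]
    · rfl
  map_mul' p q := by
    apply SemidirectProduct.ext
    · ext x
      show b x * (b ((p * q)⁻¹ • x))⁻¹ = (b x * (b (p⁻¹ • x))⁻¹) *
        (b (p⁻¹ • x) * (b (q⁻¹ • p⁻¹ • x))⁻¹)
      rw [mul_inv_rev, mul_smul]
      group
    · rfl

open Classical in
/-- functions supported on the `S`-orbit of `x`: value `act s c` at `s • x`. -/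
noncomputable def jx (g : Gadget S C) (B : Bdl S P) (x : B.X) : C →* EqF g B where
  toFun c := ⟨fun y => if h : ∃ s : S, s • x = y then g.act h.choose c else 1, fun s y => by
    show (if h : ∃ r : S, r • x = s • y then g.act h.choose c else 1) =
      g.act s (if h : ∃ r : S, r • x = y then g.act h.choose c else 1)
    by_cases h : ∃ r : S, r • x = y
    · obtain ⟨r, rfl⟩ := h
      have h1 : ∃ t : S, t • x = s • r • x := ⟨s * r, mul_smul s r x⟩
      have h2 : ∃ t : S, t • x = r • x := ⟨r, rfl⟩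
      rw [dif_pos h1, dif_pos h2]
      have e1 : h1.choose = s * r := by
        have this : h1.choose • x = (s * r) • x := by
          rw [mul_smul s r x]; exact h1.choose_spec
        have h3 : ((s * r)⁻¹ * h1.choose) • x = x := by
          rw [mul_smul, this, inv_smul_smul]
        have h4 := B.free _ _ h3
        exact (inv_mul_eq_one.1 h4).symm
      have e2 : h2.choose = r := by
        have := h2.choose_spec
        have h3 : (r⁻¹ * h2.choose) • x = x := by
          rw [mul_smul, this, inv_smul_smul]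
        have h4 := B.free _ _ h3
        exact (inv_mul_eq_one.1 h4).symm
      rw [e1, e2, map_mul]; rfl
    · have h1 : ¬ ∃ t : S, t • x = s • y := by
        rintro ⟨t, ht⟩
        exact h ⟨s⁻¹ * t, by rw [mul_smul, ht, inv_smul_smul]⟩
      rw [dif_neg h1, dif_neg h, map_one]⟩
  map_one' := by
    ext y
    show (if h : ∃ r : S, r • x = y then g.act h.choose (1 : C) else 1) = 1
    split_ifs <;> simp
  map_mul' c d := by
    ext y
    show (if h : ∃ r : S, r • x = y then g.act h.choose (c * d) else 1) =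
      (if h : ∃ r : S, r • x = y then g.act h.choose c else 1) *
      (if h : ∃ r : S, r • x = y then g.act h.choose d else 1)
    split_ifs <;> simp

theorem jx_apply (g : Gadget S C) (B : Bdl S P) (x : B.X) (c : C) (s : S) :
    (jx g B x c : B.X → C) (s • x) = g.act s c := by
  classical
  have h1 : ∃ t : S, t • x = s • x := ⟨s, rfl⟩
  have : (jx g B x c : B.X → C) (s • x) = g.act h1.choose c := dif_pos h1
  rw [this]
  have e2 : h1.choose = s := by
    have := h1.choose_spec
    have h3 : (s⁻¹ * h1.choose) • x = x := by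
      rw [mul_smul, this, inv_smul_smul]
    have h4 := B.free _ _ h3
    exact (inv_mul_eq_one.1 h4).symm
  rw [e2]

theorem jx_self (g : Gadget S C) (B : Bdl S P) (x : B.X) (c : C) :
    (jx g B x c : B.X → C) x = c := by
  have := jx_apply g B x c 1
  rw [one_smul, map_one] at this
  exact this

theorem jx_ne (g : Gadget S C) (B : Bdl S P) (x y : B.X) (c : C) (h : ∀ s : S, s • x ≠ y) :
    (jx g B x c : B.X → C) y = 1 := by
  classical
  have h1 : ¬ ∃ t : S, t • x = y := by
    rintro ⟨t, ht⟩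
    exact h t ht
  exact dif_neg h1

/-- the element `e = z^{(x₁)} (z^{(x₀)})⁻¹`. -/
noncomputable def ee (g : Gadget S C) (B : Bdl S P) (x₀ x₁ : B.X) : KK g B :=
  SemidirectProduct.inl (jx g B x₁ g.z * (jx g B x₀ g.z)⁻¹)

/-- the action of `K` on `X × F` for a homomorphism `θ : C → F`. -/
def Pm (g : Gadget S C) (B : Bdl S P) {F : Type} [Group F] (θ : C →* F) :
    KK g B →* Equiv.Perm (B.X × F) where
  toFun κ :=
    { toFun := fun y => (κ.right • y.1, θ ((κ.left : B.X → C) (κ.right • y.1)) * y.2)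
      invFun := fun y => (κ.right⁻¹ • y.1, (θ ((κ.left : B.X → C) y.1))⁻¹ * y.2)
      left_inv := fun y => by ext <;> simp
      right_inv := fun y => by ext <;> simp }
  map_one' := by
    ext y
    · show (1 : P) • y.1 = y.1
      rw [one_smul]
    · show θ 1 * y.2 = y.2
      rw [map_one, one_mul]
  map_mul' κ μ := by
    ext y
    · show (κ.right * μ.right) • y.1 = κ.right • μ.right • y.1
      rw [mul_smul]
    · show θ ((κ.left : B.X → C) ((κ.right * μ.right) • y.1) *
        (μ.left : B.X → C) (κ.right⁻¹ • ((κ.right * μ.right) • y.1))) * y.2 =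
        θ ((κ.left : B.X → C) (κ.right • μ.right • y.1)) *
          (θ ((μ.left : B.X → C) (μ.right • y.1)) * y.2)
      rw [mul_smul, inv_smul_smul, map_mul, mul_assoc]

theorem Pm_apply (g : Gadget S C) (B : Bdl S P) {F : Type} [Group F] (θ : C →* F) (κ : KK g B)
    (y : B.X × F) :
    Pm g B θ κ y = (κ.right • y.1, θ ((κ.left : B.X → C) (κ.right • y.1)) * y.2) := rfl

/-- `C → ZMod M` through `eZ`. -/
def thZ (g : Gadget S C) (M : ℕ) : C →* Multiplicative (ZMod M) :=
  (AddMonoidHom.toMultiplicative (Int.castAddHom (ZMod M))).comp g.eZ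

end Kgroup

/-! ### data for the unitary (`A`, `C` definitions above) -/

/-- `wd [g₁, ..., gₙ] = z t_{g₁}⁻¹ z t_{g₂}⁻¹ ⋯ z t_{gₙ}⁻¹`. -/
def wd (L : List D3) : C5 := (L.map fun g => FreeGroup.of 4 * (tt g)⁻¹).prod

/-- the coefficients, of modulus `1/3`. -/
noncomputable def kap (ω : ℂ) : D3 → ℂ
  | .r i => ω ^ (2 * i.val) / 3
  | .sr i => ω ^ (2 * i.val) / 3

/-- `cf ω p [g₁, ..., gₙ] = κ(p⁻¹ g₁) κ(g₁⁻¹ g₂) ⋯ κ(gₙ₋₁⁻¹ gₙ)`. -/
noncomputable def cf (ω : ℂ) : D3 → List D3 → ℂ
  | _, [] => 1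
  | p, g :: L => kap ω (p⁻¹ * g) * cf ω g L

/-- the permutation unitaries `π_s`. -/
noncomputable def ppi (s : D3) : l2 C5 →L[ℂ] l2 C5 := pmL (actM s).toEquiv

/-- the operator `V`. -/
noncomputable def VV (ω : ℂ) : l2 C5 →L[ℂ] l2 C5 :=
  ∑ f : D3, kap ω f • (lam (FreeGroup.of 4 * (tt f)⁻¹) * ppi f)

/-- the operators `λ(x_n)`. -/
noncomputable def XX (ω : ℂ) (n : ℕ) : l2 C5 →L[ℂ] l2 C5 :=
  ∑ L : Fin n → D3, cf ω 1 (List.ofFn L) • lam (wd (List.ofFn L))

/-! ### the base group -/

/-- generators of the free group of rank 4. -/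
def x4 (i : Fin 4) : FreeGroup (Fin 4) := FreeGroup.of i

/-- commutator. -/
def cm {G : Type} [Group G] (x y : G) : G := x * y * x⁻¹ * y⁻¹

/-- the embedding of `F2` generated by `[x₀,x₁]` and `[x₂,x₃]`. -/
def J0 : FreeGroup (Fin 2) →* FreeGroup (Fin 4) :=
  FreeGroup.lift ![cm (x4 0) (x4 1), cm (x4 2) (x4 3)]

/-! ### towers and limits -/

/-- one step of the tower. -/
def StepRel (S : Type) [Group S] {P P' : Type} [Group P] [Group P'] (J : F2 →* P) (G : Set P)
    (G' : Set P') (e1 e2 : P →* P') : Prop :=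
  Good S (e2.comp J) G' ∧ Function.Injective e1 ∧ Function.Injective e2 ∧
  (∀ p, ∃ h, e1 p = h * e2 p * h⁻¹) ∧ (∃ z, z ≠ 1 ∧ ∀ p, z * e1 p = e1 p * z) ∧
  (∀ y ∈ G, e2 y ∈ G') ∧
  (∀ (H : Type) [Group H] (j : P' →* H), Function.Injective j →
    ∃ W ∈ CRs (Set.range j), W ∈ unitary (l2 H →L[ℂ] l2 H) ∧
      ∀ p : P, W * lam (j (e1 p)) * star W = lam (j (e2 p)))

/-- iterated maps of a sequence of groups. -/
def push {P : ℕ → Type} [∀ n, Group (P n)] (e : ∀ n, P n →* P (n + 1)) (m : ℕ) :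
    ∀ d : ℕ, P m →* P (m + d)
  | 0 => MonoidHom.id (P m)
  | d + 1 => (e (m + d)).comp (push e m d)

structure Tower (S : Type) [Group S] where
  P : ℕ → Type
  [grp : ∀ n, Group (P n)]
  J : ∀ n, F2 →* P n
  G : ∀ n, Set (P n)
  e1 : ∀ n, P n →* P (n + 1)
  e2 : ∀ n, P n →* P (n + 1)
  good : ∀ n, Good S (J n) (G n)
  hJ : ∀ n, J (n + 1) = (e2 n).comp (J n)
  rel : ∀ n, StepRel S (J n) (G n) (G (n + 1)) (e1 n) (e2 n)
  task : ∀ (m : ℕ) (x y : P m), x ≠ 1 → y ∈ G m →
    ∃ d, push e2 m d y ∈ Subgroup.normalClosure {push e2 m d x}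

attribute [instance] Tower.grp

/-- a direct limit of a sequence of groups. -/
structure Lim {P : ℕ → Type} [∀ n, Group (P n)] (e : ∀ n, P n →* P (n + 1)) where
  Γ : Type
  [grp : Group Γ]
  j : ∀ n, P n →* Γ
  inj : ∀ n, Function.Injective (j n)
  comm : ∀ n p, j (n + 1) (e n p) = j n p
  surj : ∀ x : Γ, ∃ n p, j n p = x
  desc : ∀ (U : Type) [Group U] (θ : ∀ n, P n →* U), (∀ n p, θ (n + 1) (e n p) = θ n p) →
    ∃ Θ : Γ →* U, ∀ n p, Θ (j n p) = θ n p

attribute [instance] Lim.grp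

end Pool.CS
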