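import Pool.Agent.Helper694.CS.Defs
set_option autoImplicit false

namespace Pool.CS


namespace N_J0_inj

/-- swap the first two generators -/
def tt : MulAut (FreeGroup (Fin 4)) := FreeGroup.freeGroupCongr (Equiv.swap 0 1)

/-- swap the last two generators -/
def ss : MulAut (FreeGroup (Fin 4)) := FreeGroup.freeGroupCongr (Equiv.swap 2 3)

/-- the target of the test homomorphism -/
abbrev HH := SemidirectProduct (FreeGroup (Fin 4)) (MulAut (FreeGroup (Fin 4)))
  (MonoidHom.id (MulAut (FreeGroup (Fin 4))))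

/-- the test homomorphism -/
def phi : FreeGroup (Fin 4) →* HH :=
  FreeGroup.lift ![SemidirectProduct.inl (x4 0), SemidirectProduct.inr tt,
    SemidirectProduct.inl (x4 2), SemidirectProduct.inr ss]

/-- the composition -/
def Kk : FreeGroup (Fin 2) →* FreeGroup (Fin 4) :=
  FreeGroup.lift ![x4 0 * (x4 1)⁻¹, x4 2 * (x4 3)⁻¹]

/-- the retraction -/
def Rr : FreeGroup (Fin 4) →* FreeGroup (Fin 2) :=
  FreeGroup.lift ![FreeGroup.of 0, 1, FreeGroup.of 1, 1]

theorem cm_semi (n : FreeGroup (Fin 4)) (g : MulAut (FreeGroup (Fin 4))) :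
    cm (SemidirectProduct.inl n : HH) (SemidirectProduct.inr g) =
      SemidirectProduct.inl (n * (g n)⁻¹) := by
  unfold cm
  have h := SemidirectProduct.inl_aut (φ := MonoidHom.id (MulAut (FreeGroup (Fin 4)))) g n⁻¹
  rw [map_inv SemidirectProduct.inl n, map_inv SemidirectProduct.inr g] at h
  rw [mul_assoc (SemidirectProduct.inl n * SemidirectProduct.inr g), mul_assoc, ← mul_assoc _ _ (SemidirectProduct.inr g)⁻¹, ← h, ← map_mul]
  congr 2
  exact map_inv g n

theorem cm_phi (a b : FreeGroup (Fin 4)) : phi (cm a b) = cm (phi a) (phi b) := by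
  simp [cm]

theorem phi_J0 (w : FreeGroup (Fin 2)) : phi (J0 w) = SemidirectProduct.inl (Kk w) := by
  have h : phi.comp J0 = (SemidirectProduct.inl : FreeGroup (Fin 4) →* HH).comp Kk := by
    apply FreeGroup.ext_hom
    intro i
    fin_cases i
    · have e1 : J0 (FreeGroup.of 0) = cm (x4 0) (x4 1) := by simp [J0]
      have e2 : phi (x4 0) = SemidirectProduct.inl (x4 0) := by simp [phi, x4]
      have e3 : phi (x4 1) = SemidirectProduct.inr tt := by simp [phi, x4]
      have e4 : tt (x4 0) = x4 1 := by simp [tt, x4]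
      have e5 : Kk (FreeGroup.of 0) = x4 0 * (x4 1)⁻¹ := by simp [Kk]
      show phi (J0 (FreeGroup.of 0)) = SemidirectProduct.inl (Kk (FreeGroup.of 0))
      rw [e1, cm_phi, e2, e3, cm_semi, e4, e5]
    · have e1 : J0 (FreeGroup.of 1) = cm (x4 2) (x4 3) := by simp [J0]
      have e2 : phi (x4 2) = SemidirectProduct.inl (x4 2) := by simp [phi, x4]
      have e3 : phi (x4 3) = SemidirectProduct.inr ss := by simp [phi, x4]
      have e4 : ss (x4 2) = x4 3 := by simp [ss, x4]
      have e5 : Kk (FreeGroup.of 1) = x4 2 * (x4 3)⁻¹ := by simp [Kk]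
      show phi (J0 (FreeGroup.of 1)) = SemidirectProduct.inl (Kk (FreeGroup.of 1))
      rw [e1, cm_phi, e2, e3, cm_semi, e4, e5]
  exact DFunLike.congr_fun h w

theorem Rr_Kk (w : FreeGroup (Fin 2)) : Rr (Kk w) = w := by
  have h : Rr.comp Kk = MonoidHom.id _ := by
    apply FreeGroup.ext_hom
    intro i
    fin_cases i
    · show Rr (Kk (FreeGroup.of 0)) = FreeGroup.of 0
      simp [Rr, Kk, x4]
    · show Rr (Kk (FreeGroup.of 1)) = FreeGroup.of 1
      simp [Rr, Kk, x4]
  exact DFunLike.congr_fun h w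

theorem J0_inj : Function.Injective J0 := by
  intro a b hab
  have h1 := phi_J0 a
  rw [hab, phi_J0] at h1
  have h2 := SemidirectProduct.inl_injective h1
  rw [← Rr_Kk a, ← Rr_Kk b, h2]

end N_J0_inj

alias J0_inj := N_J0_inj.J0_inj

end Pool.CS
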