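import Pool.Agent.Helper694.CS.Defs
set_option autoImplicit false

namespace Pool.CS


namespace N_base_alt

open Equiv Equiv.Perm in
lemma aux (n : ℕ) (hn : 3 ≤ n) (hodd : Odd (n + 2)) :
    ∃ a b c d : Equiv.Perm (Fin (n + 2)),
      Subgroup.closure {cm a b, cm c d} = alternatingGroup (Fin (n + 2)) := by
  classical
  obtain ⟨c, hc⟩ : ∃ c : Equiv.Perm (Fin (n + 2)), c = finRotate (n + 2) := ⟨_, rfl⟩
  have hcyc : c.IsCycle := by rw [hc]; exact isCycle_finRotate
  have hsupp : c.support = Finset.univ := by rw [hc]; exact support_finRotate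
  have hc0 : c 0 = 1 := by
    rw [hc, finRotate_apply]; simp
  have hc1 : c 1 = 2 := by
    rw [hc, finRotate_apply]; rfl
  have hord : c ^ (n + 2) = 1 := by
    have h1 := hcyc.orderOf
    rw [hsupp, Finset.card_univ, Fintype.card_fin] at h1
    have h2 := pow_orderOf_eq_one c
    rwa [h1] at h2
  obtain ⟨s, hs⟩ : ∃ s : Equiv.Perm (Fin (n + 2)), s = swap 0 1 := ⟨_, rfl⟩
  obtain ⟨r, hr⟩ : ∃ r : Equiv.Perm (Fin (n + 2)), r = swap 1 2 := ⟨_, rfl⟩
  have hsr : c * s * c⁻¹ = r := by
    rw [hs, hr, ← hc0, ← hc1, hc0, hc1, ← swap_apply_apply, hc0, hc1]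
  have hss : s * s = 1 := by rw [hs]; exact swap_mul_self _ _
  have hrr : r * r = 1 := by rw [hr]; exact swap_mul_self _ _
  have hs' : s⁻¹ = s := by rw [hs]; exact swap_inv _ _
  have hr' : r⁻¹ = r := by rw [hr]; exact swap_inv _ _
  have hu3 : IsThreeCycle (s * r) := by
    rw [hs, hr, swap_comm 0 1]
    apply isThreeCycle_swap_mul_swap_same
    · intro h
      have := congrArg Fin.val h
      simp at this
    · intro h
      have := congrArg Fin.val h
      have h2 : 2 % (n + 2) = 2 := Nat.mod_eq_of_lt (by omega)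
      simp [Fin.val_two, h2] at this
    · intro h
      have := congrArg Fin.val h
      have h2 : 2 % (n + 2) = 2 := Nat.mod_eq_of_lt (by omega)
      simp [Fin.val_two, h2] at this
  have hu1 : (s * r) ^ 3 = 1 := by
    rw [← hu3.orderOf]; exact pow_orderOf_eq_one _
  have hrev : c * Fin.revPerm * c = Fin.revPerm := by
    ext x
    simp only [Equiv.Perm.coe_mul, Function.comp_apply, hc, finRotate_apply, Fin.revPerm_apply]
    have h1 : Fin.rev (x + 1) = Fin.rev x - 1 := by
      exact Fin.rev_add _ _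
    rw [h1, sub_add_cancel]
  have hcomm1 : cm s r = (s * r) ^ 2 := by
    rw [cm, hs', hr', pow_two]; group
  have hcomm2 : cm c Fin.revPerm = c ^ 2 := by
    rw [cm, pow_two]
    have : Fin.revPerm * c⁻¹ * (Fin.revPerm)⁻¹ = c := by
      rw [mul_inv_eq_iff_eq_mul, mul_inv_eq_iff_eq_mul]
      exact hrev.symm
    rw [mul_assoc, mul_assoc, ← mul_assoc (Fin.revPerm), this]
  refine ⟨s, r, c, Fin.revPerm, ?_⟩
  rw [hcomm1, hcomm2]
  set H : Subgroup (Equiv.Perm (Fin (n + 2))) := Subgroup.closure {(s * r) ^ 2, c ^ 2} with hH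
  have hm1 : (s * r) ^ 2 ∈ H := Subgroup.subset_closure (by simp)
  have hm2 : c ^ 2 ∈ H := Subgroup.subset_closure (by simp)
  have hu : s * r ∈ H := by
    have h1 : s * r = ((s * r) ^ 2) ^ 2 := by
      rw [← pow_mul, show 2 * 2 = 3 + 1 from rfl, pow_add, hu1, one_mul, pow_one]
    rw [h1]; exact H.pow_mem hm1 2
  have hcH : c ∈ H := by
    obtain ⟨k, hk⟩ := hodd
    have h1 : c = (c ^ 2) ^ (k + 1) := by
      rw [← pow_mul, show 2 * (k + 1) = (n + 2) + 1 by omega, pow_add, hord, one_mul, pow_one]
    rw [h1]; exact H.pow_mem hm2 _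
  apply le_antisymm
  · rw [hH, Subgroup.closure_le]
    intro x hx
    simp only [Set.mem_insert_iff, Set.mem_singleton_iff] at hx
    rw [SetLike.mem_coe, mem_alternatingGroup]
    rcases hx with rfl | rfl
    · rw [map_pow]; exact Int.units_sq _
    · rw [map_pow]; exact Int.units_sq _
  · have hA : ∀ h ∈ H, s * h * s⁻¹ ∈ H := by
      intro h hh
      rw [hH] at hh
      induction hh using Subgroup.closure_induction with
      | mem x hx =>
        simp only [Set.mem_insert_iff, Set.mem_singleton_iff] at hx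
        rcases hx with rfl | rfl
        · have h1 : s * (s * r) ^ 2 * s⁻¹ = (s * r)⁻¹ ^ 2 := by
            rw [mul_inv_rev, hs', hr', pow_two, pow_two]
            calc s * (s * r * (s * r)) * s = (s * s) * r * s * r * s := by group
              _ = r * s * (r * s) := by rw [hss]; group
          rw [h1]; exact H.pow_mem (H.inv_mem hu) 2
        · have h1 : s * c ^ 2 * s⁻¹ = ((s * r) * c) ^ 2 := by
            have h2 : r * c = c * s := by rw [← hsr]; group
            rw [mul_assoc s r c, h2, hs', pow_two, pow_two]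
            calc s * (c * c) * s = s * c * (1 * c * s) := by group
              _ = s * (c * s) * (s * (c * s)) := by rw [← hss]; group
          rw [h1]; exact H.pow_mem (H.mul_mem hu hcH) 2
      | one => simp
      | mul x y _ _ hx hy =>
        have h1 : s * (x * y) * s⁻¹ = (s * x * s⁻¹) * (s * y * s⁻¹) := by group
        rw [h1]; exact H.mul_mem hx hy
      | inv x _ hx =>
        have h1 : s * x⁻¹ * s⁻¹ = (s * x * s⁻¹)⁻¹ := by group
        rw [h1]; exact H.inv_mem hx
    have hnorm : Subgroup.normalizer (H : Set (Equiv.Perm (Fin (n + 2)))) = ⊤ := by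
      rw [eq_top_iff, ← closure_cycle_adjacent_swap hcyc hsupp 0, Subgroup.closure_le]
      intro x hx
      simp only [Set.mem_insert_iff, Set.mem_singleton_iff] at hx
      rcases hx with rfl | rfl
      · exact Subgroup.le_normalizer hcH
      · rw [hc0, ← hs, SetLike.mem_coe, Subgroup.mem_normalizer_iff]
        intro h
        refine ⟨hA h, fun h1 => ?_⟩
        have h2 := hA _ h1
        have h3 : s * (s * h * s⁻¹) * s⁻¹ = (s * s) * h * (s * s)⁻¹ := by group
        rw [h3, hss] at h2
        simpa using h2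
    have hN : H.Normal := Subgroup.normalizer_eq_top_iff.1 hnorm
    rw [← closure_three_cycles_eq_alternating, Subgroup.closure_le]
    intro x hx
    have hx' : IsThreeCycle x := hx
    have hconj : IsConj (s * r) x := by
      rw [isConj_iff_cycleType_eq]
      rw [IsThreeCycle] at hx' hu3
      rw [hx', hu3]
    obtain ⟨g, hg⟩ := isConj_iff.1 hconj
    rw [← hg]
    exact hN.conj_mem _ hu _

/-- a representation of the free group of rank 4 with image of `J0` the alternating group. -/
theorem base_alt (m : ℕ) (hm : 5 ≤ m) (hodd : Odd m) :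
    ∃ ψ : FreeGroup (Fin 4) →* Equiv.Perm (Fin m),
      Subgroup.closure {ψ (cm (x4 0) (x4 1)), ψ (cm (x4 2) (x4 3))} =
        alternatingGroup (Fin m) := by
  obtain ⟨n, rfl⟩ : ∃ n, m = n + 2 := ⟨m - 2, by omega⟩
  obtain ⟨a, b, c, d, h⟩ := aux n (by omega) hodd
  refine ⟨FreeGroup.lift ![a, b, c, d], ?_⟩
  rw [← h]
  simp [cm, x4]

end N_base_alt

alias base_alt := N_base_alt.base_alt

end Pool.CS
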