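import Pool.Agent.Helper694.CS.Defs
import Pool.Agent.Helper694.CS.J_base_alt
set_option autoImplicit false

namespace Pool.CS


namespace N_base_bun

theorem exists_emb (S : Type) [Group S] [Finite S] (m : ℕ) (hm : 2 * Nat.card S ≤ m) :
    ∃ e : S →* Equiv.Perm (Fin m), Function.Injective e ∧ ∀ s, e s ∈ alternatingGroup (Fin m) := by
  classical
  have := Fintype.ofFinite S
  have hcard : Fintype.card (S ⊕ S) ≤ Fintype.card (Fin m) := by
    rw [Fintype.card_sum, Fintype.card_fin, ← Nat.card_eq_fintype_card]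
    omega
  obtain ⟨ι⟩ := Function.Embedding.nonempty_of_card_le hcard
  have hLinj : Function.Injective (MulAction.toPermHom S S) := MulAction.toPerm_injective
  refine ⟨(Equiv.Perm.viaEmbeddingHom ι).comp ((Equiv.Perm.sumCongrHom S S).comp
    ((MulAction.toPermHom S S).prod (MulAction.toPermHom S S))), ?_, ?_⟩
  · refine (Equiv.Perm.viaEmbeddingHom_injective ι).comp
      (Equiv.Perm.sumCongrHom_injective.comp ?_)
    intro a b hab
    exact hLinj (Prod.ext_iff.1 hab).1
  · intro s
    rw [Equiv.Perm.mem_alternatingGroup]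
    show Equiv.Perm.sign (Equiv.Perm.viaEmbedding (Equiv.Perm.sumCongr
      (MulAction.toPermHom S S s) (MulAction.toPermHom S S s)) ι) = 1
    unfold Equiv.Perm.viaEmbedding
    rw [Equiv.Perm.sign_extendDomain, Equiv.Perm.sign_sumCongr, Int.units_mul_self]

/-- the bundle. -/
noncomputable def bdl (S : Type) [Group S] (m : ℕ) (ψ : FreeGroup (Fin 4) →* Equiv.Perm (Fin m))
    (e : S →* Equiv.Perm (Fin m)) (he : Function.Injective e) : Bdl S (FreeGroup (Fin 4)) where
  X := Equiv.Perm (Fin m)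
  ne := ⟨1⟩
  actP := MulAction.compHom (Equiv.Perm (Fin m)) ψ
  actS :=
    { smul := fun s x => x * (e s)⁻¹
      one_smul := fun x => by
        show x * (e 1)⁻¹ = x
        rw [map_one, inv_one, mul_one]
      mul_smul := fun s t x => by
        show x * (e (s * t))⁻¹ = x * (e t)⁻¹ * (e s)⁻¹
        rw [map_mul, mul_inv_rev, mul_assoc] }
  comm p s x := by
    show ψ p * (x * (e s)⁻¹) = ψ p * x * (e s)⁻¹
    rw [mul_assoc]
  free s x h := by
    have h1 : x * (e s)⁻¹ = x := h
    have h2 : (e s)⁻¹ = 1 := mul_eq_left.1 h1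
    have h3 : e s = 1 := inv_eq_one.1 h2
    exact he (by rw [h3, map_one])

theorem range_psiJ (m : ℕ) (ψ : FreeGroup (Fin 4) →* Equiv.Perm (Fin m)) :
    (ψ.comp J0).range = Subgroup.closure {ψ (cm (x4 0) (x4 1)), ψ (cm (x4 2) (x4 3))} := by
  have h1 : ψ.comp J0 = FreeGroup.lift ![ψ (cm (x4 0) (x4 1)), ψ (cm (x4 2) (x4 3))] := by
    refine FreeGroup.ext_hom _ _ fun i => ?_
    unfold J0
    rw [MonoidHom.comp_apply, FreeGroup.lift_apply_of, FreeGroup.lift_apply_of]
    fin_cases i <;> rfl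
  rw [h1, FreeGroup.range_lift_eq_closure]
  congr 1
  ext y
  simp only [Set.mem_range, Set.mem_insert_iff, Set.mem_singleton_iff]
  constructor
  · rintro ⟨i, rfl⟩
    fin_cases i
    · exact Or.inl rfl
    · exact Or.inr rfl
  · rintro (rfl | rfl)
    · exact ⟨0, rfl⟩
    · exact ⟨1, rfl⟩

theorem base_bun (S : Type) [Group S] [Finite S] : Bun S J0 := by
  classical
  intro q
  set m : ℕ := 2 * (Nat.card S + Nat.card q.Q + 2) + 1 with hm
  obtain ⟨ψ, hψ⟩ := base_alt m (by omega) ⟨_, rfl⟩
  obtain ⟨e, heinj, healt⟩ := exists_emb S m (by omega)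
  refine ⟨bdl S m ψ e heinj, ?_⟩
  intro x s
  change Equiv.Perm (Fin m) at x
  have hrange : (ψ.comp J0).range = alternatingGroup (Fin m) := by rw [range_psiJ, hψ]
  set θ : FreeGroup (Fin 2) →* alternatingGroup (Fin m) :=
    (ψ.comp J0).codRestrict (alternatingGroup (Fin m))
      (fun p => by rw [← hrange]; exact ⟨p, rfl⟩) with hθ
  have hθs : Function.Surjective θ := by
    rintro ⟨y, hy⟩
    rw [← hrange] at hy
    obtain ⟨p, hp⟩ := hy
    exact ⟨p, Subtype.ext hp⟩
  set κ : FreeGroup (Fin 2) →* q.Q := q.φ.comp J0 with hκ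
  have : IsSimpleGroup (alternatingGroup (Fin m)) := alternatingGroup.isSimpleGroup (by
    rw [Nat.card_eq_fintype_card, Fintype.card_fin]; omega)
  have hN : (κ.ker.map θ).Normal := Subgroup.Normal.map (inferInstance) θ hθs
  rcases hN.eq_bot_or_eq_top with hbot | htop
  · exfalso
    rw [Subgroup.map_eq_bot_iff] at hbot
    have h1 : θ.ker.index = Nat.card (alternatingGroup (Fin m)) := by
      rw [Subgroup.index_ker, MonoidHom.range_eq_top.2 hθs]
      exact Nat.card_congr Subgroup.topEquiv.toEquiv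
    have h2 : κ.ker.index = Nat.card κ.range := Subgroup.index_ker κ
    have h3 : Nat.card κ.range ≤ Nat.card q.Q := Subgroup.card_le_card_group _
    have h4 : θ.ker.index ∣ κ.ker.index := Subgroup.index_dvd_of_le hbot
    have h5 : κ.ker.index ≠ 0 := by
      rw [h2]
      exact Nat.card_pos.ne'
    have h6 := Nat.le_of_dvd (Nat.pos_of_ne_zero h5) h4
    have : Nontrivial (Fin m) := Fin.nontrivial_iff_two_le.2 (by omega)
    have h7 := two_mul_nat_card_alternatingGroup (α := Fin m)
    rw [Nat.card_perm, Nat.card_eq_fintype_card (α := Fin m), Fintype.card_fin] at h7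
    have h8 := Nat.self_le_factorial m
    omega
  · have hx : x * (e s)⁻¹ * x⁻¹ ∈ alternatingGroup (Fin m) := by
      have : (alternatingGroup (Fin m)).Normal := inferInstance
      exact this.conj_mem _ (inv_mem (healt s)) x
    have h1 : (⟨x * (e s)⁻¹ * x⁻¹, hx⟩ : alternatingGroup (Fin m)) ∈ κ.ker.map θ := by
      rw [htop]; trivial
    obtain ⟨p, hp, hpx⟩ := h1
    refine ⟨p, hp, ?_⟩
    show ψ (J0 p) * x = x * (e s)⁻¹
    have h2 : ψ (J0 p) = x * (e s)⁻¹ * x⁻¹ := congrArg Subtype.val hpx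
    rw [h2, inv_mul_cancel_right]

end N_base_bun

alias base_bun := N_base_bun.base_bun

end Pool.CS
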