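import Pool.Agent.Helper694.CS.Defs
set_option autoImplicit false

namespace Pool.CS
namespace N_free_comm2

open FreeGroup (toWord_eq_nil_iff isReduced_toWord mk toWord_mul toWord_mk)

theorem center_free {β : Type} (a b : β) (hab : a ≠ b) (c : FreeGroup β) (hc : ∀ x, c * x = x * c) :
    c = 1 := by
  classical
  by_contra hne
  have hw : c.toWord ≠ [] := fun h => hne (toWord_eq_nil_iff.1 h)
  obtain ⟨⟨x, e⟩, w', hw'⟩ := List.exists_cons_of_ne_nil hw
  obtain ⟨d, hd⟩ : ∃ d : β, d ≠ x := by
    by_cases h : a = x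
    · exact ⟨b, fun hb => hab (h.trans hb.symm)⟩
    · exact ⟨a, h⟩
  obtain ⟨w1, ⟨y, f⟩, hw1⟩ : ∃ w1 l, c.toWord = w1 ++ [l] :=
    ⟨c.toWord.dropLast, c.toWord.getLast hw, (List.dropLast_append_getLast hw).symm⟩
  obtain ⟨ε, hε⟩ : ∃ ε : Bool, y = d → f = ε := ⟨f, fun _ => rfl⟩
  have red1 : FreeGroup.IsReduced ((d, ε) :: c.toWord) := by
    rw [hw']
    refine List.IsChain.cons_cons ?_ ?_
    · intro h; exact absurd h hd
    · rw [← hw']; exact isReduced_toWord
  have red2 : FreeGroup.IsReduced (c.toWord ++ [(d, ε)]) := by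
    have h0 : FreeGroup.IsReduced c.toWord := isReduced_toWord
    unfold FreeGroup.IsReduced at h0 ⊢
    rw [List.isChain_append]
    refine ⟨h0, List.isChain_singleton _, ?_⟩
    intro p hp q hq
    rw [hw1] at hp
    simp at hp hq
    subst hp; subst hq
    exact hε
  have h1 : (c * mk [(d, ε)]).toWord = c.toWord ++ [(d, ε)] := by
    rw [toWord_mul]
    have : (mk [(d, ε)] : FreeGroup β).toWord = [(d, ε)] := by
      rw [toWord_mk]; rfl
    rw [this, red2.reduce_eq]
  have h2 : (mk [(d, ε)] * c).toWord = (d, ε) :: c.toWord := by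
    rw [toWord_mul]
    have : (mk [(d, ε)] : FreeGroup β).toWord = [(d, ε)] := by
      rw [toWord_mk]; rfl
    rw [this]
    exact red1.reduce_eq
  rw [hc, h2, hw'] at h1
  have h3 := List.head_eq_of_cons_eq h1
  exact hd (congrArg Prod.fst h3)

theorem free_comm2 (α : Type) (g u v : FreeGroup α) (hg : g ≠ 1) (h1 : g * u = u * g)
    (h2 : g * v = v * g) : u * v = v * u := by
  classical
  set H := Subgroup.closure ({g, u, v} : Set (FreeGroup α)) with hH
  have hgH : g ∈ H := Subgroup.subset_closure (by simp)
  have huH : u ∈ H := Subgroup.subset_closure (by simp)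
  have hvH : v ∈ H := Subgroup.subset_closure (by simp)
  have hcent : ∀ x ∈ H, g * x = x * g := by
    intro x hx
    have : H ≤ Subgroup.centralizer {g} := by
      rw [hH, Subgroup.closure_le]
      intro y hy
      rw [SetLike.mem_coe, Subgroup.mem_centralizer_singleton_iff]
      rcases hy with rfl | rfl | rfl
      · rfl
      · exact h1.symm
      · exact h2.symm
    have h3 := this hx
    rw [Subgroup.mem_centralizer_singleton_iff] at h3
    exact h3.symm
  have hsub : ∀ a b : IsFreeGroup.Generators H, a = b := by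
    intro a b
    by_contra hab
    let E := IsFreeGroup.mulEquiv H
    have hc := center_free a b hab (E.symm ⟨g, hgH⟩) (fun x => by
      apply E.injective
      rw [map_mul, map_mul, MulEquiv.apply_symm_apply]
      exact Subtype.ext (hcent _ (E x).2))
    have : (⟨g, hgH⟩ : H) = 1 := by
      rw [← E.apply_symm_apply ⟨g, hgH⟩, hc, map_one]
    exact hg (congrArg Subtype.val this)
  have hcomm : ∀ x y : FreeGroup (IsFreeGroup.Generators H), x * y = y * x := by
    rcases isEmpty_or_nonempty (IsFreeGroup.Generators H) with hE | ⟨⟨a⟩⟩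
    · intro x y
      exact Subsingleton.elim _ _
    · have hz : ∀ w : FreeGroup (IsFreeGroup.Generators H), w ∈ Subgroup.zpowers (FreeGroup.of a) := by
        intro w
        have h1 : Subgroup.closure (Set.range (FreeGroup.of : IsFreeGroup.Generators H → _)) ≤
            Subgroup.zpowers (FreeGroup.of a) := by
          rw [Subgroup.closure_le]
          rintro _ ⟨c, rfl⟩
          rw [hsub c a]
          exact Subgroup.mem_zpowers _
        rw [FreeGroup.closure_range_of] at h1
        exact h1 (Subgroup.mem_top _)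
      intro x y
      obtain ⟨m, rfl⟩ := Subgroup.mem_zpowers_iff.1 (hz x)
      obtain ⟨n, rfl⟩ := Subgroup.mem_zpowers_iff.1 (hz y)
      rw [← zpow_add, ← zpow_add, add_comm]
  have key := hcomm ((IsFreeGroup.mulEquiv H).symm ⟨u, huH⟩) ((IsFreeGroup.mulEquiv H).symm ⟨v, hvH⟩)
  rw [← map_mul, ← map_mul] at key
  have := (IsFreeGroup.mulEquiv H).symm.injective key
  exact congrArg Subtype.val this

end N_free_comm2

alias free_comm2 := N_free_comm2.free_comm2

end Pool.CS
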