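import Pool.Agent.Helper694.CS.Defs
set_option autoImplicit false

namespace Pool.CS
namespace N_free_rf

theorem ext_rel {X : Type} [Finite X] (R : X → X → Prop)
    (h1 : ∀ j k k', R j k → R j k' → k = k') (h2 : ∀ j j' k, R j k → R j' k → j = j') :
    ∃ σ : Equiv.Perm X, ∀ j k, R j k → σ j = k := by
  classical
  haveI := Fintype.ofFinite X
  let e : {j // ∃ k, R j k} ≃ {k // ∃ j, R j k} :=
    { toFun := fun j => ⟨j.2.choose, ⟨j.1, j.2.choose_spec⟩⟩
      invFun := fun k => ⟨k.2.choose, ⟨k.1, k.2.choose_spec⟩⟩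
      left_inv := fun j => Subtype.ext (h2 _ _ _ (Exists.choose_spec (p := fun i => R i j.2.choose)
        ⟨j.1, j.2.choose_spec⟩) j.2.choose_spec)
      right_inv := fun k => Subtype.ext (h1 _ _ _ (Exists.choose_spec (p := fun i => R k.2.choose i)
        ⟨k.1, k.2.choose_spec⟩) k.2.choose_spec) }
  refine ⟨e.extendSubtype, fun j k hjk => ?_⟩
  rw [Equiv.extendSubtype_apply_of_mem e j ⟨k, hjk⟩]
  exact h1 j _ _ (Exists.choose_spec (p := fun i => R j i) ⟨k, hjk⟩) hjk

theorem free_rf (α : Type) : RF (FreeGroup α) := by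
  classical
  intro x hx
  have hw : x.toWord ≠ [] := fun h => hx (FreeGroup.toWord_eq_nil_iff.1 h)
  obtain ⟨w, hwdef⟩ : ∃ w, w = x.toWord := ⟨_, rfl⟩
  rw [← hwdef] at hw
  have hred : FreeGroup.IsReduced w := by rw [hwdef]; exact FreeGroup.isReduced_toWord
  have hadj : ∀ i (h : i + 1 < w.length), (w[i]'(by omega)).1 = (w[i+1]).1 →
      (w[i]'(by omega)).2 = (w[i+1]).2 := by
    intro i h
    exact (List.isChain_iff_getElem.1 hred) i h
  obtain ⟨n, hn⟩ : ∃ n, n = w.length := ⟨_, rfl⟩
  have hn1 : 1 ≤ n := by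
    rw [hn]; exact List.length_pos_iff.2 hw
  let R : α → Fin (n+1) → Fin (n+1) → Prop := fun a j k =>
    (∃ i, ∃ h : i < w.length, w[i] = (a, true) ∧ j.val = i + 1 ∧ k.val = i) ∨
    (∃ i, ∃ h : i < w.length, w[i] = (a, false) ∧ j.val = i ∧ k.val = i + 1)
  have hR1 : ∀ a j k k', R a j k → R a j k' → k = k' := by
    intro a j k k' h1 h2
    apply Fin.ext
    rcases h1 with ⟨i, hi, e1, e2, e3⟩ | ⟨i, hi, e1, e2, e3⟩ <;>
    rcases h2 with ⟨i', hi', e1', e2', e3'⟩ | ⟨i', hi', e1', e2', e3'⟩
    · omega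
    · exfalso
      have : i' = i + 1 := by omega
      subst this
      have h3 := hadj i hi' (by rw [e1, e1'])
      rw [e1, e1'] at h3
      exact absurd h3 (by simp)
    · exfalso
      have : i = i' + 1 := by omega
      subst this
      have h3 := hadj i' hi (by rw [e1, e1'])
      rw [e1, e1'] at h3
      exact absurd h3 (by simp)
    · omega
  have hR2 : ∀ a j j' k, R a j k → R a j' k → j = j' := by
    intro a j j' k h1 h2
    apply Fin.ext
    rcases h1 with ⟨i, hi, e1, e2, e3⟩ | ⟨i, hi, e1, e2, e3⟩ <;>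
    rcases h2 with ⟨i', hi', e1', e2', e3'⟩ | ⟨i', hi', e1', e2', e3'⟩
    · omega
    · exfalso
      have : i = i' + 1 := by omega
      subst this
      have h3 := hadj i' hi (by rw [e1, e1'])
      rw [e1, e1'] at h3
      exact absurd h3 (by simp)
    · exfalso
      have : i' = i + 1 := by omega
      subst this
      have h3 := hadj i hi' (by rw [e1, e1'])
      rw [e1, e1'] at h3
      exact absurd h3 (by simp)
    · omega
  choose σ hσ using fun a => ext_rel (R a) (hR1 a) (hR2 a)
  have key : ∀ d i, i + d = n → ∀ (h : i < n + 1),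
      (FreeGroup.lift σ (FreeGroup.mk (w.drop i))) (Fin.last n) = ⟨i, h⟩ := by
    intro d
    induction d with
    | zero =>
      intro i hi h
      have : w.drop i = [] := List.drop_eq_nil_of_le (by omega)
      rw [this]
      show (FreeGroup.lift σ 1) (Fin.last n) = _
      rw [map_one]
      apply Fin.ext
      show n = i
      omega
    | succ d ih =>
      intro i hi h
      have hi' : i < w.length := by omega
      rw [List.drop_eq_getElem_cons hi']
      have e1 : (FreeGroup.mk (w[i] :: w.drop (i+1)) : FreeGroup α) =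
          FreeGroup.mk [w[i]] * FreeGroup.mk (w.drop (i+1)) := by
        rw [FreeGroup.mul_mk]; rfl
      rw [e1, map_mul, Equiv.Perm.mul_apply, ih (i+1) (by omega) (by omega)]
      obtain ⟨⟨a, b⟩, hab⟩ : ∃ l, l = w[i] := ⟨_, rfl⟩
      rw [← hab]
      cases b with
      | true =>
        have : (FreeGroup.lift σ (FreeGroup.mk [(a, true)])) = σ a := FreeGroup.lift_apply_of
        rw [this]
        exact hσ a _ _ (Or.inl ⟨i, hi', hab.symm, rfl, rfl⟩)
      | false =>
        have : (FreeGroup.lift σ (FreeGroup.mk [(a, false)])) = (σ a)⁻¹ := by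
          have e2 : (FreeGroup.mk [(a, false)] : FreeGroup α) = (FreeGroup.of a)⁻¹ := rfl
          rw [e2, map_inv, FreeGroup.lift_apply_of]
        rw [this, Equiv.Perm.inv_eq_iff_eq]
        exact (hσ a ⟨i, h⟩ ⟨i+1, by omega⟩ (Or.inr ⟨i, hi', hab.symm, rfl, rfl⟩)).symm
  refine ⟨⟨Equiv.Perm (Fin (n+1)), FreeGroup.lift σ⟩, ?_⟩
  show FreeGroup.lift σ x ≠ 1
  intro hone
  have h0 := key n 0 (by omega) (by omega)
  have hmk : (FreeGroup.mk w : FreeGroup α) = x := by rw [hwdef]; exact FreeGroup.mk_toWord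
  rw [List.drop_zero, hmk, hone] at h0
  have := congrArg Fin.val h0
  simp at this
  omega

end N_free_rf

alias free_rf := N_free_rf.free_rf

end Pool.CS
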