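import Pool.Agent.Helper694.CS.Defs
set_option autoImplicit false

namespace Pool.CS


namespace N_free_tf

theorem free_tf (α : Type) (c : FreeGroup α) (hc : c ≠ 1) : ¬ IsOfFinOrder c := by
  classical
  exact not_isOfFinOrder_of_isMulTorsionFree hc

end N_free_tf

alias free_tf := N_free_tf.free_tf

end Pool.CS
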