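import Pool.Agent.Helper694.CS.Defs
set_option autoImplicit false

namespace Pool.CS


namespace N_ret_boost

/-- reduction modulo `M` of a retraction to the integers -/
def rmod {P : Type} [Group P] (r : P →* Multiplicative ℤ) (M : ℕ) :
    P →* Multiplicative (ZMod M) :=
  (AddMonoidHom.toMultiplicative (Int.castAddHom (ZMod M))).comp r

theorem rmod_apply {P : Type} [Group P] (r : P →* Multiplicative ℤ) (M : ℕ) (x : P) :
    rmod r M x = Multiplicative.ofAdd (((Multiplicative.toAdd (r x) : ℤ)) : ZMod M) := rfl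

/-- product of a finite quotient with a reduction modulo `M` -/
def prq {P : Type} [Group P] (q : FQ P) (r : P →* Multiplicative ℤ) (M : ℕ) (hM : 0 < M) : FQ P :=
  haveI : NeZero M := ⟨hM.ne'⟩
  haveI : Finite (Multiplicative (ZMod M)) := Finite.of_equiv (ZMod M) Multiplicative.ofAdd
  { Q := q.Q × Multiplicative (ZMod M)
    φ := q.φ.prod (rmod r M) }

theorem ret_boost {P : Type} [Group P] (J : F2 →* P) (r : P →* Multiplicative ℤ) (y : P)
    (hy : r y = Multiplicative.ofAdd 1) (hJ : ∀ p, r (J p) = 1) : Boost J y := by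
  intro q
  refine ⟨q, le_refl _, fun M hM => ⟨prq q r M hM, ?_, ?_, ?_⟩⟩
  · intro x hx
    have h1 : (((q.φ x, rmod r M x) : q.Q × Multiplicative (ZMod M))) = 1 := hx
    exact congrArg Prod.fst h1
  · intro p hp
    have h1 : (((q.φ (J p), rmod r M (J p)) : q.Q × Multiplicative (ZMod M))) = 1 := by
      rw [hp, rmod_apply, hJ]
      simp
    exact h1
  · have h1 : (((q.φ y, rmod r M y) : q.Q × Multiplicative (ZMod M)))
        ^ (orderOf ((prq q r M hM).φ y)) = 1 := pow_orderOf_eq_one ((prq q r M hM).φ y)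
    have h2 : (rmod r M y) ^ (orderOf ((prq q r M hM).φ y)) = 1 := congrArg Prod.snd h1
    rw [rmod_apply, hy] at h2
    have h4 := congrArg Multiplicative.toAdd h2
    have h5 : ((orderOf ((prq q r M hM).φ y) : ℕ) : ZMod M) = 0 := by
      simpa [toAdd_pow] using h4
    exact (ZMod.natCast_eq_zero_iff _ _).1 h5

end N_ret_boost

alias ret_boost := N_ret_boost.ret_boost

end Pool.CS
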