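import Pool.Agent.Helper694.CS.Defs
set_option autoImplicit false

namespace Pool.CS


namespace N_ret_sep

/-- reduction modulo `M` of a retraction to the integers -/
def rmod {P : Type} [Group P] (r : P →* Multiplicative ℤ) (M : ℕ) :
    P →* Multiplicative (ZMod M) :=
  (AddMonoidHom.toMultiplicative (Int.castAddHom (ZMod M))).comp r

theorem rmod_apply {P : Type} [Group P] (r : P →* Multiplicative ℤ) (M : ℕ) (x : P) :
    rmod r M x = Multiplicative.ofAdd (((Multiplicative.toAdd (r x) : ℤ)) : ZMod M) := rfl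

/-- product of a finite quotient with a reduction modulo `M` -/
def prq {P : Type} [Group P] (q : FQ P) (r : P →* Multiplicative ℤ) (M : ℕ) (hM : 0 < M) : FQ P :=
  haveI : NeZero M := ⟨hM.ne'⟩
  haveI : Finite (Multiplicative (ZMod M)) := Finite.of_equiv (ZMod M) Multiplicative.ofAdd
  { Q := q.Q × Multiplicative (ZMod M)
    φ := q.φ.prod (rmod r M) }

theorem ret_sep {P : Type} [Group P] (rf : RF P) (r : P →* Multiplicative ℤ) (y : P)
    (hy : r y = Multiplicative.ofAdd 1) : Sep P y := by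
  intro x hx
  set n : ℤ := Multiplicative.toAdd (r x) with hn
  have hx' : x * y ^ (-n) ≠ 1 := by
    intro h
    apply hx
    rw [Subgroup.mem_zpowers_iff]
    refine ⟨n, ?_⟩
    rw [zpow_neg, mul_inv_eq_one] at h
    exact h.symm
  obtain ⟨ψ, hψ⟩ := rf _ hx'
  have hM : 0 < orderOf (ψ.φ y) := orderOf_pos _
  refine ⟨prq ψ r _ hM, ?_⟩
  intro hmem
  obtain ⟨l, hl⟩ := Subgroup.mem_zpowers_iff.1 hmem
  have hl' : (((ψ.φ y, rmod r (orderOf (ψ.φ y)) y) :
      ψ.Q × Multiplicative (ZMod (orderOf (ψ.φ y)))) ^ l)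
      = (ψ.φ x, rmod r (orderOf (ψ.φ y)) x) := hl
  have h1 : ψ.φ y ^ l = ψ.φ x := congrArg Prod.fst hl'
  have h2 : (rmod r (orderOf (ψ.φ y)) y) ^ l = rmod r (orderOf (ψ.φ y)) x :=
    congrArg Prod.snd hl'
  rw [rmod_apply, rmod_apply, hy] at h2
  have h3 : ((l : ℤ) : ZMod (orderOf (ψ.φ y))) = ((n : ℤ) : ZMod (orderOf (ψ.φ y))) := by
    have h4 := congrArg Multiplicative.toAdd h2
    simpa [toAdd_zpow] using h4
  have h5 : ((orderOf (ψ.φ y) : ℕ) : ℤ) ∣ n - l :=
    (ZMod.intCast_eq_intCast_iff_dvd_sub _ _ _).1 h3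
  have h6 : ψ.φ y ^ (n - l) = 1 := orderOf_dvd_iff_zpow_eq_one.1 h5
  have h7 : ψ.φ y ^ n = ψ.φ x := by
    rw [← h1, ← mul_inv_eq_one, ← zpow_neg, ← zpow_add, ← sub_eq_add_neg]
    exact h6
  apply hψ
  rw [map_mul, map_zpow, zpow_neg, h7, mul_inv_cancel]

end N_ret_sep

alias ret_sep := N_ret_sep.ret_sep

end Pool.CS
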