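import Pool.Agent.Helper694.CS.Defs
import Pool.Agent.Helper694.CS.J_free_rf
import Pool.Agent.Helper694.CS.J_free_tf
import Pool.Agent.Helper694.CS.J_free_comm2
import Pool.Agent.Helper694.CS.J_J0_inj
import Pool.Agent.Helper694.CS.J_base_bun
import Pool.Agent.Helper694.CS.J_ret_sep
import Pool.Agent.Helper694.CS.J_ret_boost
set_option autoImplicit false

namespace Pool.CS


namespace N_base

theorem countable_free : Countable (FreeGroup (Fin 4)) := by
  have h : Function.Surjective (fun l : List (Fin 4 × Bool) => FreeGroup.mk l) := by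
    intro x
    exact ⟨x.toWord, FreeGroup.mk_toWord⟩
  exact h.countable

theorem not_comm_F2 : (FreeGroup.of 0 * FreeGroup.of 1 : F2) ≠ FreeGroup.of 1 * FreeGroup.of 0 := by
  intro h
  have h1 := congrArg (FreeGroup.lift ![(Equiv.swap 0 1 : Equiv.Perm (Fin 3)), Equiv.swap 1 2]) h
  rw [map_mul, map_mul, FreeGroup.lift_apply_of, FreeGroup.lift_apply_of] at h1
  revert h1
  decide

/-- retraction onto the cyclic group generated by a generator -/
def rt (i : Fin 4) : FreeGroup (Fin 4) →* Multiplicative ℤ :=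
  FreeGroup.lift (fun j => if j = i then Multiplicative.ofAdd 1 else 1)

theorem rt_self (i : Fin 4) : rt i (FreeGroup.of i) = Multiplicative.ofAdd 1 := by
  unfold rt
  rw [FreeGroup.lift_apply_of, if_pos rfl]

theorem rt_cm (i : Fin 4) (x y : FreeGroup (Fin 4)) : rt i (cm x y) = 1 := by
  unfold cm
  rw [map_mul, map_mul, map_mul, map_inv, map_inv, mul_comm (rt i x) (rt i y),
    mul_inv_cancel_right, mul_inv_cancel]

theorem rt_J0 (i : Fin 4) (p : F2) : rt i (J0 p) = 1 := by
  have h : (rt i).comp J0 = 1 := by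
    apply FreeGroup.ext_hom
    intro j
    rw [MonoidHom.comp_apply]
    unfold J0
    rw [FreeGroup.lift_apply_of]
    fin_cases j
    · exact rt_cm i _ _
    · exact rt_cm i _ _
  have h2 := DFunLike.congr_fun h p
  exact h2

theorem base (S : Type) [Group S] [Finite S] :
    ∃ (P : Type) (_ : Group P) (J : F2 →* P) (G : Set P), Good S J G := by
  refine ⟨FreeGroup (Fin 4), inferInstance, J0, Set.range FreeGroup.of, ?_⟩
  refine ⟨free_tf _, countable_free, J0_inj, ?_, free_rf _, ?_, ?_, base_bun S, ?_⟩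
  · intro g hg
    by_contra hne
    have h1 := free_comm2 (Fin 4) g (J0 (FreeGroup.of 0)) (J0 (FreeGroup.of 1)) hne (hg _) (hg _)
    rw [← map_mul, ← map_mul] at h1
    exact not_comm_F2 (J0_inj h1)
  · rintro y ⟨i, rfl⟩
    exact ret_sep (free_rf _) (rt i) _ (rt_self i)
  · rintro y ⟨i, rfl⟩
    exact ret_boost J0 (rt i) _ (rt_self i) (rt_J0 i)
  · rw [eq_top_iff, ← FreeGroup.closure_range_of]
    exact Subgroup.closure_le_normalClosure

end N_base

alias base := N_base.base

end Pool.CS
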