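import Pool.Agent.Helper694.CS.Defs
set_option autoImplicit false

namespace Pool.CS


namespace N_fix_sig

def tau : Fin 5 → Fin 5 := ![1, 0, 3, 2, 4]

theorem tau_inj : Function.Injective tau := by decide

theorem tau_fix : ∀ i : Fin 5, tau i = i → i = 4 := by decide

def E : C5 →* C5 := FreeGroup.lift
  ![FreeGroup.of 0, FreeGroup.of 2, FreeGroup.of 3 * (FreeGroup.of 1)⁻¹ * FreeGroup.of 0,
    (FreeGroup.of 0)⁻¹ * FreeGroup.of 1, FreeGroup.of 4]

def E' : C5 →* C5 := FreeGroup.lift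
  ![FreeGroup.of 0, FreeGroup.of 0 * FreeGroup.of 3, FreeGroup.of 1,
    FreeGroup.of 2 * FreeGroup.of 3, FreeGroup.of 4]

theorem E0 : E (FreeGroup.of 0) = FreeGroup.of 0 := by rw [E, FreeGroup.lift_apply_of]; rfl
theorem E1 : E (FreeGroup.of 1) = FreeGroup.of 2 := by rw [E, FreeGroup.lift_apply_of]; rfl
theorem E2 : E (FreeGroup.of 2) = FreeGroup.of 3 * (FreeGroup.of 1)⁻¹ * FreeGroup.of 0 := by
  rw [E, FreeGroup.lift_apply_of]; rfl
theorem E3 : E (FreeGroup.of 3) = (FreeGroup.of 0)⁻¹ * FreeGroup.of 1 := by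
  rw [E, FreeGroup.lift_apply_of]; rfl
theorem E4 : E (FreeGroup.of 4) = FreeGroup.of 4 := by rw [E, FreeGroup.lift_apply_of]; rfl
theorem E'0 : E' (FreeGroup.of 0) = FreeGroup.of 0 := by rw [E', FreeGroup.lift_apply_of]; rfl
theorem E'1 : E' (FreeGroup.of 1) = FreeGroup.of 0 * FreeGroup.of 3 := by
  rw [E', FreeGroup.lift_apply_of]; rfl
theorem E'2 : E' (FreeGroup.of 2) = FreeGroup.of 1 := by rw [E', FreeGroup.lift_apply_of]; rfl
theorem E'3 : E' (FreeGroup.of 3) = FreeGroup.of 2 * FreeGroup.of 3 := by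
  rw [E', FreeGroup.lift_apply_of]; rfl
theorem E'4 : E' (FreeGroup.of 4) = FreeGroup.of 4 := by rw [E', FreeGroup.lift_apply_of]; rfl

theorem E'E : E'.comp E = MonoidHom.id C5 := by
  apply FreeGroup.ext_hom
  intro i
  fin_cases i
  · show E' (E (FreeGroup.of 0)) = FreeGroup.of 0
    rw [E0, E'0]
  · show E' (E (FreeGroup.of 1)) = FreeGroup.of 1
    rw [E1, E'2]
  · show E' (E (FreeGroup.of 2)) = FreeGroup.of 2
    rw [E2, map_mul, map_mul, map_inv, E'0, E'1, E'3]; group
  · show E' (E (FreeGroup.of 3)) = FreeGroup.of 3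
    rw [E3, map_mul, map_inv, E'0, E'1]; group
  · show E' (E (FreeGroup.of 4)) = FreeGroup.of 4
    rw [E4, E'4]

theorem act0 : actE (.sr 0) (FreeGroup.of 0) = FreeGroup.of 0 * FreeGroup.of 3 := by
  rw [actE, FreeGroup.lift_apply_of]; rfl
theorem act1 : actE (.sr 0) (FreeGroup.of 1) = FreeGroup.of 2 * FreeGroup.of 3 := by
  rw [actE, FreeGroup.lift_apply_of]; rfl
theorem act2 : actE (.sr 0) (FreeGroup.of 2) = FreeGroup.of 1 * FreeGroup.of 3 := by
  rw [actE, FreeGroup.lift_apply_of]; rfl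
theorem act3 : actE (.sr 0) (FreeGroup.of 3) = (FreeGroup.of 3)⁻¹ := by
  rw [actE, FreeGroup.lift_apply_of]
  show (FreeGroup.of 0 * FreeGroup.of 3)⁻¹ * FreeGroup.of 0 = _
  group
theorem act4 : actE (.sr 0) (FreeGroup.of 4) = FreeGroup.of 4 := actE_z _

theorem mp (i : Fin 5) : FreeGroup.map tau (FreeGroup.of i) = FreeGroup.of (tau i) :=
  FreeGroup.map.of

theorem t0 : tau 0 = 1 := rfl
theorem t1 : tau 1 = 0 := rfl
theorem t2 : tau 2 = 3 := rfl
theorem t3 : tau 3 = 2 := rfl
theorem t4 : tau 4 = 4 := rfl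

theorem conj : E.comp (actE (.sr 0)) = (FreeGroup.map tau).comp E := by
  apply FreeGroup.ext_hom
  intro i
  fin_cases i
  · show E (actE (.sr 0) (FreeGroup.of 0)) = FreeGroup.map tau (E (FreeGroup.of 0))
    rw [act0, map_mul, E0, E3, mp, t0]; group
  · show E (actE (.sr 0) (FreeGroup.of 1)) = FreeGroup.map tau (E (FreeGroup.of 1))
    rw [act1, map_mul, E2, E3, E1, mp, t2]; group
  · show E (actE (.sr 0) (FreeGroup.of 2)) = FreeGroup.map tau (E (FreeGroup.of 2))
    rw [act2, map_mul, E1, E3, E2, map_mul, map_mul, map_inv, mp, mp, mp, t0, t1, t3]; group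
  · show E (actE (.sr 0) (FreeGroup.of 3)) = FreeGroup.map tau (E (FreeGroup.of 3))
    rw [act3, map_inv, E3, map_mul, map_inv, mp, mp, t0, t1]; group
  · show E (actE (.sr 0) (FreeGroup.of 4)) = FreeGroup.map tau (E (FreeGroup.of 4))
    rw [act4, E4, mp, t4]

theorem all4 : ∀ L : List (Fin 5 × Bool), (∀ x ∈ L, x.1 = 4) →
    (FreeGroup.mk L : C5) ∈ Subgroup.zpowers (FreeGroup.of 4 : C5) := by
  intro L
  induction L with
  | nil => intro _; exact Subgroup.one_mem _
  | cons x L ih =>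
    intro h
    have h1 : (FreeGroup.mk (x :: L) : C5) = FreeGroup.mk [x] * FreeGroup.mk L := by
      rw [FreeGroup.mul_mk]; rfl
    rw [h1]
    refine Subgroup.mul_mem _ ?_ (ih fun y hy => h y (List.mem_cons_of_mem _ hy))
    obtain ⟨i, b⟩ := x
    have hi : i = 4 := h (i, b) List.mem_cons_self
    subst hi
    cases b with
    | true => exact Subgroup.mem_zpowers _
    | false =>
      have : (FreeGroup.mk [((4 : Fin 5), false)] : C5) = (FreeGroup.of 4)⁻¹ := rfl
      rw [this]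
      exact Subgroup.inv_mem _ (Subgroup.mem_zpowers _)

theorem fixed_mem (h : C5) (hh : FreeGroup.map tau h = h) :
    h ∈ Subgroup.zpowers (FreeGroup.of 4 : C5) := by
  have h1 : FreeGroup.mk h.toWord = h := FreeGroup.mk_toWord
  have hred : FreeGroup.IsReduced h.toWord := FreeGroup.isReduced_toWord
  have hred2 : FreeGroup.IsReduced (h.toWord.map fun x => (tau x.1, x.2)) := by
    unfold FreeGroup.IsReduced at hred ⊢
    rw [List.isChain_map]
    refine hred.imp ?_
    intro a b hab hab2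
    exact hab (tau_inj hab2)
  have h2 : (h.toWord.map fun x => (tau x.1, x.2)) = h.toWord := by
    have e1 : FreeGroup.map tau h = FreeGroup.mk (h.toWord.map fun x => (tau x.1, x.2)) := by
      conv_lhs => rw [← h1]
      exact FreeGroup.map.mk
    have e2 : (FreeGroup.map tau h).toWord = (h.toWord.map fun x => (tau x.1, x.2)) := by
      rw [e1, FreeGroup.toWord_mk, hred2.reduce_eq]
    rw [← e2, hh]
  rw [← h1]
  apply all4
  intro x hx
  have h3 : ∀ L : List (Fin 5 × Bool), L.map (fun x => (tau x.1, x.2)) = L →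
      ∀ x ∈ L, (tau x.1, x.2) = x := by
    intro L
    induction L with
    | nil => intro _ x hx; cases hx
    | cons y L ih =>
      intro hL x hx
      rw [List.map_cons, List.cons.injEq] at hL
      rcases List.mem_cons.1 hx with rfl | hx
      · exact hL.1
      · exact ih hL.2 x hx
  have h4 := h3 _ h2 x hx
  exact tau_fix _ (congrArg Prod.fst h4)

theorem fix_sig (g : C5) (hg : actM (.sr 0) g = g) : g ∈ Subgroup.zpowers (FreeGroup.of 4 : C5) := by
  have h1 : actE (.sr 0) g = g := hg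
  have h2 : FreeGroup.map tau (E g) = E g := by
    have := DFunLike.congr_fun conj g
    simp only [MonoidHom.comp_apply] at this
    rw [← this, h1]
  have h3 := fixed_mem _ h2
  have h4 : E' (E g) = g := DFunLike.congr_fun E'E g
  rw [Subgroup.mem_zpowers_iff] at h3 ⊢
  obtain ⟨k, hk⟩ := h3
  refine ⟨k, ?_⟩
  rw [← h4, ← hk, map_zpow, E'4]

end N_fix_sig

alias fix_sig := N_fix_sig.fix_sig

end Pool.CS
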