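import Pool.Agent.Helper694.CS.Defs
import Pool.Agent.Helper694.CS.J_fix_sig
set_option autoImplicit false

namespace Pool.CS


namespace N_fix_all

/-- a homomorphism to the infinite dihedral group -/
def hom : C5 →* DihedralGroup 0 :=
  FreeGroup.lift ![.sr 0, 1, 1, 1, .r 1]

theorem hom0 : hom (FreeGroup.of 0) = .sr 0 := by rw [hom, FreeGroup.lift_apply_of]; rfl
theorem hom1 : hom (FreeGroup.of 1) = 1 := by rw [hom, FreeGroup.lift_apply_of]; rfl
theorem hom4 : hom (FreeGroup.of 4) = .r 1 := by rw [hom, FreeGroup.lift_apply_of]; rfl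

theorem r_zpow (n : ℤ) : (DihedralGroup.r 1 : DihedralGroup 0) ^ n =
    .r (show ZMod 0 from n) := by
  rw [DihedralGroup.r_one_zpow]
  rfl

theorem fix_all (g : C5) (hg : ∀ s, kk s * actM s g * (kk s)⁻¹ = g) : g = 1 := by
  have h0 : kk (.sr 0) = 1 := by
    show FreeGroup.of 0 * (ltr (-0))⁻¹ = 1
    rw [neg_zero]
    show FreeGroup.of 0 * (FreeGroup.of 0)⁻¹ = (1 : C5)
    exact mul_inv_cancel _
  have h1 := hg (.sr 0)
  rw [h0, one_mul, inv_one, mul_one] at h1
  obtain ⟨n, hn⟩ := Subgroup.mem_zpowers_iff.mp (fix_sig g h1)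
  have h2 := hg (.r 1)
  have h3 : kk (.r 1) = FreeGroup.of 0 * (FreeGroup.of 1)⁻¹ := rfl
  have h4 : actM (.r 1) g = g := by
    rw [← hn, map_zpow, actM_apply, actE_z]
  rw [h3, h4] at h2
  have h5 := congrArg hom h2
  simp only [map_mul, map_inv, hom0, hom1, ← hn, map_zpow, hom4,
    r_zpow, inv_one, mul_one] at h5
  have h6 : (DihedralGroup.sr 0 * DihedralGroup.r (show ZMod 0 from n) *
      (DihedralGroup.sr 0)⁻¹ : DihedralGroup 0) = .r (show ZMod 0 from -n) := by
    rw [DihedralGroup.inv_sr, DihedralGroup.sr_mul_r, DihedralGroup.sr_mul_sr]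
    congr 1
    show (0 : ℤ) - (0 + n) = -n
    ring
  rw [h6] at h5
  have h7 : (-n : ℤ) = n := by injection h5
  have h8 : n = 0 := by omega
  rw [← hn, h8, zpow_zero]

end N_fix_all

alias fix_all := N_fix_all.fix_all

end Pool.CS
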