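import Pool.Agent.Helper694.CS.Defs
set_option autoImplicit false

namespace Pool.CS


namespace N_gadget_misc

/-- letters a,b,c to 1 -/
def eA : C5 →* Multiplicative ℤ :=
  FreeGroup.lift ![Multiplicative.ofAdd 1, Multiplicative.ofAdd 1, Multiplicative.ofAdd 1, 1, 1]

def eZ : C5 →* Multiplicative ℤ :=
  FreeGroup.lift ![1, 1, 1, 1, Multiplicative.ofAdd 1]

theorem eA_ltr (i : ZMod 3) : eA (ltr i) = Multiplicative.ofAdd 1 := by
  fin_cases i
  · show eA (FreeGroup.of 0) = _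
    rw [eA, FreeGroup.lift_apply_of]; rfl
  · show eA (FreeGroup.of 1) = _
    rw [eA, FreeGroup.lift_apply_of]; rfl
  · show eA (FreeGroup.of 2) = _
    rw [eA, FreeGroup.lift_apply_of]; rfl

theorem eA_w : eA (FreeGroup.of 3) = 1 := by
  rw [eA, FreeGroup.lift_apply_of]; rfl

theorem eA_z : eA (FreeGroup.of 4) = 1 := by
  rw [eA, FreeGroup.lift_apply_of]; rfl

theorem eZ_ltr (i : ZMod 3) : eZ (ltr i) = 1 := by
  fin_cases i
  · show eZ (FreeGroup.of 0) = _
    rw [eZ, FreeGroup.lift_apply_of]; rfl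
  · show eZ (FreeGroup.of 1) = _
    rw [eZ, FreeGroup.lift_apply_of]; rfl
  · show eZ (FreeGroup.of 2) = _
    rw [eZ, FreeGroup.lift_apply_of]; rfl

theorem eZ_w : eZ (FreeGroup.of 3) = 1 := by
  rw [eZ, FreeGroup.lift_apply_of]; rfl

theorem eZ_z : eZ (FreeGroup.of 4) = Multiplicative.ofAdd 1 := by
  rw [eZ, FreeGroup.lift_apply_of]; rfl

theorem eA_tt (h : D3) : eA (tt h) = Multiplicative.ofAdd 1 := by
  cases h with
  | r i => exact eA_ltr i
  | sr i =>
    show eA (ltr (-i) * FreeGroup.of 3) = _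
    rw [map_mul, eA_ltr, eA_w, mul_one]

theorem eZ_tt (h : D3) : eZ (tt h) = 1 := by
  cases h with
  | r i => exact eZ_ltr i
  | sr i =>
    show eZ (ltr (-i) * FreeGroup.of 3) = _
    rw [map_mul, eZ_ltr, eZ_w, mul_one]

theorem inv_of (e : C5 →* Multiplicative ℤ) (c : Multiplicative ℤ) (h : ∀ h, e (tt h) = c)
    (hw : e (FreeGroup.of 3) = 1) (s : D3) : e.comp (actE s) = e := by
  apply FreeGroup.ext_hom
  intro i
  fin_cases i
  · show e (actE s (tt (.r 0))) = e (tt (.r 0))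
    rw [actE_tt, h, h]
  · show e (actE s (tt (.r 1))) = e (tt (.r 1))
    rw [actE_tt, h, h]
  · show e (actE s (tt (.r 2))) = e (tt (.r 2))
    rw [actE_tt, h, h]
  · show e (actE s (FreeGroup.of 3)) = e (FreeGroup.of 3)
    rw [actE_w, map_mul, map_inv, h, h, hw, inv_mul_cancel]
  · show e (actE s (FreeGroup.of 4)) = e (FreeGroup.of 4)
    rw [actE_z]

theorem gadget_misc : ∃ eA eZ : C5 →* Multiplicative ℤ,
    eA (FreeGroup.of 0) = Multiplicative.ofAdd 1 ∧ eA (FreeGroup.of 4) = 1 ∧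
    eZ (FreeGroup.of 0) = 1 ∧ eZ (FreeGroup.of 4) = Multiplicative.ofAdd 1 ∧
    (∀ s g, eA (actM s g) = eA g) ∧ (∀ s g, eZ (actM s g) = eZ g) ∧
    (∀ s, eA (kk s) = 1) ∧ (∀ s, eZ (kk s) = 1) ∧
    (∀ N : Subgroup C5, N.Normal → (∀ s, ∀ g ∈ N, actM s g ∈ N) → FreeGroup.of 0 ∈ N →
      FreeGroup.of 4 ∈ N → N = ⊤) := by
  refine ⟨eA, eZ, eA_ltr 0, eA_z, eZ_ltr 0, eZ_z, ?_, ?_, ?_, ?_, ?_⟩
  · intro s g
    rw [actM_apply]
    exact DFunLike.congr_fun (inv_of eA _ eA_tt eA_w s) g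
  · intro s g
    rw [actM_apply]
    exact DFunLike.congr_fun (inv_of eZ _ eZ_tt eZ_w s) g
  · intro s
    have h0 : eA (FreeGroup.of 0) = Multiplicative.ofAdd 1 := eA_ltr 0
    cases s with
    | r i =>
      show eA (FreeGroup.of 0 * (ltr i)⁻¹) = 1
      rw [map_mul, map_inv, eA_ltr, h0, mul_inv_cancel]
    | sr i =>
      show eA (FreeGroup.of 0 * (ltr (-i))⁻¹) = 1
      rw [map_mul, map_inv, eA_ltr, h0, mul_inv_cancel]
  · intro s
    have h0 : eZ (FreeGroup.of 0) = 1 := eZ_ltr 0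
    cases s with
    | r i =>
      show eZ (FreeGroup.of 0 * (ltr i)⁻¹) = 1
      rw [map_mul, map_inv, eZ_ltr, h0, mul_inv_cancel]
    | sr i =>
      show eZ (FreeGroup.of 0 * (ltr (-i))⁻¹) = 1
      rw [map_mul, map_inv, eZ_ltr, h0, mul_inv_cancel]
  · intro N _ hN h0 h4
    have ht : ∀ s : D3, tt s ∈ N := by
      intro s
      have := hN s _ h0
      rw [actM_apply] at this
      have e : actE s (FreeGroup.of 0) = tt s := by
        have h := actE_tt s (.r 0)
        have h2 : s * DihedralGroup.r (0 : ZMod 3) = s := by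
          rw [← DihedralGroup.one_def, mul_one]
        rw [h2] at h
        exact h
      rwa [e] at this
    have h1 : (FreeGroup.of 1 : C5) ∈ N := ht (.r 1)
    have h2 : (FreeGroup.of 2 : C5) ∈ N := ht (.r 2)
    have h3 : (FreeGroup.of 3 : C5) ∈ N := by
      have h5 : (FreeGroup.of 0 * FreeGroup.of 3 : C5) ∈ N := ht (.sr 0)
      have h6 := N.mul_mem (N.inv_mem h0) h5
      rwa [inv_mul_cancel_left] at h6
    rw [eq_top_iff, ← FreeGroup.closure_range_of, Subgroup.closure_le]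
    rintro _ ⟨i, rfl⟩
    fin_cases i
    · exact h0
    · exact h1
    · exact h2
    · exact h3
    · exact h4

end N_gadget_misc

alias gadget_misc := N_gadget_misc.gadget_misc

end Pool.CS
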