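import Pool.Agent.Helper694.CS.Defs
set_option autoImplicit false

namespace Pool.CS


namespace N_kk_coc

theorem actE_zero (g : D3) : actE g (FreeGroup.of 0) = tt g := by
  rw [actE, FreeGroup.lift_apply_of]; rfl

theorem actE_ltr (g : D3) (i : ZMod 3) : actE g (ltr i) = tt (g * .r i) := actE_r g i

theorem aux (s : D3) (i : ZMod 3) : kk s * actE s (FreeGroup.of 0 * (ltr i)⁻¹) =
    kk s * tt s * (tt (s * .r i))⁻¹ := by
  rw [map_mul, map_inv, actE_zero, actE_ltr, mul_assoc]

theorem kk_coc (s t : D3) : kk (s * t) = kk s * actM s (kk t) := by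
  rw [actM_apply]
  cases t with
  | r i =>
    show _ = kk s * actE s (FreeGroup.of 0 * (ltr i)⁻¹)
    rw [aux]
    cases s with
    | r j =>
      show FreeGroup.of 0 * (ltr (j + i))⁻¹ =
        FreeGroup.of 0 * (ltr j)⁻¹ * ltr j * (ltr (j + i))⁻¹
      group
    | sr j =>
      show FreeGroup.of 0 * (ltr (-(j + i)))⁻¹ =
        FreeGroup.of 0 * (ltr (-j))⁻¹ * (ltr (-j) * FreeGroup.of 3) *
          (ltr (-(j + i)) * FreeGroup.of 3)⁻¹
      group
  | sr i =>
    show _ = kk s * actE s (FreeGroup.of 0 * (ltr (-i))⁻¹)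
    rw [aux]
    cases s with
    | r j =>
      show FreeGroup.of 0 * (ltr (-(i - j)))⁻¹ =
        FreeGroup.of 0 * (ltr j)⁻¹ * ltr j * (ltr (j + -i))⁻¹
      have h : -(i - j) = j + -i := by ring
      rw [h]
      group
    | sr j =>
      show FreeGroup.of 0 * (ltr (i - j))⁻¹ =
        FreeGroup.of 0 * (ltr (-j))⁻¹ * (ltr (-j) * FreeGroup.of 3) *
          (ltr (-(j + -i)) * FreeGroup.of 3)⁻¹
      have h : i - j = -(j + -i) := by ring
      rw [h]
      group

end N_kk_coc

alias kk_coc := N_kk_coc.kk_coc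

end Pool.CS
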