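import Pool.Agent.Helper694.CS.Defs
set_option autoImplicit false

namespace Pool.CS


namespace N_kk_ptw

theorem act_tt (s h : D3) : actM s (tt h) = tt (s * h) := by
  rw [actM_apply, actE_tt]

theorem kk_ptw (s : D3) : ∃ g : C5, kk s = g⁻¹ * actM s g := by
  cases s with
  | r i =>
    refine ⟨(tt (.r 0))⁻¹, ?_⟩
    rw [map_inv, act_tt, inv_inv]
    have : DihedralGroup.r i * DihedralGroup.r 0 = (DihedralGroup.r i : D3) := by
      rw [← DihedralGroup.one_def, mul_one]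
    rw [this]
    rfl
  | sr i =>
    fin_cases i
    · refine ⟨1, ?_⟩
      rw [map_one, inv_one, mul_one]
      show FreeGroup.of 0 * (ltr (-0))⁻¹ = 1
      rw [neg_zero]
      show FreeGroup.of 0 * (FreeGroup.of 0)⁻¹ = 1
      rw [mul_inv_cancel]
    · refine ⟨tt (.r 1) * (tt (.r 0))⁻¹, ?_⟩
      rw [map_mul, map_inv, act_tt, act_tt]
      show ltr 0 * (ltr 2)⁻¹ =
        (ltr 1 * (ltr 0)⁻¹)⁻¹ * ((ltr 1 * FreeGroup.of 3) * (ltr 2 * FreeGroup.of 3)⁻¹)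
      group
    · refine ⟨tt (.r 2) * (tt (.r 0))⁻¹, ?_⟩
      rw [map_mul, map_inv, act_tt, act_tt]
      show ltr 0 * (ltr 1)⁻¹ =
        (ltr 2 * (ltr 0)⁻¹)⁻¹ * ((ltr 2 * FreeGroup.of 3) * (ltr 1 * FreeGroup.of 3)⁻¹)
      group


end N_kk_ptw

alias kk_ptw := N_kk_ptw.kk_ptw

end Pool.CS
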