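import Pool.Agent.Helper694.CS.Defs
import Pool.Agent.Helper694.CS.J_kk_coc
import Pool.Agent.Helper694.CS.J_kk_ptw
import Pool.Agent.Helper694.CS.J_fix_all
import Pool.Agent.Helper694.CS.J_gadget_misc
import Pool.Agent.Helper694.CS.J_free_rf
import Pool.Agent.Helper694.CS.J_free_tf
set_option autoImplicit false

namespace Pool.CS


namespace N_gadget_ex

theorem c5_countable : Countable C5 := by
  have h : Function.Surjective (fun l : List (Fin 5 × Bool) => (FreeGroup.mk l : C5)) := by
    intro x
    induction x using Quot.inductionOn with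
    | h l => exact ⟨l, rfl⟩
  exact h.countable

theorem gadget_ex : ∃ g : Gadget D3 C5, g.act = actM ∧ g.k = kk := by
  obtain ⟨eA, eZ, h1, h2, h3, h4, h5, h6, h7, h8, h9⟩ := gadget_misc
  refine ⟨{
    act := actM
    k := kk
    a := FreeGroup.of 0
    z := FreeGroup.of 4
    eA := eA
    eZ := eZ
    finS := ?_
    cntC := c5_countable
    tfC := free_tf (Fin 5)
    rfC := free_rf (Fin 5)
    coc := kk_coc
    ptw := kk_ptw
    fix := fix_all
    zfix := fun s => by rw [actM_apply]; exact actE_z s
    eA_a := h1
    eA_z := h2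
    eZ_a := h3
    eZ_z := h4
    eA_act := h5
    eZ_act := h6
    eA_k := h7
    eZ_k := h8
    gen := h9 }, rfl, rfl⟩
  have : Fintype D3 := inferInstance
  exact Finite.of_fintype D3

end N_gadget_ex

alias gadget_ex := N_gadget_ex.gadget_ex

end Pool.CS
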