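import Pool.Agent.Helper694.CS.Defs
set_option autoImplicit false

namespace Pool.CS


namespace N_lim_ex

section aux
variable {P : ℕ → Type} [∀ n, Group (P n)] (e : ∀ n, P n →* P (n + 1))

/-- the transition maps -/
def fm (i j : ℕ) (h : i ≤ j) : P i →* P j :=
  Nat.leRec (motive := fun j _ => P i →* P j) (MonoidHom.id (P i))
    (fun k _ g => (e k).comp g) h

theorem fm_self (i : ℕ) : fm e i i le_rfl = MonoidHom.id (P i) := by
  unfold fm
  rw [Nat.leRec_self]

theorem fm_succ (i j : ℕ) (h : i ≤ j) :
    fm e i (j + 1) (Nat.le_succ_of_le h) = (e j).comp (fm e i j h) := by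
  unfold fm
  rw [Nat.leRec_succ]

theorem fm_trans (i j k : ℕ) (hij : i ≤ j) (hjk : j ≤ k) (x : P i) :
    fm e j k hjk (fm e i j hij x) = fm e i k (hij.trans hjk) x := by
  induction k, hjk using Nat.le_induction with
  | base =>
    rw [fm_self]
    rfl
  | succ k hk ih =>
    rw [fm_succ e j k hk, fm_succ e i k (hij.trans hk)]
    show e k _ = e k _
    rw [ih]

theorem fm_inj (he : ∀ n, Function.Injective (e n)) (i j : ℕ) (h : i ≤ j) :
    Function.Injective (fm e i j h) := by
  induction j, h using Nat.le_induction with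
  | base =>
    rw [fm_self]
    exact Function.injective_id
  | succ k hk ih =>
    rw [fm_succ e i k hk]
    exact (he k).comp ih

instance dsys : DirectedSystem P (fun i j h => fm e i j h) where
  map_self i x := by rw [fm_self]; rfl
  map_map k j i hij hjk x := fm_trans e _ _ _ hij hjk x

theorem fm_desc {U : Type} [Group U] (θ : ∀ n, P n →* U) (hθ : ∀ n p, θ (n + 1) (e n p) = θ n p)
    (i j : ℕ) (h : i ≤ j) (x : P i) : θ i x = θ j (fm e i j h x) := by
  induction j, h using Nat.le_induction with
  | base =>
    rw [fm_self]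
    rfl
  | succ k hk ih =>
    rw [fm_succ e i k hk]
    show θ i x = θ (k + 1) (e k _)
    rw [hθ, ih]

end aux

theorem lim_ex {P : ℕ → Type} [∀ n, Group (P n)] (e : ∀ n, P n →* P (n + 1))
    (he : ∀ n, Function.Injective (e n)) : Nonempty (Lim e) := by
  refine ⟨{
    Γ := DirectLimit P (fm e)
    j := fun n =>
      { toFun := fun p => ⟦⟨n, p⟩⟧
        map_one' := (DirectLimit.one_def (f := fm e) n).symm
        map_mul' := fun x y => (DirectLimit.mul_def (f := fm e) n x y).symm }
    inj := fun n => DirectLimit.mk_injective (fm e) (fun i j hij => fm_inj e he i j hij) n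
    comm := ?_
    surj := ?_
    desc := ?_ }⟩
  · intro n p
    have h1 := DirectLimit.mk_apply (f := fm e) n (n + 1) p (Nat.le_succ n)
    have h2 : fm e n (n + 1) (Nat.le_succ n) p = e n p := by
      have := fm_succ e n n le_rfl
      rw [fm_self] at this
      exact congrArg (fun g => g p) this
    rw [h2] at h1
    exact h1
  · intro x
    obtain ⟨i, p, h⟩ := DirectLimit.exists_eq_mk (fm e) x
    exact ⟨i, p, h.symm⟩
  · intro U _ θ hθ
    have hc : ∀ i j h x, θ i x = θ j (fm e i j h x) := fm_desc e θ hθ
    refine ⟨{ toFun := DirectLimit.lift (fm e) (fun i => θ i) hc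
              map_one' := DirectLimit.lift_one (f := fm e) θ hc
              map_mul' := fun x y => DirectLimit.lift_mul (f := fm e) θ hc x y }, ?_⟩
    intro n p
    rfl

end N_lim_ex

alias lim_ex := N_lim_ex.lim_ex

end Pool.CS
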