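import Pool.Agent.Helper694.CS.Defs
set_option autoImplicit false

namespace Pool.CS


namespace N_iso

theorem aux_dense (α : Type) :
    (Submodule.span ℂ (Set.range (fun x : α => dlt x))).topologicalClosure = ⊤ := by
  let b : HilbertBasis α ℂ (l2 α) := ⟨LinearIsometryEquiv.refl ℂ (l2 α)⟩
  have h := b.dense_span
  have h2 : (b : α → l2 α) = fun x => dlt x := by
    funext x
    let _ := Classical.decEq α
    exact b.repr_self x
  rw [h2] at h
  exact h

theorem aux_ext {α : Type} {F : Type*} [NormedAddCommGroup F] [NormedSpace ℂ F]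
    {S T : l2 α →L[ℂ] F} (h : ∀ x, S (dlt x) = T (dlt x)) : S = T := by
  refine ContinuousLinearMap.ext_on (s := Set.range fun x : α => dlt x) ?_ ?_
  · rw [Submodule.dense_iff_topologicalClosure_eq_top]; exact aux_dense α
  · rintro _ ⟨x, rfl⟩; exact h x

theorem aux_repr {α : Type} {E : Type*} [NormedAddCommGroup E] [InnerProductSpace ℂ E]
    (b : HilbertBasis α ℂ E) (i : α) : b.repr (b i) = dlt i := by
  let _ := Classical.decEq α
  exact b.repr_self i

theorem aux_norm {α : Type} (x : α) : ‖(dlt x : l2 α)‖ = 1 := by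
  let _ := Classical.decEq α
  unfold dlt
  rw [lp.norm_single (by norm_num)]
  simp

theorem aux_cont {E F : Type*} [NormedAddCommGroup E] [InnerProductSpace ℂ E] [CompleteSpace E]
    [NormedAddCommGroup F] [InnerProductSpace ℂ F] [CompleteSpace F] (e : E ≃ₗᵢ[ℂ] F) :
    Continuous (fun T : E →L[ℂ] E => e.conjStarAlgEquiv T) := by
  simp only [LinearIsometryEquiv.conjStarAlgEquiv_apply]
  exact continuous_const.clm_comp (continuous_id.clm_comp continuous_const)

theorem aux_lam_mem {G : Type} [Group G] (g : G) : (lam g : l2 G →L[ℂ] l2 G) ∈ CR G := by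
  unfold CR CRs
  exact StarSubalgebra.le_topologicalClosure _
    (StarAlgebra.subset_adjoin _ _ ⟨g, Set.mem_univ _, rfl⟩)

set_option maxHeartbeats 4000000 in
/-- a representation of `G₁` by unitaries of `C*_r(G₂)` with the right trace and with dense span. -/
theorem iso {G₁ G₂ : Type} [Group G₁] [Group G₂] (θ : G₁ →* unitary (l2 G₂ →L[ℂ] l2 G₂))
    (hθ : ∀ g, (θ g : l2 G₂ →L[ℂ] l2 G₂) ∈ CR G₂)
    (htr : ∀ g, g ≠ 1 → inner ℂ (dlt (1 : G₂)) ((θ g : l2 G₂ →L[ℂ] l2 G₂) (dlt 1)) = 0)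
    (hgen : ∀ g : G₂, (lam g : l2 G₂ →L[ℂ] l2 G₂) ∈
      (StarAlgebra.adjoin ℂ (Set.range fun g => (θ g : l2 G₂ →L[ℂ] l2 G₂))).topologicalClosure) :
    Nonempty (↥(CR G₁) ≃⋆ₐ[ℂ] ↥(CR G₂)) := by
  have hmul : ∀ (g h : G₁) (x : l2 G₂), (θ (g * h) : l2 G₂ →L[ℂ] l2 G₂) x =
      (θ g : l2 G₂ →L[ℂ] l2 G₂) ((θ h : l2 G₂ →L[ℂ] l2 G₂) x) := by
    intro g h x; rw [map_mul]; rfl
  have hone : ∀ x : l2 G₂, (θ 1 : l2 G₂ →L[ℂ] l2 G₂) x = x := by
    intro x; rw [map_one]; rfl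
  have hstar : ∀ g : G₁, star (θ g : l2 G₂ →L[ℂ] l2 G₂) = (θ g⁻¹ : l2 G₂ →L[ℂ] l2 G₂) := by
    intro g; rw [map_inv]; rfl
  have hinner : ∀ (g h : G₁) (x y : l2 G₂), inner ℂ ((θ g : l2 G₂ →L[ℂ] l2 G₂) x)
      ((θ h : l2 G₂ →L[ℂ] l2 G₂) y) = inner ℂ x ((θ (g⁻¹ * h) : l2 G₂ →L[ℂ] l2 G₂) y) := by
    intro g h x y
    rw [hmul, ← hstar, ContinuousLinearMap.star_eq_adjoint,
      ContinuousLinearMap.adjoint_inner_right]
  let v : G₁ → l2 G₂ := fun g => (θ g : l2 G₂ →L[ℂ] l2 G₂) (dlt 1)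
  have hv : Orthonormal ℂ v := by
    constructor
    · intro g
      have h1 : inner ℂ (v g) (v g) = inner ℂ (dlt (1 : G₂)) (dlt (1 : G₂)) := by
        rw [hinner, inv_mul_cancel, hone]
      rw [inner_self_eq_norm_sq_to_K, inner_self_eq_norm_sq_to_K, aux_norm] at h1
      have h2 : ‖v g‖ ^ 2 = 1 := by
        have h3 : ((‖v g‖ ^ 2 : ℝ) : ℂ) = ((1 : ℝ) : ℂ) := by
          push_cast; simpa using h1
        exact Complex.ofReal_injective h3
      nlinarith [norm_nonneg (v g)]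
    · intro g h hgh
      show inner ℂ (v g) (v h) = 0
      rw [hinner]
      exact htr _ fun h1 => hgh (by rw [inv_mul_eq_one] at h1; exact h1)
  set V : Submodule ℂ (l2 G₂) := Submodule.span ℂ (Set.range v) with hV
  have hVg : ∀ g : G₁, ∀ x ∈ V, (θ g : l2 G₂ →L[ℂ] l2 G₂) x ∈ V := by
    intro g x hx
    have h1 : V ≤ V.comap ((θ g : l2 G₂ →L[ℂ] l2 G₂) : l2 G₂ →ₗ[ℂ] l2 G₂) := by
      rw [hV, Submodule.span_le]
      rintro _ ⟨h, rfl⟩
      show (θ g : l2 G₂ →L[ℂ] l2 G₂) (v h) ∈ Submodule.span ℂ (Set.range v)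
      have h2 : (θ g : l2 G₂ →L[ℂ] l2 G₂) (v h) = v (g * h) := (hmul g h _).symm
      rw [h2]
      exact Submodule.subset_span ⟨_, rfl⟩
    exact h1 hx
  have hadj : ∀ T ∈ StarAlgebra.adjoin ℂ (Set.range fun g => (θ g : l2 G₂ →L[ℂ] l2 G₂)),
      (∀ x ∈ V, T x ∈ V) ∧ ∀ x ∈ V, (star T) x ∈ V := by
    intro T hT
    induction hT using StarAlgebra.adjoin_induction with
    | mem x hx =>
      obtain ⟨g, rfl⟩ := hx
      refine ⟨hVg g, ?_⟩
      show ∀ x ∈ V, (star (θ g : l2 G₂ →L[ℂ] l2 G₂)) x ∈ V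
      rw [hstar]
      exact hVg _
    | algebraMap r =>
      refine ⟨fun x hx => V.smul_mem r hx, fun x hx => ?_⟩
      rw [← algebraMap_star_comm]
      exact V.smul_mem _ hx
    | add x y _ _ h1 h2 =>
      refine ⟨fun z hz => V.add_mem (h1.1 z hz) (h2.1 z hz), fun z hz => ?_⟩
      rw [star_add]
      exact V.add_mem (h1.2 z hz) (h2.2 z hz)
    | mul x y _ _ h1 h2 =>
      refine ⟨fun z hz => h1.1 _ (h2.1 z hz), fun z hz => ?_⟩
      rw [star_mul]
      exact h2.2 _ (h1.2 z hz)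
    | star x _ h1 =>
      refine ⟨h1.2, ?_⟩
      rw [star_star]
      exact h1.1
  have hv1 : dlt (1 : G₂) ∈ V := by
    have : v 1 = dlt 1 := hone _
    rw [← this]
    exact Submodule.subset_span ⟨_, rfl⟩
  have hcl : ∀ T ∈ (StarAlgebra.adjoin ℂ
      (Set.range fun g => (θ g : l2 G₂ →L[ℂ] l2 G₂))).topologicalClosure,
      T (dlt 1) ∈ V.topologicalClosure := by
    intro T hT
    have h1 : closure ((StarAlgebra.adjoin ℂ
        (Set.range fun g => (θ g : l2 G₂ →L[ℂ] l2 G₂)) : Set (l2 G₂ →L[ℂ] l2 G₂))) ⊆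
        (fun T : l2 G₂ →L[ℂ] l2 G₂ => T (dlt 1)) ⁻¹' (V.topologicalClosure : Set (l2 G₂)) := by
      refine closure_minimal ?_ (V.isClosed_topologicalClosure.preimage (by fun_prop))
      intro S hS
      exact V.le_topologicalClosure ((hadj S hS).1 _ hv1)
    exact h1 hT
  have hsp : ⊤ ≤ (Submodule.span ℂ (Set.range v)).topologicalClosure := by
    rw [← aux_dense G₂]
    refine Submodule.topologicalClosure_minimal _ ?_ (Submodule.isClosed_topologicalClosure _)
    rw [Submodule.span_le]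
    rintro _ ⟨g, rfl⟩
    have h1 := hcl _ (hgen g)
    rw [lam_dlt, mul_one] at h1
    exact h1
  let b : HilbertBasis G₁ ℂ (l2 G₂) := HilbertBasis.mk hv hsp
  have hb : ∀ g, b g = v g := fun g => by
    show (HilbertBasis.mk hv hsp) g = v g
    rw [HilbertBasis.coe_mk]
  have hbr : ∀ g, b.repr (v g) = dlt g := fun g => by rw [← hb, aux_repr]
  have hbs : ∀ g, b.repr.symm (dlt g) = v g := fun g => by
    rw [← hbr, LinearIsometryEquiv.symm_apply_apply]
  have hΨ : ∀ g, b.repr.conjStarAlgEquiv (θ g : l2 G₂ →L[ℂ] l2 G₂) = lam g := by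
    intro g
    refine aux_ext fun x => ?_
    rw [LinearIsometryEquiv.conjStarAlgEquiv_apply_apply, hbs, lam_dlt]
    have h2 : (θ g : l2 G₂ →L[ℂ] l2 G₂) (v x) = v (g * x) := (hmul g x _).symm
    rw [h2, hbr]
  have hΨ' : ∀ g, b.repr.conjStarAlgEquiv.symm (lam g) = (θ g : l2 G₂ →L[ℂ] l2 G₂) := by
    intro g
    rw [← hΨ, StarAlgEquiv.symm_apply_apply]
  have hA : CR G₂ ≤ (StarAlgebra.adjoin ℂ
      (Set.range fun g => (θ g : l2 G₂ →L[ℂ] l2 G₂))).topologicalClosure := by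
    unfold CR CRs
    refine StarSubalgebra.topologicalClosure_minimal (StarAlgebra.adjoin_le ?_)
      (StarSubalgebra.isClosed_topologicalClosure _)
    rintro _ ⟨g, -, rfl⟩
    exact hgen g
  have c1 : ∀ T ∈ CR G₂, b.repr.conjStarAlgEquiv T ∈ CR G₁ := by
    have h1 : (StarAlgebra.adjoin ℂ
        (Set.range fun g => (θ g : l2 G₂ →L[ℂ] l2 G₂))).topologicalClosure ≤
        (CR G₁).comap (b.repr.conjStarAlgEquiv :
          (l2 G₂ →L[ℂ] l2 G₂) →⋆ₐ[ℂ] (l2 G₁ →L[ℂ] l2 G₁)) := by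
      refine StarSubalgebra.topologicalClosure_minimal (StarAlgebra.adjoin_le ?_) ?_
      · rintro _ ⟨g, rfl⟩
        show b.repr.conjStarAlgEquiv (θ g : l2 G₂ →L[ℂ] l2 G₂) ∈ CR G₁
        rw [hΨ]
        exact aux_lam_mem g
      · exact (StarSubalgebra.isClosed_topologicalClosure _).preimage (aux_cont b.repr)
    intro T hT
    exact h1 (hA hT)
  have c2 : ∀ T ∈ CR G₁, b.repr.conjStarAlgEquiv.symm T ∈ CR G₂ := by
    have h1 : CR G₁ ≤ (CR G₂).comap (b.repr.symm.conjStarAlgEquiv :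
          (l2 G₁ →L[ℂ] l2 G₁) →⋆ₐ[ℂ] (l2 G₂ →L[ℂ] l2 G₂)) := by
      refine StarSubalgebra.topologicalClosure_minimal (StarAlgebra.adjoin_le ?_) ?_
      · rintro _ ⟨g, -, rfl⟩
        show b.repr.conjStarAlgEquiv.symm (lam g) ∈ CR G₂
        rw [hΨ']
        exact hθ g
      · exact (StarSubalgebra.isClosed_topologicalClosure _).preimage (aux_cont b.repr.symm)
    intro T hT
    exact h1 hT
  exact ⟨{ toFun := fun T => ⟨b.repr.conjStarAlgEquiv.symm T, c2 T T.2⟩
           invFun := fun T => ⟨b.repr.conjStarAlgEquiv T, c1 T T.2⟩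
           left_inv := fun T => Subtype.ext (StarAlgEquiv.apply_symm_apply _ _)
           right_inv := fun T => Subtype.ext (StarAlgEquiv.symm_apply_apply _ _)
           map_mul' := fun S T => Subtype.ext (map_mul _ _ _)
           map_add' := fun S T => Subtype.ext (map_add _ _ _)
           map_star' := fun S => Subtype.ext (map_star _ _)
           map_smul' := fun c S => Subtype.ext (map_smul _ c _) }⟩

end N_iso

alias iso := N_iso.iso

end Pool.CS
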