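import Pool.Agent.Helper694.CS.Defs
set_option autoImplicit false

namespace Pool.CS


namespace N_trace_comm

theorem mem_closure_lam {G : Type} [Group G] {x : l2 G →L[ℂ] l2 G}
    (hx : x ∈ Submonoid.closure ((lam '' (Set.univ : Set G)) ∪ star (lam '' (Set.univ : Set G)))) :
    ∃ g : G, x = lam g := by
  induction hx using Submonoid.closure_induction with
  | mem x hx =>
    rcases hx with ⟨g, _, rfl⟩ | hx
    · exact ⟨g, rfl⟩
    · obtain ⟨g, _, hg⟩ := Set.mem_star.1 hx
      refine ⟨g⁻¹, ?_⟩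
      rw [← star_lam, hg, star_star]
  | one => exact ⟨1, lam_one.symm⟩
  | mul x y _ _ hx hy =>
    obtain ⟨g, rfl⟩ := hx
    obtain ⟨h, rfl⟩ := hy
    exact ⟨g * h, (lam_mul g h).symm⟩

theorem inner_dlt {G : Type} (x y : G) [Decidable (x = y)] :
    inner ℂ (dlt x) (dlt y) = if x = y then (1 : ℂ) else 0 := by
  classical
  unfold dlt
  rw [lp.inner_single_left]
  by_cases h : x = y
  · subst h
    simp [lp.single_apply]
  · simp [lp.single_apply, h]

theorem base {G : Type} [Group G] (g h : G) :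
    inner ℂ (dlt (1 : G)) ((lam g * lam h) (dlt 1)) = inner ℂ (dlt (1 : G)) ((lam h * lam g) (dlt 1)) := by
  classical
  rw [← lam_mul, ← lam_mul, lam_dlt, lam_dlt, mul_one, mul_one, inner_dlt, inner_dlt]
  have : (1 = g * h) ↔ (1 = h * g) := by
    constructor
    · intro e
      have : h = g⁻¹ := eq_inv_of_mul_eq_one_right e.symm
      rw [this, inv_mul_cancel]
    · intro e
      have : g = h⁻¹ := eq_inv_of_mul_eq_one_right e.symm
      rw [this, inv_mul_cancel]
  by_cases e : 1 = g * h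
  · rw [if_pos e, if_pos (this.1 e)]
  · rw [if_neg e, if_neg (fun e' => e (this.2 e'))]

theorem alg {G : Type} [Group G] {S T : l2 G →L[ℂ] l2 G}
    (hS : S ∈ StarAlgebra.adjoin ℂ (lam '' (Set.univ : Set G)))
    (hT : T ∈ StarAlgebra.adjoin ℂ (lam '' (Set.univ : Set G))) :
    inner ℂ (dlt (1 : G)) ((S * T) (dlt 1)) = inner ℂ (dlt (1 : G)) ((T * S) (dlt 1)) := by
  have hS' : S ∈ Submodule.span ℂ ((Submonoid.closure ((lam '' (Set.univ : Set G)) ∪
      star (lam '' (Set.univ : Set G))) : Submonoid (l2 G →L[ℂ] l2 G)) : Set (l2 G →L[ℂ] l2 G)) := by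
    rw [← StarAlgebra.adjoin_eq_span]; exact hS
  have hT' : T ∈ Submodule.span ℂ ((Submonoid.closure ((lam '' (Set.univ : Set G)) ∪
      star (lam '' (Set.univ : Set G))) : Submonoid (l2 G →L[ℂ] l2 G)) : Set (l2 G →L[ℂ] l2 G)) := by
    rw [← StarAlgebra.adjoin_eq_span]; exact hT
  refine Submodule.span_induction (p := fun S _ => inner ℂ (dlt (1 : G)) ((S * T) (dlt 1))
      = inner ℂ (dlt (1 : G)) ((T * S) (dlt 1))) ?_ ?_ ?_ ?_ hS'
  · intro x hx
    obtain ⟨g, rfl⟩ := mem_closure_lam hx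
    refine Submodule.span_induction (p := fun T _ => inner ℂ (dlt (1 : G)) ((lam g * T) (dlt 1))
      = inner ℂ (dlt (1 : G)) ((T * lam g) (dlt 1))) ?_ ?_ ?_ ?_ hT'
    · intro y hy
      obtain ⟨h, rfl⟩ := mem_closure_lam hy
      exact base g h
    · rw [mul_zero, zero_mul]
    · intro a b _ _ ha hb
      rw [mul_add, add_mul, ContinuousLinearMap.add_apply, ContinuousLinearMap.add_apply,
        inner_add_right, inner_add_right, ha, hb]
    · intro c a _ ha
      rw [mul_smul_comm, smul_mul_assoc, ContinuousLinearMap.smul_apply,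
        ContinuousLinearMap.smul_apply, inner_smul_right, inner_smul_right, ha]
  · rw [mul_zero, zero_mul]
  · intro a b _ _ ha hb
    rw [mul_add, add_mul, ContinuousLinearMap.add_apply, ContinuousLinearMap.add_apply,
      inner_add_right, inner_add_right, ha, hb]
  · intro c a _ ha
    rw [mul_smul_comm, smul_mul_assoc, ContinuousLinearMap.smul_apply,
      ContinuousLinearMap.smul_apply, inner_smul_right, inner_smul_right, ha]

/-- the canonical trace. -/
theorem trace_comm {G : Type} [Group G] {S T : l2 G →L[ℂ] l2 G} (hS : S ∈ CR G) (hT : T ∈ CR G) :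
    inner ℂ (dlt (1 : G)) ((S * T) (dlt 1)) = inner ℂ (dlt (1 : G)) ((T * S) (dlt 1)) := by
  have hev : ∀ v : l2 G, Continuous (fun A : l2 G →L[ℂ] l2 G => A v) := fun v =>
    (ContinuousLinearMap.apply ℂ (l2 G) v).continuous
  have hc1 : Continuous (fun p : (l2 G →L[ℂ] l2 G) × (l2 G →L[ℂ] l2 G) =>
      inner ℂ (dlt (1 : G)) ((p.1 * p.2) (dlt 1))) :=
    continuous_const.inner ((hev _).comp (continuous_fst.mul continuous_snd))
  have hc2 : Continuous (fun p : (l2 G →L[ℂ] l2 G) × (l2 G →L[ℂ] l2 G) =>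
      inner ℂ (dlt (1 : G)) ((p.2 * p.1) (dlt 1))) :=
    continuous_const.inner ((hev _).comp (continuous_snd.mul continuous_fst))
  have hcl : IsClosed {p : (l2 G →L[ℂ] l2 G) × (l2 G →L[ℂ] l2 G) |
      inner ℂ (dlt (1 : G)) ((p.1 * p.2) (dlt 1)) = inner ℂ (dlt (1 : G)) ((p.2 * p.1) (dlt 1))} :=
    isClosed_eq hc1 hc2
  set A : Set (l2 G →L[ℂ] l2 G) := (StarAlgebra.adjoin ℂ (lam '' (Set.univ : Set G)) : Set (l2 G →L[ℂ] l2 G))
    with hA
  have hS' : S ∈ closure A := hS
  have hT' : T ∈ closure A := hT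
  have hmem : (S, T) ∈ closure (A ×ˢ A) := by
    rw [closure_prod_eq]
    exact ⟨hS', hT'⟩
  have hsub : closure (A ×ˢ A) ⊆ {p : (l2 G →L[ℂ] l2 G) × (l2 G →L[ℂ] l2 G) |
      inner ℂ (dlt (1 : G)) ((p.1 * p.2) (dlt 1)) = inner ℂ (dlt (1 : G)) ((p.2 * p.1) (dlt 1))} := by
    refine closure_minimal ?_ hcl
    rintro ⟨a, b⟩ ⟨ha, hb⟩
    exact alg ha hb
  exact hsub hmem

end N_trace_comm

alias trace_comm := N_trace_comm.trace_comm

end Pool.CS
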