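import Pool.Agent.Helper694.CS.Defs
import Pool.Agent.Helper694.CS.J_iso
import Pool.Agent.Helper694.CS.J_trace_comm
set_option autoImplicit false

namespace Pool.CS


namespace N_lim_iso

theorem CRs_mono {G : Type} [Group G] {s t : Set G} (h : s ⊆ t) : CRs s ≤ CRs t :=
  StarSubalgebra.topologicalClosure_mono (StarAlgebra.adjoin_mono (Set.image_mono h))

theorem lam_mem {G : Type} [Group G] {s : Set G} {g : G} (h : g ∈ s) : lam g ∈ CRs s :=
  StarSubalgebra.le_topologicalClosure _ (StarAlgebra.subset_adjoin _ _ ⟨g, h, rfl⟩)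

/-- left translations as a homomorphism to the unitary group -/
noncomputable def lamU {G : Type} [Group G] : G →* unitary (l2 G →L[ℂ] l2 G) where
  toFun g := ⟨lam g, lam_mem_unitary g⟩
  map_one' := Subtype.ext lam_one
  map_mul' g h := Subtype.ext (lam_mul g h)

theorem inner_dlt {G : Type} [Group G] (g : G) (hg : g ≠ 1) :
    inner ℂ (dlt (1 : G)) (dlt g) = 0 := by
  classical
  have h : (dlt (1 : G)) = lp.single 2 (1 : G) (1 : ℂ) := by
    unfold dlt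
    congr!
  rw [h, lp.inner_single_left]
  have h2 : (dlt g : l2 G) 1 = 0 := by
    unfold dlt
    simp [lp.single_apply, Ne.symm hg]
  rw [h2, inner_zero_right]

theorem conj_val {A : Type*} [Ring A] [StarRing A] (u v : unitary A) :
    (u * v * u⁻¹).1 = u.1 * v.1 * star u.1 := rfl

theorem conj_cont {A : Type*} [NormedRing A] [StarRing A] [NormedAlgebra ℂ A] (u : unitary A) :
    Continuous (Unitary.conjStarAlgAut ℂ A u : A → A) := by
  have : (Unitary.conjStarAlgAut ℂ A u : A → A) = fun a => u.1 * a * star u.1 := rfl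
  rw [this]
  exact (continuous_const.mul continuous_id).mul continuous_const

theorem gen_aux {G : Type} [Group G] (s : Set G) (V : unitary (l2 G →L[ℂ] l2 G))
    (hV : V.1 ∈ CRs s) (A' : StarSubalgebra ℂ (l2 G →L[ℂ] l2 G))
    (hcl : IsClosed (A' : Set (l2 G →L[ℂ] l2 G)))
    (h : ∀ g ∈ s, V.1 * lam g * star V.1 ∈ A') : ∀ g ∈ s, lam g ∈ A' := by
  have hstarV : star V.1 * V.1 = 1 := (Unitary.mem_iff.1 V.2).1
  have hVstar : V.1 * star V.1 = 1 := (Unitary.mem_iff.1 V.2).2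
  have hle : CRs s ≤ A'.comap ((Unitary.conjStarAlgAut ℂ (l2 G →L[ℂ] l2 G) V :
      (l2 G →L[ℂ] l2 G) ≃⋆ₐ[ℂ] (l2 G →L[ℂ] l2 G)) : (l2 G →L[ℂ] l2 G) →⋆ₐ[ℂ] (l2 G →L[ℂ] l2 G)) := by
    refine StarSubalgebra.topologicalClosure_minimal ?_ ?_
    · refine StarAlgebra.adjoin_le ?_
      rintro _ ⟨g, hg, rfl⟩
      exact h g hg
    · exact hcl.preimage (conj_cont V)
  have claim1 : ∀ a ∈ CRs s, V.1 * a * star V.1 ∈ A' := fun a ha => hle ha
  have claim2 : V.1 ∈ A' := by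
    have := claim1 _ hV
    rwa [mul_assoc, hVstar, mul_one] at this
  intro g hg
  have h3 := h g hg
  have h4 : lam g = star V.1 * (V.1 * lam g * star V.1) * V.1 := by
    rw [mul_assoc, mul_assoc, mul_assoc, hstarV, mul_one, ← mul_assoc, hstarV, one_mul]
  rw [h4]
  exact mul_mem (mul_mem (star_mem claim2) h3) claim2

theorem mem_aux {G : Type} [Group G] (V : unitary (l2 G →L[ℂ] l2 G)) (hV : V.1 ∈ CR G) (g : G) :
    V.1 * lam g * star V.1 ∈ CR G := by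
  have h1 : lam g ∈ CR G := lam_mem (Set.mem_univ g)
  exact mul_mem (mul_mem hV h1) (star_mem hV)

theorem trace_aux {G : Type} [Group G] (V : unitary (l2 G →L[ℂ] l2 G)) (hV : V.1 ∈ CR G) (g : G)
    (hg : g ≠ 1) : inner ℂ (dlt (1 : G)) ((V.1 * lam g * star V.1) (dlt 1)) = 0 := by
  have hstarV : star V.1 * V.1 = 1 := (Unitary.mem_iff.1 V.2).1
  have h1 : lam g ∈ CR G := lam_mem (Set.mem_univ g)
  have h2 := trace_comm (mul_mem hV h1) (star_mem hV)
  rw [h2, ← mul_assoc, hstarV, one_mul, lam_dlt, mul_one]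
  exact inner_dlt _ hg

theorem grp_aux {U : Type*} [Group U] (v w x y : U) (h : w * x * w⁻¹ = y) :
    (v * w) * x * (v * w)⁻¹ = v * y * v⁻¹ := by
  subst h; group

theorem exists_V {S : Type} [Group S] (T : Tower S) (L2 : Lim T.e2) :
    ∃ V : ℕ → unitary (l2 L2.Γ →L[ℂ] l2 L2.Γ),
      (∀ n, (V n).1 ∈ CRs (Set.range (L2.j n))) ∧
      ∀ n (p : T.P n), V (n + 1) * lamU (L2.j (n + 1) (T.e1 n p)) * (V (n + 1))⁻¹ =
        V n * lamU (L2.j n p) * (V n)⁻¹ := by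
  have hW : ∀ n, ∃ W : unitary (l2 L2.Γ →L[ℂ] l2 L2.Γ), W.1 ∈ CRs (Set.range (L2.j (n + 1))) ∧
      ∀ p : T.P n, W * lamU (L2.j (n + 1) (T.e1 n p)) * W⁻¹ = lamU (L2.j n p) := by
    intro n
    obtain ⟨W, h1, h2, h3⟩ := (T.rel n).2.2.2.2.2.2 L2.Γ (L2.j (n + 1)) (L2.inj (n + 1))
    refine ⟨⟨W, h2⟩, h1, fun p => ?_⟩
    apply Subtype.ext
    rw [conj_val]
    have h4 := h3 p
    rw [L2.comm] at h4
    exact h4
  choose W hW1 hW2 using hW
  have hmono : ∀ n, CRs (Set.range (L2.j n)) ≤ CRs (Set.range (L2.j (n + 1))) := by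
    intro n
    apply CRs_mono
    rintro _ ⟨p, rfl⟩
    exact ⟨T.e2 n p, L2.comm n p⟩
  obtain ⟨V, hV0, hVs⟩ : ∃ V : ℕ → unitary (l2 L2.Γ →L[ℂ] l2 L2.Γ), V 0 = 1 ∧
      ∀ n, V (n + 1) = V n * W n :=
    ⟨fun n => Nat.rec 1 (fun n v => v * W n) n, rfl, fun n => rfl⟩
  refine ⟨V, ?_, ?_⟩
  · intro n
    induction n with
    | zero =>
      rw [hV0]
      exact one_mem _
    | succ n ih =>
      rw [hVs]
      exact mul_mem (hmono n ih) (hW1 n)
  · intro n p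
    rw [hVs]
    exact grp_aux _ _ _ _ (hW2 n p)

theorem lim_iso {S : Type} [Group S] (T : Tower S) (L1 : Lim T.e1) (L2 : Lim T.e2) :
    Nonempty (↥(CR L1.Γ) ≃⋆ₐ[ℂ] ↥(CR L2.Γ)) := by
  obtain ⟨V, hVA, hVc⟩ := exists_V T L2
  have hVCR : ∀ n, (V n).1 ∈ CR L2.Γ := fun n => CRs_mono (Set.subset_univ _) (hVA n)
  obtain ⟨θ, hθv⟩ : ∃ θ : ∀ n, T.P n →* unitary (l2 L2.Γ →L[ℂ] l2 L2.Γ), ∀ n (p : T.P n),
      θ n p = V n * lamU (L2.j n p) * (V n)⁻¹ :=
    ⟨fun n => (MulAut.conj (V n)).toMonoidHom.comp (lamU.comp (L2.j n)), fun n p => rfl⟩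
  have hθc : ∀ n (p : T.P n), (θ n p).1 = (V n).1 * lam (L2.j n p) * star (V n).1 := by
    intro n p
    rw [hθv, conj_val]
    rfl
  have hcomp : ∀ n p, θ (n + 1) (T.e1 n p) = θ n p := by
    intro n p
    rw [hθv, hθv, hVc]
  obtain ⟨Θ, hΘ⟩ := L1.desc _ θ hcomp
  have hΘc : ∀ n (p : T.P n), (Θ (L1.j n p)).1 = (V n).1 * lam (L2.j n p) * star (V n).1 := by
    intro n p
    rw [hΘ n p, hθc n p]
  refine iso Θ ?_ ?_ ?_
  · intro g
    obtain ⟨n, p, rfl⟩ := L1.surj g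
    rw [hΘc n p]
    exact mem_aux (V n) (hVCR n) _
  · intro g hg
    obtain ⟨n, p, rfl⟩ := L1.surj g
    have hp : p ≠ 1 := by
      rintro rfl
      exact hg (map_one _)
    have hjp : L2.j n p ≠ 1 := by
      intro h
      exact hp (L2.inj n (by rw [h, map_one]))
    rw [hΘc n p]
    exact trace_aux (V n) (hVCR n) _ hjp
  · intro g
    obtain ⟨n, p, rfl⟩ := L2.surj g
    refine gen_aux (Set.range (L2.j n)) (V n) (hVA n) _
      (StarSubalgebra.isClosed_topologicalClosure _) ?_ _ ⟨p, rfl⟩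
    rintro _ ⟨p', rfl⟩
    rw [← hΘc n p']
    exact StarSubalgebra.le_topologicalClosure _ (StarAlgebra.subset_adjoin _ _ ⟨_, rfl⟩)

end N_lim_iso

alias lim_iso := N_lim_iso.lim_iso

end Pool.CS
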