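import Pool.Agent.Helper694.CS.Defs
set_option autoImplicit false

namespace Pool.CS


namespace N_lim_simple1

theorem j_push {P : ℕ → Type} [∀ n, Group (P n)] {e : ∀ n, P n →* P (n + 1)} (L : Lim e)
    (m d : ℕ) (p : P m) : L.j (m + d) (push e m d p) = L.j m p := by
  induction d with
  | zero => rfl
  | succ d ih =>
    have h1 : push e m (d + 1) p = e (m + d) (push e m d p) := rfl
    rw [h1]
    have h2 := L.comm (m + d) (push e m d p)
    rw [ih] at h2
    exact h2

theorem conj_push {S : Type} [Group S] (T : Tower S) (m d : ℕ) (p : T.P m) :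
    ∃ h : T.P (m + d), push T.e1 m d p = h * push T.e2 m d p * h⁻¹ := by
  induction d with
  | zero => exact ⟨1, by simp [push]⟩
  | succ d ih =>
    obtain ⟨h, hh⟩ := ih
    obtain ⟨h', hh'⟩ := (T.rel (m + d)).2.2.2.1 (push T.e2 m d p)
    refine ⟨T.e1 (m + d) h * h', ?_⟩
    have h1 : push T.e1 m (d + 1) p = T.e1 (m + d) (push T.e1 m d p) := rfl
    have h2 : push T.e2 m (d + 1) p = T.e2 (m + d) (push T.e2 m d p) := rfl
    rw [h1, h2, hh, map_mul, map_mul, hh', map_inv]
    group

theorem lim_simple1 {S : Type} [Group S] (T : Tower S) (L : Lim T.e1) : IsSimpleGroup L.Γ := by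
  -- transfer of the tasks
  have key : ∀ (N : Subgroup L.Γ), N.Normal → ∀ (n : ℕ) (x : T.P n), x ≠ 1 → L.j n x ∈ N →
      N.comap (L.j n) = ⊤ := by
    intro N hN n x hx hxN
    have hG : T.G n ⊆ (N.comap (L.j n) : Subgroup (T.P n)) := by
      intro y hy
      obtain ⟨d, hd⟩ := T.task n x y hx hy
      obtain ⟨h, hh⟩ := conj_push T n d x
      obtain ⟨h', hh'⟩ := conj_push T n d y
      have hle : Subgroup.normalClosure {push T.e2 n d x} ≤ N.comap (L.j (n + d)) := by
        have hnorm : (N.comap (L.j (n + d))).Normal := hN.comap _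
        refine Subgroup.normalClosure_le_normal ?_
        rintro _ rfl
        have h1 : push T.e1 n d x ∈ N.comap (L.j (n + d)) := by
          rw [Subgroup.mem_comap, j_push]
          exact hxN
        have h2 := hnorm.conj_mem _ h1 h⁻¹
        have h3 : h⁻¹ * push T.e1 n d x * h⁻¹⁻¹ = push T.e2 n d x := by
          rw [hh]; group
        rw [h3] at h2
        exact h2
      have hnorm : (N.comap (L.j (n + d))).Normal := hN.comap _
      have h4 := hnorm.conj_mem _ (hle hd) h'
      rw [← hh', Subgroup.mem_comap, j_push] at h4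
      exact h4
    have hnorm : (N.comap (L.j n)).Normal := hN.comap _
    have h5 := Subgroup.normalClosure_le_normal hG
    rw [(T.good n).gen] at h5
    exact top_le_iff.1 h5
  have hnt : Nontrivial L.Γ := by
    have h1 : Function.Injective (L.j 0 ∘ T.J 0) := (L.inj 0).comp (T.good 0).inj
    exact h1.nontrivial
  refine { toNontrivial := hnt, eq_bot_or_eq_top_of_normal := fun N hN => ?_ }
  by_cases hbot : N = ⊥
  · exact Or.inl hbot
  · right
    obtain ⟨γ0, hγ0⟩ := Subgroup.ne_bot_iff_exists_ne_one.1 hbot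
    obtain ⟨γ, hγ⟩ := γ0
    have hγ1 : γ ≠ 1 := fun h' => hγ0 (Subtype.ext h')
    obtain ⟨m, p, hp⟩ := L.surj γ
    rw [eq_top_iff]
    intro γ' _
    obtain ⟨n', p', hp'⟩ := L.surj γ'
    obtain ⟨d, hd⟩ := Nat.exists_eq_add_of_le (Nat.le_add_left m n')
    have htop : N.comap (L.j (n' + m)) = ⊤ := by
      rw [hd]
      refine key N hN (m + d) (push T.e1 m d p) ?_ ?_
      · intro h1
        apply hγ1
        rw [← hp, ← j_push L m d p, h1, map_one]
      · rw [j_push, hp]
        exact hγ
    have h2 : push T.e1 n' m p' ∈ N.comap (L.j (n' + m)) := by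
      rw [htop]; trivial
    rw [Subgroup.mem_comap, j_push, hp'] at h2
    exact h2

end N_lim_simple1

alias lim_simple1 := N_lim_simple1.lim_simple1

end Pool.CS
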