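import Pool.Agent.Helper694.CS.Defs
set_option autoImplicit false

namespace Pool.CS


namespace N_lim_simple2

theorem j_push {P : ℕ → Type} [∀ n, Group (P n)] {e : ∀ n, P n →* P (n + 1)} (L : Lim e)
    (m : ℕ) : ∀ (d : ℕ) (p : P m), L.j (m + d) (push e m d p) = L.j m p
  | 0, p => rfl
  | d + 1, p => by
    show L.j (m + d + 1) (e (m + d) (push e m d p)) = L.j m p
    rw [L.comm, j_push L m d p]

theorem lim_simple2 {S : Type} [Group S] (T : Tower S) (L : Lim T.e2) : IsSimpleGroup L.Γ := by
  have hnt : Nontrivial L.Γ := by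
    have h1 : (FreeGroup.of (0 : Fin 2)) ≠ (1 : F2) := FreeGroup.of_ne_one 0
    refine ⟨⟨L.j 0 (T.J 0 (FreeGroup.of 0)), 1, fun h => h1 ?_⟩⟩
    apply (T.good 0).inj
    apply L.inj 0
    rw [h, map_one, map_one]
  refine { toNontrivial := hnt, eq_bot_or_eq_top_of_normal := fun N hN => ?_ }
  by_cases hbot : N = ⊥
  · exact Or.inl hbot
  right
  obtain ⟨x, hxN, hx1⟩ : ∃ x ∈ N, x ≠ 1 := by
    by_contra hcon
    push Not at hcon
    exact hbot ((Subgroup.eq_bot_iff_forall N).2 hcon)
  obtain ⟨m, p, rfl⟩ := L.surj x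
  have key : ∀ d : ℕ, N.comap (L.j (m + d)) = ⊤ := by
    intro d
    rw [eq_top_iff, ← (T.good (m + d)).gen]
    have : (N.comap (L.j (m + d))).Normal := hN.comap _
    refine Subgroup.normalClosure_le_normal ?_
    intro y hy
    have hp : push T.e2 m d p ≠ 1 := by
      intro h
      apply hx1
      rw [← j_push L m d p, h, map_one]
    obtain ⟨d', hd'⟩ := T.task (m + d) (push T.e2 m d p) y hp hy
    have hle : Subgroup.normalClosure {push T.e2 (m + d) d' (push T.e2 m d p)} ≤
        N.comap (L.j (m + d + d')) := by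
      have : (N.comap (L.j (m + d + d'))).Normal := hN.comap _
      refine Subgroup.normalClosure_le_normal ?_
      intro z hz
      rw [Set.mem_singleton_iff] at hz
      subst hz
      show L.j (m + d + d') (push T.e2 (m + d) d' (push T.e2 m d p)) ∈ N
      rw [j_push, j_push]
      exact hxN
    have h2 := hle hd'
    show L.j (m + d) y ∈ N
    rw [← j_push L (m + d) d' y]
    exact h2
  rw [eq_top_iff]
  intro z _
  obtain ⟨n, q, rfl⟩ := L.surj z
  have hup : ∀ k, n ≤ k → ∃ q' : T.P k, L.j k q' = L.j n q := by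
    intro k hk
    induction k, hk using Nat.le_induction with
    | base => exact ⟨q, rfl⟩
    | succ k hk ih =>
      obtain ⟨q', hq'⟩ := ih
      exact ⟨T.e2 k q', by rw [L.comm, hq']⟩
  obtain ⟨q', hq'⟩ := hup (m + n) (Nat.le_add_left n m)
  rw [← hq']
  have : q' ∈ N.comap (L.j (m + n)) := by rw [key n]; trivial
  exact this

end N_lim_simple2

alias lim_simple2 := N_lim_simple2.lim_simple2

end Pool.CS
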