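import Pool.Agent.Helper694.CS.Defs
set_option autoImplicit false

namespace Pool.CS


namespace N_lim_tf

theorem lim_tf {S : Type} [Group S] (T : Tower S) (e : ∀ n, T.P n →* T.P (n + 1)) (L : Lim e)
    (x : L.Γ) (hx : x ≠ 1) : ¬ IsOfFinOrder x := by
  intro h
  obtain ⟨n, p, rfl⟩ := L.surj x
  have hp : p ≠ 1 := fun h1 => hx (by rw [h1, map_one])
  exact (T.good n).tf p hp (((L.inj n).isOfFinOrder_iff).1 h)

end N_lim_tf

alias lim_tf := N_lim_tf.lim_tf

end Pool.CS
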