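import Pool.Agent.Helper694.CS.Defs
set_option autoImplicit false

namespace Pool.CS


namespace N_V_eq

theorem ppi_lam (f : D3) (g : C5) : ppi f * lam g = lam (actE f g) * ppi f := by
  ext h x
  change h (g⁻¹ * (actM f).symm x) = h ((actM f).symm ((actE f g)⁻¹ * x))
  have e1 : (actM f).symm (actE f g) = g := (actM f).symm_apply_apply g
  rw [map_mul, map_inv, e1]

theorem ppi_mul (f g : D3) : ppi f * ppi g = ppi (f * g) := by
  unfold ppi
  rw [pmL_mul]
  congr 1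
  ext x
  change actM f (actM g x) = actM (f * g) x
  rw [map_mul]
  rfl

theorem sum3 {M : Type} [AddCommMonoid M] (F : ZMod 3 → M) : ∑ i, F i = F 0 + F 1 + F 2 :=
  Fin.sum_univ_three F

/-- the sum of rotations and reflections -/
def eqv : ZMod 3 ⊕ ZMod 3 ≃ D3 where
  toFun
    | .inl i => .r i
    | .inr i => .sr i
  invFun
    | .r i => .inl i
    | .sr i => .inr i
  left_inv := by rintro (i | i) <;> rfl
  right_inv := by rintro (i | i) <;> rfl

theorem sumD {M : Type} [AddCommMonoid M] (F : D3 → M) :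
    ∑ f, F f = (F (.r 0) + F (.r 1) + F (.r 2)) + (F (.sr 0) + F (.sr 1) + F (.sr 2)) := by
  rw [← eqv.sum_comp F, Fintype.sum_sum_type, sum3, sum3]
  rfl

theorem key1 (j : ZMod 3) : lam (FreeGroup.of 4) * (ppi (.r j) * star (lam (FreeGroup.of 0)))
    = lam (FreeGroup.of 4 * (tt (.r j))⁻¹) * ppi (.r j) := by
  have e0 : (FreeGroup.of 0 : C5) = tt (.r 0) := rfl
  have e1 : (DihedralGroup.r j : D3) * DihedralGroup.r 0 = DihedralGroup.r j := by
    rw [DihedralGroup.r_mul_r, add_zero]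
  rw [star_lam, ppi_lam, map_inv, e0, actE_tt, e1, lam_mul, mul_assoc]

theorem key2 (j : ZMod 3) : ppi (.sr 0) * (lam (FreeGroup.of 4 * (tt (.r j))⁻¹) * ppi (.r j))
    = lam (FreeGroup.of 4 * (tt (.sr j))⁻¹) * ppi (.sr j) := by
  have e1 : (DihedralGroup.sr 0 : D3) * DihedralGroup.r j = DihedralGroup.sr j := by
    rw [DihedralGroup.sr_mul_r, zero_add]
  rw [← mul_assoc, ppi_lam, map_mul, map_inv, actE_z, actE_tt, mul_assoc, ppi_mul, e1]

theorem V_eq (ω : ℂ) (hω : ω ^ 2 + ω + 1 = 0) : VV ω = (1 + ppi (.sr 0)) * lam (FreeGroup.of 4) *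
      ((1 / 3 : ℂ) • (ppi (.r 0) + ω ^ 2 • ppi (.r 1) + ω • ppi (.r 2))) *
      star (lam (FreeGroup.of 0)) := by
  have h4 : ω ^ 4 = ω := by linear_combination (ω ^ 2 - ω) * hω
  have k0 : kap ω (.r 0) = 1 / 3 := by
    change ω ^ (2 * 0) / 3 = 1 / 3
    norm_num
  have k1 : kap ω (.r 1) = ω ^ 2 / 3 := by
    change ω ^ (2 * 1) / 3 = ω ^ 2 / 3
    norm_num
  have k2 : kap ω (.r 2) = ω / 3 := by
    change ω ^ (2 * 2) / 3 = ω / 3
    rw [show 2 * 2 = 4 from rfl, h4]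
  have s0 : kap ω (.sr 0) = 1 / 3 := k0
  have s1 : kap ω (.sr 1) = ω ^ 2 / 3 := k1
  have s2 : kap ω (.sr 2) = ω / 3 := k2
  unfold VV
  rw [sumD, k0, k1, k2, s0, s1, s2]
  simp only [add_mul, mul_add, smul_mul_assoc, mul_smul_comm, one_mul, mul_assoc, key1, key2,
    smul_add]
  module

end N_V_eq

alias V_eq := N_V_eq.V_eq

end Pool.CS
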