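import Pool.Agent.Helper694.CS.Defs
set_option autoImplicit false

namespace Pool.CS


namespace N_CR_comm_rho

private theorem rho_mul {G : Type} [Group G] (g h : G) : rho (g * h) = rho g * rho h := by
  ext f x
  show rho (g * h) f x = rho g (rho h f) x
  rw [rho_apply, rho_apply, rho_apply, mul_assoc]

private theorem rho_one {G : Type} [Group G] : rho (1 : G) = 1 := by
  ext f x
  rw [rho_apply, mul_one]
  rfl

private theorem star_rho {G : Type} [Group G] (g : G) : star (rho g) = rho g⁻¹ := by
  have h1 : star (rho g) * rho g = 1 := by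
    have := (ContinuousLinearMap.inner_map_map_iff_adjoint_comp_self (rho g)).1
      (fun x y => (pm (Equiv.mulRight g⁻¹)).inner_map_map x y)
    exact this
  have h2 : rho g * rho g⁻¹ = 1 := by rw [← rho_mul, mul_inv_cancel, rho_one]
  calc star (rho g) = star (rho g) * (rho g * rho g⁻¹) := by rw [h2, mul_one]
    _ = rho g⁻¹ := by rw [← mul_assoc, h1, one_mul]

private theorem lam_comm_rho {G : Type} [Group G] (h g : G) : rho g * lam h = lam h * rho g := by
  ext f x
  show rho g (lam h f) x = lam h (rho g f) x
  rw [rho_apply, lam_apply, lam_apply, rho_apply, mul_assoc]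

/-- elements of the reduced C*-algebra commute with right translations. -/
theorem CR_comm_rho {G : Type} [Group G] {s : Set G} {T : l2 G →L[ℂ] l2 G} (hT : T ∈ CRs s) (g : G) :
    rho g * T = T * rho g := by
  have hadj : ∀ T ∈ StarAlgebra.adjoin ℂ (lam '' s), ∀ g : G, rho g * T = T * rho g := by
    intro T hT
    induction hT using StarAlgebra.adjoin_induction with
    | mem x hx =>
      obtain ⟨h, -, rfl⟩ := hx
      exact fun g => lam_comm_rho h g
    | algebraMap c => exact fun g => (Algebra.commutes c (rho g)).symm
    | add x y _ _ hx hy => intro g; rw [mul_add, add_mul, hx, hy]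
    | mul x y _ _ hx hy => intro g; rw [← mul_assoc, hx, mul_assoc, hy, mul_assoc]
    | star x _ hx =>
      intro g
      have h := congrArg star (hx g⁻¹)
      rw [star_mul, star_mul, star_rho, inv_inv] at h
      exact h.symm
  have hcl : IsClosed {T : l2 G →L[ℂ] l2 G | rho g * T = T * rho g} :=
    isClosed_eq (continuous_const.mul continuous_id) (continuous_id.mul continuous_const)
  have hsub : ((StarAlgebra.adjoin ℂ (lam '' s) : StarSubalgebra ℂ (l2 G →L[ℂ] l2 G)) :
      Set (l2 G →L[ℂ] l2 G)) ⊆ {T : l2 G →L[ℂ] l2 G | rho g * T = T * rho g} :=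
    fun x hx => hadj x hx g
  exact closure_minimal hsub hcl hT

end N_CR_comm_rho

alias CR_comm_rho := N_CR_comm_rho.CR_comm_rho

end Pool.CS
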