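import Pool.Agent.Helper694.CS.Defs
set_option autoImplicit false

namespace Pool.CS


namespace N_normF

theorem seq_bound (b : ℕ → ℝ) (K M : ℝ) (hb : ∀ m, 0 ≤ b m) (hM : 0 ≤ M)
    (h1 : ∀ m, b m ^ 2 ≤ b 0 * b (m + m)) (h2 : ∀ m, b m ≤ K * M ^ m) : b 1 ≤ M * b 0 := by
  by_contra hcon
  push Not at hcon
  have hb0 : 0 < b 0 := by
    rcases (hb 0).eq_or_lt with h | h
    · have h3 := h1 1
      rw [← h, zero_mul] at h3
      rw [← h, mul_zero] at hcon
      nlinarith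
    · exact h
  set t : ℝ := b 1 / b 0 with ht
  have hb1 : b 1 = t * b 0 := by
    rw [ht]
    field_simp
  have htM : M < t := by
    rw [ht, lt_div_iff₀ hb0]
    exact hcon
  have ht0 : 0 < t := lt_of_le_of_lt hM htM
  have hk : ∀ k : ℕ, t ^ (2 ^ k) * b 0 ≤ b (2 ^ k) := by
    intro k
    induction k with
    | zero =>
      rw [pow_zero, pow_one, hb1]
    | succ k ih =>
      have h3 := h1 (2 ^ k)
      have e1 : 2 ^ k + 2 ^ k = 2 ^ (k + 1) := by ring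
      rw [e1] at h3
      have h4 : (t ^ (2 ^ k) * b 0) ^ 2 ≤ b (2 ^ k) ^ 2 := pow_le_pow_left₀ (by positivity) ih 2
      have h5 : t ^ (2 ^ (k + 1)) = (t ^ (2 ^ k)) ^ 2 := by
        rw [← pow_mul, pow_succ]
      rw [h5]
      have h6 : ((t ^ (2 ^ k)) ^ 2 * b 0) * b 0 ≤ b (2 ^ (k + 1)) * b 0 := by
        calc ((t ^ (2 ^ k)) ^ 2 * b 0) * b 0 = (t ^ (2 ^ k) * b 0) ^ 2 := by ring
          _ ≤ b 0 * b (2 ^ (k + 1)) := h4.trans h3
          _ = b (2 ^ (k + 1)) * b 0 := mul_comm _ _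
      exact le_of_mul_le_mul_right h6 hb0
  have hk2 : ∀ k : ℕ, t ^ (2 ^ k) * b 0 ≤ K * M ^ (2 ^ k) := fun k => (hk k).trans (h2 _)
  rcases hM.eq_or_lt with hM0 | hM0
  · have h3 := hk2 0
    rw [← hM0] at h3
    simp at h3
    have : 0 < t * b 0 := by positivity
    linarith
  · have h3 : 1 < t / M := by
      rw [lt_div_iff₀ hM0, one_mul]
      exact htM
    obtain ⟨n, hn⟩ := pow_unbounded_of_one_lt (K / b 0) h3
    have h4 : (t / M) ^ n ≤ (t / M) ^ (2 ^ n) :=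
      pow_le_pow_right₀ h3.le (Nat.lt_two_pow_self).le
    have h5 := hk2 n
    have h6 : (t / M) ^ (2 ^ n) ≤ K / b 0 := by
      rw [div_pow, div_le_div_iff₀ (by positivity) hb0]
      exact h5
    linarith

theorem dlt_smul {α : Type} [DecidableEq α] (x : α) (c : ℂ) :
    (lp.single 2 x c : l2 α) = c • dlt x := by
  classical
  ext b
  unfold dlt
  by_cases h : b = x
  · subst h
    simp [lp.single_apply]
  · simp [lp.single_apply, h]

/-- norm formula for positive elements commuting with right translations. -/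
theorem normF {G : Type} [Group G] (d : l2 G →L[ℂ] l2 G) (hd : d.IsPositive)
    (hr : ∀ g, rho g * d = d * rho g) (M : ℝ) (hM : 0 ≤ M)
    (h : ∀ n : ℕ, ‖inner ℂ (dlt (1 : G)) ((d ^ n) (dlt 1))‖ ≤ M ^ n) (ξ : l2 G) :
    (inner ℂ ξ (d ξ)).re ≤ M * ‖ξ‖ ^ 2 := by
  classical
  have hsa : ∀ m : ℕ, IsSelfAdjoint (d ^ m) := fun m => hd.isSelfAdjoint.pow m
  have hsym : ∀ (m : ℕ) (x y : l2 G), inner ℂ ((d ^ m) x) y = inner ℂ x ((d ^ m) y) := fun m x y =>
    (ContinuousLinearMap.isSelfAdjoint_iff_isSymmetric.1 (hsa m)) x y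
  have hsq : ∀ (m : ℕ) (x : l2 G), ‖(d ^ m) x‖ ^ 2 = (inner ℂ x ((d ^ (m + m)) x)).re := by
    intro m x
    have h1 : (inner ℂ ((d ^ m) x) ((d ^ m) x)).re = ‖(d ^ m) x‖ ^ 2 :=
      inner_self_eq_norm_sq (𝕜 := ℂ) _
    rw [← h1, hsym, pow_add]
    rfl
  -- norms of the images of point masses
  have hone : ∀ m : ℕ, ‖(d ^ m) (dlt (1 : G))‖ ≤ M ^ m := by
    intro m
    have h1 : ‖(d ^ m) (dlt (1 : G))‖ ^ 2 ≤ (M ^ m) ^ 2 := by
      rw [hsq]
      calc (inner ℂ (dlt (1 : G)) ((d ^ (m + m)) (dlt 1))).re ≤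
          ‖inner ℂ (dlt (1 : G)) ((d ^ (m + m)) (dlt 1))‖ := Complex.re_le_norm _
        _ ≤ M ^ (m + m) := h _
        _ = (M ^ m) ^ 2 := by rw [← pow_mul, mul_two]
    exact le_of_sq_le_sq h1 (by positivity)
  have hcomm : ∀ (g : G) (m : ℕ), rho g * d ^ m = d ^ m * rho g := by
    intro g m
    have : Commute (rho g) d := hr g
    exact (this.pow_right m).eq
  have hrn : ∀ (g : G) (x : l2 G), ‖rho g x‖ = ‖x‖ := fun g x =>
    (pm (Equiv.mulRight g⁻¹)).norm_map x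
  have hg : ∀ (g : G) (m : ℕ), ‖(d ^ m) (dlt g)‖ ≤ M ^ m := by
    intro g m
    have h1 : dlt g = rho g⁻¹ (dlt (1 : G)) := by
      rw [rho_dlt]
      simp
    have h2 : (d ^ m) (rho g⁻¹ (dlt (1 : G))) = rho g⁻¹ ((d ^ m) (dlt 1)) := by
      have := hcomm g⁻¹ m
      exact (DFunLike.congr_fun this (dlt (1 : G))).symm
    rw [h1, h2, hrn]
    exact hone m
  -- the estimate for vectors with controlled growth
  have hmain : ∀ x : l2 G, (∃ K, ∀ m : ℕ, ‖(d ^ m) x‖ ≤ K * M ^ m) →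
      (inner ℂ x (d x)).re ≤ M * ‖x‖ ^ 2 := by
    rintro x ⟨K, hK⟩
    have h1 := seq_bound (fun m => ‖(d ^ m) x‖) K M (fun m => norm_nonneg _) hM (by
      intro m
      show ‖(d ^ m) x‖ ^ 2 ≤ ‖(d ^ 0) x‖ * ‖(d ^ (m + m)) x‖
      rw [hsq]
      refine (Complex.re_le_norm _).trans ((norm_inner_le_norm _ _).trans ?_)
      rw [pow_zero]
      rfl) hK
    have h2 : ‖d x‖ ≤ M * ‖x‖ := by
      have h3 : ‖(d ^ 1) x‖ ≤ M * ‖(d ^ 0) x‖ := h1
      rw [pow_one, pow_zero] at h3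
      exact h3
    calc (inner ℂ x (d x)).re ≤ ‖inner ℂ x (d x)‖ := Complex.re_le_norm _
      _ ≤ ‖x‖ * ‖d x‖ := norm_inner_le_norm _ _
      _ ≤ ‖x‖ * (M * ‖x‖) := mul_le_mul_of_nonneg_left h2 (norm_nonneg _)
      _ = M * ‖x‖ ^ 2 := by ring
  -- finitely supported vectors
  have hfin : ∀ s : Finset G, (inner ℂ (∑ g ∈ s, lp.single (E := fun _ : G => ℂ) 2 g (ξ g))
      (d (∑ g ∈ s, lp.single (E := fun _ : G => ℂ) 2 g (ξ g)))).re ≤
      M * ‖∑ g ∈ s, lp.single (E := fun _ : G => ℂ) 2 g (ξ g)‖ ^ 2 := by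
    intro s
    apply hmain
    refine ⟨∑ g ∈ s, ‖ξ g‖, ?_⟩
    intro m
    rw [map_sum, Finset.sum_mul]
    refine (norm_sum_le _ _).trans (Finset.sum_le_sum ?_)
    intro g _
    rw [dlt_smul, map_smul, norm_smul]
    exact mul_le_mul_of_nonneg_left (hg g m) (norm_nonneg _)
  have hlim : HasSum (fun g => lp.single (E := fun _ : G => ℂ) 2 g (ξ g)) ξ :=
    lp.hasSum_single (by norm_num) ξ
  have hclosed : IsClosed {x : l2 G | (inner ℂ x (d x)).re ≤ M * ‖x‖ ^ 2} := by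
    apply isClosed_le
    · exact Complex.continuous_re.comp (continuous_id.inner d.continuous)
    · exact continuous_const.mul (continuous_norm.pow 2)
  exact hclosed.mem_of_tendsto hlim (Filter.Eventually.of_forall hfin)

end N_normF

alias normF := N_normF.normF

end Pool.CS
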