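import Pool.Agent.Helper694.CS.Defs
import Pool.Agent.Helper694.CS.J_CR_comm_rho
import Pool.Agent.Helper694.CS.J_normF
set_option autoImplicit false

namespace Pool.CS


namespace N_below

theorem pmL_symm_mul {C : Type} (e : C ≃ C) : pmL e.symm * pmL e = 1 := by
  ext f b
  show f (e.symm (e.symm.symm b)) = f b
  simp

theorem pmL_mul_symm {C : Type} (e : C ≃ C) : pmL e * pmL e.symm = 1 := by
  ext f b
  show f (e.symm.symm (e.symm b)) = f b
  simp

theorem star_pmL {C : Type} (e : C ≃ C) : star (pmL e) = pmL e.symm := by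
  have h1 : star (pmL e) * pmL e = 1 := by
    have := (ContinuousLinearMap.inner_map_map_iff_adjoint_comp_self (pmL e)).1
      (fun x y => (pm e).inner_map_map x y)
    exact this
  calc star (pmL e) = star (pmL e) * (pmL e * pmL e.symm) := by rw [pmL_mul_symm, mul_one]
    _ = pmL e.symm := by rw [← mul_assoc, h1, one_mul]

theorem conj_aux {R : Type*} [Ring R] [StarRing R] (x l P P' : R) (hl : star l * l = 1)
    (hP : star P = P') (hP' : star P' = P) (hPP : P' * P = 1) (hx : x = l * (P * x * P')) :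
    star x * x = P * (star x * x) * P' := by
  have h := congrArg (fun z => star z * z) hx
  simp only [star_mul, hP, hP'] at h
  calc star x * x = P * (star x * P') * star l * (l * (P * x * P')) := h
    _ = P * (star x * P') * (star l * l) * (P * x * P') := by simp only [mul_assoc]
    _ = P * (star x * P') * (P * x * P') := by rw [hl, mul_one]
    _ = P * (star x * ((P' * P) * x)) * P' := by simp only [mul_assoc]
    _ = P * (star x * x) * P' := by rw [hPP, one_mul]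

theorem norm_le_of_form {H : Type*} [NormedAddCommGroup H] [InnerProductSpace ℂ H]
    [CompleteSpace H] (d : H →L[ℂ] H) (hd : d.IsPositive) (m : ℝ) (hm : 0 ≤ m) (ξ : H)
    (h1 : (inner ℂ ξ (d ξ)).re ≤ m * ‖ξ‖ ^ 2)
    (h2 : (inner ℂ (d ξ) (d (d ξ))).re ≤ m * ‖d ξ‖ ^ 2) : ‖d ξ‖ ≤ m * ‖ξ‖ := by
  have hq : ∀ t : ℝ, 0 ≤ (inner ℂ ξ (d ξ)).re + 2 * t * ‖d ξ‖ ^ 2 +
      t ^ 2 * (inner ℂ (d ξ) (d (d ξ))).re := by
    intro t
    have h := hd.re_inner_nonneg_right (ξ + ((t : ℝ) : ℂ) • d ξ)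
    have h3 : (inner ℂ ξ (d (d ξ)) : ℂ) = inner ℂ (d ξ) (d ξ) :=
      (hd.inner_left_eq_inner_right ξ (d ξ)).symm
    have h4 : (inner ℂ (d ξ) (d ξ) : ℂ) = ((‖d ξ‖ ^ 2 : ℝ) : ℂ) := by
      rw [inner_self_eq_norm_sq_to_K]; norm_cast
    rw [map_add, map_smul, inner_add_left, inner_add_right, inner_add_right, inner_smul_left,
      inner_smul_right, inner_smul_left, inner_smul_right, h3, h4] at h
    have h5 : (0 : ℝ) ≤ ((inner ℂ ξ (d ξ) : ℂ) + (t : ℂ) * ((‖d ξ‖ ^ 2 : ℝ) : ℂ) +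
        ((starRingEnd ℂ) (t : ℂ) * ((‖d ξ‖ ^ 2 : ℝ) : ℂ) +
          (starRingEnd ℂ) (t : ℂ) * ((t : ℂ) * inner ℂ (d ξ) (d (d ξ))))).re := h
    rw [Complex.conj_ofReal] at h5
    simp only [Complex.add_re, Complex.re_ofReal_mul, Complex.ofReal_re] at h5
    nlinarith
  have hkey : ∀ t : ℝ, 0 ≤ m * ‖ξ‖ ^ 2 + 2 * t * ‖d ξ‖ ^ 2 + t ^ 2 * (m * ‖d ξ‖ ^ 2) := by
    intro t
    have := hq t
    have h3 : t ^ 2 * (inner ℂ (d ξ) (d (d ξ))).re ≤ t ^ 2 * (m * ‖d ξ‖ ^ 2) :=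
      mul_le_mul_of_nonneg_left h2 (sq_nonneg t)
    linarith
  rcases hm.eq_or_lt with h0 | h0
  · -- m = 0
    have h3 := hkey (-1)
    rw [← h0] at h3 ⊢
    have h4 : ‖d ξ‖ ^ 2 ≤ 0 := by linarith
    have h5 : ‖d ξ‖ = 0 := by
      have := sq_nonneg ‖d ξ‖
      exact pow_eq_zero_iff (two_ne_zero) |>.mp (le_antisymm h4 this)
    rw [h5]; simp
  · have h3 := hkey (-1 / m)
    have h4 : m * ‖ξ‖ ^ 2 + 2 * (-1 / m) * ‖d ξ‖ ^ 2 + (-1 / m) ^ 2 * (m * ‖d ξ‖ ^ 2) =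
        m * ‖ξ‖ ^ 2 - ‖d ξ‖ ^ 2 / m := by
      field_simp
      ring
    rw [h4] at h3
    have h5 : ‖d ξ‖ ^ 2 / m ≤ m * ‖ξ‖ ^ 2 := by linarith
    rw [div_le_iff₀ h0] at h5
    have h6 : ‖d ξ‖ ^ 2 ≤ (m * ‖ξ‖) ^ 2 := by nlinarith
    exact (pow_le_pow_iff_left₀ (norm_nonneg _) (mul_nonneg hm (norm_nonneg _))
      (by norm_num)).mp h6

/-- a lower bound on the fixed vectors gives a lower bound everywhere. -/
theorem below {S C : Type} [Group S] [Finite S] [Group C] (act : S →* MulAut C) (k : S → C)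
    (x : l2 C →L[ℂ] l2 C) (hx : x ∈ CR C)
    (hk : ∀ s, x = lam (k s) * (pmL (act s).toEquiv * x * pmL (act s).toEquiv.symm))
    (δ : ℝ) (hδ : 0 < δ)
    (hlow : ∀ ξ : l2 C, (∀ s, pmL (act s).toEquiv ξ = ξ) → δ * ‖ξ‖ ≤ ‖x ξ‖) (ξ : l2 C) :
    δ * ‖ξ‖ ≤ ‖x ξ‖ := by
  set d : l2 C →L[ℂ] l2 C := (((‖x‖ ^ 2 : ℝ) : ℂ)) • (1 : l2 C →L[ℂ] l2 C) - star x * x with hd
  have hdapp : ∀ η, d η = (((‖x‖ ^ 2 : ℝ) : ℂ)) • η - (star x) (x η) := fun η => rfl
  -- quadratic form of `d`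
  have hform : ∀ η, (inner ℂ η (d η)).re = ‖x‖ ^ 2 * ‖η‖ ^ 2 - ‖x η‖ ^ 2 := by
    intro η
    rw [hdapp, inner_sub_right, inner_smul_right, ContinuousLinearMap.star_eq_adjoint,
      ContinuousLinearMap.adjoint_inner_right, Complex.sub_re]
    have hnn : ∀ y : l2 C, (inner ℂ y y : ℂ) = ((‖y‖ ^ 2 : ℝ) : ℂ) := by
      intro y
      rw [inner_self_eq_norm_sq_to_K]; norm_cast
    rw [hnn, hnn, ← Complex.ofReal_mul, Complex.ofReal_re, Complex.ofReal_re]
  have hxle : ∀ η, ‖x η‖ ^ 2 ≤ ‖x‖ ^ 2 * ‖η‖ ^ 2 := by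
    intro η
    have := x.le_opNorm η
    rw [← mul_pow]
    exact pow_le_pow_left₀ (norm_nonneg _) this 2
  have hdpos : d.IsPositive := by
    rw [ContinuousLinearMap.isPositive_def']
    have hsa : IsSelfAdjoint d := by
      unfold IsSelfAdjoint
      rw [hd, star_sub, star_smul, star_one, star_mul, star_star]
      congr 2
      exact Complex.conj_ofReal _
    refine ⟨hsa, fun η => ?_⟩
    rw [ContinuousLinearMap.reApplyInnerSelf_apply]
    have h1 : (inner ℂ (d η) η : ℂ).re = (inner ℂ η (d η) : ℂ).re := by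
      rw [← inner_conj_symm]
      exact Complex.conj_re _
    show 0 ≤ (inner ℂ (d η) η : ℂ).re
    rw [h1, hform]
    linarith [hxle η]
  -- invariance of the fixed vectors
  have hcomm : ∀ s, ∀ η, pmL (act s).toEquiv ((star x) (x η)) =
      (star x) (x (pmL (act s).toEquiv η)) := by
    intro s η
    have h1 : star x * x = pmL (act s).toEquiv * (star x * x) * pmL (act s).toEquiv.symm := by
      refine conj_aux x (lam (k s)) (pmL (act s).toEquiv) (pmL (act s).toEquiv.symm) ?_ ?_ ?_ ?_ (hk s)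
      · exact (Unitary.mem_iff.mp (lam_mem_unitary (k s))).1
      · exact star_pmL _
      · rw [star_pmL]; rfl
      · exact pmL_symm_mul _
    have h2 : (star x * x) * pmL (act s).toEquiv = pmL (act s).toEquiv * (star x * x) := by
      conv_lhs => rw [h1]
      rw [mul_assoc, pmL_symm_mul, mul_one]
    have h3 := congrArg (fun T : l2 C →L[ℂ] l2 C => T η) h2
    exact h3.symm
  have hFd : ∀ η : l2 C, (∀ s, pmL (act s).toEquiv η = η) →
      ∀ s, pmL (act s).toEquiv (d η) = d η := by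
    intro η hη s
    rw [hdapp, map_sub, map_smul, hcomm, hη s]
  -- the constant
  set m : ℝ := ‖x‖ ^ 2 - δ ^ 2 with hm
  have hFm : ∀ η : l2 C, (∀ s, pmL (act s).toEquiv η = η) →
      (inner ℂ η (d η)).re ≤ m * ‖η‖ ^ 2 := by
    intro η hη
    rw [hform]
    have h1 := hlow η hη
    have h2 : (δ * ‖η‖) ^ 2 ≤ ‖x η‖ ^ 2 :=
      pow_le_pow_left₀ (mul_nonneg hδ.le (norm_nonneg _)) h1 2
    rw [hm]
    nlinarith
  have hδ1 : ∀ s, pmL (act s).toEquiv (dlt (1 : C)) = dlt 1 := by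
    intro s
    rw [pmL_dlt]
    congr 1
    exact map_one (act s)
  have hn1 : ‖dlt (1 : C)‖ = 1 := by
    classical
    unfold dlt
    rw [lp.norm_single (by norm_num)]
    simp
  have hm0 : 0 ≤ m := by
    have h1 := hFm _ hδ1
    have h2 := hdpos.re_inner_nonneg_right (dlt (1 : C))
    rw [hn1] at h1
    have h3 : (0 : ℝ) ≤ (inner ℂ (dlt (1 : C)) (d (dlt 1))).re := h2
    linarith
  have hFnorm : ∀ η : l2 C, (∀ s, pmL (act s).toEquiv η = η) → ‖d η‖ ≤ m * ‖η‖ := by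
    intro η hη
    exact norm_le_of_form d hdpos m hm0 η (hFm η hη) (hFm _ (hFd η hη))
  have hpow : ∀ n : ℕ, (∀ s, pmL (act s).toEquiv ((d ^ n) (dlt 1)) = (d ^ n) (dlt 1)) ∧
      ‖(d ^ n) (dlt (1 : C))‖ ≤ m ^ n := by
    intro n
    induction n with
    | zero =>
      refine ⟨?_, ?_⟩
      · intro s
        rw [pow_zero]
        exact hδ1 s
      · rw [pow_zero, pow_zero]
        exact hn1.le
    | succ n ih =>
      have he : (d ^ (n + 1)) (dlt (1 : C)) = d ((d ^ n) (dlt 1)) := by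
        rw [pow_succ']
        rfl
      rw [he]
      refine ⟨hFd _ ih.1, ?_⟩
      calc ‖d ((d ^ n) (dlt (1 : C)))‖ ≤ m * ‖(d ^ n) (dlt (1 : C))‖ := hFnorm _ ih.1
        _ ≤ m * m ^ n := mul_le_mul_of_nonneg_left ih.2 hm0
        _ = m ^ (n + 1) := by ring
  have hb : star x * x ∈ CR C := mul_mem (star_mem hx) hx
  have hr : ∀ g, rho g * d = d * rho g := by
    intro g
    have h1 : rho g * (star x * x) = (star x * x) * rho g := CR_comm_rho hb g
    rw [hd, mul_sub, sub_mul, h1, mul_smul_comm, smul_mul_assoc, mul_one, one_mul]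
  have hfin := normF d hdpos hr m hm0 (by
    intro n
    calc ‖inner ℂ (dlt (1 : C)) ((d ^ n) (dlt 1))‖ ≤ ‖dlt (1 : C)‖ * ‖(d ^ n) (dlt (1 : C))‖ :=
          norm_inner_le_norm _ _
      _ ≤ m ^ n := by rw [hn1, one_mul]; exact (hpow n).2) ξ
  rw [hform, hm] at hfin
  have h5 : (δ * ‖ξ‖) ^ 2 ≤ ‖x ξ‖ ^ 2 := by nlinarith
  exact (pow_le_pow_iff_left₀ (mul_nonneg hδ.le (norm_nonneg _)) (norm_nonneg _)
    (by norm_num)).mp h5

end N_below

alias below := N_below.below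

end Pool.CS
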