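import Pool.Agent.Helper694.CS.Defs
set_option autoImplicit false

namespace Pool.CS


namespace N_eq_zero_of_dlt

/-- an operator commuting with right translations is determined by its value at `δ₁`. -/
theorem eq_zero_of_dlt {G : Type} [Group G] {T : l2 G →L[ℂ] l2 G} (hT : ∀ g, rho g * T = T * rho g)
    (h : T (dlt 1) = 0) : T = 0 := by
  have h1 : ∀ g : G, T (dlt g) = 0 := by
    intro g
    have h2 : dlt g = rho g⁻¹ (dlt (1 : G)) := by
      rw [rho_dlt, inv_inv, one_mul]
    have h3 : T (rho g⁻¹ (dlt (1 : G))) = rho g⁻¹ (T (dlt 1)) := by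
      have := congrArg (fun S : l2 G →L[ℂ] l2 G => S (dlt 1)) (hT g⁻¹)
      exact this.symm
    rw [h2, h3, h, map_zero]
  letI := Classical.decEq G
  apply ContinuousLinearMap.ext
  intro f
  have h4 : HasSum (fun i => lp.single 2 i (f i)) f := lp.hasSum_single (by norm_num) f
  have h5 := h4.mapL T
  have h6 : ∀ i, T (lp.single 2 i (f i)) = 0 := by
    intro i
    have h7 : lp.single 2 i (f i) = f i • (dlt i : l2 G) := by
      have := lp.single_smul (E := fun _ : G => ℂ) (p := 2) i (f i) (1 : ℂ)
      rw [smul_eq_mul, mul_one] at this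
      exact this
    rw [h7, map_smul, h1 i, smul_zero]
  simp only [h6] at h5
  exact h5.unique hasSum_zero

end N_eq_zero_of_dlt

alias eq_zero_of_dlt := N_eq_zero_of_dlt.eq_zero_of_dlt

end Pool.CS
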