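import Pool.Agent.Helper694.CS.Defs
import Pool.Agent.Helper694.CS.J_CR_comm_rho
import Pool.Agent.Helper694.CS.J_eq_zero_of_dlt
import Pool.Agent.Helper694.CS.J_trace_comm
set_option autoImplicit false

namespace Pool.CS


namespace N_polar

theorem pmL_symm_mul {α : Type} (e : α ≃ α) : pmL e.symm * pmL e = 1 := by
  ext f b
  show f (e.symm (e.symm.symm b)) = f b
  simp

theorem pmL_mul_symm {α : Type} (e : α ≃ α) : pmL e * pmL e.symm = 1 := by
  ext f b
  show f (e.symm.symm (e.symm b)) = f b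
  simp

theorem star_pmL {α : Type} (e : α ≃ α) : star (pmL e) = pmL e.symm := by
  have h1 : star (pmL e) * pmL e = 1 := by
    have := (ContinuousLinearMap.inner_map_map_iff_adjoint_comp_self (pmL e)).1
      (fun x y => (pm e).inner_map_map x y)
    exact this
  calc star (pmL e) = star (pmL e) * (pmL e * pmL e.symm) := by rw [pmL_mul_symm, mul_one]
    _ = pmL e.symm := by rw [← mul_assoc, h1, one_mul]

/-- the inverse square root. -/
theorem isqrt {H : Type} [NormedAddCommGroup H] [InnerProductSpace ℂ H] [CompleteSpace H]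
    (x : H →L[ℂ] H)
    (δ : ℝ) (hδ : 0 < δ) (hlow : ∀ ξ : H, δ * ‖ξ‖ ≤ ‖x ξ‖) :
    ∃ c : H →L[ℂ] H, IsSelfAdjoint c ∧ c * (star x * x) * c = 1 ∧
      (∀ y, Commute (star x * x) y → Commute c y) ∧
      ∀ A : StarSubalgebra ℂ (H →L[ℂ] H), IsClosed (A : Set (H →L[ℂ] H)) →
        (star x * x) ∈ A → c ∈ A := by
  set b : H →L[ℂ] H := star x * x with hb
  have hbsa : IsSelfAdjoint b := IsSelfAdjoint.star_mul_self x
  have hle : algebraMap ℝ (H →L[ℂ] H) (δ ^ 2) ≤ b := by
    rw [ContinuousLinearMap.le_def, ContinuousLinearMap.isPositive_def']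
    refine ⟨?_, fun ξ => ?_⟩
    · exact hbsa.sub (IsSelfAdjoint.algebraMap _ (IsSelfAdjoint.all _))
    · unfold ContinuousLinearMap.reApplyInnerSelf
      have h1 : (b - algebraMap ℝ (H →L[ℂ] H) (δ ^ 2)) ξ = star x (x ξ) - (δ ^ 2 : ℝ) • ξ := by
        rw [ContinuousLinearMap.sub_apply, Algebra.algebraMap_eq_smul_one]
        rfl
      rw [h1, inner_sub_left]
      have h2 : inner ℂ (star x (x ξ)) ξ = inner ℂ (x ξ) (x ξ) :=
        ContinuousLinearMap.adjoint_inner_left x ξ (x ξ)
      have h3 : inner ℂ ((δ ^ 2 : ℝ) • ξ) ξ = ((δ ^ 2 * ‖ξ‖ ^ 2 : ℝ) : ℂ) := by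
        rw [← Complex.coe_smul, inner_smul_left, Complex.conj_ofReal, inner_self_eq_norm_sq_to_K]
        push_cast
        rfl
      have h4 : inner ℂ (x ξ) (x ξ) = ((‖x ξ‖ ^ 2 : ℝ) : ℂ) := by
        rw [inner_self_eq_norm_sq_to_K]
        push_cast
        rfl
      rw [h2, h3, h4, ← Complex.ofReal_sub]
      show 0 ≤ (((‖x ξ‖ ^ 2 - δ ^ 2 * ‖ξ‖ ^ 2 : ℝ)) : ℂ).re
      rw [Complex.ofReal_re]
      have h5 := hlow ξ
      have h6 : 0 ≤ δ * ‖ξ‖ := by positivity
      nlinarith [pow_le_pow_left₀ h6 h5 2]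
  have hspec : ∀ t ∈ spectrum ℝ b, 0 < t := by
    intro t ht
    have := (algebraMap_le_iff_le_spectrum (a := b) hbsa).1 hle t ht
    have h2 : 0 < δ ^ 2 := by positivity
    linarith
  have hcont : ContinuousOn (fun t : ℝ => (Real.sqrt t)⁻¹) (spectrum ℝ b) := by
    apply ContinuousOn.inv₀ Real.continuous_sqrt.continuousOn
    intro t ht
    exact (Real.sqrt_pos.2 (hspec t ht)).ne'
  refine ⟨cfc (fun t : ℝ => (Real.sqrt t)⁻¹) b, cfc_predicate (p := IsSelfAdjoint) _ _, ?_, ?_, ?_⟩
  · have h1 : b = cfc (fun t : ℝ => t) b := (cfc_id' ℝ b).symm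
    have h2 : cfc (fun t : ℝ => (Real.sqrt t)⁻¹) b * b * cfc (fun t : ℝ => (Real.sqrt t)⁻¹) b =
        cfc (fun t : ℝ => (Real.sqrt t)⁻¹) b * cfc (fun t : ℝ => t) b *
          cfc (fun t : ℝ => (Real.sqrt t)⁻¹) b := by rw [← h1]
    rw [h2, ← cfc_mul (fun t : ℝ => (Real.sqrt t)⁻¹) (fun t : ℝ => t) b hcont continuousOn_id,
      ← cfc_mul (fun t : ℝ => (Real.sqrt t)⁻¹ * t) (fun t : ℝ => (Real.sqrt t)⁻¹) b
        (hcont.mul continuousOn_id) hcont]
    have h3 : cfc (fun t : ℝ => (Real.sqrt t)⁻¹ * t * (Real.sqrt t)⁻¹) b = cfc (fun _ : ℝ => (1 : ℝ)) b := by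
      apply cfc_congr
      intro t ht
      have ht0 := hspec t ht
      have h4 : Real.sqrt t ≠ 0 := (Real.sqrt_pos.2 ht0).ne'
      show (Real.sqrt t)⁻¹ * t * (Real.sqrt t)⁻¹ = 1
      have h5 : Real.sqrt t * Real.sqrt t = t := Real.mul_self_sqrt ht0.le
      field_simp
      nlinarith
    rw [h3]
    exact cfc_const_one ℝ b
  · intro y hy
    exact hy.cfc_real _
  · intro A hA hbA
    haveI : IsClosed (A : Set (H →L[ℂ] H)) := hA
    exact cfc_mem (𝕜' := ℂ) (s := A) (fun t : ℝ => (Real.sqrt t)⁻¹) hbA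

/-- the unitary part of a bounded below element. -/
theorem polar {S C : Type} [Group S] [Group C] (act : S →* MulAut C) (k : S → C)
    (x : l2 C →L[ℂ] l2 C) (hx : x ∈ CR C)
    (hk : ∀ s, x = lam (k s) * (pmL (act s).toEquiv * x * pmL (act s).toEquiv.symm))
    (δ : ℝ) (hδ : 0 < δ) (hlow : ∀ ξ : l2 C, δ * ‖ξ‖ ≤ ‖x ξ‖) :
    ∃ u : l2 C →L[ℂ] l2 C, u ∈ CR C ∧ u ∈ unitary (l2 C →L[ℂ] l2 C) ∧
      ∀ s, u = lam (k s) * (pmL (act s).toEquiv * u * pmL (act s).toEquiv.symm) := by
  obtain ⟨c, hcsa, hcbc, hccomm, hcmem⟩ := isqrt x δ hδ hlow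
  have hclosed : IsClosed ((CR C : StarSubalgebra ℂ (l2 C →L[ℂ] l2 C)) : Set (l2 C →L[ℂ] l2 C)) :=
    StarSubalgebra.isClosed_topologicalClosure _
  have hcA : c ∈ CR C := hcmem (CR C) hclosed (mul_mem (star_mem hx) hx)
  set u := x * c with hu
  have huA : u ∈ CR C := mul_mem hx hcA
  have huu : star u * u = 1 := by
    rw [hu, star_mul, hcsa.star_eq]
    rw [← hcbc]
    simp only [mul_assoc]
  set p := 1 - u * star u with hp
  have hpA : p ∈ CR C := sub_mem (one_mem _) (mul_mem huA (star_mem huA))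
  have hpsa : star p = p := by
    rw [hp, star_sub, star_mul, star_star, star_one]
  have hpp : p * p = p := by
    have h1 : (u * star u) * (u * star u) = u * star u := by
      calc (u * star u) * (u * star u) = u * (star u * u) * star u := by simp only [mul_assoc]
        _ = u * star u := by rw [huu, mul_one]
    rw [hp, sub_mul, mul_sub, mul_sub, one_mul, one_mul, mul_one, h1, sub_self, sub_zero]
  have htr : inner ℂ (dlt (1 : C)) (p (dlt 1)) = 0 := by
    have h1 := trace_comm huA (star_mem huA)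
    rw [huu] at h1
    have h2 : p (dlt 1) = dlt 1 - (u * star u) (dlt 1) := rfl
    rw [h2, inner_sub_right, h1]
    exact sub_self _
  have hpd : p (dlt 1) = 0 := by
    rw [← inner_self_eq_zero (𝕜 := ℂ)]
    have h1 : inner ℂ (p (dlt (1 : C))) (p (dlt 1)) = inner ℂ (dlt (1 : C)) (star p (p (dlt 1))) :=
      (ContinuousLinearMap.adjoint_inner_right p (dlt 1) (p (dlt 1))).symm
    rw [h1, hpsa]
    have h2 : p (p (dlt (1 : C))) = (p * p) (dlt 1) := rfl
    rw [h2, hpp, htr]
  have hp0 : p = 0 := eq_zero_of_dlt (fun g => CR_comm_rho hpA g) hpd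
  have huu' : u * star u = 1 := by
    have := hp0
    rw [hp, sub_eq_zero] at this
    exact this.symm
  refine ⟨u, huA, Unitary.mem_iff.2 ⟨huu, huu'⟩, ?_⟩
  intro s
  set π := pmL (act s).toEquiv with hπ
  set π' := pmL (act s).toEquiv.symm with hπ'
  have hπ1 : π * π' = 1 := pmL_mul_symm _
  have hπ2 : π' * π = 1 := pmL_symm_mul _
  have hstar : star x = π * star x * π' * star (lam (k s)) := by
    have h2 : star π' = π := by rw [hπ', star_pmL, Equiv.symm_symm]
    have h3 : star π = π' := by rw [hπ, star_pmL]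
    calc star x = star (lam (k s) * (π * x * π')) := congrArg star (hk s)
      _ = π * star x * π' * star (lam (k s)) := by
          rw [star_mul, star_mul, star_mul, h2, h3]
          simp only [mul_assoc]
  have hlam : star (lam (k s)) * lam (k s) = 1 := by
    rw [star_lam, ← lam_mul, inv_mul_cancel, lam_one]
  have hbπ : Commute (star x * x) π := by
    show (star x * x) * π = π * (star x * x)
    have h1 : star x * x = π * (star x * x) * π' := by
      calc star x * x = (π * star x * π' * star (lam (k s))) * (lam (k s) * (π * x * π')) := by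
            rw [← hstar, ← hk s]
        _ = π * star x * π' * (star (lam (k s)) * lam (k s)) * (π * x * π') := by
            simp only [mul_assoc]
        _ = π * star x * (π' * π) * x * π' := by
            rw [hlam, mul_one]
            simp only [mul_assoc]
        _ = π * (star x * x) * π' := by
            rw [hπ2, mul_one]
            simp only [mul_assoc]
    calc (star x * x) * π = (π * (star x * x) * π') * π := by rw [← h1]
      _ = π * (star x * x) * (π' * π) := by simp only [mul_assoc]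
      _ = π * (star x * x) := by rw [hπ2, mul_one]
  have hcπ : Commute c π' := by
    have h1 : c * π = π * c := hccomm π hbπ
    show c * π' = π' * c
    calc c * π' = (π' * π) * (c * π') := by rw [hπ2, one_mul]
      _ = π' * (π * c) * π' := by simp only [mul_assoc]
      _ = π' * (c * π) * π' := by rw [h1]
      _ = π' * c * (π * π') := by simp only [mul_assoc]
      _ = π' * c := by rw [hπ1, mul_one]
  have hcπ' : c * π' = π' * c := hcπ
  calc u = x * c := rfl
    _ = (lam (k s) * (π * x * π')) * c := by rw [← hk s]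
    _ = lam (k s) * (π * x * (π' * c)) := by simp only [mul_assoc]
    _ = lam (k s) * (π * x * (c * π')) := by rw [hcπ']
    _ = lam (k s) * (π * u * π') := by rw [hu]; simp only [mul_assoc]

end N_polar

alias polar := N_polar.polar

end Pool.CS
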