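import Pool.Agent.Helper694.CS.Defs
set_option autoImplicit false

namespace Pool.CS


namespace N_replem

section
variable {H : Type} [NormedAddCommGroup H] [InnerProductSpace ℂ H]

theorem om3 {ω : ℂ} (hω : ω ^ 2 + ω + 1 = 0) : ω ^ 3 = 1 := by
  linear_combination (ω - 1) * hω

theorem om_ne {ω : ℂ} (hω : ω ^ 2 + ω + 1 = 0) : ω ≠ 1 := by
  rintro rfl
  norm_num at hω

theorem om2_ne {ω : ℂ} (hω : ω ^ 2 + ω + 1 = 0) : ω ^ 2 ≠ 1 := by
  intro h
  apply om_ne hω
  have h3 := om3 hω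
  calc ω = ω ^ 2 * ω := by rw [h, one_mul]
    _ = 1 := by rw [← h3]; ring

theorem om_conj {ω : ℂ} (hω : ω ^ 2 + ω + 1 = 0) : (starRingEnd ℂ) ω = ω ^ 2 := by
  have h3 := om3 hω
  have h1 : ‖ω‖ = 1 := Complex.norm_eq_one_of_pow_eq_one h3 (by norm_num)
  have h2 : (starRingEnd ℂ) ω * ω = 1 := by
    rw [Complex.conj_mul', h1]
    norm_num
  calc (starRingEnd ℂ) ω = (starRingEnd ℂ) ω * ω ^ 3 := by rw [h3, mul_one]
    _ = ((starRingEnd ℂ) ω * ω) * ω ^ 2 := by ring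
    _ = ω ^ 2 := by rw [h2, one_mul]

theorem eig_orth {U : H → H} (hU : ∀ x y : H, inner ℂ (U x) (U y) = inner ℂ x y) {x y : H} {a b : ℂ}
    (hx : U x = a • x) (hy : U y = b • y) (hab : (starRingEnd ℂ) a * b ≠ 1) :
    inner ℂ x y = 0 := by
  have h := hU x y
  rw [hx, hy, inner_smul_left, inner_smul_right] at h
  have h2 : ((starRingEnd ℂ) a * b - 1) * inner ℂ x y = 0 := by
    linear_combination h
  rcases mul_eq_zero.1 h2 with h3 | h3
  · exact absurd (sub_eq_zero.1 h3) hab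
  · exact h3

theorem pyth {x y : H} (h : inner ℂ x y = 0) : ‖x + y‖ ^ 2 = ‖x‖ ^ 2 + ‖y‖ ^ 2 := by
  rw [norm_add_sq (𝕜 := ℂ), h]
  simp

end

/-- the elementary representation theory of `S₃` behind the unitary. -/
theorem replem {H : Type} [NormedAddCommGroup H] [InnerProductSpace ℂ H] [CompleteSpace H]
    (π π' : D3 → H →L[ℂ] H) (hπ1 : π 1 = 1) (hπ : ∀ s t, π (s * t) = π s * π t)
    (hπu : ∀ s, star (π s) = π s⁻¹)
    (hπ1' : π' 1 = 1) (hπ' : ∀ s t, π' (s * t) = π' s * π' t)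
    (hπu' : ∀ s, star (π' s) = π' s⁻¹)
    (A Z : H →L[ℂ] H) (hA : A ∈ unitary (H →L[ℂ] H)) (hZ : Z ∈ unitary (H →L[ℂ] H))
    (hρ : ∀ i, π' (.r i) * A = A * π (.r i)) (hσ : π' (.sr 0) = π (.sr 0))
    (hZc : ∀ s, Z * π s = π s * Z) (ω : ℂ) (hω : ω ^ 2 + ω + 1 = 0)
    (V : H →L[ℂ] H) (hV : V = (1 + π (.sr 0)) * Z *
      ((1 / 3 : ℂ) • (π (.r 0) + ω ^ 2 • π (.r 1) + ω • π (.r 2))) * star A)
    (ξ η : H) (hξ : ∀ s, π s ξ = ξ) (hη : η + (11 / 10 : ℂ) • V η = ξ) :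
    (1 / 10 : ℝ) * ‖ξ‖ ≤ ‖(1 / 6 : ℂ) • ∑ s : D3, π' s η‖ := by
  have hω3 := om3 hω
  -- inner products
  have hin : ∀ (ρ : D3 → H →L[ℂ] H), ρ 1 = 1 → (∀ s t, ρ (s * t) = ρ s * ρ t) →
      (∀ s, star (ρ s) = ρ s⁻¹) → ∀ s (x y : H), inner ℂ (ρ s x) (ρ s y) = inner ℂ x y := by
    intro ρ h1 h2 h3 s x y
    have h4 : star (ρ s) * ρ s = 1 := by rw [h3, ← h2, inv_mul_cancel, h1]
    have h5 : (ContinuousLinearMap.adjoint (ρ s)) (ρ s x) = x := by
      have := congrArg (fun T : H →L[ℂ] H => T x) h4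
      exact this
    rw [← ContinuousLinearMap.adjoint_inner_left, h5]
  have hinπ := hin π hπ1 hπ hπu
  have hinπ' := hin π' hπ1' hπ' hπu'
  have huni : ∀ U : H →L[ℂ] H, U ∈ unitary (H →L[ℂ] H) → ∀ x y : H,
      inner ℂ (U x) (U y) = inner ℂ x y := by
    intro U hU x y
    have h5 : (ContinuousLinearMap.adjoint U) (U x) = x := by
      have := congrArg (fun T : H →L[ℂ] H => T x) (Unitary.star_mul_self_of_mem hU)
      exact this
    rw [← ContinuousLinearMap.adjoint_inner_left, h5]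
  have hnorm : ∀ (U : H → H), (∀ x y : H, inner ℂ (U x) (U y) = inner ℂ x y) → ∀ x, ‖U x‖ = ‖x‖ := by
    intro U hU x
    have h1 := hU x x
    rw [inner_self_eq_norm_sq_to_K, inner_self_eq_norm_sq_to_K] at h1
    have h2 : ‖U x‖ ^ 2 = ‖x‖ ^ 2 := by exact_mod_cast h1
    exact (pow_left_inj₀ (norm_nonneg _) (norm_nonneg _) two_ne_zero).1 h2
  -- group relations
  have g0 : (DihedralGroup.r 0 : D3) = 1 := rfl
  have g11 : (DihedralGroup.r 1 : D3) * .r 1 = .r 2 := by decide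
  have g12 : (DihedralGroup.r 1 : D3) * .r 2 = 1 := by decide
  have gs : (DihedralGroup.sr 0 : D3) * .sr 0 = 1 := by decide
  have gsr1 : (DihedralGroup.r 1 : D3) * .sr 0 = .sr 0 * .r 2 := by decide
  have gsr2 : (DihedralGroup.sr 0 : D3) * .r 1 = .r 2 * .sr 0 := by decide
  have gsr3 : (DihedralGroup.sr 0 : D3) * .r 2 = .r 1 * .sr 0 := by decide
  have gs1 : (DihedralGroup.sr 1 : D3) = .r 2 * .sr 0 := by decide
  have gs2 : (DihedralGroup.sr 2 : D3) = .r 1 * .sr 0 := by decide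
  have ap : ∀ (ρ : D3 → H →L[ℂ] H), (∀ s t, ρ (s * t) = ρ s * ρ t) → ∀ s t x,
      ρ s (ρ t x) = ρ (s * t) x := by
    intro ρ h s t x
    rw [h]
    rfl
  have apπ := ap π hπ
  have apπ' := ap π' hπ'
  have one_apply : ∀ x : H, π 1 x = x := by intro x; rw [hπ1]; rfl
  have one_apply' : ∀ x : H, π' 1 x = x := by intro x; rw [hπ1']; rfl
  -- the vector m
  set y : H := (star A) η with hy
  set v : H := (1 / 3 : ℂ) • (y + ω ^ 2 • π (.r 1) y + ω • π (.r 2) y) with hv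
  set m : H := Z v with hm
  have hVη : V η = m + π (.sr 0) m := by
    rw [hV, hm, hv, hy, g0, hπ1]
    rfl
  have hRv : π (.r 1) v = ω • v := by
    rw [hv, map_smul, map_add, map_add, map_smul, map_smul, apπ, apπ, g11, g12, one_apply]
    linear_combination (norm := module) (-(1 / 3 : ℂ) * hω3) • π (.r 1) y
  have hRm : π (.r 1) m = ω • m := by
    have h1 : π (.r 1) (Z v) = Z (π (.r 1) v) := by
      have := congrArg (fun T : H →L[ℂ] H => T v) (hZc (.r 1))
      exact this.symm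
    rw [hm, h1, hRv, map_smul]
  have hRsm : π (.r 1) (π (.sr 0) m) = ω ^ 2 • π (.sr 0) m := by
    have h2 : π (.r 2) m = ω ^ 2 • m := by
      rw [← g11, ← apπ, hRm, map_smul, hRm, smul_smul, pow_two]
    rw [apπ, gsr1, ← apπ, h2, map_smul]
  have hVV : ‖V η‖ ^ 2 = 2 * ‖m‖ ^ 2 := by
    have h1 : inner ℂ m (π (.sr 0) m) = 0 := by
      refine eig_orth (hinπ (.r 1)) hRm hRsm ?_
      rw [om_conj hω]
      have : ω ^ 2 * ω ^ 2 = ω := by
        calc ω ^ 2 * ω ^ 2 = ω ^ 3 * ω := by ring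
          _ = ω := by rw [hω3, one_mul]
      rw [this]
      exact om_ne hω
    rw [hVη, pyth h1, hnorm _ (hinπ (.sr 0))]
    ring
  have hξV : inner ℂ ξ (V η) = 0 := by
    have h1 : inner ℂ ξ m = 0 := by
      refine eig_orth (hinπ (.r 1)) (a := 1) (by rw [one_smul]; exact hξ _) hRm ?_
      rw [map_one, one_mul]
      exact om_ne hω
    have h2 : inner ℂ ξ (π (.sr 0) m) = 0 := by
      refine eig_orth (hinπ (.r 1)) (a := 1) (by rw [one_smul]; exact hξ _) hRsm ?_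
      rw [map_one, one_mul]
      exact om2_ne hω
    rw [hVη, inner_add_right, h1, h2, add_zero]
  -- η fixed by the reflection
  have hsV : π (.sr 0) (V η) = V η := by
    rw [hVη, map_add, apπ, gs, one_apply, add_comm]
  have hη' : η = ξ - (11 / 10 : ℂ) • V η := by rw [← hη]; abel
  have hsη : π' (.sr 0) η = η := by
    rw [hσ]
    nth_rewrite 1 [hη']
    rw [map_sub, map_smul, hsV, hξ, ← hη']
  have hηsq : ‖η‖ ^ 2 = ‖ξ‖ ^ 2 + (11 / 10) ^ 2 * ‖V η‖ ^ 2 := by
    have h1 : inner ℂ ξ (-((11 / 10 : ℂ) • V η)) = 0 := by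
      rw [inner_neg_right, inner_smul_right, hξV, mul_zero, neg_zero]
    have h2 := pyth h1
    rw [← sub_eq_add_neg, ← hη', norm_neg, norm_smul] at h2
    rw [h2, mul_pow]
    congr 2
    norm_num
  -- the other decomposition
  set w : H := (1 / 3 : ℂ) • (η + ω ^ 2 • π' (.r 1) η + ω • π' (.r 2) η) with hw
  set w' : H := (1 / 3 : ℂ) • (η + ω • π' (.r 1) η + ω ^ 2 • π' (.r 2) η) with hw'
  set E : H := (1 / 3 : ℂ) • (η + π' (.r 1) η + π' (.r 2) η) with hE
  have hAy : A y = η := by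
    have := congrArg (fun T : H →L[ℂ] H => T η) (Unitary.mul_star_self_of_mem hA)
    exact this
  have hAr : ∀ i, A (π (.r i) y) = π' (.r i) η := by
    intro i
    have := congrArg (fun T : H →L[ℂ] H => T y) (hρ i)
    have h2 : π' (.r i) (A y) = A (π (.r i) y) := this
    rw [← h2, hAy]
  have hAv : A v = w := by
    rw [hv, map_smul, map_add, map_add, map_smul, map_smul, hAy, hAr, hAr]
  have hmw : ‖m‖ = ‖w‖ := by
    rw [hm, hnorm _ (huni Z hZ), ← hAv, hnorm _ (huni A hA)]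
  have hsw : π' (.sr 0) w = w' := by
    rw [hw, map_smul, map_add, map_add, map_smul, map_smul, apπ', apπ', gsr2, gsr3, ← apπ', ← apπ',
      hsη]
    congr 1
    abel
  have hww : ‖w'‖ = ‖w‖ := by rw [← hsw, hnorm _ (hinπ' (.sr 0))]
  have hRw : π' (.r 1) w = ω • w := by
    rw [hw, map_smul, map_add, map_add, map_smul, map_smul, apπ', apπ', g11, g12, one_apply']
    linear_combination (norm := module) (-(1 / 3 : ℂ) * hω3) • π' (.r 1) η
  have hRw' : π' (.r 1) w' = ω ^ 2 • w' := by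
    rw [hw', map_smul, map_add, map_add, map_smul, map_smul, apπ', apπ', g11, g12, one_apply']
    linear_combination (norm := module) (-(1 / 3 : ℂ) * hω3) • π' (.r 1) η +
      (-(1 / 3 : ℂ) * ω * hω3) • π' (.r 2) η
  have hRE : π' (.r 1) E = (1 : ℂ) • E := by
    rw [one_smul, hE, map_smul, map_add, map_add, apπ', apπ', g11, g12, one_apply']
    congr 1
    abel
  have hsum : E + (w + w') = η := by
    rw [hE, hw, hw', ← smul_add, ← smul_add]
    have h1 : η + π' (.r 1) η + π' (.r 2) η + (η + ω ^ 2 • π' (.r 1) η + ω • π' (.r 2) η +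
        (η + ω • π' (.r 1) η + ω ^ 2 • π' (.r 2) η)) = (3 : ℂ) • η +
        (ω ^ 2 + ω + 1) • π' (.r 1) η + (ω ^ 2 + ω + 1) • π' (.r 2) η := by
      module
    rw [h1, hω, zero_smul, zero_smul, add_zero, add_zero, smul_smul]
    norm_num
  have hηE : ‖η‖ ^ 2 = ‖E‖ ^ 2 + 2 * ‖w‖ ^ 2 := by
    have h1 : inner ℂ w w' = 0 := by
      refine eig_orth (hinπ' (.r 1)) hRw hRw' ?_
      rw [om_conj hω]
      have : ω ^ 2 * ω ^ 2 = ω := by
        calc ω ^ 2 * ω ^ 2 = ω ^ 3 * ω := by ring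
          _ = ω := by rw [hω3, one_mul]
      rw [this]
      exact om_ne hω
    have h2 : inner ℂ E w = 0 := by
      refine eig_orth (hinπ' (.r 1)) hRE hRw ?_
      rw [map_one, one_mul]
      exact om_ne hω
    have h3 : inner ℂ E w' = 0 := by
      refine eig_orth (hinπ' (.r 1)) hRE hRw' ?_
      rw [map_one, one_mul]
      exact om2_ne hω
    have h4 : inner ℂ E (w + w') = 0 := by rw [inner_add_right, h2, h3, add_zero]
    have h5 := pyth h4
    rw [hsum, pyth h1, hww] at h5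
    rw [h5]
    ring
  have hP : (1 / 6 : ℂ) • ∑ s : D3, π' s η = E := by
    have h1 : ∑ s : D3, π' s η = π' (.r 0) η + π' (.r 1) η + π' (.r 2) η +
        (π' (.sr 0) η + π' (.sr 1) η + π' (.sr 2) η) := by
      have h2 : (Finset.univ : Finset D3) = {.r 0, .r 1, .r 2, .sr 0, .sr 1, .sr 2} := by decide
      rw [h2]
      rw [Finset.sum_insert (by decide), Finset.sum_insert (by decide),
        Finset.sum_insert (by decide), Finset.sum_insert (by decide),
        Finset.sum_insert (by decide), Finset.sum_singleton]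
      abel
    rw [h1, g0, one_apply', gs1, gs2, ← apπ', ← apπ', hsη, hE]
    module
  rw [hP]
  have hfin : ‖η‖ ^ 2 = ‖E‖ ^ 2 + ‖V η‖ ^ 2 := by rw [hηE, hVV, hmw]
  have hE2 : ((1 / 10 : ℝ) * ‖ξ‖) ^ 2 ≤ ‖E‖ ^ 2 := by
    have h1 := sq_nonneg ‖V η‖
    have h2 := sq_nonneg ‖ξ‖
    nlinarith
  exact le_of_sq_le_sq hE2 (norm_nonneg _)

end N_replem

alias replem := N_replem.replem

end Pool.CS
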