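import Pool.Agent.Helper694.CS.Defs
set_option autoImplicit false

namespace Pool.CS


namespace N_XX_mem

theorem lam_mem_CR {G : Type} [Group G] (g : G) : lam g ∈ CR G := by
  unfold CR CRs
  apply StarSubalgebra.le_topologicalClosure
  exact StarAlgebra.subset_adjoin ℂ _ ⟨g, Set.mem_univ _, rfl⟩

theorem XX_mem (ω : ℂ) (n : ℕ) : XX ω n ∈ CR C5 := by
  unfold XX
  exact sum_mem fun L _ => (CR C5).smul_mem (lam_mem_CR _) _

end N_XX_mem

alias XX_mem := N_XX_mem.XX_mem

end Pool.CS
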