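import Pool.Agent.Helper694.CS.Defs
set_option autoImplicit false

namespace Pool.CS


namespace N_haag

open scoped NNReal ENNReal
open FreeGroup

theorem lcp {β : Type} : ∀ W X : List β, ∃ U V Y : List β, W = U ++ V ∧ X = U ++ Y ∧
    ∀ a ∈ V.head?, ∀ b ∈ Y.head?, a ≠ b := by
  classical
  intro W
  induction W with
  | nil => intro X; exact ⟨[], [], X, rfl, rfl, by simp⟩
  | cons a W ih =>
    intro X
    cases X with
    | nil => exact ⟨[], a :: W, [], rfl, rfl, by simp⟩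
    | cons b X =>
      by_cases h : a = b
      · subst h
        obtain ⟨U, V, Y, h1, h2, h3⟩ := ih X
        exact ⟨a :: U, V, Y, by simp [h1], by simp [h2], h3⟩
      · exact ⟨[], a :: W, b :: X, rfl, rfl, by simpa using h⟩

/-- the class of a pair -/
def P {α : Type} [DecidableEq α] (p q : ℕ) (w x : FreeGroup α) : Prop :=
  ∃ U V Y : List (α × Bool), U.length = p ∧ V.length = q ∧ w.toWord = U ++ V ∧ x.toWord = U ++ Y ∧
    (w⁻¹ * x).toWord = invRev V ++ Y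

theorem isReduced_invRev {α : Type} [DecidableEq α] {V : List (α × Bool)} (h : IsReduced V) :
    IsReduced (invRev V) := by
  have h1 : ((mk V)⁻¹).toWord = invRev V := by
    rw [toWord_inv, toWord_mk, h.reduce_eq]
  rw [← h1]; exact isReduced_toWord

theorem invRev_getLast? {α : Type} (V : List (α × Bool)) (a : α × Bool) (h : a ∈ (invRev V).getLast?) :
    ∃ b ∈ V.head?, a = (b.1, !b.2) := by
  cases V with
  | nil => simp [invRev] at h
  | cons c V =>
    simp [invRev] at h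
    exact ⟨c, by simp, h.symm⟩

theorem exists_P {α : Type} [DecidableEq α] (w x : FreeGroup α) :
    ∃ p q, P p q w x ∧ p ≤ w.toWord.length ∧ q ≤ w.toWord.length := by
  obtain ⟨U, V, Y, h1, h2, h3⟩ := lcp w.toWord x.toWord
  refine ⟨U.length, V.length, ⟨U, V, Y, rfl, rfl, h1, h2, ?_⟩, by rw [h1]; simp, by rw [h1]; simp⟩
  have hw : w = mk (U ++ V) := by rw [← h1, mk_toWord]
  have hx : x = mk (U ++ Y) := by rw [← h2, mk_toWord]
  have hVr : IsReduced V := by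
    have h0 : IsReduced w.toWord := isReduced_toWord
    rw [h1, FreeGroup.IsReduced, List.isChain_append] at h0
    exact h0.2.1
  have hYr : IsReduced Y := by
    have h0 : IsReduced x.toWord := isReduced_toWord
    rw [h2, FreeGroup.IsReduced, List.isChain_append] at h0
    exact h0.2.1
  have h4 : w⁻¹ * x = mk (invRev V ++ Y) := by
    rw [hw, hx, ← mul_mk, ← mul_mk, ← mul_mk, ← inv_mk]; group
  rw [h4, toWord_mk]
  apply IsReduced.reduce_eq
  rw [FreeGroup.IsReduced, List.isChain_append]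
  refine ⟨isReduced_invRev hVr, hYr, ?_⟩
  intro a ha b hb hab
  obtain ⟨c, hc, rfl⟩ := invRev_getLast? V a ha
  have h5 := h3 c hc b hb
  simp only at hab ⊢
  by_contra h6
  apply h5
  ext1
  · exact hab
  · cases hc2 : c.2 <;> cases hb2 : b.2 <;> simp_all

theorem P_inj {α : Type} [DecidableEq α] {p q : ℕ} {w x w' x' : FreeGroup α} (h : P p q w x)
    (h' : P p q w' x') (ht : x.toWord.take p = x'.toWord.take p) (he : w⁻¹ * x = w'⁻¹ * x') :
    w = w' ∧ x = x' := by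
  obtain ⟨U, V, Y, h1, h2, h3, h4, h5⟩ := h
  obtain ⟨U', V', Y', h1', h2', h3', h4', h5'⟩ := h'
  rw [← he, h5] at h5'
  have h6 := List.append_inj h5' (by rw [invRev_length, invRev_length, h2, h2'])
  have hV : V = V' := invRev_injective h6.1
  have hU : U = U' := by
    rw [h4, h4'] at ht
    rwa [List.take_left' h1, List.take_left' h1'] at ht
  constructor
  · apply toWord_injective; rw [h3, h3', hV, hU]
  · apply toWord_injective; rw [h4, h4', h6.2, hU]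

theorem pointwise {α : Type} [DecidableEq α] (S : Finset (FreeGroup α)) (L : ℕ)
    (hS : ∀ w ∈ S, w.toWord.length ≤ L) (a b : FreeGroup α → ℝ≥0) (x : FreeGroup α) :
    (∑ w ∈ S, a w * b (w⁻¹ * x)) ^ 2 ≤ ((L : ℝ≥0) + 1) ^ 2 *
      ∑ pq ∈ Finset.range (L + 1) ×ˢ Finset.range (L + 1), ∑ w' ∈ S, a w' ^ 2 *
        ∑ w ∈ S, open Classical in (if P pq.1 pq.2 w x ∧ w'.toWord.take pq.1 = x.toWord.take pq.1
          then b (w⁻¹ * x) ^ 2 else 0) := by
  classical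
  set Q := Finset.range (L + 1) ×ˢ Finset.range (L + 1) with hQ
  have hcard : (Q.card : ℝ≥0) = ((L : ℝ≥0) + 1) ^ 2 := by
    rw [hQ, Finset.card_product, Finset.card_range]; push_cast; ring
  have s1 : ∑ w ∈ S, a w * b (w⁻¹ * x)
      ≤ ∑ pq ∈ Q, ∑ w ∈ S.filter (fun w => P pq.1 pq.2 w x), a w * b (w⁻¹ * x) := by
    simp only [Finset.sum_filter]
    rw [Finset.sum_comm]
    refine Finset.sum_le_sum fun w hw => ?_
    obtain ⟨p, q, hP, hp, hq⟩ := exists_P w x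
    have hL := hS w hw
    have hm : (p, q) ∈ Q := by
      rw [hQ, Finset.mem_product, Finset.mem_range, Finset.mem_range]
      constructor <;> simp only <;> omega
    have := Finset.single_le_sum (f := fun pq : ℕ × ℕ => if P pq.1 pq.2 w x then a w * b (w⁻¹ * x) else 0)
      (fun i _ => zero_le) hm
    simpa [hP] using this
  refine le_trans (pow_le_pow_left₀ zero_le s1 2) ?_
  refine le_trans (sq_sum_le_card_mul_sum_sq) ?_
  rw [hcard]
  refine mul_le_mul_right (Finset.sum_le_sum fun pq _ => ?_) _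
  refine le_trans (Finset.sum_mul_sq_le_sq_mul_sq _ _ _) ?_
  have s2 : ∑ w ∈ S.filter (fun w => P pq.1 pq.2 w x), a w ^ 2
      ≤ ∑ w' ∈ S.filter (fun w' => w'.toWord.take pq.1 = x.toWord.take pq.1), a w' ^ 2 := by
    apply Finset.sum_le_sum_of_subset
    intro w hw
    rw [Finset.mem_filter] at hw ⊢
    refine ⟨hw.1, ?_⟩
    obtain ⟨U, V, Y, h1, h2, h3, h4, h5⟩ := hw.2
    rw [h3, h4, List.take_left' h1, List.take_left' h1]
  refine le_trans (mul_le_mul_left s2 _) ?_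
  rw [Finset.sum_mul, Finset.sum_filter]
  refine Finset.sum_le_sum fun w' _ => ?_
  split_ifs with h
  · rw [Finset.sum_filter]
    simp only [h, and_true, le_refl]
  · exact zero_le

theorem fibre {α : Type} [DecidableEq α] (S : Finset (FreeGroup α)) (p q : ℕ)
    (b : FreeGroup α → ℝ≥0∞) (w' : FreeGroup α) :
    ∑' x : FreeGroup α, ∑ w ∈ S, (open Classical in
      if P p q w x ∧ w'.toWord.take p = x.toWord.take p then b (w⁻¹ * x) else 0) ≤ ∑' z, b z := by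
  classical
  rw [Summable.tsum_finsetSum (fun _ _ => ENNReal.summable)]
  refine le_trans (ENNReal.sum_le_tsum S) ?_
  rw [← ENNReal.tsum_prod (f := fun w x : FreeGroup α =>
    if P p q w x ∧ w'.toWord.take p = x.toWord.take p then b (w⁻¹ * x) else 0)]
  set D : Set (FreeGroup α × FreeGroup α) :=
    {d | P p q d.1 d.2 ∧ w'.toWord.take p = d.2.toWord.take p} with hD
  have h1 : ∑' d : FreeGroup α × FreeGroup α,
      (if P p q d.1 d.2 ∧ w'.toWord.take p = d.2.toWord.take p then b (d.1⁻¹ * d.2) else 0)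
      = ∑' d : D, b (d.1.1⁻¹ * d.1.2) := by
    rw [tsum_subtype D (fun d : FreeGroup α × FreeGroup α => b (d.1⁻¹ * d.2))]
    refine tsum_congr fun d => ?_
    by_cases hd : P p q d.1 d.2 ∧ w'.toWord.take p = d.2.toWord.take p
    · rw [Set.indicator_of_mem (show d ∈ D from hd), if_pos hd]
    · rw [Set.indicator_of_notMem (show d ∉ D from hd), if_neg hd]
  rw [h1]
  refine ENNReal.tsum_comp_le_tsum_of_injective (f := fun d : D => d.1.1⁻¹ * d.1.2) ?_ b
  intro d d' hdd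
  have e := P_inj d.2.1 d'.2.1 (d.2.2.symm.trans d'.2.2) hdd
  apply Subtype.ext
  exact Prod.ext e.1 e.2

theorem mainE {α : Type} [DecidableEq α] (S : Finset (FreeGroup α)) (L : ℕ)
    (hS : ∀ w ∈ S, w.toWord.length ≤ L) (a b : FreeGroup α → ℝ≥0) :
    ∑' x : FreeGroup α, (((∑ w ∈ S, a w * b (w⁻¹ * x)) ^ 2 : ℝ≥0) : ℝ≥0∞) ≤
      (((L : ℝ≥0∞) + 1) ^ 2 * (((L : ℝ≥0∞) + 1) ^ 2 * ((∑ w ∈ S, a w ^ 2 : ℝ≥0) : ℝ≥0∞))) *
        ∑' z, ((b z ^ 2 : ℝ≥0) : ℝ≥0∞) := by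
  classical
  set B : ℝ≥0∞ := ∑' z, ((b z ^ 2 : ℝ≥0) : ℝ≥0∞) with hB
  calc ∑' x : FreeGroup α, (((∑ w ∈ S, a w * b (w⁻¹ * x)) ^ 2 : ℝ≥0) : ℝ≥0∞)
      ≤ ∑' x : FreeGroup α, ((((L : ℝ≥0) + 1) ^ 2 *
      ∑ pq ∈ Finset.range (L + 1) ×ˢ Finset.range (L + 1), ∑ w' ∈ S, a w' ^ 2 *
        ∑ w ∈ S, (if P pq.1 pq.2 w x ∧ w'.toWord.take pq.1 = x.toWord.take pq.1
          then b (w⁻¹ * x) ^ 2 else 0) : ℝ≥0) : ℝ≥0∞) := by
        refine ENNReal.tsum_le_tsum fun x => ?_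
        exact ENNReal.coe_le_coe.mpr (pointwise S L hS a b x)
    _ = ((L : ℝ≥0∞) + 1) ^ 2 * ∑ pq ∈ Finset.range (L + 1) ×ˢ Finset.range (L + 1), ∑ w' ∈ S,
          ((a w' : ℝ≥0∞) ^ 2) * ∑' x : FreeGroup α, ∑ w ∈ S,
            (if P pq.1 pq.2 w x ∧ w'.toWord.take pq.1 = x.toWord.take pq.1
          then ((b (w⁻¹ * x) ^ 2 : ℝ≥0) : ℝ≥0∞) else 0) := by
        have e0 : ∀ x : FreeGroup α, ((((L : ℝ≥0) + 1) ^ 2 *
          ∑ pq ∈ Finset.range (L + 1) ×ˢ Finset.range (L + 1), ∑ w' ∈ S, a w' ^ 2 *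
            ∑ w ∈ S, (if P pq.1 pq.2 w x ∧ w'.toWord.take pq.1 = x.toWord.take pq.1
              then b (w⁻¹ * x) ^ 2 else 0) : ℝ≥0) : ℝ≥0∞)
            = ((L : ℝ≥0∞) + 1) ^ 2 * ∑ pq ∈ Finset.range (L + 1) ×ˢ Finset.range (L + 1), ∑ w' ∈ S,
          ((a w' : ℝ≥0∞) ^ 2) * ∑ w ∈ S,
            (if P pq.1 pq.2 w x ∧ w'.toWord.take pq.1 = x.toWord.take pq.1
          then ((b (w⁻¹ * x) ^ 2 : ℝ≥0) : ℝ≥0∞) else 0) := by
          intro x
          rw [ENNReal.coe_mul, ENNReal.ofNNReal_finsetSum]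
          congr 1
          refine Finset.sum_congr rfl fun pq _ => ?_
          rw [ENNReal.ofNNReal_finsetSum]
          refine Finset.sum_congr rfl fun w' _ => ?_
          rw [ENNReal.coe_mul, ENNReal.ofNNReal_finsetSum, ENNReal.coe_pow]
          congr 1
          refine Finset.sum_congr rfl fun w _ => ?_
          split_ifs <;> simp
        rw [tsum_congr e0, ENNReal.tsum_mul_left, Summable.tsum_finsetSum (fun _ _ => ENNReal.summable)]
        congr 1
        refine Finset.sum_congr rfl fun pq _ => ?_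
        rw [Summable.tsum_finsetSum (fun _ _ => ENNReal.summable)]
        refine Finset.sum_congr rfl fun w' _ => ?_
        rw [ENNReal.tsum_mul_left]
    _ ≤ ((L : ℝ≥0∞) + 1) ^ 2 * ∑ pq ∈ Finset.range (L + 1) ×ˢ Finset.range (L + 1), ∑ w' ∈ S,
          ((a w' : ℝ≥0∞) ^ 2) * B := by
        gcongr with pq _ w' _
        exact fibre S pq.1 pq.2 (fun z => ((b z ^ 2 : ℝ≥0) : ℝ≥0∞)) w'
    _ = _ := by
        rw [Finset.sum_const, Finset.card_product, Finset.card_range, ← Finset.sum_mul,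
          ENNReal.ofNNReal_finsetSum]
        simp only [ENNReal.coe_pow, nsmul_eq_mul]
        push_cast
        ring

theorem summ {α : Type} (ξ : l2 α) : Summable (fun x => ‖ξ x‖ ^ 2) := by
  have h := lp.memℓp ξ
  rw [memℓp_gen_iff (by norm_num)] at h
  simpa using h

theorem nsq {α : Type} (ξ : l2 α) : ENNReal.ofReal (‖ξ‖ ^ 2) = ∑' x, ((‖ξ x‖₊ ^ 2 : ℝ≥0) : ℝ≥0∞) := by
  have h := lp.norm_rpow_eq_tsum (p := 2) (by norm_num) ξ
  have h' : ‖ξ‖ ^ 2 = ∑' x, ‖ξ x‖ ^ 2 := by simpa using h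
  rw [h', ENNReal.ofReal_tsum_of_nonneg (fun x => by positivity) (summ ξ)]
  refine tsum_congr fun x => ?_
  rw [ENNReal.ofReal_pow (norm_nonneg _), ENNReal.coe_pow, ofReal_norm]
  rfl

theorem apply_sum {α : Type} [DecidableEq α] (f : FreeGroup α →₀ ℂ) (S : Finset (FreeGroup α))
    (ξ : l2 (FreeGroup α)) (x : FreeGroup α) :
    ((∑ g ∈ S, f g • (lam g : l2 (FreeGroup α) →L[ℂ] l2 (FreeGroup α))) ξ) x
      = ∑ g ∈ S, f g * ξ (g⁻¹ * x) := by
  classical
  induction S using Finset.induction_on with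
  | empty => simp
  | insert a S ha ih =>
    rw [Finset.sum_insert ha, Finset.sum_insert ha, ← ih]
    rfl

/-- Haagerup's inequality for free groups. -/
theorem haag {α : Type} [DecidableEq α] (f : FreeGroup α →₀ ℂ) (L : ℕ)
    (hf : ∀ g ∈ f.support, g.toWord.length ≤ L) :
    ‖∑ g ∈ f.support, f g • (lam g : l2 (FreeGroup α) →L[ℂ] l2 (FreeGroup α))‖ ≤
      ((L : ℝ) + 1) ^ 2 * Real.sqrt (∑ g ∈ f.support, ‖f g‖ ^ 2) := by
  apply ContinuousLinearMap.opNorm_le_bound _ (by positivity)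
  intro ξ
  set T := ∑ g ∈ f.support, f g • (lam g : l2 (FreeGroup α) →L[ℂ] l2 (FreeGroup α)) with hT
  refine (pow_le_pow_iff_left₀ (norm_nonneg _) (by positivity) two_ne_zero).mp ?_
  rw [← ENNReal.ofReal_le_ofReal_iff (by positivity), nsq]
  have h1 : ∑' x, ((‖(T ξ) x‖₊ ^ 2 : ℝ≥0) : ℝ≥0∞)
      ≤ ∑' x : FreeGroup α, (((∑ w ∈ f.support, ‖f w‖₊ * ‖ξ (w⁻¹ * x)‖₊) ^ 2 : ℝ≥0) : ℝ≥0∞) := by
    refine ENNReal.tsum_le_tsum fun x => ?_
    rw [ENNReal.coe_le_coe]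
    refine pow_le_pow_left₀ zero_le ?_ 2
    rw [hT, apply_sum]
    refine le_trans (nnnorm_sum_le _ _) ?_
    refine Finset.sum_le_sum fun w _ => ?_
    rw [nnnorm_mul]
  refine le_trans h1 ?_
  refine le_trans (mainE f.support L hf (fun w => ‖f w‖₊) (fun z => ‖ξ z‖₊)) ?_
  rw [← nsq ξ]
  have h2 : (((L : ℝ) + 1) ^ 2 * Real.sqrt (∑ g ∈ f.support, ‖f g‖ ^ 2) * ‖ξ‖) ^ 2
      = (((L : ℝ) + 1) ^ 2 * (((L : ℝ) + 1) ^ 2 * ∑ g ∈ f.support, ‖f g‖ ^ 2)) * ‖ξ‖ ^ 2 := by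
    rw [mul_pow, mul_pow, Real.sq_sqrt (by positivity)]; ring
  rw [h2, ENNReal.ofReal_mul (by positivity)]
  apply le_of_eq
  congr 1
  rw [ENNReal.ofReal_mul (by positivity), ENNReal.ofReal_mul (by positivity)]
  have h3 : ENNReal.ofReal (((L : ℝ) + 1) ^ 2) = ((L : ℝ≥0∞) + 1) ^ 2 := by
    rw [ENNReal.ofReal_pow (by positivity), ENNReal.ofReal_add (by positivity) (by norm_num)]
    simp
  have h4 : ENNReal.ofReal (∑ g ∈ f.support, ‖f g‖ ^ 2) = ((∑ w ∈ f.support, ‖f w‖₊ ^ 2 : ℝ≥0) : ℝ≥0∞) := by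
    rw [ENNReal.ofReal_sum_of_nonneg (fun i _ => by positivity), ENNReal.ofNNReal_finsetSum]
    refine Finset.sum_congr rfl fun g _ => ?_
    rw [ENNReal.ofReal_pow (norm_nonneg _), ENNReal.coe_pow, ofReal_norm]
    rfl
  rw [h3, h4]

end N_haag

alias haag := N_haag.haag

end Pool.CS
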