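import Pool.Agent.Helper694.CS.Defs
set_option autoImplicit false

namespace Pool.CS


namespace N_wd_inj

def idx (i : ZMod 3) : Fin 5 := ⟨i.val, lt_trans (ZMod.val_lt i) (by norm_num)⟩

theorem idx_inj {i j : ZMod 3} (h : idx i = idx j) : i = j :=
  ZMod.val_injective 3 (Fin.mk.inj h)

theorem idx_ne3 (i : ZMod 3) : idx i ≠ 3 := by
  revert i; decide

theorem idx_ne4 (i : ZMod 3) : idx i ≠ 4 := by
  revert i; decide

def blk : D3 → List (Fin 5 × Bool)
  | .r i => [(4, true), (idx i, false)]
  | .sr i => [(4, true), (3, false), (idx (-i), false)]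

theorem mk_blk (g : D3) : FreeGroup.of 4 * (tt g)⁻¹ = FreeGroup.mk (blk g) := by
  cases g with
  | r i => rfl
  | sr i => rfl

theorem wd_mk (L : List D3) : wd L = FreeGroup.mk (L.flatMap blk) := by
  induction L with
  | nil => rfl
  | cons g L ih =>
    have h : wd (g :: L) = FreeGroup.of 4 * (tt g)⁻¹ * wd L := by
      unfold wd
      rw [List.map_cons, List.prod_cons]
    rw [h, ih, mk_blk, FreeGroup.mul_mk, List.flatMap_cons]

theorem sign_blk (g : D3) : ∀ a ∈ blk g, (a.2 = true ↔ a.1 = 4) := by
  intro a ha
  cases g with
  | r i =>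
    simp only [blk, List.mem_cons, List.not_mem_nil, or_false] at ha
    rcases ha with rfl | rfl
    · simp
    · simp [idx_ne4 i]
  | sr i =>
    simp only [blk, List.mem_cons, List.not_mem_nil, or_false] at ha
    rcases ha with rfl | rfl | rfl
    · simp
    · simp
    · simp [idx_ne4 (-i)]

theorem isRed (L : List D3) : FreeGroup.IsReduced (L.flatMap blk) := by
  have h : (L.flatMap blk).Pairwise (fun a b => a.1 = b.1 → a.2 = b.2) := by
    apply List.pairwise_of_forall_mem_list
    intro a ha b hb hab
    obtain ⟨g, -, ha⟩ := List.mem_flatMap.1 ha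
    obtain ⟨g', -, hb⟩ := List.mem_flatMap.1 hb
    have h1 := sign_blk g a ha
    have h2 := sign_blk g' b hb
    rw [hab, ← h2] at h1
    exact Bool.eq_iff_iff.2 h1
  exact h.isChain

theorem flat_inj : ∀ L₁ L₂ : List D3, L₁.flatMap blk = L₂.flatMap blk → L₁ = L₂ := by
  intro L₁
  induction L₁ with
  | nil =>
    intro L₂ h
    cases L₂ with
    | nil => rfl
    | cons g L =>
      exfalso
      rw [List.flatMap_cons] at h
      cases g <;> simp [blk] at h
  | cons g L₁ ih =>
    intro L₂ h
    cases L₂ with
    | nil =>
      exfalso
      rw [List.flatMap_cons] at h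
      cases g <;> simp [blk] at h
    | cons g' L₂ =>
      rw [List.flatMap_cons, List.flatMap_cons] at h
      cases g with
      | r i =>
        cases g' with
        | r j =>
          simp only [blk, List.cons_append, List.nil_append, List.cons.injEq, Prod.mk.injEq, true_and,
            and_true] at h
          rw [idx_inj h.1, ih _ h.2]
        | sr j =>
          exfalso
          simp only [blk, List.cons_append, List.nil_append, List.cons.injEq, Prod.mk.injEq, true_and,
            and_true] at h
          exact idx_ne3 i h.1
      | sr i =>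
        cases g' with
        | r j =>
          exfalso
          simp only [blk, List.cons_append, List.nil_append, List.cons.injEq, Prod.mk.injEq, true_and,
            and_true] at h
          exact idx_ne3 j h.1.symm
        | sr j =>
          simp only [blk, List.cons_append, List.nil_append, List.cons.injEq, Prod.mk.injEq, true_and,
            and_true] at h
          rw [neg_injective (idx_inj h.1), ih _ h.2]

theorem wd_inj : Function.Injective wd := by
  intro L₁ L₂ h
  rw [wd_mk, wd_mk] at h
  obtain ⟨L₃, h1, h2⟩ := FreeGroup.Red.exact.1 h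
  rw [(isRed L₁).red_iff_eq] at h1
  rw [(isRed L₂).red_iff_eq] at h2
  exact flat_inj _ _ (h1.symm.trans h2)

end N_wd_inj

alias wd_inj := N_wd_inj.wd_inj

end Pool.CS
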