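import Pool.Agent.Helper694.CS.Defs
set_option autoImplicit false

namespace Pool.CS


namespace N_wd_len

theorem tt_norm (g : D3) : (tt g).norm ≤ 2 := by
  cases g with
  | r i =>
    show (ltr i).norm ≤ 2
    unfold ltr
    rw [FreeGroup.norm_of]
    norm_num
  | sr i =>
    show (ltr (-i) * FreeGroup.of 3).norm ≤ 2
    refine (FreeGroup.norm_mul_le _ _).trans ?_
    unfold ltr
    rw [FreeGroup.norm_of, FreeGroup.norm_of]

theorem wd_norm (L : List D3) : (wd L).norm ≤ 3 * L.length := by
  induction L with
  | nil => simp [wd]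
  | cons g L ih =>
    have h : wd (g :: L) = (FreeGroup.of 4 * (tt g)⁻¹) * wd L := by
      simp [wd]
    rw [h]
    refine (FreeGroup.norm_mul_le _ _).trans ?_
    have h1 : (FreeGroup.of 4 * (tt g)⁻¹ : C5).norm ≤ 3 := by
      refine (FreeGroup.norm_mul_le _ _).trans ?_
      rw [FreeGroup.norm_of, FreeGroup.norm_inv_eq]
      have := tt_norm g
      omega
    rw [List.length_cons]
    omega

theorem wd_len (L : List D3) : (wd L).toWord.length ≤ 3 * L.length := wd_norm L

end N_wd_len

alias wd_len := N_wd_len.wd_len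

end Pool.CS
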