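import Pool.Agent.Helper694.CS.Defs
import Pool.Agent.Helper694.CS.J_wd_len
import Pool.Agent.Helper694.CS.J_wd_inj
import Pool.Agent.Helper694.CS.J_haag
set_option autoImplicit false

namespace Pool.CS


namespace N_XX_norm

theorem norm_om (ω : ℂ) (hω : ω ^ 2 + ω + 1 = 0) : ‖ω‖ = 1 := by
  have h3 : ω ^ 3 = 1 := by
    have : ω ^ 3 - 1 = (ω - 1) * (ω ^ 2 + ω + 1) := by ring
    rw [hω, mul_zero] at this
    exact sub_eq_zero.mp this
  exact Complex.norm_eq_one_of_pow_eq_one h3 (by norm_num)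

theorem norm_kap (ω : ℂ) (hω : ω ^ 2 + ω + 1 = 0) (g : D3) : ‖kap ω g‖ = 1 / 3 := by
  cases g with
  | r i => simp [kap, norm_om ω hω]
  | sr i => simp [kap, norm_om ω hω]

theorem norm_cf (ω : ℂ) (hω : ω ^ 2 + ω + 1 = 0) (L : List D3) :
    ∀ p : D3, ‖cf ω p L‖ = (1 / 3) ^ L.length := by
  induction L with
  | nil => intro p; simp [cf]
  | cons g L ih =>
    intro p
    rw [cf, norm_mul, norm_kap ω hω, ih g, List.length_cons, pow_succ]
    ring

theorem XX_norm (ω : ℂ) (hω : ω ^ 2 + ω + 1 = 0) (n : ℕ) :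
    ‖XX ω n‖ ≤ (3 * (n : ℝ) + 1) ^ 2 * Real.sqrt ((2 / 3) ^ n) := by
  classical
  let φ : (Fin n → D3) ↪ C5 := ⟨fun L => wd (List.ofFn L), fun L L' h =>
    List.ofFn_injective (wd_inj h)⟩
  let v : (Fin n → D3) →₀ ℂ := Finsupp.equivFunOnFinite.symm (fun L => cf ω 1 (List.ofFn L))
  have hv : ∀ L, v L = cf ω 1 (List.ofFn L) := fun L => rfl
  have hnv : ∀ L, ‖v L‖ = (1 / 3) ^ n := by
    intro L
    rw [hv, norm_cf ω hω, List.length_ofFn]
  have hsupp : v.support = Finset.univ := by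
    ext L
    simp only [Finsupp.mem_support_iff, Finset.mem_univ, iff_true]
    intro h
    have := hnv L
    rw [h, norm_zero] at this
    have h2 : (0:ℝ) < (1 / 3) ^ n := by positivity
    linarith
  have hfs : (Finsupp.embDomain φ v).support = Finset.univ.map φ := by
    rw [Finsupp.support_embDomain, hsupp]
  have hlen : ∀ g ∈ (Finsupp.embDomain φ v).support, g.toWord.length ≤ 3 * n := by
    intro g hg
    rw [hfs, Finset.mem_map] at hg
    obtain ⟨L, _, rfl⟩ := hg
    have := wd_len (List.ofFn L)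
    rw [List.length_ofFn] at this
    exact this
  have h := haag (Finsupp.embDomain φ v) (3 * n) hlen
  have e1 : ∑ g ∈ (Finsupp.embDomain φ v).support, (Finsupp.embDomain φ v) g •
      (lam g : l2 C5 →L[ℂ] l2 C5) = XX ω n := by
    rw [hfs, Finset.sum_map]
    unfold XX
    refine Finset.sum_congr rfl fun L _ => ?_
    rw [Finsupp.embDomain_apply_self]
    rfl
  have e2 : ∑ g ∈ (Finsupp.embDomain φ v).support, ‖(Finsupp.embDomain φ v) g‖ ^ 2 =
      (2 / 3 : ℝ) ^ n := by
    rw [hfs, Finset.sum_map]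
    have : ∀ L ∈ (Finset.univ : Finset (Fin n → D3)), ‖(Finsupp.embDomain φ v) (φ L)‖ ^ 2 =
        ((1 / 9 : ℝ)) ^ n := by
      intro L _
      rw [Finsupp.embDomain_apply_self, hnv, ← pow_mul, mul_comm, pow_mul]
      norm_num
    rw [Finset.sum_congr rfl this, Finset.sum_const, Finset.card_univ]
    have hc : Fintype.card (Fin n → D3) = 6 ^ n := by
      rw [Fintype.card_fun, Fintype.card_fin]
      congr 1
    rw [hc, nsmul_eq_mul]
    push_cast
    rw [← mul_pow]
    norm_num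
  rw [e1, e2] at h
  refine h.trans (le_of_eq ?_)
  push_cast
  ring

end N_XX_norm

alias XX_norm := N_XX_norm.XX_norm

end Pool.CS
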