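import Pool.Agent.Helper694.CS.Defs
set_option autoImplicit false

namespace Pool.CS


namespace N_act_wd

theorem act_wd (g : D3) (L : List D3) : actE g (wd L) = wd (L.map fun h => g * h) := by
  induction L with
  | nil =>
    show actE g 1 = 1
    exact map_one _
  | cons h L ih =>
    have e1 : wd (h :: L) = FreeGroup.of 4 * (tt h)⁻¹ * wd L := by
      simp [wd]
    have e2 : wd ((h :: L).map fun h => g * h) =
        FreeGroup.of 4 * (tt (g * h))⁻¹ * wd (L.map fun h => g * h) := by
      simp [wd]
    rw [e1, e2, map_mul, map_mul, map_inv, actE_z, actE_tt, ih]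

end N_act_wd

alias act_wd := N_act_wd.act_wd

end Pool.CS
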