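import Pool.Agent.Helper694.CS.Defs
import Pool.Agent.Helper694.CS.J_act_wd
set_option autoImplicit false

namespace Pool.CS


namespace N_XX_rec

lemma ppi_lam (s : D3) (g : C5) (η : l2 C5) : ppi s (lam g η) = lam (actE s g) (ppi s η) := by
  ext x
  show η (g⁻¹ * (actM s).symm x) = η ((actM s).symm ((actE s g)⁻¹ * x))
  rw [map_mul, map_inv]
  rw [← actM_apply, MulEquiv.symm_apply_apply]

lemma cf_shift (ω : ℂ) (h : D3) (L : List D3) :
    ∀ p, cf ω (h * p) (L.map fun x => h * x) = cf ω p L := by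
  induction L with
  | nil => intro p; rfl
  | cons g L ih =>
    intro p
    show kap ω ((h * p)⁻¹ * (h * g)) * cf ω (h * g) (L.map fun x => h * x) = kap ω (p⁻¹ * g) * cf ω g L
    rw [ih, mul_inv_rev, mul_assoc, inv_mul_cancel_left]

lemma sum_cons {M : Type} [AddCommMonoid M] (n : ℕ) (F : (Fin (n + 1) → D3) → M) :
    ∑ L, F L = ∑ f : D3, ∑ L : Fin n → D3, F (Fin.cons f L) := by
  rw [← Fintype.sum_prod_type']
  exact (Fintype.sum_equiv (Fin.consEquiv (fun _ : Fin (n + 1) => D3)) _ _ (fun _ => rfl)).symm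

lemma sum_shift {M : Type} [AddCommMonoid M] (n : ℕ) (f : D3) (F : (Fin n → D3) → M) :
    ∑ L, F L = ∑ L : Fin n → D3, F (fun i => f * L i) :=
  (Fintype.sum_equiv (Equiv.piCongrRight fun _ : Fin n => Equiv.mulLeft f) _ _ (fun _ => rfl)).symm

theorem XX_rec (ω : ℂ) (n : ℕ) (ξ : l2 C5) (hξ : ∀ s, ppi s ξ = ξ) :
    VV ω (XX ω n ξ) = XX ω (n + 1) ξ := by
  have hX : ∀ m, XX ω m ξ = ∑ L : Fin m → D3, cf ω 1 (List.ofFn L) • lam (wd (List.ofFn L)) ξ := by
    intro m
    unfold XX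
    rw [_root_.sum_apply]
    rfl
  have hV : ∀ η, VV ω η = ∑ f : D3, kap ω f • lam (FreeGroup.of 4 * (tt f)⁻¹) (ppi f η) := by
    intro η
    unfold VV
    rw [_root_.sum_apply]
    rfl
  rw [hV, hX (n + 1), sum_cons]
  refine Finset.sum_congr rfl fun f _ => ?_
  conv_rhs => rw [sum_shift n f]
  rw [hX n, map_sum, map_sum, Finset.smul_sum]
  refine Finset.sum_congr rfl fun L _ => ?_
  have e1 : List.ofFn (Fin.cons f (fun i => f * L i) : Fin (n + 1) → D3)
      = f :: (List.ofFn L).map (fun x => f * x) := by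
    rw [List.ofFn_succ, List.map_ofFn]
    rfl
  have e2 : cf ω 1 (f :: (List.ofFn L).map (fun x => f * x)) = kap ω f * cf ω 1 (List.ofFn L) := by
    show kap ω (1⁻¹ * f) * cf ω f _ = _
    have := cf_shift ω f (List.ofFn L) 1
    rw [mul_one] at this
    rw [this, inv_one, one_mul]
  have e3 : wd (f :: (List.ofFn L).map (fun x => f * x)) = (FreeGroup.of 4 * (tt f)⁻¹) * actE f (wd (List.ofFn L)) := by
    rw [act_wd]
    unfold wd
    rw [List.map_cons, List.prod_cons]
  rw [e1, e2, e3, lam_mul (FreeGroup.of 4 * (tt f)⁻¹) (actE f (wd (List.ofFn L))), map_smul, ppi_lam, hξ, map_smul, smul_smul]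
  rfl

end N_XX_rec

alias XX_rec := N_XX_rec.XX_rec

end Pool.CS
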