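import Pool.Agent.Helper694.CS.Defs
import Pool.Agent.Helper694.CS.J_XX_rec
import Pool.Agent.Helper694.CS.J_XX_norm
import Pool.Agent.Helper694.CS.J_XX_mem
set_option autoImplicit false

namespace Pool.CS


namespace N_yex

theorem sqrt_aux (n : ℕ) : Real.sqrt ((2 / 3) ^ n) = Real.sqrt (2 / 3) ^ n := by
  rw [Real.sqrt_eq_iff_mul_self_eq (by positivity) (by positivity), ← mul_pow,
    Real.mul_self_sqrt (by norm_num)]

theorem r_lt : (11 / 10 : ℝ) * Real.sqrt (2 / 3) < 1 := by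
  have h : Real.sqrt (2 / 3) < 10 / 11 := by
    rw [Real.sqrt_lt' (by norm_num)]
    norm_num
  linarith

theorem sum_aux : Summable (fun n : ℕ => (3 * (n : ℝ) + 1) ^ 2 *
    ((11 / 10 : ℝ) * Real.sqrt (2 / 3)) ^ n) := by
  set r := (11 / 10 : ℝ) * Real.sqrt (2 / 3) with hr
  have hr1 : ‖r‖ < 1 := by
    rw [Real.norm_eq_abs, abs_of_nonneg (by positivity)]
    exact r_lt
  have h2 := (summable_pow_mul_geometric_of_norm_lt_one 2 hr1).mul_left 9
  have h1 := (summable_pow_mul_geometric_of_norm_lt_one 1 hr1).mul_left 6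
  have h0 := (summable_pow_mul_geometric_of_norm_lt_one 0 hr1)
  refine ((h2.add h1).add h0).congr fun n => ?_
  ring

theorem XX_zero (ω : ℂ) : XX ω 0 = 1 := by
  unfold XX
  rw [Fintype.sum_unique]
  simp [cf, wd, lam_one]

theorem yex (ω : ℂ) (hω : ω ^ 2 + ω + 1 = 0) : ∃ y ∈ CR C5, ∀ ξ : l2 C5, (∀ s, ppi s ξ = ξ) →
    y ξ + (11 / 10 : ℂ) • VV ω (y ξ) = ξ := by
  have hn : ∀ n : ℕ, ‖(-(11 / 10) : ℂ) ^ n • XX ω n‖ ≤ (3 * (n : ℝ) + 1) ^ 2 *
      ((11 / 10 : ℝ) * Real.sqrt (2 / 3)) ^ n := by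
    intro n
    have h1 : ‖(-(11 / 10) : ℂ)‖ = 11 / 10 := by
      rw [norm_neg]
      norm_num
    rw [norm_smul, norm_pow, h1, mul_pow, ← sqrt_aux]
    calc (11 / 10 : ℝ) ^ n * ‖XX ω n‖
        ≤ (11 / 10 : ℝ) ^ n * ((3 * (n : ℝ) + 1) ^ 2 * Real.sqrt ((2 / 3) ^ n)) :=
          mul_le_mul_of_nonneg_left (XX_norm ω hω n) (by positivity)
      _ = _ := by ring
  have hs : Summable (fun n : ℕ => (-(11 / 10) : ℂ) ^ n • XX ω n) :=
    Summable.of_norm_bounded sum_aux hn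
  have hclosed : IsClosed ((CR C5 : StarSubalgebra ℂ (l2 C5 →L[ℂ] l2 C5)) :
      Set (l2 C5 →L[ℂ] l2 C5)) := StarSubalgebra.isClosed_topologicalClosure _
  refine ⟨∑' n : ℕ, (-(11 / 10) : ℂ) ^ n • XX ω n, ?_, fun ξ hξ => ?_⟩
  · refine hclosed.mem_of_tendsto hs.hasSum (Filter.Eventually.of_forall fun F => ?_)
    exact sum_mem fun n _ => (CR C5).smul_mem (XX_mem ω n) _
  · have h1 : HasSum (fun n : ℕ => (-(11 / 10) : ℂ) ^ n • XX ω n ξ)
        ((∑' n : ℕ, (-(11 / 10) : ℂ) ^ n • XX ω n) ξ) := by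
      have := (ContinuousLinearMap.apply ℂ (l2 C5) ξ).hasSum hs.hasSum
      simpa using this
    have h2 : HasSum (fun n : ℕ => (-(11 / 10) : ℂ) ^ n • XX ω (n + 1) ξ)
        (VV ω ((∑' n : ℕ, (-(11 / 10) : ℂ) ^ n • XX ω n) ξ)) := by
      have := (VV ω).hasSum h1
      refine this.congr_fun ?_ |> fun h => h
      intro n
      simp only [map_smul, XX_rec ω n ξ hξ]
    have h3 : HasSum (fun n : ℕ => (-(11 / 10) : ℂ) ^ (n + 1) • XX ω (n + 1) ξ)
        ((-(11 / 10) : ℂ) • VV ω ((∑' n : ℕ, (-(11 / 10) : ℂ) ^ n • XX ω n) ξ)) := by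
      have := h2.const_smul (-(11 / 10) : ℂ)
      refine this.congr_fun ?_ |> fun h => h
      intro n
      rw [smul_smul, pow_succ, mul_comm]
    have h4 := (hasSum_nat_add_iff' 1).2 h1
    simp only [Finset.range_one, Finset.sum_singleton, pow_zero, one_smul] at h4
    have h5 := h3.unique h4
    rw [XX_zero] at h5
    have h6 : (-(11 / 10) : ℂ) • VV ω ((∑' n : ℕ, (-(11 / 10) : ℂ) ^ n • XX ω n) ξ) =
      - ((11 / 10 : ℂ) • VV ω ((∑' n : ℕ, (-(11 / 10) : ℂ) ^ n • XX ω n) ξ)) := by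
      rw [neg_smul]
    rw [h6] at h5
    have h7 : (1 : l2 C5 →L[ℂ] l2 C5) ξ = ξ := rfl
    rw [h7] at h5
    rw [← sub_eq_zero]
    rw [neg_eq_iff_eq_neg] at h5
    rw [h5]
    abel

end N_yex

alias yex := N_yex.yex

end Pool.CS
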