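import Pool.Agent.Helper694.CS.Defs
import Pool.Agent.Helper694.CS.J_yex
import Pool.Agent.Helper694.CS.J_V_eq
import Pool.Agent.Helper694.CS.J_replem
import Pool.Agent.Helper694.CS.J_below
import Pool.Agent.Helper694.CS.J_polar
import Pool.Agent.Helper694.CS.J_kk_coc
set_option autoImplicit false

namespace Pool.CS


namespace N_mainU

theorem ppi_mul (s t : D3) : ppi (s * t) = ppi s * ppi t := by
  unfold ppi
  rw [pmL_mul, map_mul]
  rfl

theorem ppi_one : ppi 1 = 1 := by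
  ext f x
  show f ((actM 1).toEquiv.symm x) = f x
  rw [map_one]
  rfl

theorem ppi_symm (s : D3) : pmL (actM s).toEquiv.symm = ppi s⁻¹ := by
  unfold ppi
  rw [map_inv]
  rfl

theorem ppi_mul_inv (s : D3) : ppi s * ppi s⁻¹ = 1 := by
  rw [← ppi_mul, mul_inv_cancel, ppi_one]

theorem ppi_inv_mul (s : D3) : ppi s⁻¹ * ppi s = 1 := by
  rw [← ppi_mul, inv_mul_cancel, ppi_one]

theorem star_ppi_mul (s : D3) : star (ppi s) * ppi s = 1 := by
  have := (ContinuousLinearMap.inner_map_map_iff_adjoint_comp_self (ppi s)).1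
    (fun x y => (pm (actM s).toEquiv).inner_map_map x y)
  exact this

theorem star_ppi (s : D3) : star (ppi s) = ppi s⁻¹ := by
  calc star (ppi s) = star (ppi s) * (ppi s * ppi s⁻¹) := by rw [ppi_mul_inv, mul_one]
    _ = ppi s⁻¹ := by rw [← mul_assoc, star_ppi_mul, one_mul]

theorem ppi_lam (s : D3) (g : C5) : ppi s * lam g = lam (actE s g) * ppi s := by
  ext f x
  show f (g⁻¹ * (actM s).symm x) = f ((actM s).symm ((actE s g)⁻¹ * x))
  rw [map_mul, map_inv]
  have h : (actM s).symm (actE s g) = g := by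
    rw [← actM_apply]
    exact (actM s).symm_apply_apply g
  rw [h]

/-- the twisted representation -/
noncomputable def pp' (s : D3) : l2 C5 →L[ℂ] l2 C5 := lam (kk s) * ppi s

theorem kk_one : kk 1 = 1 := by
  have h := kk_coc 1 1
  rw [mul_one, map_one] at h
  have h2 : kk 1 * (1 : MulAut C5) (kk 1) = kk 1 * kk 1 := rfl
  rw [h2] at h
  have h3 : kk 1 * 1 = kk 1 * kk 1 := by rw [mul_one]; exact h
  exact (mul_left_cancel h3).symm

theorem pp'_one : pp' 1 = 1 := by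
  unfold pp'
  rw [kk_one, lam_one, ppi_one, one_mul]

theorem pp'_mul (s t : D3) : pp' (s * t) = pp' s * pp' t := by
  unfold pp'
  rw [kk_coc, lam_mul, ppi_mul]
  have h : lam (actM s (kk t)) * ppi s = ppi s * lam (kk t) := (ppi_lam s (kk t)).symm
  calc lam (kk s) * lam (actM s (kk t)) * (ppi s * ppi t)
      = lam (kk s) * (lam (actM s (kk t)) * ppi s) * ppi t := by simp only [mul_assoc]
    _ = lam (kk s) * ppi s * (lam (kk t) * ppi t) := by rw [h]; simp only [mul_assoc]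

theorem star_pp' (s : D3) : star (pp' s) = pp' s⁻¹ := by
  have h1 : star (pp' s) * pp' s = 1 := by
    unfold pp'
    rw [star_mul, star_lam]
    calc star (ppi s) * lam (kk s)⁻¹ * (lam (kk s) * ppi s)
        = star (ppi s) * (lam (kk s)⁻¹ * lam (kk s)) * ppi s := by simp only [mul_assoc]
      _ = 1 := by rw [← lam_mul, inv_mul_cancel, lam_one, mul_one, star_ppi_mul]
  have h2 : pp' s * pp' s⁻¹ = 1 := by rw [← pp'_mul, mul_inv_cancel, pp'_one]
  calc star (pp' s) = star (pp' s) * (pp' s * pp' s⁻¹) := by rw [h2, mul_one]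
    _ = pp' s⁻¹ := by rw [← mul_assoc, h1, one_mul]

theorem lam_mem (g : C5) : lam g ∈ CR C5 :=
  StarSubalgebra.le_topologicalClosure _
    (StarAlgebra.subset_adjoin ℂ _ ⟨g, Set.mem_univ _, rfl⟩)

theorem ppi_unitary (s : D3) : ppi s ∈ unitary (l2 C5 →L[ℂ] l2 C5) := by
  rw [Unitary.mem_iff, star_ppi]
  exact ⟨ppi_inv_mul s, ppi_mul_inv s⟩

theorem conj_mem (s : D3) {T : l2 C5 →L[ℂ] l2 C5} (hT : T ∈ CR C5) :
    ppi s * T * ppi s⁻¹ ∈ CR C5 := by
  let A : StarSubalgebra ℂ (l2 C5 →L[ℂ] l2 C5) := StarAlgebra.adjoin ℂ (lam '' (Set.univ : Set C5))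
  let φ : (l2 C5 →L[ℂ] l2 C5) →⋆ₐ[ℂ] (l2 C5 →L[ℂ] l2 C5) :=
    { toFun := fun T => ppi s * T * ppi s⁻¹
      map_one' := by simp only [mul_one]; exact ppi_mul_inv s
      map_mul' := by
        intro T T'
        calc ppi s * (T * T') * ppi s⁻¹ = ppi s * T * 1 * T' * ppi s⁻¹ := by
              simp only [mul_assoc, one_mul]
          _ = ppi s * T * (ppi s⁻¹ * ppi s) * T' * ppi s⁻¹ := by rw [ppi_inv_mul]
          _ = _ := by simp only [mul_assoc]
      map_zero' := by simp only [mul_zero, zero_mul]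
      map_add' := by intro T T'; simp only [mul_add, add_mul]
      commutes' := by
        intro c
        rw [Algebra.algebraMap_eq_smul_one, mul_smul_comm, mul_one, smul_mul_assoc, ppi_mul_inv]
      map_star' := by
        intro T
        simp only [star_mul]
        rw [star_ppi, star_ppi, inv_inv]
        simp only [mul_assoc] }
  have hφc : Continuous φ := (continuous_const.mul continuous_id).mul continuous_const
  have h1 : A ≤ A.comap φ := by
    apply StarAlgebra.adjoin_le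
    rintro _ ⟨g, _, rfl⟩
    have h2 : φ (lam g) = lam (actE s g) := by
      show ppi s * lam g * ppi s⁻¹ = lam (actE s g)
      rw [ppi_lam, mul_assoc, ppi_mul_inv, mul_one]
    show φ (lam g) ∈ A
    rw [h2]
    exact StarAlgebra.subset_adjoin ℂ _ ⟨_, Set.mem_univ _, rfl⟩
  have h3 : T ∈ closure (A : Set (l2 C5 →L[ℂ] l2 C5)) := hT
  have h4 : φ T ∈ closure (A : Set (l2 C5 →L[ℂ] l2 C5)) :=
    map_mem_closure hφc h3 (fun U hU => h1 hU)
  exact h4

theorem exists_omega : ∃ ω : ℂ, ω ^ 2 + ω + 1 = 0 := by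
  refine ⟨(-1 + Complex.I * ((√3 : ℝ) : ℂ)) / 2, ?_⟩
  have h1 : (((√3 : ℝ) : ℂ)) ^ 2 = 3 := by
    rw [← Complex.ofReal_pow, Real.sq_sqrt (by norm_num)]
    norm_num
  have h2 : Complex.I ^ 2 = -1 := Complex.I_sq
  have h3 : ((-1 + Complex.I * ((√3 : ℝ) : ℂ)) / 2) ^ 2 + (-1 + Complex.I * ((√3 : ℝ) : ℂ)) / 2 + 1 =
      (3 + Complex.I ^ 2 * ((√3 : ℝ) : ℂ) ^ 2) / 4 := by ring
  rw [h3, h1, h2]
  norm_num

theorem mainU : ∃ u : l2 C5 →L[ℂ] l2 C5, u ∈ CR C5 ∧ u ∈ unitary (l2 C5 →L[ℂ] l2 C5) ∧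
      ∀ s, u = lam (kk s) * (pmL (actM s).toEquiv * u * pmL (actM s).toEquiv.symm) := by
  obtain ⟨ω, hω⟩ := exists_omega
  obtain ⟨y, hy, hyξ⟩ := yex ω hω
  let x : l2 C5 →L[ℂ] l2 C5 := (1 / 6 : ℂ) • ∑ f : D3, pp' f * y * ppi f⁻¹
  have hx : x ∈ CR C5 := by
    refine (CR C5).smul_mem (sum_mem fun f _ => ?_) _
    have h1 : pp' f * y * ppi f⁻¹ = lam (kk f) * (ppi f * y * ppi f⁻¹) := by
      unfold pp'
      simp only [mul_assoc]
    rw [h1]
    exact mul_mem (lam_mem _) (conj_mem f hy)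
  have hk : ∀ s, x = lam (kk s) * (pmL (actM s).toEquiv * x * pmL (actM s).toEquiv.symm) := by
    intro s
    have h1 : lam (kk s) * (pmL (actM s).toEquiv * x * pmL (actM s).toEquiv.symm) =
        pp' s * x * ppi s⁻¹ := by
      rw [ppi_symm]
      unfold pp'
      show lam (kk s) * (ppi s * x * ppi s⁻¹) = _
      simp only [mul_assoc]
    rw [h1]
    show x = pp' s * ((1 / 6 : ℂ) • ∑ f : D3, pp' f * y * ppi f⁻¹) * ppi s⁻¹
    rw [mul_smul_comm, smul_mul_assoc, Finset.mul_sum, Finset.sum_mul]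
    show (1 / 6 : ℂ) • ∑ f : D3, pp' f * y * ppi f⁻¹ = _
    congr 1
    rw [← Equiv.sum_comp (Equiv.mulLeft s) (fun f => pp' f * y * ppi f⁻¹)]
    refine Finset.sum_congr rfl fun f _ => ?_
    rw [Equiv.coe_mulLeft, pp'_mul, mul_inv_rev, ppi_mul]
    simp only [mul_assoc]
  have hlow : ∀ ξ : l2 C5, (∀ s, pmL (actM s).toEquiv ξ = ξ) → (1 / 10 : ℝ) * ‖ξ‖ ≤ ‖x ξ‖ := by
    intro ξ hξ
    have hξ' : ∀ s, ppi s ξ = ξ := hξ
    have h1 : x ξ = (1 / 6 : ℂ) • ∑ s : D3, pp' s (y ξ) := by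
      show ((1 / 6 : ℂ) • ∑ f : D3, pp' f * y * ppi f⁻¹) ξ = _
      rw [ContinuousLinearMap.smul_apply, ContinuousLinearMap.sum_apply]
      congr 1
      refine Finset.sum_congr rfl fun f _ => ?_
      show pp' f (y (ppi f⁻¹ ξ)) = _
      rw [hξ']
    rw [h1]
    refine replem ppi pp' ppi_one ppi_mul star_ppi pp'_one pp'_mul star_pp'
      (lam (FreeGroup.of 0)) (lam (FreeGroup.of 4)) (lam_mem_unitary _) (lam_mem_unitary _)
      ?_ ?_ ?_ ω hω (VV ω) (V_eq ω hω) ξ (y ξ) hξ' (hyξ ξ hξ')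
    · intro i
      unfold pp'
      rw [mul_assoc, ppi_lam, ← mul_assoc, ← lam_mul]
      have h2 : kk (.r i) * actE (.r i) (FreeGroup.of 0) = FreeGroup.of 0 := by
        have h3 : actE (.r i) (FreeGroup.of 0) = tt (.r i * .r 0) := actE_tt (.r i) (.r 0)
        rw [h3, DihedralGroup.r_mul_r, add_zero]
        show FreeGroup.of 0 * (ltr i)⁻¹ * ltr i = FreeGroup.of 0
        rw [inv_mul_cancel_right]
      rw [h2]
    · unfold pp'
      have h2 : kk (.sr 0) = 1 := by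
        show FreeGroup.of 0 * (ltr (-0))⁻¹ = 1
        rw [neg_zero]
        exact mul_inv_cancel _
      rw [h2, lam_one, one_mul]
    · intro s
      rw [ppi_lam, actE_z]
  have hlow' := below actM kk x hx hk (1 / 10) (by norm_num) hlow
  exact polar actM kk x hx hk (1 / 10) (by norm_num) hlow'

end N_mainU

alias mainU := N_mainU.mainU

end Pool.CS
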