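import Pool.Agent.Helper694.CS.Defs
set_option autoImplicit false

namespace Pool.CS


namespace N_KK_cnt

theorem KK_cnt {S C P : Type} [Group S] [Group C] [Group P] (g : Gadget S C) (B : Bdl S P)
    [Countable P] : Countable (KK g B) := by
  haveI : Countable C := g.cntC
  haveI : Countable (B.X → C) := inferInstance
  haveI : Countable (EqF g B) := Subtype.countable
  exact Countable.of_equiv (EqF g B × P) (SemidirectProduct.equivProd (φ := tr g B)).symm

end N_KK_cnt

alias KK_cnt := N_KK_cnt.KK_cnt

end Pool.CS
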