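import Pool.Agent.Helper694.CS.Defs
set_option autoImplicit false

namespace Pool.CS


namespace N_KK_rf

theorem KK_rf {S C P : Type} [Group S] [Group C] [Group P] (g : Gadget S C) (B : Bdl S P)
    (rf : RF P) : RF (KK g B) := by
  intro κ hκ
  by_cases hp : κ.right = 1
  · have hx : ∃ x, (κ.left : B.X → C) x ≠ 1 := by
      by_contra hcon
      push Not at hcon
      apply hκ
      apply SemidirectProduct.ext
      · apply Subtype.ext
        funext x
        exact hcon x
      · exact hp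
    obtain ⟨x, hx⟩ := hx
    obtain ⟨q, hq⟩ := g.rfC _ hx
    refine ⟨⟨Equiv.Perm (B.X × q.Q), Pm g B q.φ⟩, ?_⟩
    intro h
    have h1 : Pm g B q.φ κ (x, 1) = (x, 1) := by
      rw [show Pm g B q.φ κ = 1 from h]
      rfl
    rw [Pm_apply, hp, one_smul] at h1
    have h2 := congrArg Prod.snd h1
    apply hq
    have h3 : q.φ ((κ.left : B.X → C) x) * 1 = 1 := h2
    rwa [mul_one] at h3
  · obtain ⟨q, hq⟩ := rf _ hp
    exact ⟨⟨q.Q, q.φ.comp SemidirectProduct.rightHom⟩, hq⟩

end N_KK_rf

alias KK_rf := N_KK_rf.KK_rf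

end Pool.CS
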