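import Pool.Agent.Helper694.CS.Defs
import Pool.Agent.Helper694.CS.J_KK_rf
set_option autoImplicit false

namespace Pool.CS


namespace N_KK_sep1

theorem KK_sep1 {S C P : Type} [Group S] [Group C] [Group P] (g : Gadget S C) (B : Bdl S P)
    (b : B.X → C) (hb : IsTw g B b) (rf : RF P) (J : F2 →* P) (y : P) (hs : Sep P y) (hy : Boost J y) :
    Sep (KK g B) (i2 g B b hb y) := by
  intro κ hκ
  obtain ⟨u, hu⟩ : ∃ u : KK g B, u = i2 g B b hb y := ⟨_, rfl⟩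
  rw [← hu] at hκ ⊢
  have hur : u.right = y := by rw [hu]; rfl
  let rH : KK g B →* P := SemidirectProduct.rightHom
  have hrHu : rH u = y := hur
  by_cases hp : κ.right ∈ Subgroup.zpowers y
  · obtain ⟨n, hn⟩ := Subgroup.mem_zpowers_iff.1 hp
    have hrHκ : rH κ = y ^ n := hn.symm
    obtain ⟨f', hf'⟩ : ∃ f' : KK g B, f' = κ * u ^ (-n) := ⟨_, rfl⟩
    have hf1 : f' ≠ 1 := by
      intro h
      apply hκ
      rw [Subgroup.mem_zpowers_iff]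
      refine ⟨n, ?_⟩
      have h2 : κ = f' * u ^ n := by
        rw [hf', mul_assoc, ← zpow_add, neg_add_cancel, zpow_zero, mul_one]
      rw [h2, h, one_mul]
    obtain ⟨ψ, hψ⟩ := KK_rf g B rf f' hf1
    obtain ⟨q2, -, hq2⟩ := hy ⟨PUnit, 1⟩
    obtain ⟨φ, -, -, hφ⟩ := hq2 (orderOf (ψ.φ u)) (orderOf_pos _)
    refine ⟨⟨ψ.Q × φ.Q, ψ.φ.prod (φ.φ.comp rH)⟩, ?_⟩
    intro h
    obtain ⟨m, hm⟩ := Subgroup.mem_zpowers_iff.1 h
    have h1 : ψ.φ u ^ m = ψ.φ κ := congrArg Prod.fst hm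
    have h2 : φ.φ (rH u) ^ m = φ.φ (rH κ) := congrArg Prod.snd hm
    rw [hrHu, hrHκ, map_zpow] at h2
    have h3 : φ.φ y ^ (m - n) = 1 := by rw [zpow_sub, h2, mul_inv_cancel]
    have h4 : (orderOf (φ.φ y) : ℤ) ∣ m - n := orderOf_dvd_iff_zpow_eq_one.2 h3
    have h5 : ψ.φ u ^ (m - n) = 1 :=
      orderOf_dvd_iff_zpow_eq_one.1 ((Int.natCast_dvd_natCast.2 hφ).trans h4)
    apply hψ
    rw [hf', map_mul, map_zpow, ← h1, ← zpow_add]
    exact h5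
  · obtain ⟨q, hq⟩ := hs κ.right hp
    refine ⟨⟨q.Q, q.φ.comp rH⟩, ?_⟩
    show q.φ κ.right ∉ Subgroup.zpowers (q.φ (rH u))
    rw [hrHu]
    exact hq

end N_KK_sep1

alias KK_sep1 := N_KK_sep1.KK_sep1

end Pool.CS
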