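import Pool.Agent.Helper694.CS.Defs
set_option autoImplicit false

namespace Pool.CS


namespace N_KK_sep2

section aux
variable {S C P : Type} [Group S] [Group C] [Group P]

theorem thZ_zpow (g : Gadget S C) (M : ℕ) (m : ℤ) :
    thZ g M (g.z ^ m) = Multiplicative.ofAdd ((m : ℤ) : ZMod M) := by
  show AddMonoidHom.toMultiplicative (Int.castAddHom (ZMod M)) (g.eZ (g.z ^ m)) = _
  rw [map_zpow, g.eZ_z, ← ofAdd_zsmul]
  show Multiplicative.ofAdd (Int.castAddHom (ZMod M) (m • (1 : ℤ))) = _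
  congr 1
  simp

theorem modEq_of (g : Gadget S C) (M : ℕ) (a b : ℤ)
    (h : thZ g M (g.z ^ a) = thZ g M (g.z ^ b)) : a ≡ b [ZMOD M] := by
  rw [thZ_zpow, thZ_zpow] at h
  exact (ZMod.intCast_eq_intCast_iff a b M).1 (Multiplicative.ofAdd.injective h)

theorem thZ_eZ (g : Gadget S C) (M : ℕ) (c : C) :
    thZ g M c = thZ g M (g.z ^ (Multiplicative.toAdd (g.eZ c))) := by
  show AddMonoidHom.toMultiplicative (Int.castAddHom (ZMod M)) (g.eZ c) =
    AddMonoidHom.toMultiplicative (Int.castAddHom (ZMod M))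
      (g.eZ (g.z ^ (Multiplicative.toAdd (g.eZ c))))
  congr 1
  rw [map_zpow, g.eZ_z, ← ofAdd_zsmul]
  simp

theorem sepZ (g : Gadget S C) : Sep C g.z := by
  intro c hc
  obtain ⟨n, hn⟩ : ∃ n : ℤ, n = Multiplicative.toAdd (g.eZ c) := ⟨_, rfl⟩
  have hne : c * (g.z ^ n)⁻¹ ≠ 1 := by
    intro h
    apply hc
    rw [Subgroup.mem_zpowers_iff]
    exact ⟨n, (mul_inv_eq_one.1 h).symm⟩
  obtain ⟨q, hq⟩ := g.rfC _ hne
  obtain ⟨N, hNe⟩ : ∃ N : ℕ, N = orderOf (q.φ g.z) := ⟨_, rfl⟩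
  have hN : 0 < N := by rw [hNe]; exact orderOf_pos _
  haveI : NeZero N := ⟨hN.ne'⟩
  refine ⟨⟨q.Q × Multiplicative (ZMod N), q.φ.prod (thZ g N)⟩, ?_⟩
  intro hcon
  rw [Subgroup.mem_zpowers_iff] at hcon
  obtain ⟨l, hl⟩ := hcon
  have h1 : q.φ g.z ^ l = q.φ c := congrArg Prod.fst hl
  have h2 : thZ g N g.z ^ l = thZ g N c := congrArg Prod.snd hl
  rw [← map_zpow, thZ_eZ g N c, ← hn] at h2
  have h3 := modEq_of g N l n h2
  rw [hNe] at h3
  have h4 : q.φ g.z ^ l = q.φ g.z ^ n := zpow_eq_zpow_iff_modEq.2 h3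
  apply hq
  rw [map_mul, map_inv, map_zpow, ← h4, h1, mul_inv_cancel]

theorem sepZinv (g : Gadget S C) : Sep C (g.z)⁻¹ := by
  intro c hc
  rw [Subgroup.zpowers_inv] at hc
  obtain ⟨q, hq⟩ := sepZ g c hc
  refine ⟨q, ?_⟩
  rw [map_inv, Subgroup.zpowers_inv]
  exact hq

theorem sepOne (hC : RF C) : Sep C 1 := by
  intro c hc
  rw [Subgroup.zpowers_one_eq_bot, Subgroup.mem_bot] at hc
  obtain ⟨q, hq⟩ := hC c hc
  refine ⟨q, ?_⟩
  rw [map_one, Subgroup.zpowers_one_eq_bot, Subgroup.mem_bot]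
  exact hq

/-- the function of `e` -/
noncomputable def Ef (g : Gadget S C) (B : Bdl S P) (x0 x1 : B.X) : EqF g B :=
  jx g B x1 g.z * (jx g B x0 g.z)⁻¹

theorem Ef_one (g : Gadget S C) (B : Bdl S P) (x0 x1 : B.X) (h : ∀ s : S, x1 ≠ s • x0) (s : S) :
    (Ef g B x0 x1 : B.X → C) (s • x1) = g.z := by
  show (jx g B x1 g.z : B.X → C) (s • x1) * ((jx g B x0 g.z : B.X → C) (s • x1))⁻¹ = g.z
  rw [jx_apply, jx_ne, g.zfix, inv_one, mul_one]
  intro t ht
  apply h (s⁻¹ * t)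
  rw [mul_smul, ht, inv_smul_smul]

theorem Ef_zero (g : Gadget S C) (B : Bdl S P) (x0 x1 : B.X) (h : ∀ s : S, x1 ≠ s • x0) (s : S) :
    (Ef g B x0 x1 : B.X → C) (s • x0) = (g.z)⁻¹ := by
  show (jx g B x1 g.z : B.X → C) (s • x0) * ((jx g B x0 g.z : B.X → C) (s • x0))⁻¹ = (g.z)⁻¹
  rw [jx_apply, jx_ne, g.zfix, one_mul]
  intro t ht
  apply h (t⁻¹ * s)
  rw [mul_smul, ← ht, inv_smul_smul]

theorem Ef_other (g : Gadget S C) (B : Bdl S P) (x0 x1 y : B.X) (h0 : ∀ s : S, s • x0 ≠ y)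
    (h1 : ∀ s : S, s • x1 ≠ y) : (Ef g B x0 x1 : B.X → C) y = 1 := by
  show (jx g B x1 g.z : B.X → C) y * ((jx g B x0 g.z : B.X → C) y)⁻¹ = 1
  rw [jx_ne g B x1 y _ h1, jx_ne g B x0 y _ h0, inv_one, mul_one]

theorem coe_zpow' (g : Gadget S C) (B : Bdl S P) (E : EqF g B) (l : ℤ) (x : B.X) :
    ((E ^ l : EqF g B) : B.X → C) x = ((E : B.X → C) x) ^ l := by
  rw [Subgroup.coe_zpow, Pi.pow_apply]

theorem ee_zpow (g : Gadget S C) (B : Bdl S P) (x0 x1 : B.X) (l : ℤ) :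
    (ee g B x0 x1) ^ l = SemidirectProduct.inl ((Ef g B x0 x1) ^ l) :=
  (map_zpow (SemidirectProduct.inl : EqF g B →* KK g B) (Ef g B x0 x1) l).symm

theorem Pm_pow_apply (g : Gadget S C) (B : Bdl S P) (x0 x1 : B.X) {F : Type} [Group F]
    (θ : C →* F) (l : ℤ) (x : B.X) :
    Pm g B θ ((ee g B x0 x1) ^ l) (x, 1) =
      (x, θ (((Ef g B x0 x1 : EqF g B) : B.X → C) x) ^ l) := by
  rw [ee_zpow, Pm_apply]
  simp only [SemidirectProduct.right_inl, SemidirectProduct.left_inl, one_smul, mul_one]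
  rw [coe_zpow', map_zpow]

theorem Pm_apply_one (g : Gadget S C) (B : Bdl S P) {F : Type} [Group F]
    (θ : C →* F) (κ : KK g B) (hp : κ.right = 1) (x : B.X) :
    Pm g B θ κ (x, 1) = (x, θ ((κ.left : B.X → C) x)) := by
  rw [Pm_apply, hp]
  simp only [one_smul, mul_one]

/-- the finite quotient given by `Pm` -/
def qPm (g : Gadget S C) (B : Bdl S P) {F : Type} [Group F] [Finite F]
    (θ : C →* F) : FQ (KK g B) :=
  ⟨Equiv.Perm (B.X × F), Pm g B θ⟩

theorem sepE (g : Gadget S C) (B : Bdl S P) (x0 x1 : B.X) (h : ∀ s : S, x1 ≠ s • x0) (x : B.X) :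
    Sep C ((Ef g B x0 x1 : B.X → C) x) := by
  by_cases h1 : ∃ s : S, s • x1 = x
  · obtain ⟨s, rfl⟩ := h1
    rw [Ef_one g B x0 x1 h]
    exact sepZ g
  · by_cases h0 : ∃ s : S, s • x0 = x
    · obtain ⟨s, rfl⟩ := h0
      rw [Ef_zero g B x0 x1 h]
      exact sepZinv g
    · rw [Ef_other g B x0 x1 x (fun s hs => h0 ⟨s, hs⟩) (fun s hs => h1 ⟨s, hs⟩)]
      exact sepOne g.rfC

end aux

theorem KK_sep2 {S C P : Type} [Group S] [Group C] [Group P] (g : Gadget S C) (B : Bdl S P)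
    (rf : RF P) (x0 x1 : B.X) (h : ∀ s : S, x1 ≠ s • x0) : Sep (KK g B) (ee g B x0 x1) := by
  intro κ hκ
  by_cases hp : κ.right = 1
  · by_cases hf : ∀ x, (κ.left : B.X → C) x ∈ Subgroup.zpowers ((Ef g B x0 x1 : B.X → C) x)
    · -- all values are powers
      have e1 := Ef_one g B x0 x1 h 1
      have e0 := Ef_zero g B x0 x1 h 1
      rw [one_smul] at e1 e0
      obtain ⟨m, hm⟩ := Subgroup.mem_zpowers_iff.1 (hf x1)
      obtain ⟨n, hn⟩ := Subgroup.mem_zpowers_iff.1 (hf x0)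
      rw [e1] at hm
      rw [e0] at hn
      have hmn : m ≠ n := by
        intro hmn
        subst hmn
        apply hκ
        rw [Subgroup.mem_zpowers_iff]
        refine ⟨m, ?_⟩
        rw [ee_zpow]
        apply SemidirectProduct.ext
        · rw [SemidirectProduct.left_inl]
          ext y
          rw [coe_zpow']
          by_cases h1 : ∃ s : S, s • x1 = y
          · obtain ⟨s, rfl⟩ := h1
            rw [Ef_one g B x0 x1 h, EqF_apply, ← hm, map_zpow, g.zfix]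
          · by_cases h0 : ∃ s : S, s • x0 = y
            · obtain ⟨s, rfl⟩ := h0
              rw [Ef_zero g B x0 x1 h, EqF_apply, ← hn, map_zpow, map_inv, g.zfix]
            · have h2 := Ef_other g B x0 x1 y (fun s hs => h0 ⟨s, hs⟩) (fun s hs => h1 ⟨s, hs⟩)
              have h3 := hf y
              rw [h2, Subgroup.zpowers_one_eq_bot, Subgroup.mem_bot] at h3
              rw [h2, h3, one_zpow]
        · rw [SemidirectProduct.right_inl, hp]
      obtain ⟨M, hM⟩ : ∃ M : ℕ, M = (m - n).natAbs + 1 := ⟨_, rfl⟩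
      haveI : NeZero M := ⟨by omega⟩
      refine ⟨qPm g B (thZ g M), ?_⟩
      intro hcon
      rw [Subgroup.mem_zpowers_iff] at hcon
      obtain ⟨l, hl⟩ := hcon
      have hl' : Pm g B (thZ g M) ((ee g B x0 x1) ^ l) = Pm g B (thZ g M) κ := by
        rw [map_zpow]
        exact hl
      have k1 : thZ g M ((Ef g B x0 x1 : B.X → C) x1) ^ l = thZ g M ((κ.left : B.X → C) x1) := by
        have h1 := congrArg (fun σ : Equiv.Perm (B.X × Multiplicative (ZMod M)) => (σ (x1, 1)).2) hl'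
        simp only [Pm_pow_apply, Pm_apply_one g B (thZ g M) κ hp] at h1
        exact h1
      have k0 : thZ g M ((Ef g B x0 x1 : B.X → C) x0) ^ l = thZ g M ((κ.left : B.X → C) x0) := by
        have h1 := congrArg (fun σ : Equiv.Perm (B.X × Multiplicative (ZMod M)) => (σ (x0, 1)).2) hl'
        simp only [Pm_pow_apply, Pm_apply_one g B (thZ g M) κ hp] at h1
        exact h1
      rw [e1, ← hm, ← map_zpow] at k1
      rw [e0, ← hn, ← map_zpow, inv_zpow', inv_zpow'] at k0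
      have m1 := modEq_of g M l m k1
      have m0 := modEq_of g M (-l) (-n) k0
      have d1 := m1.dvd
      have d0 := m0.dvd
      have d2 : (M : ℤ) ∣ m - n := by
        have := dvd_add d1 d0
        have e : m - l + (-n - -l) = m - n := by ring
        rwa [e] at this
      have h5 : m - n = 0 := by
        apply Int.eq_zero_of_abs_lt_dvd d2
        rw [hM]
        push_cast
        rw [Int.abs_eq_natAbs]
        omega
      omega
    · push Not at hf
      obtain ⟨x, hx⟩ := hf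
      obtain ⟨q, hq⟩ := sepE g B x0 x1 h x _ hx
      refine ⟨qPm g B q.φ, ?_⟩
      intro hcon
      rw [Subgroup.mem_zpowers_iff] at hcon
      obtain ⟨l, hl⟩ := hcon
      have hl' : Pm g B q.φ ((ee g B x0 x1) ^ l) = Pm g B q.φ κ := by
        rw [map_zpow]
        exact hl
      apply hq
      rw [Subgroup.mem_zpowers_iff]
      refine ⟨l, ?_⟩
      have h1 := congrArg (fun σ : Equiv.Perm (B.X × q.Q) => (σ (x, 1)).2) hl'
      simp only [Pm_pow_apply, Pm_apply_one g B q.φ κ hp] at h1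
      exact h1
  · obtain ⟨q, hq⟩ := rf _ hp
    refine ⟨⟨q.Q, q.φ.comp SemidirectProduct.rightHom⟩, ?_⟩
    intro hcon
    have h1 : (q.φ.comp SemidirectProduct.rightHom) (ee g B x0 x1) = 1 := by
      show q.φ (SemidirectProduct.rightHom (ee g B x0 x1)) = 1
      unfold ee
      rw [SemidirectProduct.rightHom_inl, map_one]
    have h2 : (q.φ.comp SemidirectProduct.rightHom) κ ∈
      Subgroup.zpowers ((q.φ.comp SemidirectProduct.rightHom) (ee g B x0 x1)) := hcon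
    rw [h1, Subgroup.zpowers_one_eq_bot, Subgroup.mem_bot] at h2
    exact hq h2

end N_KK_sep2

alias KK_sep2 := N_KK_sep2.KK_sep2

end Pool.CS
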