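import Pool.Agent.Helper694.CS.Defs
set_option autoImplicit false

namespace Pool.CS


namespace N_KK_tf

theorem KK_tf {S C P : Type} [Group S] [Group C] [Group P] (g : Gadget S C) (B : Bdl S P)
    (tf : ∀ p : P, p ≠ 1 → ¬ IsOfFinOrder p) (κ : KK g B) (h : κ ≠ 1) : ¬ IsOfFinOrder κ := by
  intro hf
  have hr : κ.right = 1 := by
    by_contra hne
    exact tf _ hne (MonoidHom.isOfFinOrder (SemidirectProduct.rightHom : KK g B →* P) hf)
  have hκ : κ = SemidirectProduct.inl κ.left := by
    apply SemidirectProduct.ext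
    · rfl
    · exact hr
  have hl : κ.left ≠ 1 := by
    intro h1
    apply h
    rw [hκ, h1, map_one]
  have hex : ∃ x, (κ.left : B.X → C) x ≠ 1 := by
    by_contra hcon
    push Not at hcon
    apply hl
    ext x
    exact hcon x
  obtain ⟨x, hx⟩ := hex
  let evx : EqF g B →* C :=
    { toFun := fun f => (f : B.X → C) x
      map_one' := rfl
      map_mul' := fun _ _ => rfl }
  have hfl : IsOfFinOrder κ.left := by
    rw [hκ] at hf
    obtain ⟨n, hn, hp⟩ := isOfFinOrder_iff_pow_eq_one.mp hf
    refine isOfFinOrder_iff_pow_eq_one.mpr ⟨n, hn, ?_⟩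
    rw [← map_pow] at hp
    exact SemidirectProduct.inl_injective (hp.trans (map_one _).symm)
  exact g.tfC _ hx (MonoidHom.isOfFinOrder evx hfl)

end N_KK_tf

alias KK_tf := N_KK_tf.KK_tf

end Pool.CS
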