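import Pool.Agent.Helper694.CS.Defs
set_option autoImplicit false

namespace Pool.CS


namespace N_align

theorem thZ_pow {S C : Type} [Group S] [Group C] (g : Gadget S C) (M : ℕ) (c : C) :
    thZ g M c ^ M = 1 := by
  apply Multiplicative.toAdd.injective
  rw [toAdd_pow, toAdd_one, nsmul_eq_mul, ZMod.natCast_self, zero_mul]

theorem thZ_z {S C : Type} [Group S] [Group C] (g : Gadget S C) (M : ℕ) :
    thZ g M g.z = Multiplicative.ofAdd (1 : ZMod M) := by
  show Multiplicative.ofAdd (((g.eZ g.z).toAdd : ℤ) : ZMod M) = _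
  rw [g.eZ_z]
  simp

theorem Pm_i2 {S C P : Type} [Group S] [Group C] [Group P] (g : Gadget S C) (B : Bdl S P)
    (b : B.X → C) (hb : IsTw g B b) {F : Type} [Group F] (θ : C →* F) (p : P)
    (hp : ∀ x : B.X, p • x = x) : Pm g B θ (i2 g B b hb p) = 1 := by
  ext ⟨x, c⟩
  · show (p • x) = x
    exact hp x
  · show θ (b (p • x) * (b (p⁻¹ • p • x))⁻¹) * c = c
    rw [inv_smul_smul, hp, mul_inv_cancel, map_one, one_mul]

theorem Pm_inl_pow {S C P : Type} [Group S] [Group C] [Group P] (g : Gadget S C) (B : Bdl S P)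
    {F : Type} [Group F] (θ : C →* F) (f : EqF g B) (n : ℕ) (x : B.X) (c : F) :
    (Pm g B θ (SemidirectProduct.inl f) ^ n) (x, c) = (x, θ ((f : B.X → C) x) ^ n * c) := by
  rw [← map_pow, ← map_pow]
  rw [Pm_apply]
  show ((1 : P) • x, θ (((f ^ n : EqF g B) : B.X → C) ((1 : P) • x)) * c) = _
  rw [one_smul]
  have : ((f ^ n : EqF g B) : B.X → C) x = ((f : B.X → C) x) ^ n := rfl
  rw [this, map_pow]

theorem align {S C P : Type} [Group S] [Group C] [Group P] (g : Gadget S C) (B : Bdl S P)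
    (b : B.X → C) (hb : IsTw g B b) (y : P) (x0 x1 : B.X) (h : ∀ s : S, x1 ≠ s • x0)
    (q : FQ (KK g B)) (qp : FQ P)
    (h1 : orderOf (q.φ (i2 g B b hb y)) ∣ orderOf (qp.φ y))
    (h2 : orderOf (q.φ (ee g B x0 x1)) ∣ orderOf (qp.φ y))
    (h3 : ∀ x : B.X, y ^ orderOf (qp.φ y) • x = x) :
    ∃ r : FQ (KK g B), (∀ κ, r.φ κ = 1 ↔ (q.φ κ = 1 ∧ qp.φ κ.right = 1 ∧
        Pm g B (thZ g (orderOf (qp.φ y))) κ = 1)) ∧
      orderOf (r.φ (i2 g B b hb y)) = orderOf (qp.φ y) ∧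
      orderOf (r.φ (ee g B x0 x1)) = orderOf (qp.φ y) := by
  have hO : 0 < orderOf (qp.φ y) := orderOf_pos _
  haveI : NeZero (orderOf (qp.φ y)) := ⟨hO.ne'⟩
  haveI : Finite (Multiplicative (ZMod (orderOf (qp.φ y)))) :=
    inferInstanceAs (Finite (ZMod (orderOf (qp.φ y))))
  let r : FQ (KK g B) :=
    { Q := q.Q × qp.Q × Equiv.Perm (B.X × Multiplicative (ZMod (orderOf (qp.φ y))))
      φ := q.φ.prod ((qp.φ.comp SemidirectProduct.rightHom).prod
        (Pm g B (thZ g (orderOf (qp.φ y))))) }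
  have hr : ∀ κ, r.φ κ = (q.φ κ, qp.φ κ.right, Pm g B (thZ g (orderOf (qp.φ y))) κ) :=
    fun κ => rfl
  refine ⟨r, ?_, ?_, ?_⟩
  · intro κ
    rw [hr]
    constructor
    · intro hk
      have hk' : (q.φ κ, qp.φ κ.right, Pm g B (thZ g (orderOf (qp.φ y))) κ) =
        ((1 : q.Q), (1 : qp.Q), (1 : Equiv.Perm (B.X × Multiplicative (ZMod (orderOf (qp.φ y)))))) := hk
      simp only [Prod.mk.injEq] at hk'
      exact hk'
    · rintro ⟨a1, a2, a3⟩
      rw [a1, a2, a3]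
      rfl
  · rw [hr]
    have hlcm : orderOf ((q.φ (i2 g B b hb y), qp.φ (i2 g B b hb y).right,
        Pm g B (thZ g (orderOf (qp.φ y))) (i2 g B b hb y)) : q.Q × qp.Q × Equiv.Perm (B.X × Multiplicative (ZMod (orderOf (qp.φ y))))) =
        (orderOf (q.φ (i2 g B b hb y))).lcm ((orderOf (qp.φ y)).lcm
          (orderOf (Pm g B (thZ g (orderOf (qp.φ y))) (i2 g B b hb y)))) := by
      rw [Prod.orderOf, Prod.orderOf]
      rfl
    refine hlcm.trans ?_
    have h4 : orderOf (Pm g B (thZ g (orderOf (qp.φ y))) (i2 g B b hb y)) ∣ orderOf (qp.φ y) := by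
      apply orderOf_dvd_of_pow_eq_one
      rw [← map_pow, ← map_pow]
      exact Pm_i2 g B b hb _ _ h3
    apply Nat.dvd_antisymm
    · exact Nat.lcm_dvd h1 (Nat.lcm_dvd dvd_rfl h4)
    · exact (Nat.dvd_lcm_left _ _).trans (Nat.dvd_lcm_right _ _)
  · rw [hr]
    have hlcm : orderOf ((q.φ (ee g B x0 x1), qp.φ (ee g B x0 x1).right,
        Pm g B (thZ g (orderOf (qp.φ y))) (ee g B x0 x1)) : q.Q × qp.Q × Equiv.Perm (B.X × Multiplicative (ZMod (orderOf (qp.φ y))))) =
        (orderOf (q.φ (ee g B x0 x1))).lcm ((orderOf (qp.φ (ee g B x0 x1).right)).lcm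
          (orderOf (Pm g B (thZ g (orderOf (qp.φ y))) (ee g B x0 x1)))) := by
      rw [Prod.orderOf, Prod.orderOf]
    refine hlcm.trans ?_
    have h5 : orderOf (qp.φ (ee g B x0 x1).right) = 1 := by
      have : (ee g B x0 x1).right = 1 := rfl
      rw [this, map_one, orderOf_one]
    have h4 : orderOf (Pm g B (thZ g (orderOf (qp.φ y))) (ee g B x0 x1)) ∣ orderOf (qp.φ y) := by
      apply orderOf_dvd_of_pow_eq_one
      ext1 ⟨x, c⟩
      unfold ee
      rw [Pm_inl_pow, thZ_pow, one_mul]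
      rfl
    have h6 : orderOf (qp.φ y) ∣ orderOf (Pm g B (thZ g (orderOf (qp.φ y))) (ee g B x0 x1)) := by
      have h7 := pow_orderOf_eq_one (Pm g B (thZ g (orderOf (qp.φ y))) (ee g B x0 x1))
      generalize orderOf (Pm g B (thZ g (orderOf (qp.φ y))) (ee g B x0 x1)) = n at h7 ⊢
      have h8 := congrArg (fun σ : Equiv.Perm (B.X × Multiplicative (ZMod (orderOf (qp.φ y)))) =>
        (σ (x1, 1)).2) h7
      unfold ee at h8
      rw [Pm_inl_pow] at h8
      have h9 : (((jx g B x1 g.z * (jx g B x0 g.z)⁻¹ : EqF g B) : B.X → C) x1) = g.z := by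
        show (jx g B x1 g.z : B.X → C) x1 * ((jx g B x0 g.z : B.X → C) x1)⁻¹ = g.z
        rw [jx_self, jx_ne g B x0 x1 g.z (fun s hs => h s hs.symm), inv_one, mul_one]
      rw [h9, thZ_z] at h8
      have h10 : (Multiplicative.ofAdd (1 : ZMod (orderOf (qp.φ y)))) ^ n * 1 = 1 := h8
      rw [mul_one] at h10
      have h11 := congrArg Multiplicative.toAdd h10
      rw [toAdd_pow, toAdd_one, toAdd_ofAdd, nsmul_eq_mul, mul_one] at h11
      exact (ZMod.natCast_eq_zero_iff _ _).1 h11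
    rw [h5]
    apply Nat.dvd_antisymm
    · exact Nat.lcm_dvd h2 (Nat.lcm_dvd (one_dvd _) h4)
    · exact h6.trans ((Nat.dvd_lcm_right _ _).trans (Nat.dvd_lcm_right _ _))

end N_align

alias align := N_align.align

end Pool.CS
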