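import Pool.Agent.Helper694.CS.Defs
set_option autoImplicit false

namespace Pool.CS


namespace N_b_exists

theorem free_eq {S P : Type} [Group S] [Group P] (B : Bdl S P) {s t : S} {x : B.X}
    (h : s • x = t • x) : s = t := by
  have h1 : (t⁻¹ * s) • x = x := by rw [mul_smul, h, inv_smul_smul]
  exact (inv_mul_eq_one.1 (B.free _ _ h1)).symm

theorem b_exists {S C P : Type} [Group S] [Group C] [Group P] (g : Gadget S C) (B : Bdl S P) :
    ∃ b : B.X → C, IsTw g B b := by
  classical
  let rep : B.X → B.X := fun y => (Quotient.mk (MulAction.orbitRel S B.X) y).out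
  have hrep : ∀ y, ∃ s : S, s • rep y = y := by
    intro y
    have h1 : (MulAction.orbitRel S B.X).r (rep y) y := Quotient.mk_out (s := MulAction.orbitRel S B.X) y
    have h2 : (MulAction.orbitRel S B.X).r y (rep y) := (MulAction.orbitRel S B.X).symm h1
    exact h2
  have hrep2 : ∀ (t : S) y, rep (t • y) = rep y := by
    intro t y
    have h1 : Quotient.mk (MulAction.orbitRel S B.X) (t • y)
        = Quotient.mk (MulAction.orbitRel S B.X) y := Quotient.sound ⟨t, rfl⟩
    show (Quotient.mk (MulAction.orbitRel S B.X) (t • y)).out = _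
    rw [h1]
  choose sy hsy using hrep
  refine ⟨fun y => (g.k (sy y))⁻¹, fun t x => ?_⟩
  have h1 : sy (t • x) = t * sy x := by
    refine free_eq B (x := rep x) ?_
    rw [mul_smul, hsy x]
    have := hsy (t • x)
    rwa [hrep2] at this
  show (g.k (sy (t • x)))⁻¹ = g.act t (g.k (sy x))⁻¹ * (g.k t)⁻¹
  rw [h1, g.coc, mul_inv_rev, map_inv]

end N_b_exists

alias b_exists := N_b_exists.b_exists

end Pool.CS
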