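import Pool.Agent.Helper694.CS.Defs
set_option autoImplicit false

namespace Pool.CS


namespace N_bdl_ex

/-- orbit of `(b0, 1)` in `B0.X × q.Q`. -/
def Xt {S P : Type} [Group S] [Group P] (B0 : Bdl S P) (q : FQ P) (b0 : B0.X) : Type :=
  {y : B0.X × q.Q // ∃ (p : P) (s : S), y = (s • p • b0, q.φ p)}

/-- the new bundle. -/
def Bt {S P : Type} [Group S] [Group P] (B0 : Bdl S P) (q : FQ P) (b0 : B0.X) : Bdl S P where
  X := Xt B0 q b0
  fin := inferInstanceAs (Finite {y : B0.X × q.Q // ∃ (p : P) (s : S), y = (s • p • b0, q.φ p)})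
  ne := ⟨⟨((1 : S) • (1 : P) • b0, q.φ 1), 1, 1, rfl⟩⟩
  actP :=
    { smul := fun p y => ⟨(p • y.1.1, q.φ p * y.1.2), by
        obtain ⟨y, p', s', h⟩ := y
        refine ⟨p * p', s', ?_⟩
        simp only [h]
        rw [B0.comm, mul_smul, map_mul]⟩
      one_smul := fun y => by
        apply Subtype.ext
        show ((1 : P) • y.1.1, q.φ 1 * y.1.2) = y.1
        rw [one_smul, map_one, one_mul]
      mul_smul := fun p p' y => by
        apply Subtype.ext
        show ((p * p') • y.1.1, q.φ (p * p') * y.1.2) = (p • p' • y.1.1, q.φ p * (q.φ p' * y.1.2))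
        rw [mul_smul, map_mul, mul_assoc] }
  actS :=
    { smul := fun s y => ⟨(s • y.1.1, y.1.2), by
        obtain ⟨y, p', s', h⟩ := y
        refine ⟨p', s * s', ?_⟩
        simp only [h]
        rw [mul_smul]⟩
      one_smul := fun y => by
        apply Subtype.ext
        show ((1 : S) • y.1.1, y.1.2) = y.1
        rw [one_smul]
      mul_smul := fun s s' y => by
        apply Subtype.ext
        show ((s * s') • y.1.1, y.1.2) = (s • s' • y.1.1, y.1.2)
        rw [mul_smul] }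
  comm := fun p s y => by
    apply Subtype.ext
    show (p • s • y.1.1, q.φ p * y.1.2) = (s • p • y.1.1, q.φ p * y.1.2)
    rw [B0.comm]
  free := fun s y h => by
    have h1 : (s • y.1.1, y.1.2) = y.1 := congrArg Subtype.val h
    have h2 : s • y.1.1 = y.1.1 := congrArg Prod.fst h1
    exact B0.free s _ h2

theorem bdl_ex {S P : Type} [Group S] [Group P] [Finite S] (J : F2 →* P) (rf : RF P) (bun : Bun S J)
    (x : P) (hx : x ≠ 1) :
    ∃ B : Bdl S P, (∀ (y : B.X) (s : S), ∃ p : F2, J p • y = s • y) ∧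
      (∀ (y : B.X) (s : S), x • y ≠ s • y) ∧
      (∀ y1 y2 : B.X, ∃ (p : P) (s : S), y2 = s • p • y1) := by
  obtain ⟨q, hq⟩ := rf x hx
  obtain ⟨B0, hB0⟩ := bun q
  obtain ⟨b0⟩ := B0.ne
  refine ⟨Bt B0 q b0, ?_, ?_, ?_⟩
  · intro y s
    have y' : Xt B0 q b0 := y
    obtain ⟨p, hp1, hp2⟩ := hB0 (Subtype.val (show Xt B0 q b0 from y)).1 s
    refine ⟨p, ?_⟩
    apply Subtype.ext
    show (J p • (Subtype.val (show Xt B0 q b0 from y)).1,
      q.φ (J p) * (Subtype.val (show Xt B0 q b0 from y)).2)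
      = (s • (Subtype.val (show Xt B0 q b0 from y)).1, (Subtype.val (show Xt B0 q b0 from y)).2)
    rw [hp1, one_mul, hp2]
  · intro y s h
    have h1 : (x • (Subtype.val (show Xt B0 q b0 from y)).1,
      q.φ x * (Subtype.val (show Xt B0 q b0 from y)).2)
      = (s • (Subtype.val (show Xt B0 q b0 from y)).1, (Subtype.val (show Xt B0 q b0 from y)).2) :=
      congrArg Subtype.val h
    have h2 := congrArg Prod.snd h1
    apply hq
    exact mul_eq_right.1 h2
  · intro y1 y2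
    obtain ⟨v1, p1, s1, h1⟩ : Xt B0 q b0 := y1
    obtain ⟨v2, p2, s2, h2⟩ : Xt B0 q b0 := y2
    refine ⟨p2 * p1⁻¹, s2 * s1⁻¹, ?_⟩
    apply Subtype.ext
    show v2 = ((s2 * s1⁻¹) • (p2 * p1⁻¹) • v1.1, q.φ (p2 * p1⁻¹) * v1.2)
    rw [h1, h2]
    simp only
    rw [B0.comm (p2 * p1⁻¹) s1, ← mul_smul (s2 * s1⁻¹) s1, inv_mul_cancel_right,
      ← mul_smul (p2 * p1⁻¹) p1, inv_mul_cancel_right, ← map_mul, inv_mul_cancel_right]

end N_bdl_ex

alias bdl_ex := N_bdl_ex.bdl_ex

end Pool.CS
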