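import Pool.Agent.Helper694.CS.Defs
set_option autoImplicit false

namespace Pool.CS


namespace N_boost_ne

theorem boost_ne {P : Type} [Group P] (J : F2 →* P) (y : P) (hy : Boost J y) : y ≠ 1 := by
  intro h1
  obtain ⟨q2, _, h2⟩ := hy ⟨Unit, 1⟩
  obtain ⟨q3, _, _, h3⟩ := h2 2 (by norm_num)
  rw [h1, map_one, orderOf_one] at h3
  norm_num at h3

end N_boost_ne

alias boost_ne := N_boost_ne.boost_ne

end Pool.CS
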