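import Pool.Agent.Helper694.CS.Defs
set_option autoImplicit false

namespace Pool.CS


namespace N_hnnS

theorem free_iso {Γ Z : Type} [Group Γ] [Finite Γ] [Finite Z] (a b : Γ →* Equiv.Perm Z)
    (ha : ∀ γ z, a γ z = z → γ = 1) (hb : ∀ γ z, b γ z = z → γ = 1) :
    ∃ τ : Equiv.Perm Z, ∀ γ z, τ (a γ z) = b γ (τ z) := by
  classical
  have key : ∀ (c : Γ →* Equiv.Perm Z), (∀ γ z, c γ z = z → γ = 1) →
      ∃ (Ω : Type) (_ : Finite Ω) (f : Ω × Γ ≃ Z), ∀ ω γ δ, f (ω, δ * γ) = c δ (f (ω, γ)) := by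
    intro c hc
    let r : Setoid Z :=
      { r := fun z z' => ∃ γ, c γ z = z'
        iseqv := ⟨fun z => ⟨1, by simp⟩, fun {z z'} ⟨γ, h⟩ => ⟨γ⁻¹, by rw [← h, map_inv]; simp⟩,
          fun {x y z} ⟨γ, h⟩ ⟨δ, h'⟩ => ⟨δ * γ, by rw [map_mul, Equiv.Perm.mul_apply, h, h']⟩⟩ }
    let f : Quotient r × Γ → Z := fun p => c p.2 (Quotient.out p.1)
    have hf : Function.Bijective f := by
      constructor
      · rintro ⟨ω, γ⟩ ⟨ω', γ'⟩ h
        have h : c γ (Quotient.out ω) = c γ' (Quotient.out ω') := h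
        have h0 : c (γ'⁻¹ * γ) (Quotient.out ω) = Quotient.out ω' := by
          rw [map_mul, Equiv.Perm.mul_apply, h, map_inv]; simp
        have h1 : ω = ω' := by
          rw [← Quotient.out_eq ω, ← Quotient.out_eq ω']
          apply Quotient.sound
          exact ⟨γ'⁻¹ * γ, h0⟩
        subst h1
        have h3 := hc _ _ h0
        rw [inv_mul_eq_one] at h3
        rw [h3]
      · intro z
        obtain ⟨γ, hγ⟩ : r (Quotient.out (Quotient.mk r z)) z := Quotient.mk_out z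
        exact ⟨(Quotient.mk r z, γ), hγ⟩
    exact ⟨Quotient r, inferInstance, Equiv.ofBijective f hf, fun ω γ δ => by
      show c (δ * γ) _ = c δ (c γ _)
      rw [map_mul]; rfl⟩
  obtain ⟨Ω, _, f, hf⟩ := key a ha
  obtain ⟨Ω', _, f', hf'⟩ := key b hb
  have hcard : Nat.card Ω = Nat.card Ω' := by
    have h1 : Nat.card Ω * Nat.card Γ = Nat.card Z := by
      rw [← Nat.card_prod]; exact Nat.card_congr f
    have h2 : Nat.card Ω' * Nat.card Γ = Nat.card Z := by
      rw [← Nat.card_prod]; exact Nat.card_congr f'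
    exact Nat.eq_of_mul_eq_mul_right Nat.card_pos (h1.trans h2.symm)
  obtain ⟨β⟩ : Nonempty (Ω ≃ Ω') := (Finite.card_eq).1 hcard
  refine ⟨f.symm.trans ((β.prodCongr (Equiv.refl Γ)).trans f'), fun γ z => ?_⟩
  obtain ⟨⟨ω, δ⟩, rfl⟩ := f.surjective z
  rw [← hf]
  simp [hf']

theorem hnnS {S K Z : Type} [Group S] [Group K] [Finite S] [Finite Z] [MulAction K Z] [MulAction S Z]
    (u v : K) (φ : Subgroup.zpowers u ≃* Subgroup.zpowers v)
    (hφ : φ ⟨u, Subgroup.mem_zpowers u⟩ = ⟨v, Subgroup.mem_zpowers v⟩)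
    (comm : ∀ (k : K) (s : S) (z : Z), k • s • z = s • k • z) (O : ℕ) (hO : 0 < O)
    (uO : ∀ z : Z, u ^ O • z = z) (vO : ∀ z : Z, v ^ O • z = z)
    (hu : ∀ (n : ℕ) (s : S) (z : Z), u ^ n • z = s • z → O ∣ n ∧ s = 1)
    (hv : ∀ (n : ℕ) (s : S) (z : Z), v ^ n • z = s • z → O ∣ n ∧ s = 1) :
    ∃ ρ : HNNExtension K (Subgroup.zpowers u) (Subgroup.zpowers v) φ →* Equiv.Perm Z,
      (∀ (k : K) (z : Z), ρ (HNNExtension.of k) z = k • z) ∧
      ∀ g (s : S) (z : Z), ρ g (s • z) = s • ρ g z := by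
  classical
  have := Fintype.ofFinite Z
  let Lk : K →* Equiv.Perm Z := MulAction.toPermHom K Z
  let Ls : S →* Equiv.Perm Z := MulAction.toPermHom S Z
  have Lk_apply : ∀ k z, Lk k z = k • z := fun _ _ => rfl
  have Ls_apply : ∀ s z, Ls s z = s • z := fun _ _ => rfl
  have hcomm : ∀ k s, Commute (Lk k) (Ls s) := by
    intro k s
    ext z
    exact comm k s z
  let g0 : Equiv.Perm Z × Equiv.Perm Z := (Lk u, Lk v)
  let C : Subgroup (Equiv.Perm Z × Equiv.Perm Z) := Subgroup.zpowers g0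
  have hC : ∀ c : C, ∃ n : ℕ, c.1 = (Lk (u ^ n), Lk (v ^ n)) := by
    intro c
    obtain ⟨n, hn⟩ := (mem_powers_iff_mem_zpowers.2 c.2)
    refine ⟨n, ?_⟩
    rw [← hn, map_pow, map_pow]
    rfl
  have uO' : ∀ n, O ∣ n → Lk (u ^ n) = 1 := by
    rintro _ ⟨m, rfl⟩
    have h1 : Lk (u ^ O) = 1 := by
      ext z
      exact uO z
    rw [pow_mul, map_pow, h1, one_pow]
  have vO' : ∀ n, O ∣ n → Lk (v ^ n) = 1 := by
    rintro _ ⟨m, rfl⟩
    have h1 : Lk (v ^ O) = 1 := by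
      ext z
      exact vO z
    rw [pow_mul, map_pow, h1, one_pow]
  let a : C × S →* Equiv.Perm Z := MonoidHom.noncommCoprod
    ((MonoidHom.fst (Equiv.Perm Z) (Equiv.Perm Z)).comp C.subtype) Ls (by
      intro c s
      obtain ⟨n, hn⟩ := hC c
      show Commute c.1.1 (Ls s)
      rw [hn]
      exact hcomm _ _)
  let b : C × S →* Equiv.Perm Z := MonoidHom.noncommCoprod
    ((MonoidHom.snd (Equiv.Perm Z) (Equiv.Perm Z)).comp C.subtype) Ls (by
      intro c s
      obtain ⟨n, hn⟩ := hC c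
      show Commute c.1.2 (Ls s)
      rw [hn]
      exact hcomm _ _)
  have ha0 : ∀ (c : C) (s : S) (z : Z), a (c, s) z = c.1.1 (s • z) := fun _ _ _ => rfl
  have hb0 : ∀ (c : C) (s : S) (z : Z), b (c, s) z = c.1.2 (s • z) := fun _ _ _ => rfl
  have haf : ∀ γ z, a γ z = z → γ = 1 := by
    rintro ⟨c, s⟩ z h
    obtain ⟨n, hn⟩ := hC c
    rw [ha0, hn] at h
    have h1 : u ^ n • (s • z) = s⁻¹ • (s • z) := by
      rw [inv_smul_smul]; exact h
    obtain ⟨h2, h3⟩ := hu n s⁻¹ _ h1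
    have h4 : c = 1 := by
      apply Subtype.ext
      rw [hn, uO' n h2, vO' n h2]
      rfl
    rw [h4, inv_eq_one.1 h3]
    rfl
  have hbf : ∀ γ z, b γ z = z → γ = 1 := by
    rintro ⟨c, s⟩ z h
    obtain ⟨n, hn⟩ := hC c
    rw [hb0, hn] at h
    have h1 : v ^ n • (s • z) = s⁻¹ • (s • z) := by
      rw [inv_smul_smul]; exact h
    obtain ⟨h2, h3⟩ := hv n s⁻¹ _ h1
    have h4 : c = 1 := by
      apply Subtype.ext
      rw [hn, uO' n h2, vO' n h2]
      rfl
    rw [h4, inv_eq_one.1 h3]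
    rfl
  obtain ⟨τ, hτ⟩ := free_iso a b haf hbf
  have hτu : ∀ z, τ (u • z) = v • τ z := by
    intro z
    have h1 := hτ (⟨g0, Subgroup.mem_zpowers g0⟩, 1) z
    rw [ha0, hb0, one_smul, one_smul] at h1
    exact h1
  have hτs : ∀ (s : S) z, τ (s • z) = s • τ z := by
    intro s z
    have h1 := hτ (1, s) z
    rw [ha0, hb0] at h1
    exact h1
  have hsemi : SemiconjBy τ (Lk u) (Lk v) := by
    ext z
    exact hτu z
  have hφn : ∀ n : ℤ, ((φ (⟨u, Subgroup.mem_zpowers u⟩ ^ n) : Subgroup.zpowers v) : K) = v ^ n := by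
    intro n
    rw [map_zpow, hφ]
    rfl
  let ρ : HNNExtension K (Subgroup.zpowers u) (Subgroup.zpowers v) φ →* Equiv.Perm Z :=
    HNNExtension.lift Lk τ (by
      rintro ⟨x, hx⟩
      obtain ⟨n, rfl⟩ := hx
      have h1 := hφn n
      have h2 : (⟨u, Subgroup.mem_zpowers u⟩ ^ n : Subgroup.zpowers u) =
        ⟨u ^ n, ⟨n, rfl⟩⟩ := rfl
      rw [h2] at h1
      show τ * Lk (u ^ n) = Lk _ * τ
      rw [h1, map_zpow, map_zpow]
      exact hsemi.zpow_right n)
  refine ⟨ρ, fun k z => ?_, fun g => ?_⟩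
  · show HNNExtension.lift Lk τ _ (HNNExtension.of k) z = k • z
    rw [HNNExtension.lift_of]
    rfl
  · induction g using HNNExtension.induction_on with
    | of g =>
      intro s z
      show HNNExtension.lift Lk τ _ (HNNExtension.of g) (s • z) =
        s • HNNExtension.lift Lk τ _ (HNNExtension.of g) z
      rw [HNNExtension.lift_of]
      exact comm g s z
    | t =>
      intro s z
      show HNNExtension.lift Lk τ _ HNNExtension.t (s • z) =
        s • HNNExtension.lift Lk τ _ HNNExtension.t z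
      rw [HNNExtension.lift_t]
      exact hτs s z
    | mul x y hx hy =>
      intro s z
      rw [map_mul, Equiv.Perm.mul_apply, hy, hx]
      rfl
    | inv x hx =>
      intro s z
      rw [map_inv]
      apply (ρ x).injective
      rw [hx]
      have h5 : ∀ w, ρ x ((ρ x)⁻¹ w) = w := fun w => by
        rw [← Equiv.Perm.mul_apply, mul_inv_cancel]; rfl
      rw [h5, h5]

end N_hnnS

alias hnnS := N_hnnS.hnnS

end Pool.CS
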