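import Pool.Agent.Helper694.CS.Defs
import Pool.Agent.Helper694.CS.J_align
import Pool.Agent.Helper694.CS.J_hnnS
set_option autoImplicit false

namespace Pool.CS


namespace N_bunN

theorem bunN {S C P : Type} [Group S] [Group C] [Group P] (g : Gadget S C) (B : Bdl S P)
    (b : B.X → C) (hb : IsTw g B b) (J : F2 →* P) (y : P) (x0 x1 : B.X)
    (h : ∀ s : S, x1 ≠ s • x0)
    (φ : Subgroup.zpowers (i2 g B b hb y) ≃* Subgroup.zpowers (ee g B x0 x1))
    (hφ : φ ⟨i2 g B b hb y, Subgroup.mem_zpowers _⟩ = ⟨ee g B x0 x1, Subgroup.mem_zpowers _⟩)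
    (hy : Boost J y) (bun : Bun S J) :
    Bun S (((HNNExtension.of (φ := φ)).comp (i2 g B b hb)).comp J) := by
  intro q
  haveI : Finite S := g.finS
  let ψ : KK g B →* q.Q := q.φ.comp (HNNExtension.of (φ := φ))
  let φ0 : P →* Equiv.Perm B.X × q.Q := (MulAction.toPermHom P B.X).prod (ψ.comp (i2 g B b hb))
  obtain ⟨q2, hq2, hM⟩ := hy ⟨Equiv.Perm B.X × q.Q, φ0⟩
  obtain ⟨Y, hY⟩ := bun q2
  let M : ℕ := orderOf (ψ (i2 g B b hb y)) * orderOf (ψ (ee g B x0 x1)) *
    orderOf (MulAction.toPermHom P Y.X y)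
  have hMpos : 0 < M := by
    have e1 : 0 < orderOf (ψ (i2 g B b hb y)) := orderOf_pos _
    have e2 : 0 < orderOf (ψ (ee g B x0 x1)) := orderOf_pos _
    have e3 : 0 < orderOf (MulAction.toPermHom P Y.X y) := orderOf_pos _
    positivity
  obtain ⟨q3, hq3, hq3J, hMO⟩ := hM M hMpos
  have hO : 0 < orderOf (q3.φ y) := orderOf_pos _
  have hyO : q3.φ (y ^ orderOf (q3.φ y)) = 1 := by
    rw [map_pow, pow_orderOf_eq_one]
  have hyO2 : φ0 (y ^ orderOf (q3.φ y)) = 1 := by
    have h1 : y ^ orderOf (q3.φ y) ∈ q3.φ.ker := hyO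
    exact hq2 (hq3 h1)
  have hB : ∀ x : B.X, y ^ orderOf (q3.φ y) • x = x := by
    intro x
    have h1 := congrArg Prod.fst hyO2
    have h2 := congrArg (fun e : Equiv.Perm B.X => e x) h1
    exact h2
  have d1 : orderOf (ψ (i2 g B b hb y)) ∣ orderOf (q3.φ y) :=
    dvd_trans (Dvd.intro _ (by ring : orderOf (ψ (i2 g B b hb y)) * (orderOf (ψ (ee g B x0 x1)) *
    orderOf (MulAction.toPermHom P Y.X y)) = M)) hMO
  have d2 : orderOf (ψ (ee g B x0 x1)) ∣ orderOf (q3.φ y) :=
    dvd_trans (Dvd.intro _ (by ring : orderOf (ψ (ee g B x0 x1)) * (orderOf (ψ (i2 g B b hb y)) *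
    orderOf (MulAction.toPermHom P Y.X y)) = M)) hMO
  have d3 : orderOf (MulAction.toPermHom P Y.X y) ∣ orderOf (q3.φ y) :=
    dvd_trans (Dvd.intro_left _ rfl) hMO
  obtain ⟨r, hr, hru, hrv⟩ := align g B b hb y x0 x1 h ⟨q.Q, ψ⟩ q3 d1 d2 hB
  -- the `K` action
  letI actK : MulAction (KK g B) (Y.X × r.Q) :=
    { smul := fun κ z => (κ.right • z.1, r.φ κ * z.2)
      one_smul := fun z => by
        show ((1 : KK g B).right • z.1, r.φ 1 * z.2) = z
        rw [map_one, one_mul, SemidirectProduct.one_right, one_smul]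
      mul_smul := fun κ μ z => by
        show ((κ * μ).right • z.1, r.φ (κ * μ) * z.2) =
          (κ.right • μ.right • z.1, r.φ κ * (r.φ μ * z.2))
        rw [map_mul, mul_assoc, SemidirectProduct.mul_right, mul_smul] }
  letI actS : MulAction S (Y.X × r.Q) :=
    { smul := fun s z => (s • z.1, z.2)
      one_smul := fun z => by
        show ((1 : S) • z.1, z.2) = z
        rw [one_smul]
      mul_smul := fun s t z => by
        show ((s * t) • z.1, z.2) = (s • t • z.1, z.2)
        rw [mul_smul] }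
  have actK_def : ∀ (κ : KK g B) (z : Y.X × r.Q), κ • z = (κ.right • z.1, r.φ κ * z.2) :=
    fun κ z => rfl
  have actS_def : ∀ (s : S) (z : Y.X × r.Q), s • z = (s • z.1, z.2) := fun s z => rfl
  have uright : ∀ n : ℕ, ((i2 g B b hb y) ^ n).right = y ^ n := by
    intro n
    rw [← map_pow]; rfl
  have vright : ∀ n : ℕ, ((ee g B x0 x1) ^ n).right = 1 := by
    intro n
    have : (ee g B x0 x1).right = 1 := rfl
    have h2 := map_pow (SemidirectProduct.rightHom (φ := tr g B)) (ee g B x0 x1) n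
    have h3 : SemidirectProduct.rightHom (φ := tr g B) (ee g B x0 x1) = 1 := rfl
    rw [h3, one_pow] at h2
    exact h2
  have yO : ∀ (n : ℕ), orderOf (q3.φ y) ∣ n → ∀ a : Y.X, y ^ n • a = a := by
    intro n hn a
    have h1 : MulAction.toPermHom P Y.X y ^ n = 1 := orderOf_dvd_iff_pow_eq_one.1 (dvd_trans d3 hn)
    rw [← map_pow] at h1
    exact congrArg (fun e : Equiv.Perm Y.X => e a) h1
  obtain ⟨ρ, hρ1, hρ2⟩ := hnnS (Z := Y.X × r.Q) (S := S) (i2 g B b hb y) (ee g B x0 x1) φ hφ
    (by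
      intro k s z
      rw [actK_def, actS_def, actS_def, actK_def]
      show (k.right • s • z.1, _) = (s • k.right • z.1, _)
      rw [Y.comm])
    (orderOf (q3.φ y)) hO
    (by
      intro z
      rw [actK_def, uright, yO _ (dvd_refl _), map_pow, ← hru, pow_orderOf_eq_one, one_mul])
    (by
      intro z
      rw [actK_def, vright, one_smul, map_pow, ← hrv, pow_orderOf_eq_one, one_mul])
    (by
      intro n s z hz
      rw [actK_def, actS_def, uright] at hz
      have h1 := congrArg Prod.fst hz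
      have h2 := congrArg Prod.snd hz
      simp only at h1 h2
      have h3 : r.φ (i2 g B b hb y ^ n) = 1 := mul_eq_right.1 h2
      rw [map_pow] at h3
      have h4 : orderOf (q3.φ y) ∣ n := by
        rw [← hru]; exact orderOf_dvd_of_pow_eq_one h3
      refine ⟨h4, ?_⟩
      rw [yO n h4] at h1
      exact Y.free _ _ h1.symm)
    (by
      intro n s z hz
      rw [actK_def, actS_def, vright, one_smul] at hz
      have h1 := congrArg Prod.fst hz
      have h2 := congrArg Prod.snd hz
      simp only at h1 h2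
      have h3 : r.φ (ee g B x0 x1 ^ n) = 1 := mul_eq_right.1 h2
      rw [map_pow] at h3
      have h4 : orderOf (q3.φ y) ∣ n := by
        rw [← hrv]; exact orderOf_dvd_of_pow_eq_one h3
      exact ⟨h4, Y.free _ _ h1.symm⟩)
  letI actH : MulAction (HNNExtension (KK g B) (Subgroup.zpowers (i2 g B b hb y))
      (Subgroup.zpowers (ee g B x0 x1)) φ) (Y.X × r.Q) :=
    MulAction.compHom (Y.X × r.Q) ρ
  have actH_def : ∀ (p : HNNExtension (KK g B) (Subgroup.zpowers (i2 g B b hb y))
      (Subgroup.zpowers (ee g B x0 x1)) φ) (z : Y.X × r.Q), p • z = ρ p z := fun p z => rfl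
  refine ⟨{ X := Y.X × r.Q
            actP := actH
            actS := actS
            comm := ?_
            free := ?_ }, ?_⟩
  · intro p s x
    rw [actH_def, actH_def, hρ2]
  · intro s x hx
    have h1 := congrArg Prod.fst hx
    exact Y.free _ _ h1
  · intro x s
    obtain ⟨a, w⟩ := x
    obtain ⟨p, hp1, hp2⟩ := hY a s
    have h0 : φ0 (J p) = 1 := hq2 (show J p ∈ q2.φ.ker from hp1)
    have h01 : ∀ x : B.X, J p • x = x := by
      intro x
      have h1 := congrArg Prod.fst h0
      exact congrArg (fun e : Equiv.Perm B.X => e x) h1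
    have h02 : ψ (i2 g B b hb (J p)) = 1 := congrArg Prod.snd h0
    have h03 : q3.φ (J p) = 1 := hq3J p hp1
    have h04 : Pm g B (thZ g (orderOf (q3.φ y))) (i2 g B b hb (J p)) = 1 := by
      ext z
      · rw [Pm_apply]
        show (J p • z.1) = z.1
        exact h01 _
      · rw [Pm_apply]
        show thZ g (orderOf (q3.φ y)) (b (J p • z.1) * (b ((J p)⁻¹ • J p • z.1))⁻¹) * z.2 = z.2
        rw [inv_smul_smul, h01, mul_inv_cancel, map_one, one_mul]
    have h05 : r.φ (i2 g B b hb (J p)) = 1 := (hr _).2 ⟨h02, h03, h04⟩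
    refine ⟨p, h02, ?_⟩
    show ρ (HNNExtension.of (i2 g B b hb (J p))) (a, w) = (s • a, w)
    rw [hρ1, actK_def, h05, one_mul]
    show (J p • a, w) = _
    rw [hp2]

end N_bunN

alias bunN := N_bunN.bunN

end Pool.CS
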