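import Pool.Agent.Helper694.CS.Defs
set_option autoImplicit false

namespace Pool.CS


namespace N_centK

theorem centK {S C P : Type} [Group S] [Group C] [Group P] (g : Gadget S C) (B : Bdl S P)
    (b : B.X → C) (hb : IsTw g B b) (J : F2 →* P) (cent : ∀ p : P, (∀ q, p * J q = J q * p) → p = 1)
    (full : ∀ (x : B.X) (s : S), ∃ q : F2, J q • x = s • x)
    (κ : KK g B) (hκ : ∀ q, κ * i2 g B b hb (J q) = i2 g B b hb (J q) * κ) : κ = 1 := by
  have hr : κ.right = 1 := by
    apply cent
    intro q
    have := congrArg SemidirectProduct.right (hκ q)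
    rw [SemidirectProduct.mul_right, SemidirectProduct.mul_right] at this
    exact this
  have hf : ∀ (q : F2) (x : B.X), (κ.left : B.X → C) x * (b x * (b ((J q)⁻¹ • x))⁻¹) =
      (b x * (b ((J q)⁻¹ • x))⁻¹) * (κ.left : B.X → C) ((J q)⁻¹ • x) := by
    intro q x
    have h1 := congrArg SemidirectProduct.left (hκ q)
    rw [SemidirectProduct.mul_left, SemidirectProduct.mul_left, hr, map_one] at h1
    have h2 := congrArg (fun f : EqF g B => (f : B.X → C) x) h1
    exact h2
  have hh : ∀ (q : F2) (x : B.X), (b (J q • x))⁻¹ * (κ.left : B.X → C) (J q • x) * b (J q • x) =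
      (b x)⁻¹ * (κ.left : B.X → C) x * b x := by
    intro q x
    have h := hf q (J q • x)
    rw [inv_smul_smul] at h
    have h2 : (κ.left : B.X → C) (J q • x) * b (J q • x) =
        b (J q • x) * ((b x)⁻¹ * (κ.left : B.X → C) x * b x) := by
      calc (κ.left : B.X → C) (J q • x) * b (J q • x) =
          ((κ.left : B.X → C) (J q • x) * (b (J q • x) * (b x)⁻¹)) * b x := by group
        _ = ((b (J q • x) * (b x)⁻¹) * (κ.left : B.X → C) x) * b x := by rw [h]
        _ = _ := by group
    rw [mul_assoc, h2]
    group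
  have hfix : ∀ x : B.X, (b x)⁻¹ * (κ.left : B.X → C) x * b x = 1 := by
    intro x
    apply g.fix
    intro s
    obtain ⟨q, hq⟩ := full x s
    have h := hh q x
    rw [hq, hb, EqF_apply] at h
    refine Eq.trans ?_ h
    rw [map_mul, map_mul, map_inv]
    group
  have hleft : ∀ x : B.X, (κ.left : B.X → C) x = 1 := by
    intro x
    have h := hfix x
    have h2 : (κ.left : B.X → C) x = b x * ((b x)⁻¹ * (κ.left : B.X → C) x * b x) * (b x)⁻¹ := by
      group
    rw [h2, h]
    group
  apply SemidirectProduct.ext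
  · apply Subtype.ext
    funext x
    rw [hleft x]
    rfl
  · rw [hr]; rfl

end N_centK

alias centK := N_centK.centK

end Pool.CS
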