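import Pool.Agent.Helper694.CS.Defs
set_option autoImplicit false

namespace Pool.CS


namespace N_constz

theorem constz {S C P : Type} [Group S] [Group C] [Group P] (g : Gadget S C) (B : Bdl S P) :
    ∃ c : KK g B, c ≠ 1 ∧ ∀ p : P, c * SemidirectProduct.inr p = SemidirectProduct.inr p * c := by
  obtain ⟨x⟩ := B.ne
  let f : EqF g B := ⟨fun _ => g.z, fun s _ => (g.zfix s).symm⟩
  refine ⟨SemidirectProduct.inl f, ?_, ?_⟩
  · intro h
    have h1 : f = 1 := by
      have := congrArg SemidirectProduct.left h
      exact this
    have h2 : g.z = 1 := by
      have := congrArg (fun k : EqF g B => (k : B.X → C) x) h1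
      exact this
    have h3 := g.eZ_z
    rw [h2, map_one] at h3
    have h4 : (0 : ℤ) = 1 := Multiplicative.ofAdd.injective h3
    exact absurd h4 (by norm_num)
  · intro p
    apply SemidirectProduct.ext
    · rw [SemidirectProduct.mul_left, SemidirectProduct.mul_left]
      simp only [SemidirectProduct.left_inl, SemidirectProduct.right_inl,
        SemidirectProduct.left_inr, SemidirectProduct.right_inr, map_one, mul_one, one_mul]
      apply Subtype.ext
      funext y
      rfl
    · rw [SemidirectProduct.mul_right, SemidirectProduct.mul_right]
      simp

end N_constz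

alias constz := N_constz.constz

end Pool.CS
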