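import Pool.Agent.Helper694.CS.Defs
set_option autoImplicit false

namespace Pool.CS


namespace N_cyciso

theorem cyciso_aux {K : Type} [Group K] (u : K) (hu : ¬ IsOfFinOrder u) :
    ∃ e : Multiplicative ℤ ≃* Subgroup.zpowers u,
      e (Multiplicative.ofAdd 1) = ⟨u, Subgroup.mem_zpowers u⟩ := by
  let f : Multiplicative ℤ →* Subgroup.zpowers u :=
    zpowersHom (Subgroup.zpowers u) ⟨u, Subgroup.mem_zpowers u⟩
  have hf : ∀ n : ℤ, ((f (Multiplicative.ofAdd n) : Subgroup.zpowers u) : K) = u ^ n := by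
    intro n
    simp [f, zpowersHom_apply]
  have hinj : Function.Injective f := by
    intro m n h
    have h1 : ((f m : Subgroup.zpowers u) : K) = f n := by rw [h]
    have h2 := hf (Multiplicative.toAdd m)
    have h3 := hf (Multiplicative.toAdd n)
    rw [ofAdd_toAdd] at h2 h3
    rw [h2, h3] at h1
    exact Multiplicative.toAdd.injective (injective_zpow_iff_not_isOfFinOrder.2 hu h1)
  have hsurj : Function.Surjective f := by
    rintro ⟨x, n, rfl⟩
    refine ⟨Multiplicative.ofAdd n, ?_⟩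
    apply Subtype.ext
    exact hf n
  refine ⟨MulEquiv.ofBijective f ⟨hinj, hsurj⟩, ?_⟩
  apply Subtype.ext
  have := hf 1
  rw [zpow_one] at this
  exact this

theorem cyciso {K : Type} [Group K] (u v : K) (hu : ¬ IsOfFinOrder u) (hv : ¬ IsOfFinOrder v) :
    ∃ φ : Subgroup.zpowers u ≃* Subgroup.zpowers v,
      φ ⟨u, Subgroup.mem_zpowers u⟩ = ⟨v, Subgroup.mem_zpowers v⟩ := by
  obtain ⟨e, he⟩ := cyciso_aux u hu
  obtain ⟨e', he'⟩ := cyciso_aux v hv
  refine ⟨e.symm.trans e', ?_⟩
  rw [MulEquiv.trans_apply, ← he, MulEquiv.symm_apply_apply, he']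

end N_cyciso

alias cyciso := N_cyciso.cyciso

end Pool.CS
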