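import Pool.Agent.Helper694.CS.Defs
set_option autoImplicit false

namespace Pool.CS


namespace N_genK

theorem j_conj_jx {S C P : Type} [Group S] [Group C] [Group P] (g : Gadget S C) (B : Bdl S P)
    (f : EqF g B) (x : B.X) (c : C) :
    f * jx g B x c * f⁻¹ = jx g B x ((f : B.X → C) x * c * ((f : B.X → C) x)⁻¹) := by
  rw [map_mul, map_mul, map_inv]
  apply Subtype.ext
  funext y
  show (f : B.X → C) y * (jx g B x c : B.X → C) y * ((f : B.X → C) y)⁻¹ =
    (jx g B x ((f : B.X → C) x) : B.X → C) y * (jx g B x c : B.X → C) y *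
      ((jx g B x ((f : B.X → C) x) : B.X → C) y)⁻¹
  by_cases h : ∃ s : S, s • x = y
  · obtain ⟨s, rfl⟩ := h
    rw [jx_apply, jx_apply, EqF_apply]
  · have h' : ∀ s : S, s • x ≠ y := fun s hs => h ⟨s, hs⟩
    rw [jx_ne g B x y _ h', jx_ne g B x y _ h']
    simp

theorem j_jx_smul {S C P : Type} [Group S] [Group C] [Group P] (g : Gadget S C) (B : Bdl S P)
    (s : S) (x : B.X) (c : C) : jx g B (s • x) c = jx g B x (g.act s⁻¹ c) := by
  apply Subtype.ext
  funext y
  by_cases h : ∃ t : S, t • x = y
  · obtain ⟨t, rfl⟩ := h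
    have e : t • x = (t * s⁻¹) • (s • x) := by
      rw [mul_smul, inv_smul_smul]
    rw [jx_apply]
    rw [e, jx_apply, map_mul]
    rfl
  · have h' : ∀ t : S, t • x ≠ y := fun t ht => h ⟨t, ht⟩
    have h'' : ∀ t : S, t • (s • x) ≠ y := fun t ht => h ⟨t * s, by rw [mul_smul]; exact ht⟩
    rw [jx_ne g B x y _ h', jx_ne g B (s • x) y _ h'']

theorem j_tr_jx {S C P : Type} [Group S] [Group C] [Group P] (g : Gadget S C) (B : Bdl S P)
    (p : P) (x : B.X) (c : C) : tr g B p (jx g B x c) = jx g B (p • x) c := by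
  apply Subtype.ext
  funext y
  rw [tr_apply]
  by_cases h : ∃ s : S, s • p • x = y
  · obtain ⟨s, rfl⟩ := h
    rw [← B.comm, inv_smul_smul, jx_apply, B.comm, jx_apply]
  · have h' : ∀ s : S, s • p • x ≠ y := fun s hs => h ⟨s, hs⟩
    have h'' : ∀ s : S, s • x ≠ p⁻¹ • y := by
      intro s hs
      apply h' s
      rw [← B.comm, hs, smul_inv_smul]
    rw [jx_ne g B _ y _ h', jx_ne g B x _ _ h'']

theorem j_inl_mem {S C P : Type} [Group S] [Group C] [Group P] (g : Gadget S C) (B : Bdl S P)
    (N : Subgroup (KK g B))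
    (h : ∀ (x : B.X) (c : C), (SemidirectProduct.inl (jx g B x c) : KK g B) ∈ N) :
    ∀ (n : ℕ) (f : EqF g B), {x | (f : B.X → C) x ≠ 1}.ncard ≤ n →
      (SemidirectProduct.inl f : KK g B) ∈ N := by
  intro n
  induction n with
  | zero =>
    intro f hf
    have h0 : {x | (f : B.X → C) x ≠ 1} = ∅ := by
      have := (Set.ncard_eq_zero (Set.toFinite _)).1 (Nat.le_zero.1 hf)
      exact this
    have : f = 1 := by
      apply Subtype.ext
      funext x
      by_contra hx
      have : x ∈ {x | (f : B.X → C) x ≠ 1} := hx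
      rw [h0] at this
      exact this
    rw [this, map_one]
    exact N.one_mem
  | succ n ih =>
    intro f hf
    by_cases hx : ∃ x, (f : B.X → C) x ≠ 1
    · obtain ⟨x, hx⟩ := hx
      have e1 : (SemidirectProduct.inl f : KK g B) =
          SemidirectProduct.inl (f * (jx g B x ((f : B.X → C) x))⁻¹) *
            SemidirectProduct.inl (jx g B x ((f : B.X → C) x)) := by
        rw [← map_mul, inv_mul_cancel_right]
      rw [e1]
      apply N.mul_mem _ (h _ _)
      apply ih
      have hval : ∀ y, ((f * (jx g B x ((f : B.X → C) x))⁻¹ : EqF g B) : B.X → C) y =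
          (f : B.X → C) y * ((jx g B x ((f : B.X → C) x) : B.X → C) y)⁻¹ := fun y => rfl
      have hlt : {y | ((f * (jx g B x ((f : B.X → C) x))⁻¹ : EqF g B) : B.X → C) y ≠ 1} ⊂
          {y | (f : B.X → C) y ≠ 1} := by
        refine ⟨?_, ?_⟩
        · intro y hy
          rw [Set.mem_setOf_eq] at hy ⊢
          rw [hval] at hy
          intro hfy
          apply hy
          by_cases h2 : ∃ s : S, s • x = y
          · obtain ⟨s, rfl⟩ := h2
            rw [jx_apply, EqF_apply, mul_inv_cancel]
          · rw [jx_ne g B x y _ (fun s hs => h2 ⟨s, hs⟩), hfy]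
            simp
        · intro hsub
          have : x ∈ {y | ((f * (jx g B x ((f : B.X → C) x))⁻¹ : EqF g B) : B.X → C) y ≠ 1} :=
            hsub hx
          rw [Set.mem_setOf_eq, hval, jx_self, mul_inv_cancel] at this
          exact this rfl
      have := Set.ncard_lt_ncard hlt (Set.toFinite _)
      omega
    · push Not at hx
      have : f = 1 := by
        apply Subtype.ext
        funext x
        exact hx x
      rw [this, map_one]
      exact N.one_mem

theorem genK {S C P : Type} [Group S] [Group C] [Group P] (g : Gadget S C) (B : Bdl S P)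
    (b : B.X → C) (hb : IsTw g B b) (J : F2 →* P)
    (full : ∀ (x : B.X) (s : S), ∃ q : F2, J q • x = s • x)
    (trans : ∀ y1 y2 : B.X, ∃ (p : P) (s : S), y2 = s • p • y1)
    (G : Set P) (hG : Subgroup.normalClosure G = ⊤) (x0 : B.X)
    (N : Subgroup (KK g B)) (hN : N.Normal) (h1 : ∀ y ∈ G, i2 g B b hb y ∈ N)
    (h2 : SemidirectProduct.inl (jx g B x0 g.a) ∈ N)
    (h3 : SemidirectProduct.inl (jx g B x0 g.z) ∈ N) : N = ⊤ := by
  -- step 1
  have s1 : ∀ p : P, i2 g B b hb p ∈ N := by
    haveI : (N.comap (i2 g B b hb)).Normal := hN.comap _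
    have hle : Subgroup.normalClosure G ≤ N.comap (i2 g B b hb) :=
      Subgroup.normalClosure_le_normal (fun y hy => h1 y hy)
    intro p
    have hp : p ∈ Subgroup.normalClosure G := by rw [hG]; trivial
    exact hle hp
  -- step 2
  have sP : ∀ (p : P) (x : B.X) (c : C), (SemidirectProduct.inl (jx g B x c) : KK g B) ∈ N →
      (SemidirectProduct.inl (jx g B (p • x) c) : KK g B) ∈ N := by
    intro p x c hc
    have := hN.conj_mem _ hc (SemidirectProduct.inr p)
    rw [← j_tr_jx, SemidirectProduct.inl_aut]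
    rw [map_inv]
    exact this
  have sC : ∀ (x : B.X) (c d : C), (SemidirectProduct.inl (jx g B x c) : KK g B) ∈ N →
      (SemidirectProduct.inl (jx g B x (d * c * d⁻¹)) : KK g B) ∈ N := by
    intro x c d hc
    have := hN.conj_mem _ hc (SemidirectProduct.inl (jx g B x d))
    rw [map_mul, map_mul, map_inv, map_mul, map_mul, map_inv]
    exact this
  have sT : ∀ c : C, (SemidirectProduct.inl (jx g B x0 c) : KK g B) ∈ N := by
    let M : Subgroup C := N.comap ((SemidirectProduct.inl : EqF g B →* KK g B).comp (jx g B x0))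
    have hM : ∀ c, c ∈ M ↔ (SemidirectProduct.inl (jx g B x0 c) : KK g B) ∈ N := fun c => Iff.rfl
    have hMtop : M = ⊤ := by
      apply g.gen M
      · exact ⟨fun c hc d => (hM _).2 (sC x0 c d ((hM _).1 hc))⟩
      · intro s c hc
        obtain ⟨q, hq⟩ := full x0 s⁻¹
        have h4 := sP (J q) x0 c ((hM _).1 hc)
        rw [hq, j_jx_smul, inv_inv] at h4
        exact (hM _).2 h4
      · exact h2
      · exact h3
    intro c
    rw [← hM, hMtop]
    trivial
  have sA : ∀ (x : B.X) (c : C), (SemidirectProduct.inl (jx g B x c) : KK g B) ∈ N := by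
    intro x c
    obtain ⟨p, s, rfl⟩ := trans x0 x
    rw [j_jx_smul]
    exact sP p x0 _ (sT _)
  have sF : ∀ f : EqF g B, (SemidirectProduct.inl f : KK g B) ∈ N :=
    fun f => j_inl_mem g B N sA _ f le_rfl
  have sR : ∀ p : P, (SemidirectProduct.inr p : KK g B) ∈ N := by
    intro p
    have e : (SemidirectProduct.inr p : KK g B) =
        (SemidirectProduct.inl (i2 g B b hb p).left)⁻¹ * i2 g B b hb p := by
      rw [eq_inv_mul_iff_mul_eq]
      exact SemidirectProduct.inl_left_mul_inr_right (i2 g B b hb p)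
    rw [e]
    exact N.mul_mem (N.inv_mem (sF _)) (s1 p)
  rw [eq_top_iff]
  intro κ _
  rw [← SemidirectProduct.inl_left_mul_inr_right κ]
  exact N.mul_mem (sF _) (sR _)

end N_genK

alias genK := N_genK.genK

end Pool.CS
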