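import Pool.Agent.Helper694.CS.Defs
set_option autoImplicit false

namespace Pool.CS


namespace N_hnn_word

theorem hnn_word {K : Type} [Group K] {A B : Subgroup K} (φ : A ≃* B)
    (g : HNNExtension K A B φ) :
    ∃ w : HNNExtension.NormalWord.ReducedWord K A B, w.prod φ = g := by
  obtain ⟨d⟩ := HNNExtension.NormalWord.TransversalPair.nonempty K A B
  refine ⟨(g • (HNNExtension.NormalWord.empty : HNNExtension.NormalWord d)).toReducedWord, ?_⟩
  rw [HNNExtension.NormalWord.prod_smul, HNNExtension.NormalWord.prod_empty, mul_one]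

end N_hnn_word

alias hnn_word := N_hnn_word.hnn_word

end Pool.CS
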