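import Pool.Agent.Helper694.CS.Defs
import Pool.Agent.Helper694.CS.J_hnn_word
set_option autoImplicit false

namespace Pool.CS


namespace N_hnn_cent

theorem last_mul {K : Type} [Group K] {A B : Subgroup K} (φ : A ≃* B) (h : K) :
    ∀ l : List (ℤˣ × K), l ≠ [] →
      l.IsChain (fun a b => a.2 ∈ HNNExtension.toSubgroup A B a.1 → a.1 = b.1) →
      ∃ l' : List (ℤˣ × K), l'.IsChain (fun a b => a.2 ∈ HNNExtension.toSubgroup A B a.1 → a.1 = b.1) ∧
        (l'.map (fun x => (HNNExtension.t : HNNExtension K A B φ) ^ (x.1 : ℤ) * HNNExtension.of x.2)).prod =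
        (l.map (fun x => (HNNExtension.t : HNNExtension K A B φ) ^ (x.1 : ℤ) * HNNExtension.of x.2)).prod *
          HNNExtension.of h ∧
        l'.head?.map Prod.fst = l.head?.map Prod.fst := by
  intro l
  induction l with
  | nil => intro hl; exact absurd rfl hl
  | cons a l ih =>
    intro _ hch
    rw [List.isChain_cons] at hch
    by_cases hl : l = []
    · subst hl
      refine ⟨[(a.1, a.2 * h)], by simp, ?_, by simp⟩
      simp [mul_assoc]
    · obtain ⟨l', h1, h2, h3⟩ := ih hl hch.2
      refine ⟨a :: l', ?_, ?_, by simp⟩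
      · rw [List.isChain_cons]
        refine ⟨?_, h1⟩
        intro y hy hya
        cases l with
        | nil => exact absurd rfl hl
        | cons b l =>
          have h4 := hch.1 b (by simp) hya
          have h5 : y.1 = b.1 := by
            have hy' : l'.head? = some y := hy
            rw [hy'] at h3
            simpa using h3
          rw [h4, h5]
      · rw [List.map_cons, List.prod_cons, h2, List.map_cons, List.prod_cons]
        simp only [mul_assoc]

theorem key {K : Type} [Group K] {A B : Subgroup K} (φ : A ≃* B) (h : K)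
    (w : HNNExtension.NormalWord.ReducedWord K A B) (hw : w.toList ≠ [])
    (c : w.prod φ * HNNExtension.of h = HNNExtension.of h * w.prod φ) :
    ∀ u ∈ w.toList.head?.map Prod.fst, w.head⁻¹ * h⁻¹ * w.head ∈ HNNExtension.toSubgroup A B (-u) := by
  obtain ⟨l', h1, h2, h3⟩ := last_mul φ h w.toList hw w.chain
  let w1 : HNNExtension.NormalWord.ReducedWord K A B := ⟨h * w.head, w.toList, w.chain⟩
  let w2 : HNNExtension.NormalWord.ReducedWord K A B := ⟨w.head, l', h1⟩
  have e : w1.prod φ = w2.prod φ := by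
    have e1 : w1.prod φ = HNNExtension.of h * w.prod φ := by
      simp only [HNNExtension.NormalWord.ReducedWord.prod, w1, map_mul, mul_assoc]
    have e2 : w2.prod φ = w.prod φ * HNNExtension.of h := by
      simp only [HNNExtension.NormalWord.ReducedWord.prod, w2]
      rw [h2, mul_assoc]
    rw [e1, e2, c]
  have := (HNNExtension.ReducedWord.map_fst_eq_and_of_prod_eq φ e).2
  intro u hu
  have h5 := this u hu
  have e3 : w1.head⁻¹ * w2.head = w.head⁻¹ * h⁻¹ * w.head := by
    show (h * w.head)⁻¹ * w.head = _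
    rw [mul_inv_rev]
  rw [e3] at h5
  exact h5

theorem comm_cyc {K : Type} [Group K] (u v : K) (e : ℤˣ) {x y : K}
    (hx : x ∈ HNNExtension.toSubgroup (Subgroup.zpowers u) (Subgroup.zpowers v) e)
    (hy : y ∈ HNNExtension.toSubgroup (Subgroup.zpowers u) (Subgroup.zpowers v) e) : x * y = y * x := by
  rcases Int.units_eq_one_or e with rfl | rfl
  · rw [HNNExtension.toSubgroup_one] at hx hy
    obtain ⟨m, rfl⟩ := Subgroup.mem_zpowers_iff.mp hx
    obtain ⟨n, rfl⟩ := Subgroup.mem_zpowers_iff.mp hy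
    rw [← zpow_add, ← zpow_add, add_comm]
  · rw [HNNExtension.toSubgroup_neg_one] at hx hy
    obtain ⟨m, rfl⟩ := Subgroup.mem_zpowers_iff.mp hx
    obtain ⟨n, rfl⟩ := Subgroup.mem_zpowers_iff.mp hy
    rw [← zpow_add, ← zpow_add, add_comm]

theorem hnn_cent {K : Type} [Group K] (u v : K) (φ : Subgroup.zpowers u ≃* Subgroup.zpowers v)
    (h1 h2 : K) (hne : h1 * h2 ≠ h2 * h1)
    (g : HNNExtension K (Subgroup.zpowers u) (Subgroup.zpowers v) φ)
    (c1 : g * HNNExtension.of h1 = HNNExtension.of h1 * g)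
    (c2 : g * HNNExtension.of h2 = HNNExtension.of h2 * g) : ∃ k, g = HNNExtension.of k := by
  obtain ⟨w, rfl⟩ := hnn_word φ g
  by_cases hw : w.toList = []
  · refine ⟨w.head, ?_⟩
    simp [HNNExtension.NormalWord.ReducedWord.prod, hw]
  · exfalso
    obtain ⟨a, l, hal⟩ := List.exists_cons_of_ne_nil hw
    have hu : a.1 ∈ w.toList.head?.map Prod.fst := by
      rw [hal]; simp
    have k1 := key φ h1 w hw c1 a.1 hu
    have k2 := key φ h2 w hw c2 a.1 hu
    have k3 := comm_cyc u v _ k1 k2
    apply hne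
    have k4 : h1⁻¹ * h2⁻¹ = h2⁻¹ * h1⁻¹ := by
      have e1 : w.head⁻¹ * h1⁻¹ * w.head * (w.head⁻¹ * h2⁻¹ * w.head) = w.head⁻¹ * (h1⁻¹ * h2⁻¹) * w.head := by
        group
      have e2 : w.head⁻¹ * h2⁻¹ * w.head * (w.head⁻¹ * h1⁻¹ * w.head) = w.head⁻¹ * (h2⁻¹ * h1⁻¹) * w.head := by
        group
      rw [e1, e2] at k3
      exact mul_left_cancel (mul_right_cancel k3)
    have k5 := congrArg (·⁻¹) k4
    simp only [mul_inv_rev, inv_inv] at k5
    exact k5.symm


end N_hnn_cent

alias hnn_cent := N_hnn_cent.hnn_cent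

end Pool.CS
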