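import Pool.Agent.Helper694.CS.Defs
import Pool.Agent.Helper694.CS.J_hnn_word
set_option autoImplicit false

namespace Pool.CS


namespace N_hnn_cnt

theorem hnn_cnt {K : Type} [Group K] [Countable K] {A B : Subgroup K} (φ : A ≃* B) :
    Countable (HNNExtension K A B φ) := by
  have h1 : Countable (HNNExtension.NormalWord.ReducedWord K A B) := by
    have hinj : Function.Injective (fun w : HNNExtension.NormalWord.ReducedWord K A B =>
        (w.head, w.toList)) := by
      rintro ⟨h, l, c⟩ ⟨h', l', c'⟩ he
      simp only [Prod.mk.injEq] at he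
      obtain ⟨rfl, rfl⟩ := he
      rfl
    exact hinj.countable
  exact Function.Surjective.countable (f := fun w : HNNExtension.NormalWord.ReducedWord K A B =>
    w.prod φ) (hnn_word φ)

end N_hnn_cnt

alias hnn_cnt := N_hnn_cnt.hnn_cnt

end Pool.CS
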