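import Pool.Agent.Helper694.CS.Defs
set_option autoImplicit false

namespace Pool.CS


namespace N_hnnA

theorem coset_bij {Q : Type} [Group Q] (H : Subgroup Q) :
    Function.Bijective (fun p : (Q ⧸ H) × H => p.1.out * (p.2 : Q)) := by
  constructor
  · rintro ⟨c, h⟩ ⟨c', h'⟩ e
    have e' : c.out * (h : Q) = c'.out * (h' : Q) := e
    have h1 : c = c' := by
      have h2 : (QuotientGroup.mk (c.out * (h : Q)) : Q ⧸ H) = QuotientGroup.mk (c'.out * (h' : Q)) := by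
        rw [e']
      rw [QuotientGroup.mk_mul_of_mem _ h.2, QuotientGroup.mk_mul_of_mem _ h'.2,
        QuotientGroup.out_eq', QuotientGroup.out_eq'] at h2
      exact h2
    subst h1
    have h3 : (h : Q) = h' := mul_left_cancel e'
    have h4 : h = h' := Subtype.ext h3
    rw [h4]
  · intro q
    have h1 : (QuotientGroup.mk q : Q ⧸ H).out⁻¹ * q ∈ H := by
      rw [← QuotientGroup.eq, QuotientGroup.out_eq']
    exact ⟨((QuotientGroup.mk q : Q ⧸ H), ⟨_, h1⟩), mul_inv_cancel_left _ _⟩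

theorem conj_right {Q : Type} [Group Q] [Finite Q] (a b : Q) (h : orderOf a = orderOf b) :
    ∃ τ : Equiv.Perm Q, ∀ q, τ (q * a) = τ q * b := by
  classical
  have hca : Nat.card (Subgroup.zpowers a) = Nat.card (Subgroup.zpowers b) := by
    rw [Nat.card_zpowers, Nat.card_zpowers, h]
  have hq : Nat.card (Q ⧸ Subgroup.zpowers a) = Nat.card (Q ⧸ Subgroup.zpowers b) := by
    have h1 := Subgroup.card_eq_card_quotient_mul_card_subgroup (Subgroup.zpowers a)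
    have h2 := Subgroup.card_eq_card_quotient_mul_card_subgroup (Subgroup.zpowers b)
    rw [h1, hca] at h2
    have h3 : 0 < Nat.card (Subgroup.zpowers b) := Nat.card_pos
    exact Nat.eq_of_mul_eq_mul_right h3 h2
  obtain ⟨α⟩ : Nonempty ((Q ⧸ Subgroup.zpowers a) ≃ (Q ⧸ Subgroup.zpowers b)) :=
    Finite.card_eq.1 hq
  let β : Subgroup.zpowers a ≃ Subgroup.zpowers b := zpowersEquivZPowers h
  have hβ : ∀ x : Subgroup.zpowers a, ((β (x * ⟨a, Subgroup.mem_zpowers a⟩) : _) : Q) =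
      (β x : Q) * b := by
    rintro ⟨x, hx⟩
    obtain ⟨n, rfl⟩ : ∃ n : ℕ, a ^ n = x := by
      have := (mem_powers_iff_mem_zpowers (x := a) (y := x)).2 hx
      obtain ⟨n, hn⟩ := this
      exact ⟨n, hn⟩
    have h1 : β ⟨a ^ n, hx⟩ = ⟨b ^ n, n, zpow_natCast b n⟩ := zpowersEquivZPowers_apply h n
    have h2 : (⟨a ^ n, hx⟩ : Subgroup.zpowers a) * ⟨a, Subgroup.mem_zpowers a⟩ =
        ⟨a ^ (n + 1), (n + 1 : ℕ), zpow_natCast a (n + 1)⟩ := by
      apply Subtype.ext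
      show a ^ n * a = a ^ (n + 1)
      rw [pow_succ]
    have h3 : β ⟨a ^ (n + 1), (n + 1 : ℕ), zpow_natCast a (n + 1)⟩ =
        ⟨b ^ (n + 1), (n + 1 : ℕ), zpow_natCast b (n + 1)⟩ := zpowersEquivZPowers_apply h (n + 1)
    rw [h2, h3, h1]
    exact pow_succ b n
  let Ea := Equiv.ofBijective _ (coset_bij (Subgroup.zpowers a))
  let Eb := Equiv.ofBijective _ (coset_bij (Subgroup.zpowers b))
  refine ⟨Ea.symm.trans ((Equiv.prodCongr α β).trans Eb), ?_⟩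
  intro q
  obtain ⟨⟨c, x⟩, rfl⟩ := Ea.surjective q
  have h1 : Ea (c, x) * a = Ea (c, x * ⟨a, Subgroup.mem_zpowers a⟩) := by
    show c.out * (x : Q) * a = c.out * ((x : Q) * a)
    rw [mul_assoc]
  rw [h1]
  simp only [Equiv.trans_apply, Equiv.symm_apply_apply, Equiv.prodCongr_apply, Prod.map_apply]
  show (α c).out * ((β (x * ⟨a, Subgroup.mem_zpowers a⟩) : _) : Q) = (α c).out * (β x : Q) * b
  rw [hβ, mul_assoc]

theorem conj_left {Q : Type} [Group Q] [Finite Q] (a b : Q) (h : orderOf a = orderOf b) :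
    ∃ τ : Equiv.Perm Q, ∀ q, τ (a * q) = b * τ q := by
  obtain ⟨τ, hτ⟩ := conj_right a⁻¹ b⁻¹ (by rw [orderOf_inv, orderOf_inv, h])
  refine ⟨(Equiv.inv Q).trans (τ.trans (Equiv.inv Q)), ?_⟩
  intro q
  show (τ (a * q)⁻¹)⁻¹ = b * (τ q⁻¹)⁻¹
  rw [mul_inv_rev, hτ, mul_inv_rev, inv_inv]


theorem hnnA {K : Type} [Group K] (u v : K) (φ : Subgroup.zpowers u ≃* Subgroup.zpowers v)
    (hφ : φ ⟨u, Subgroup.mem_zpowers u⟩ = ⟨v, Subgroup.mem_zpowers v⟩)
    (r : FQ K) (hr : orderOf (r.φ u) = orderOf (r.φ v)) :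
    ∃ ρ : HNNExtension K (Subgroup.zpowers u) (Subgroup.zpowers v) φ →* Equiv.Perm r.Q,
      ∀ k q, ρ (HNNExtension.of k) q = r.φ k * q := by
  obtain ⟨τ, hτ⟩ := conj_left (r.φ u) (r.φ v) hr
  let Lm : r.Q →* Equiv.Perm r.Q := MulAction.toPermHom r.Q r.Q
  have h1 : MulAut.conj τ (Lm (r.φ u)) = Lm (r.φ v) := by
    rw [MulAut.conj_apply, mul_inv_eq_iff_eq_mul]
    ext q
    exact hτ q
  refine ⟨HNNExtension.lift (Lm.comp r.φ) τ ?_, ?_⟩
  · rintro ⟨a, n, rfl⟩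
    have h2 : (φ ⟨u ^ n, n, rfl⟩ : K) = v ^ n := by
      have h3 : (⟨u ^ n, n, rfl⟩ : Subgroup.zpowers u) = ⟨u, Subgroup.mem_zpowers u⟩ ^ n := by
        apply Subtype.ext
        rfl
      rw [h3, map_zpow, hφ]
      rfl
    show τ * Lm (r.φ (u ^ n)) = Lm (r.φ (φ ⟨u ^ n, n, rfl⟩ : K)) * τ
    have h4 : MulAut.conj τ (Lm (r.φ (u ^ n))) = Lm (r.φ (v ^ n)) := by
      have e1 : Lm (r.φ (u ^ n)) = Lm (r.φ u) ^ n := by rw [map_zpow, map_zpow]
      have e2 : Lm (r.φ (v ^ n)) = Lm (r.φ v) ^ n := by rw [map_zpow, map_zpow]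
      rw [e1, e2, ← h1]
      exact map_zpow (MulAut.conj τ) _ n
    rw [h2, ← h4, MulAut.conj_apply, inv_mul_cancel_right]
  · intro k q
    rw [HNNExtension.lift_of]
    rfl

end N_hnnA

alias hnnA := N_hnnA.hnnA

end Pool.CS
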