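import Pool.Agent.Helper694.CS.Defs
set_option autoImplicit false

namespace Pool.CS


namespace N_hnnB

theorem sec_exists {Z I : Type} (a : Equiv.Perm Z) (p : I → Z)
    (hp : ∀ i j, a.SameCycle (p i) (p j) → i = j) :
    ∃ s : Quotient (Equiv.Perm.SameCycle.setoid a) → Z,
      (∀ A, (Quotient.mk (Equiv.Perm.SameCycle.setoid a) (s A)) = A) ∧
      ∀ i, s (Quotient.mk (Equiv.Perm.SameCycle.setoid a) (p i)) = p i := by
  classical
  refine ⟨fun A => if h : ∃ i, Quotient.mk (Equiv.Perm.SameCycle.setoid a) (p i) = A then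
    p h.choose else A.out, ?_, ?_⟩
  · intro A
    by_cases h : ∃ i, Quotient.mk (Equiv.Perm.SameCycle.setoid a) (p i) = A
    · simp only [dif_pos h]
      exact h.choose_spec
    · simp only [dif_neg h]
      exact Quotient.out_eq A
  · intro i
    have h : ∃ j, Quotient.mk (Equiv.Perm.SameCycle.setoid a) (p j) =
        Quotient.mk (Equiv.Perm.SameCycle.setoid a) (p i) := ⟨i, rfl⟩
    simp only [dif_pos h]
    have h1 : a.SameCycle (p h.choose) (p i) := Quotient.exact h.choose_spec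
    rw [hp _ _ h1]

/-- the coordinates -/
def Fa {Z : Type} (a : Equiv.Perm Z) (O : ℕ)
    (s : Quotient (Equiv.Perm.SameCycle.setoid a) → Z) :
    Quotient (Equiv.Perm.SameCycle.setoid a) × ZMod O → Z :=
  fun x => (a ^ x.2.val) (s x.1)

theorem Fa_bij {Z : Type} (a : Equiv.Perm Z) (O : ℕ) [NeZero O] (hO : a ^ O = 1)
    (hfree : ∀ (z : Z) (k : ℤ), (a ^ k) z = z → (O : ℤ) ∣ k)
    (s : Quotient (Equiv.Perm.SameCycle.setoid a) → Z)
    (hs : ∀ A, (Quotient.mk (Equiv.Perm.SameCycle.setoid a) (s A)) = A) :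
    Function.Bijective (Fa a O s) := by
  constructor
  · rintro ⟨A, m⟩ ⟨A', m'⟩ h
    have h' : (a ^ m.val) (s A) = (a ^ m'.val) (s A') := h
    have h2 : (a ^ (-(m'.val : ℤ) + m.val)) (s A) = s A' := by
      rw [zpow_add, Equiv.Perm.mul_apply, zpow_natCast, h', zpow_neg, zpow_natCast,
        ← Equiv.Perm.mul_apply, inv_mul_cancel, Equiv.Perm.one_apply]
    have hA : A = A' := by
      rw [← hs A, ← hs A']
      exact Quotient.sound ⟨_, h2⟩
    subst hA
    have h3 := hfree _ _ h2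
    have h4 := (ZMod.intCast_zmod_eq_zero_iff_dvd (-(m'.val : ℤ) + m.val) O).2 h3
    push_cast at h4
    rw [ZMod.natCast_zmod_val, ZMod.natCast_zmod_val] at h4
    have h5 : m = m' := by linear_combination h4
    rw [h5]
  · intro z
    have h1 : a.SameCycle (s (Quotient.mk _ z)) z := Quotient.exact (hs (Quotient.mk _ z))
    obtain ⟨k, hk⟩ := h1
    refine ⟨(Quotient.mk _ z, (k : ZMod O)), ?_⟩
    show (a ^ ((k : ZMod O).val)) (s (Quotient.mk _ z)) = z
    have h2 : a ^ ((k : ZMod O).val) = a ^ k := by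
      rw [← zpow_natCast, ZMod.val_intCast]
      conv_rhs => rw [← Int.emod_add_mul_ediv k O, zpow_add, zpow_mul, zpow_natCast, hO,
        one_zpow, mul_one]
    rw [h2, hk]

theorem Fa_succ {Z : Type} (a : Equiv.Perm Z) (O : ℕ) [NeZero O] (hO : a ^ O = 1)
    (s : Quotient (Equiv.Perm.SameCycle.setoid a) → Z)
    (A : Quotient (Equiv.Perm.SameCycle.setoid a)) (m : ZMod O) :
    a (Fa a O s (A, m)) = Fa a O s (A, m + 1) := by
  show a ((a ^ m.val) (s A)) = (a ^ (m + 1).val) (s A)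
  rw [ZMod.val_add, ZMod.val_one_eq_one_mod, Nat.add_mod_mod, ← pow_eq_pow_mod _ hO, pow_succ',
    Equiv.Perm.mul_apply]

theorem perm_ext {B I : Type} [Finite B] (P Q : I → B) (hP : Function.Injective P)
    (hQ : Function.Injective Q) : ∃ σ : Equiv.Perm B, ∀ i, σ (P i) = Q i := by
  classical
  let e : {x // x ∈ Set.range P} ≃ {x // x ∈ Set.range Q} :=
    (Equiv.ofInjective P hP).symm.trans (Equiv.ofInjective Q hQ)
  refine ⟨e.extendSubtype, fun i => ?_⟩
  rw [Equiv.extendSubtype_apply_of_mem e (P i) ⟨i, rfl⟩]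
  have h1 : (Equiv.ofInjective P hP).symm ⟨P i, ⟨i, rfl⟩⟩ = i :=
    Equiv.ofInjective_symm_apply hP i
  show ((Equiv.ofInjective Q hQ ((Equiv.ofInjective P hP).symm ⟨P i, ⟨i, rfl⟩⟩) :
    {x // x ∈ Set.range Q}) : B) = Q i
  rw [h1]
  rfl

theorem ext_exists {Z I : Type} [Finite Z] (a b : Equiv.Perm Z) (O : ℕ) [NeZero O]
    (haO : a ^ O = 1) (hbO : b ^ O = 1)
    (ha : ∀ (z : Z) (k : ℤ), (a ^ k) z = z → (O : ℤ) ∣ k)
    (hb : ∀ (z : Z) (k : ℤ), (b ^ k) z = z → (O : ℤ) ∣ k)
    (p q : I → Z) (hp : ∀ i j, a.SameCycle (p i) (p j) → i = j)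
    (hq : ∀ i j, b.SameCycle (q i) (q j) → i = j) :
    ∃ τ : Equiv.Perm Z, (∀ z, τ (a z) = b (τ z)) ∧ ∀ i, τ (p i) = q i := by
  obtain ⟨s, hs, hsp⟩ := sec_exists a p hp
  obtain ⟨s', hs', hsq⟩ := sec_exists b q hq
  have bA := Fa_bij a O haO ha s hs
  have bB := Fa_bij b O hbO hb s' hs'
  have hcard : Nat.card (Quotient (Equiv.Perm.SameCycle.setoid a)) =
      Nat.card (Quotient (Equiv.Perm.SameCycle.setoid b)) := by
    have h1 := Nat.card_eq_of_bijective _ bA
    have h2 := Nat.card_eq_of_bijective _ bB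
    rw [Nat.card_prod, Nat.card_zmod] at h1 h2
    exact Nat.eq_of_mul_eq_mul_right (Nat.pos_of_ne_zero (NeZero.ne O)) (h1.trans h2.symm)
  obtain ⟨e0⟩ : Nonempty (Quotient (Equiv.Perm.SameCycle.setoid a) ≃
      Quotient (Equiv.Perm.SameCycle.setoid b)) := by
    have : Finite (Quotient (Equiv.Perm.SameCycle.setoid a)) := Quotient.finite _
    have : Finite (Quotient (Equiv.Perm.SameCycle.setoid b)) := Quotient.finite _
    exact Finite.card_eq.1 hcard
  obtain ⟨σ, hσ⟩ := perm_ext (fun i => e0 (Quotient.mk _ (p i)))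
    (fun i => Quotient.mk (Equiv.Perm.SameCycle.setoid b) (q i))
    (fun i j h => hp i j (Quotient.exact (e0.injective h)))
    (fun i j h => hq i j (Quotient.exact h))
  let FA := Equiv.ofBijective _ bA
  let FB := Equiv.ofBijective _ bB
  let τ : Equiv.Perm Z := FA.symm.trans (((e0.trans σ).prodCongr (Equiv.refl _)).trans FB)
  have hτ : ∀ A m, τ (Fa a O s (A, m)) = Fa b O s' (σ (e0 A), m) := by
    intro A m
    have h1 : FA.symm (Fa a O s (A, m)) = (A, m) := FA.symm_apply_apply (A, m)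
    show FB (((e0.trans σ).prodCongr (Equiv.refl _)) (FA.symm (Fa a O s (A, m)))) = _
    rw [h1]
    rfl
  refine ⟨τ, fun z => ?_, fun i => ?_⟩
  · obtain ⟨⟨A, m⟩, rfl⟩ := bA.2 z
    rw [Fa_succ a O haO, hτ, hτ, Fa_succ b O hbO]
  · have h1 : p i = Fa a O s (Quotient.mk _ (p i), 0) := by
      show p i = (a ^ (0 : ZMod O).val) (s (Quotient.mk _ (p i)))
      rw [ZMod.val_zero, pow_zero, Equiv.Perm.one_apply, hsp]
    have h2 : q i = Fa b O s' (Quotient.mk _ (q i), 0) := by
      show q i = (b ^ (0 : ZMod O).val) (s' (Quotient.mk _ (q i)))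
      rw [ZMod.val_zero, pow_zero, Equiv.Perm.one_apply, hsq]
    have h3 := hσ i
    rw [h1, hτ, h2, h3]

/-- left multiplication on the copies -/
def LL {K : Type} [Group K] (r : FQ K) (m : ℕ) : K →* Equiv.Perm (r.Q × Fin m) where
  toFun k :=
    { toFun := fun x => (r.φ k * x.1, x.2)
      invFun := fun x => ((r.φ k)⁻¹ * x.1, x.2)
      left_inv := fun x => by ext <;> simp
      right_inv := fun x => by ext <;> simp }
  map_one' := by
    ext x
    · show r.φ 1 * x.1 = x.1
      rw [map_one, one_mul]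
    · rfl
  map_mul' k k' := by
    ext x
    · show r.φ (k * k') * x.1 = r.φ k * (r.φ k' * x.1)
      rw [map_mul, mul_assoc]
    · rfl

theorem LL_apply {K : Type} [Group K] (r : FQ K) (m : ℕ) (k : K) (x : r.Q × Fin m) :
    LL r m k x = (r.φ k * x.1, x.2) := rfl

theorem LL_pow {K : Type} [Group K] (r : FQ K) (m : ℕ) (u : K) :
    (LL r m u) ^ (orderOf (r.φ u)) = 1 := by
  rw [← map_pow]
  ext x
  · rw [LL_apply]
    show r.φ (u ^ orderOf (r.φ u)) * x.1 = x.1
    rw [map_pow, pow_orderOf_eq_one, one_mul]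
  · rfl

theorem LL_free {K : Type} [Group K] (r : FQ K) (m : ℕ) (u : K) (z : r.Q × Fin m) (k : ℤ)
    (h : ((LL r m u) ^ k) z = z) : ((orderOf (r.φ u) : ℕ) : ℤ) ∣ k := by
  rw [← map_zpow, LL_apply] at h
  have h1 : r.φ (u ^ k) * z.1 = z.1 := congrArg Prod.fst h
  rw [map_zpow] at h1
  exact orderOf_dvd_iff_zpow_eq_one.2 (mul_eq_right.1 h1)

theorem LL_same {K : Type} [Group K] (r : FQ K) (m : ℕ) (u : K) (x y : r.Q × Fin m)
    (h : (LL r m u).SameCycle x y) : x.2 = y.2 ∧ ∃ k : ℤ, r.φ u ^ k * x.1 = y.1 := by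
  obtain ⟨k, hk⟩ := h
  rw [← map_zpow, LL_apply] at hk
  have hk' : (r.φ (u ^ k) * x.1, x.2) = y := hk
  have h1 : x.2 = y.2 := by rw [← hk']
  have h2 : r.φ (u ^ k) * x.1 = y.1 := by rw [← hk']
  refine ⟨h1, k, ?_⟩
  rw [← map_zpow]
  exact h2

theorem hnnB {K : Type} [Group K] (u v : K) (φ : Subgroup.zpowers u ≃* Subgroup.zpowers v)
    (hφ : φ ⟨u, Subgroup.mem_zpowers u⟩ = ⟨v, Subgroup.mem_zpowers v⟩)
    (r : FQ K) (hr : orderOf (r.φ u) = orderOf (r.φ v))
    (w : HNNExtension.NormalWord.ReducedWord K (Subgroup.zpowers u) (Subgroup.zpowers v))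
    (hw : w.toList ≠ [])
    (hu : ∀ x ∈ w.toList, x.2 ∉ Subgroup.zpowers u → r.φ x.2 ∉ Subgroup.zpowers (r.φ u))
    (hv : ∀ x ∈ w.toList, x.2 ∉ Subgroup.zpowers v → r.φ x.2 ∉ Subgroup.zpowers (r.φ v)) :
    ∃ (n : ℕ) (ρ : HNNExtension K (Subgroup.zpowers u) (Subgroup.zpowers v) φ →*
        Equiv.Perm (r.Q × Fin n)), (∀ k q i, ρ (HNNExtension.of k) (q, i) = (r.φ k * q, i)) ∧
      ∃ q i, (ρ (w.prod φ) (q, i)).2 ≠ i := by
  classical
  obtain ⟨l, hl⟩ : ∃ l, l = w.toList := ⟨_, rfl⟩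
  have hch := w.chain
  rw [← hl] at hw hu hv hch
  rw [List.isChain_iff_getElem] at hch
  obtain ⟨n, hn⟩ : ∃ n, n = l.length := ⟨_, rfl⟩
  have hn0 : 0 < n := by
    rw [hn]; exact List.length_pos_of_ne_nil hw
  have hget : ∀ i : Fin n, (i : ℕ) < l.length := fun i => by rw [← hn]; exact i.2
  obtain ⟨x, hx⟩ : ∃ x : Fin n → ℤˣ × K, x = fun i : Fin n => l[(i : ℕ)]'(hget i) := ⟨_, rfl⟩
  have hxm : ∀ i, x i ∈ l := fun i => by rw [hx]; exact List.getElem_mem _
  have hxch : ∀ i j : Fin n, (i : ℕ) + 1 = j →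
      (x i).2 ∈ HNNExtension.toSubgroup (Subgroup.zpowers u) (Subgroup.zpowers v) (x i).1 →
      (x i).1 = (x j).1 := by
    intro i j hij h
    have h1 : (i : ℕ) + 1 < l.length := by rw [hij]; exact hget j
    have h2 := hch i h1
    have h3 : x j = l[(i : ℕ) + 1]'h1 := by
      rw [hx]
      simp only [hij]
    rw [h3]
    rw [hx] at h ⊢
    exact h2 h
  obtain ⟨p, hp⟩ : ∃ p : Fin n → r.Q × Fin (n + 1), p = fun i =>
    if (x i).1 = 1 then (r.φ (x i).2, i.succ) else (1, i.castSucc) := ⟨_, rfl⟩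
  obtain ⟨q, hq⟩ : ∃ q : Fin n → r.Q × Fin (n + 1), q = fun i =>
    if (x i).1 = 1 then (1, i.castSucc) else (r.φ (x i).2, i.succ) := ⟨_, rfl⟩
  have hp1 : ∀ i, (x i).1 = 1 → p i = (r.φ (x i).2, i.succ) := fun i h => by
    rw [hp]; simp only [if_pos h]
  have hp2 : ∀ i, (x i).1 ≠ 1 → p i = (1, i.castSucc) := fun i h => by
    rw [hp]; simp only [if_neg h]
  have hq1 : ∀ i, (x i).1 = 1 → q i = (1, i.castSucc) := fun i h => by
    rw [hq]; simp only [if_pos h]
  have hq2 : ∀ i, (x i).1 ≠ 1 → q i = (r.φ (x i).2, i.succ) := fun i h => by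
    rw [hq]; simp only [if_neg h]
  have hpne : ∀ i j : Fin n, i < j → ¬ (LL r (n + 1) u).SameCycle (p i) (p j) := by
    intro i j hij hsc
    obtain ⟨h1, k, h2⟩ := LL_same r (n + 1) u _ _ hsc
    have hij' : (i : ℕ) < j := hij
    by_cases hi : (x i).1 = 1
    · rw [hp1 i hi] at h1 h2
      by_cases hj : (x j).1 = 1
      · rw [hp1 j hj] at h1
        have := congrArg Fin.val h1
        simp only [Fin.val_succ] at this
        omega
      · rw [hp2 j hj] at h1 h2
        have h3 := congrArg Fin.val h1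
        simp only [Fin.val_succ, Fin.val_castSucc] at h3
        have h4 : r.φ (x i).2 ∈ Subgroup.zpowers (r.φ u) := by
          refine Subgroup.mem_zpowers_iff.2 ⟨-k, ?_⟩
          rw [zpow_neg]
          exact inv_eq_of_mul_eq_one_right h2
        have h5 : (x i).2 ∈ Subgroup.zpowers u := by
          by_contra hc
          exact hu _ (hxm i) hc h4
        have h6 := hxch i j h3 (by rw [hi]; exact h5)
        exact hj (h6.symm.trans hi)
    · rw [hp2 i hi] at h1
      by_cases hj : (x j).1 = 1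
      · rw [hp1 j hj] at h1
        have := congrArg Fin.val h1
        simp only [Fin.val_succ, Fin.val_castSucc] at this
        omega
      · rw [hp2 j hj] at h1
        have := congrArg Fin.val h1
        simp only [Fin.val_castSucc] at this
        omega
  have hqne : ∀ i j : Fin n, i < j → ¬ (LL r (n + 1) v).SameCycle (q i) (q j) := by
    intro i j hij hsc
    obtain ⟨h1, k, h2⟩ := LL_same r (n + 1) v _ _ hsc
    have hij' : (i : ℕ) < j := hij
    by_cases hi : (x i).1 = 1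
    · rw [hq1 i hi] at h1
      by_cases hj : (x j).1 = 1
      · rw [hq1 j hj] at h1
        have := congrArg Fin.val h1
        simp only [Fin.val_castSucc] at this
        omega
      · rw [hq2 j hj] at h1
        have := congrArg Fin.val h1
        simp only [Fin.val_succ, Fin.val_castSucc] at this
        omega
    · rw [hq2 i hi] at h1 h2
      by_cases hj : (x j).1 = 1
      · rw [hq1 j hj] at h1 h2
        have h3 := congrArg Fin.val h1
        simp only [Fin.val_succ, Fin.val_castSucc] at h3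
        have h4 : r.φ (x i).2 ∈ Subgroup.zpowers (r.φ v) := by
          refine Subgroup.mem_zpowers_iff.2 ⟨-k, ?_⟩
          rw [zpow_neg]
          exact inv_eq_of_mul_eq_one_right h2
        have h5 : (x i).2 ∈ Subgroup.zpowers v := by
          by_contra hc
          exact hv _ (hxm i) hc h4
        have hi' : (x i).1 = -1 := (Int.units_eq_one_or _).resolve_left hi
        have h6 := hxch i j h3 (by rw [hi']; exact h5)
        exact hi (h6.trans hj)
      · rw [hq2 j hj] at h1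
        have := congrArg Fin.val h1
        simp only [Fin.val_succ] at this
        omega
  have hpinj : ∀ i j, (LL r (n + 1) u).SameCycle (p i) (p j) → i = j := by
    intro i j h
    rcases lt_trichotomy i j with hlt | he | hlt
    · exact absurd h (hpne i j hlt)
    · exact he
    · exact absurd h.symm (hpne j i hlt)
  have hqinj : ∀ i j, (LL r (n + 1) v).SameCycle (q i) (q j) → i = j := by
    intro i j h
    rcases lt_trichotomy i j with hlt | he | hlt
    · exact absurd h (hqne i j hlt)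
    · exact he
    · exact absurd h.symm (hqne j i hlt)
  have : NeZero (orderOf (r.φ u)) := ⟨(orderOf_pos (r.φ u)).ne'⟩
  obtain ⟨τ, hτ, hτp⟩ := ext_exists (LL r (n + 1) u) (LL r (n + 1) v) (orderOf (r.φ u))
    (LL_pow r (n + 1) u) (by rw [hr]; exact LL_pow r (n + 1) v)
    (fun z k h => LL_free r (n + 1) u z k h)
    (fun z k h => by rw [hr]; exact LL_free r (n + 1) v z k h) p q hpinj hqinj
  have hsemi : SemiconjBy τ (LL r (n + 1) u) (LL r (n + 1) v) := by
    show τ * LL r (n + 1) u = LL r (n + 1) v * τ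
    apply Equiv.ext
    intro z
    exact hτ z
  have hlift : ∀ a : Subgroup.zpowers u,
      τ * (LL r (n + 1)) (a : K) = (LL r (n + 1)) (φ a : K) * τ := by
    rintro ⟨a, ha⟩
    obtain ⟨k, rfl⟩ := Subgroup.mem_zpowers_iff.1 ha
    have e1 : (⟨u ^ k, ha⟩ : Subgroup.zpowers u) = ⟨u, Subgroup.mem_zpowers u⟩ ^ k := by
      apply Subtype.ext
      simp
    have e2 : (φ ⟨u ^ k, ha⟩ : K) = v ^ k := by
      rw [e1, map_zpow, hφ]
      simp
    rw [e2]
    show τ * LL r (n + 1) (u ^ k) = LL r (n + 1) (v ^ k) * τ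
    rw [map_zpow, map_zpow]
    exact hsemi.zpow_right k
  let ρ := HNNExtension.lift (φ := φ) (LL r (n + 1)) τ hlift
  have hρof : ∀ k, ρ (HNNExtension.of k) = LL r (n + 1) k := fun k =>
    HNNExtension.lift_of (LL r (n + 1)) τ hlift k
  have hρt : ρ HNNExtension.t = τ := HNNExtension.lift_t (LL r (n + 1)) τ hlift
  have hstep : ∀ i : Fin n, ρ (HNNExtension.t ^ (((x i).1 : ℤˣ) : ℤ) * HNNExtension.of (x i).2)
      (1, i.succ) = (1, i.castSucc) := by
    intro i
    rw [map_mul, map_zpow, hρt, hρof, Equiv.Perm.mul_apply, LL_apply]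
    show (τ ^ (((x i).1 : ℤˣ) : ℤ)) (r.φ (x i).2 * 1, i.succ) = (1, i.castSucc)
    rw [mul_one]
    rcases Int.units_eq_one_or (x i).1 with h | h
    · rw [h]
      show (τ ^ (1 : ℤ)) (r.φ (x i).2, i.succ) = (1, i.castSucc)
      rw [zpow_one, ← hp1 i h, hτp, hq1 i h]
    · have h' : (x i).1 ≠ 1 := by rw [h]; decide
      rw [h]
      show (τ ^ (-1 : ℤ)) (r.φ (x i).2, i.succ) = (1, i.castSucc)
      rw [zpow_neg_one, ← hq2 i h', ← hτp, ← Equiv.Perm.mul_apply, inv_mul_cancel,
        Equiv.Perm.one_apply, hp2 i h']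
  have hpath : ∀ m k : ℕ, (hk : k + m = n) →
      ρ (((l.drop k).map (fun x => HNNExtension.t ^ ((x.1 : ℤˣ) : ℤ) *
        HNNExtension.of x.2)).prod) (1, Fin.last n) = (1, ⟨k, by omega⟩) := by
    intro m
    induction m with
    | zero =>
      intro k hk
      have h0 : l.drop k = [] := List.drop_eq_nil_of_le (by omega)
      rw [h0, List.map_nil, List.prod_nil, map_one, Equiv.Perm.one_apply]
      have h1 : Fin.last n = (⟨k, by omega⟩ : Fin (n + 1)) := by
        apply Fin.ext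
        show n = k
        omega
      rw [h1]
    | succ m ih =>
      intro k hk
      have hkl : k < l.length := by omega
      have hkn : k < n := by omega
      rw [List.drop_eq_getElem_cons hkl, List.map_cons, List.prod_cons, map_mul,
        Equiv.Perm.mul_apply, ih (k + 1) (by omega)]
      have h1 := hstep ⟨k, hkn⟩
      rw [hx] at h1
      exact h1
  refine ⟨n + 1, ρ, fun k q i => ?_, 1, Fin.last n, ?_⟩
  · rw [hρof]
    rfl
  · have h1 := hpath n 0 (by omega)
    rw [List.drop_zero] at h1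
    have h2 : ρ (w.prod φ) (1, Fin.last n) = LL r (n + 1) w.head (1, ⟨0, by omega⟩) := by
      rw [← h1, ← hρof, ← Equiv.Perm.mul_apply, ← map_mul, hl]
      rfl
    rw [h2, LL_apply]
    intro h3
    have := congrArg Fin.val h3
    simp only [Fin.val_last] at this
    omega

end N_hnnB

alias hnnB := N_hnnB.hnnB

end Pool.CS
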