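import Pool.Agent.Helper694.CS.Defs
import Pool.Agent.Helper694.CS.J_hnn_word
import Pool.Agent.Helper694.CS.J_hnnA
import Pool.Agent.Helper694.CS.J_hnnB
set_option autoImplicit false

namespace Pool.CS


namespace N_hnn_rf

theorem inherit {K : Type} [Group K] {q r : FQ K} (h : r.φ.ker ≤ q.φ.ker) {x u : K}
    (hx : q.φ x ∉ Subgroup.zpowers (q.φ u)) : r.φ x ∉ Subgroup.zpowers (r.φ u) := by
  rintro ⟨n, hn⟩
  have hn' : r.φ u ^ n = r.φ x := hn
  apply hx
  refine ⟨n, ?_⟩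
  show q.φ u ^ n = q.φ x
  have h1 : x * (u ^ n)⁻¹ ∈ r.φ.ker := by
    rw [MonoidHom.mem_ker, map_mul, map_inv, map_zpow, hn', mul_inv_cancel]
  have h2 := h h1
  rw [MonoidHom.mem_ker, map_mul, map_inv, map_zpow, mul_inv_eq_one] at h2
  exact h2.symm

/-- a common refinement -/
def inf {K : Type} [Group K] (q1 q2 : FQ K) : FQ K := ⟨q1.Q × q2.Q, q1.φ.prod q2.φ⟩

theorem inf_ker {K : Type} [Group K] (q1 q2 : FQ K) :
    (inf q1 q2).φ.ker ≤ q1.φ.ker ∧ (inf q1 q2).φ.ker ≤ q2.φ.ker := by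
  constructor
  · intro x hx
    have h1 : (q1.φ x, q2.φ x) = (1, 1) := MonoidHom.mem_ker.mp hx
    exact MonoidHom.mem_ker.mpr (congrArg Prod.fst h1)
  · intro x hx
    have h1 : (q1.φ x, q2.φ x) = (1, 1) := MonoidHom.mem_ker.mp hx
    exact MonoidHom.mem_ker.mpr (congrArg Prod.snd h1)

theorem sep_list {K : Type} [Group K] {u : K} (su : Sep K u) {α : Type} (l : List (α × K)) :
    ∃ q : FQ K, ∀ x ∈ l, x.2 ∉ Subgroup.zpowers u → q.φ x.2 ∉ Subgroup.zpowers (q.φ u) := by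
  induction l with
  | nil => exact ⟨⟨Unit, 1⟩, fun x hx => absurd hx List.not_mem_nil⟩
  | cons y l ih =>
    obtain ⟨q, hq⟩ := ih
    by_cases hy : y.2 ∈ Subgroup.zpowers u
    · refine ⟨q, fun x hx hxu => ?_⟩
      rcases List.mem_cons.mp hx with rfl | hx
      · exact absurd hy hxu
      · exact hq x hx hxu
    · obtain ⟨q', hq'⟩ := su _ hy
      refine ⟨inf q q', fun x hx hxu => ?_⟩
      rcases List.mem_cons.mp hx with rfl | hx
      · exact inherit (inf_ker q q').2 hq'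
      · exact inherit (inf_ker q q').1 (hq x hx hxu)

theorem word_quot {K : Type} [Group K] (u v : K) (φ : Subgroup.zpowers u ≃* Subgroup.zpowers v)
    (hφ : φ ⟨u, Subgroup.mem_zpowers u⟩ = ⟨v, Subgroup.mem_zpowers v⟩)
    (su : Sep K u) (sv : Sep K v)
    (hal : ∀ q : FQ K, ∃ r : FQ K, r.φ.ker ≤ q.φ.ker ∧ orderOf (r.φ u) = orderOf (r.φ v))
    (w : HNNExtension.NormalWord.ReducedWord K (Subgroup.zpowers u) (Subgroup.zpowers v))
    (hw : w.toList ≠ []) :
    ∃ (r : FQ K) (n : ℕ) (ρ : HNNExtension K (Subgroup.zpowers u) (Subgroup.zpowers v) φ →*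
        Equiv.Perm (r.Q × Fin n)), (∀ k q i, ρ (HNNExtension.of k) (q, i) = (r.φ k * q, i)) ∧
      ∃ q i, (ρ (w.prod φ) (q, i)).2 ≠ i := by
  obtain ⟨q1, h1⟩ := sep_list su w.toList
  obtain ⟨q2, h2⟩ := sep_list sv w.toList
  obtain ⟨r, hrq, hr⟩ := hal (inf q1 q2)
  obtain ⟨n, ρ, hρ1, hρ2⟩ := hnnB u v φ hφ r hr w hw
    (fun x hx hxu => inherit (hrq.trans (inf_ker q1 q2).1) (h1 x hx hxu))
    (fun x hx hxu => inherit (hrq.trans (inf_ker q1 q2).2) (h2 x hx hxu))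
  exact ⟨r, n, ρ, hρ1, hρ2⟩

theorem hnn_rf {K : Type} [Group K] (u v : K) (φ : Subgroup.zpowers u ≃* Subgroup.zpowers v)
    (hφ : φ ⟨u, Subgroup.mem_zpowers u⟩ = ⟨v, Subgroup.mem_zpowers v⟩)
    (rf : RF K) (su : Sep K u) (sv : Sep K v)
    (hal : ∀ q : FQ K, ∃ r : FQ K, r.φ.ker ≤ q.φ.ker ∧ orderOf (r.φ u) = orderOf (r.φ v)) :
    RF (HNNExtension K (Subgroup.zpowers u) (Subgroup.zpowers v) φ) ∧
      ∀ y : K, Sep K y → Sep (HNNExtension K (Subgroup.zpowers u) (Subgroup.zpowers v) φ)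
        (HNNExtension.of y) := by
  constructor
  · intro g hg
    obtain ⟨w, hw⟩ := hnn_word φ g
    by_cases hl : w.toList = []
    · have hk : g = HNNExtension.of w.head := by
        rw [← hw, HNNExtension.NormalWord.ReducedWord.prod, hl, List.map_nil, List.prod_nil, mul_one]
      have hk1 : w.head ≠ 1 := by
        intro h
        apply hg
        rw [hk, h, map_one]
      obtain ⟨q, hq⟩ := rf _ hk1
      obtain ⟨r, hrq, hr⟩ := hal q
      obtain ⟨ρ, hρ⟩ := hnnA u v φ hφ r hr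
      refine ⟨⟨Equiv.Perm r.Q, ρ⟩, ?_⟩
      show ρ g ≠ 1
      intro h
      have h1 := hρ w.head 1
      rw [← hk, h, Equiv.Perm.one_apply, mul_one] at h1
      exact hq (hrq (MonoidHom.mem_ker.mpr h1.symm))
    · obtain ⟨r, n, ρ, -, q, i, hne⟩ := word_quot u v φ hφ su sv hal w hl
      refine ⟨⟨Equiv.Perm (r.Q × Fin n), ρ⟩, ?_⟩
      show ρ g ≠ 1
      intro h
      rw [hw, h, Equiv.Perm.one_apply] at hne
      exact hne rfl
  · intro y hy g hg
    obtain ⟨w, hw⟩ := hnn_word φ g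
    by_cases hl : w.toList = []
    · have hk : g = HNNExtension.of w.head := by
        rw [← hw, HNNExtension.NormalWord.ReducedWord.prod, hl, List.map_nil, List.prod_nil, mul_one]
      have hk1 : w.head ∉ Subgroup.zpowers y := by
        rintro ⟨n, hn⟩
        apply hg
        refine ⟨n, ?_⟩
        have hn' : y ^ n = w.head := hn
        show (HNNExtension.of y) ^ n = g
        rw [← map_zpow, hn', hk]
      obtain ⟨q, hq⟩ := hy _ hk1
      obtain ⟨r, hrq, hr⟩ := hal q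
      have hr2 := inherit hrq hq
      obtain ⟨ρ, hρ⟩ := hnnA u v φ hφ r hr
      refine ⟨⟨Equiv.Perm r.Q, ρ⟩, ?_⟩
      show ρ g ∉ Subgroup.zpowers (ρ (HNNExtension.of y))
      rintro ⟨n, hn⟩
      have hn' : ρ (HNNExtension.of y) ^ n = ρ g := hn
      rw [← map_zpow, ← map_zpow, hk] at hn'
      have h1 := hρ w.head 1
      have h2 := hρ (y ^ n) 1
      rw [hn', h1, mul_one, mul_one] at h2
      apply hr2
      refine ⟨n, ?_⟩
      show r.φ y ^ n = r.φ w.head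
      rw [← map_zpow, h2]
    · obtain ⟨r, n, ρ, hρ, q, i, hne⟩ := word_quot u v φ hφ su sv hal w hl
      refine ⟨⟨Equiv.Perm (r.Q × Fin n), ρ⟩, ?_⟩
      show ρ g ∉ Subgroup.zpowers (ρ (HNNExtension.of y))
      rintro ⟨m, hm⟩
      have hm' : ρ (HNNExtension.of y) ^ m = ρ g := hm
      rw [← map_zpow, ← map_zpow] at hm'
      rw [hw, ← hm', hρ] at hne
      exact hne rfl

end N_hnn_rf

alias hnn_rf := N_hnn_rf.hnn_rf

end Pool.CS
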