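import Pool.Agent.Helper694.CS.Defs
set_option autoImplicit false

namespace Pool.CS


namespace N_kill

theorem conj_inl {S C P : Type} [Group S] [Group C] [Group P] (g : Gadget S C) (B : Bdl S P)
    (κ : KK g B) (f : EqF g B) :
    κ * SemidirectProduct.inl f * κ⁻¹ =
      SemidirectProduct.inl (κ.left * tr g B κ.right f * κ.left⁻¹) := by
  apply SemidirectProduct.ext
  · simp only [SemidirectProduct.mul_left, SemidirectProduct.mul_right,
      SemidirectProduct.left_inl, SemidirectProduct.right_inl, SemidirectProduct.inv_left, mul_one]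
    congr 1
    rw [← MulAut.mul_apply, ← map_mul, mul_inv_cancel, map_one, MulAut.one_apply]
  · simp

theorem key {S C P : Type} [Group S] [Group C] [Group P] (g : Gadget S C) (B : Bdl S P)
    (K : EqF g B) (x : P) (x0 : B.X) :
    K * tr g B x (jx g B x0 g.z) * K⁻¹ =
      jx g B (x • x0) ((K : B.X → C) (x • x0) * g.z * ((K : B.X → C) (x • x0))⁻¹) := by
  apply Subtype.ext
  funext y
  show (K : B.X → C) y * (jx g B x0 g.z : B.X → C) (x⁻¹ • y) * ((K : B.X → C) y)⁻¹ = _
  by_cases h : ∃ s : S, s • x • x0 = y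
  · obtain ⟨s, rfl⟩ := h
    rw [jx_apply, ← B.comm x s x0, inv_smul_smul, jx_apply, B.comm x s x0, EqF_apply, map_mul,
      map_mul, map_inv]
  · rw [jx_ne g B (x • x0) y _ (fun s hs => h ⟨s, hs⟩), jx_ne g B x0 (x⁻¹ • y) _, mul_one,
      mul_inv_cancel]
    intro s hs
    apply h
    refine ⟨s, ?_⟩
    rw [← B.comm x s x0, hs, smul_inv_smul]

theorem comm_jx {S C P : Type} [Group S] [Group C] [Group P] (g : Gadget S C) (B : Bdl S P)
    (x0 x1 : B.X) (hx : ∀ s : S, x1 ≠ s • x0) (c d : C) :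
    jx g B x1 c * jx g B x0 d = jx g B x0 d * jx g B x1 c := by
  apply Subtype.ext
  funext y
  show (jx g B x1 c : B.X → C) y * (jx g B x0 d : B.X → C) y =
    (jx g B x0 d : B.X → C) y * (jx g B x1 c : B.X → C) y
  by_cases h : ∃ s : S, s • x0 = y
  · obtain ⟨s, rfl⟩ := h
    have h1 : (jx g B x1 c : B.X → C) (s • x0) = 1 := by
      apply jx_ne
      intro t ht
      apply hx (t⁻¹ * s)
      rw [mul_smul, ← ht, inv_smul_smul]
    rw [h1, one_mul, mul_one]
  · have h1 : (jx g B x0 d : B.X → C) y = 1 := jx_ne g B x0 y d (fun s hs => h ⟨s, hs⟩)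
    rw [h1, one_mul, mul_one]

theorem kill {S C P : Type} [Group S] [Group C] [Group P] (g : Gadget S C) (B : Bdl S P)
    (b : B.X → C) (hb : IsTw g B b) (x : P) (x0 : B.X) (hx : ∀ s : S, x • x0 ≠ s • x0) :
    ee g B x0 (x • x0) ∈ Subgroup.normalClosure {i2 g B b hb x} := by
  have hmem : i2 g B b hb x ∈ Subgroup.normalClosure {i2 g B b hb x} :=
    Subgroup.subset_normalClosure (Set.mem_singleton _)
  have hN : (Subgroup.normalClosure {i2 g B b hb x}).Normal := Subgroup.normalClosure_normal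
  generalize hN' : Subgroup.normalClosure {i2 g B b hb x} = N at hmem hN ⊢
  generalize hκ : i2 g B b hb x = κ at hmem
  have hright : κ.right = x := by rw [← hκ]; rfl
  have h1 : κ * (SemidirectProduct.inl (jx g B x0 g.z) * κ⁻¹ *
      (SemidirectProduct.inl (jx g B x0 g.z))⁻¹) ∈ N :=
    N.mul_mem hmem (hN.conj_mem _ (N.inv_mem hmem) _)
  have h2 : κ * (SemidirectProduct.inl (jx g B x0 g.z) * κ⁻¹ *
      (SemidirectProduct.inl (jx g B x0 g.z))⁻¹) =
      SemidirectProduct.inl (jx g B (x • x0) ((κ.left : B.X → C) (x • x0) * g.z *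
        ((κ.left : B.X → C) (x • x0))⁻¹) * (jx g B x0 g.z)⁻¹) := by
    rw [← mul_assoc, ← mul_assoc, conj_inl, hright, key]
    simp only [map_mul, map_inv]
  rw [h2] at h1
  generalize (κ.left : B.X → C) (x • x0) = c at h1
  have h3 := hN.conj_mem _ h1 (SemidirectProduct.inl (jx g B (x • x0) c))⁻¹
  have h4 : (SemidirectProduct.inl (jx g B (x • x0) c) : KK g B)⁻¹ *
      SemidirectProduct.inl (jx g B (x • x0) (c * g.z * c⁻¹) * (jx g B x0 g.z)⁻¹) *
      (SemidirectProduct.inl (jx g B (x • x0) c) : KK g B)⁻¹⁻¹ = ee g B x0 (x • x0) := by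
    unfold ee
    rw [inv_inv, ← map_inv, ← map_mul, ← map_mul]
    congr 1
    have h5 := comm_jx g B x0 (x • x0) hx c g.z
    rw [map_mul, map_mul, map_inv]
    generalize jx g B (x • x0) c = ξ at *
    generalize jx g B (x • x0) g.z = Z1 at *
    generalize jx g B x0 g.z = Z0 at *
    have h6 : Z0⁻¹ * ξ = ξ * Z0⁻¹ := by
      rw [inv_mul_eq_iff_eq_mul, ← mul_assoc, ← h5, mul_assoc, mul_inv_cancel, mul_one]
    calc ξ⁻¹ * (ξ * Z1 * ξ⁻¹ * Z0⁻¹) * ξ = Z1 * ξ⁻¹ * (Z0⁻¹ * ξ) := by group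
      _ = Z1 * ξ⁻¹ * (ξ * Z0⁻¹) := by rw [h6]
      _ = Z1 * Z0⁻¹ := by group
  rw [h4] at h3
  exact h3

end N_kill

alias kill := N_kill.kill

end Pool.CS
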