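import Pool.Agent.Helper694.CS.Defs
set_option autoImplicit false

namespace Pool.CS


namespace N_pconj

theorem free_eq {S P : Type} [Group S] [Group P] (B : Bdl S P) {s t : S} {x : B.X}
    (h : s • x = t • x) : s = t := by
  have h1 : (t⁻¹ * s) • x = x := by rw [mul_smul, h, inv_smul_smul]
  exact (inv_mul_eq_one.1 (B.free _ _ h1)).symm

/-- the twisted action -/
def tw {S C : Type} [Group S] [Group C] (g : Gadget S C) (s : S) (c : C) : C :=
  g.act s c * (g.k s)⁻¹

theorem k_one {S C : Type} [Group S] [Group C] (g : Gadget S C) : g.k 1 = 1 := by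
  have h := g.coc 1 1
  rw [mul_one, map_one, MulAut.one_apply] at h
  exact (left_eq_mul.1 h)

theorem tw_one {S C : Type} [Group S] [Group C] (g : Gadget S C) (c : C) : tw g 1 c = c := by
  rw [tw, k_one, map_one, MulAut.one_apply, inv_one, mul_one]

theorem tw_mul {S C : Type} [Group S] [Group C] (g : Gadget S C) (s t : S) (c : C) :
    tw g (s * t) c = tw g s (tw g t c) := by
  unfold tw
  rw [g.coc, mul_inv_rev, map_mul, map_mul, MulAut.mul_apply, map_inv, mul_assoc]

/-- stabiliser of the twisted action -/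
def stb {S C : Type} [Group S] [Group C] (g : Gadget S C) (c : C) : Subgroup S where
  carrier := {s | tw g s c = c}
  mul_mem' {s t} hs ht := by
    show tw g (s * t) c = c
    rw [tw_mul]
    have h1 : tw g t c = c := ht
    have h2 : tw g s c = c := hs
    rw [h1, h2]
  one_mem' := tw_one g c
  inv_mem' {s} hs := by
    show tw g s⁻¹ c = c
    have h2 : tw g s c = c := hs
    have h3 : tw g s⁻¹ (tw g s c) = c := by rw [← tw_mul, inv_mul_cancel, tw_one]
    rwa [h2] at h3

/-- the action of `ℤ × S` through `p` -/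
def act2 {S P : Type} [Group S] [Group P] (B : Bdl S P) (p : P) :
    MulAction (Multiplicative ℤ × S) B.X where
  smul γ x := p ^ (Multiplicative.toAdd γ.1) • γ.2 • x
  one_smul x := by
    show p ^ (0 : ℤ) • (1 : S) • x = x
    rw [zpow_zero, one_smul, one_smul]
  mul_smul γ δ x := by
    show p ^ (Multiplicative.toAdd γ.1 + Multiplicative.toAdd δ.1) • (γ.2 * δ.2) • x
      = p ^ (Multiplicative.toAdd γ.1) • γ.2 • p ^ (Multiplicative.toAdd δ.1) • δ.2 • x
    rw [zpow_add, mul_smul, mul_smul, ← B.comm]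

theorem pconj {S C P : Type} [Group S] [Group C] [Group P] (g : Gadget S C) (B : Bdl S P) (p : P) :
    ∃ c : B.X → C, IsTw g B c ∧ ∀ x, c (p • x) = c x := by
  classical
  letI A : MulAction (Multiplicative ℤ × S) B.X := act2 B p
  have hA : ∀ (γ : Multiplicative ℤ × S) (x : B.X),
      γ • x = p ^ (Multiplicative.toAdd γ.1) • γ.2 • x := fun _ _ => rfl
  -- fixed points of stabilisers
  have hfix : ∀ x : B.X, ∃ c0 : C, ∀ γ ∈ MulAction.stabilizer (Multiplicative ℤ × S) x,
      tw g γ.2 c0 = c0 := by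
    intro x
    let H := MulAction.stabilizer (Multiplicative ℤ × S) x
    let f : H →* Multiplicative ℤ := (MonoidHom.fst (Multiplicative ℤ) S).comp H.subtype
    have hf : Function.Injective f := by
      rw [injective_iff_map_eq_one]
      rintro ⟨⟨n, s⟩, hγ⟩ h1
      have h2 : n = 1 := h1
      subst h2
      have h3 : ((1 : Multiplicative ℤ), s) • x = x := MulAction.mem_stabilizer_iff.1 hγ
      rw [hA] at h3
      have h4 : s • x = x := by simpa using h3
      have h5 := B.free _ _ h4
      subst h5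
      rfl
    haveI : IsCyclic H := isCyclic_of_injective f hf
    obtain ⟨h0, hh0⟩ := IsCyclic.exists_generator (α := H)
    obtain ⟨c0, hc0⟩ := g.ptw h0.1.2
    refine ⟨c0, fun γ hγ => ?_⟩
    have h1 : tw g h0.1.2 c0 = c0 := by
      rw [tw, hc0]; group
    obtain ⟨m, hm⟩ := Subgroup.mem_zpowers_iff.1 (hh0 ⟨γ, hγ⟩)
    have h2 : γ.2 = h0.1.2 ^ m := by
      have h3 := congrArg (fun t : H => t.1.2) hm
      simpa using h3.symm
    have h3 : h0.1.2 ∈ stb g c0 := h1
    have h4 : γ.2 ∈ stb g c0 := by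
      rw [h2]; exact Subgroup.zpow_mem _ h3 m
    exact h4
  choose c0 hc0 using hfix
  let rep : B.X → B.X :=
    fun y => (Quotient.mk (MulAction.orbitRel (Multiplicative ℤ × S) B.X) y).out
  have hrep : ∀ y, ∃ γ : Multiplicative ℤ × S, γ • rep y = y := by
    intro y
    have h1 : (MulAction.orbitRel (Multiplicative ℤ × S) B.X).r (rep y) y :=
      Quotient.mk_out (s := MulAction.orbitRel (Multiplicative ℤ × S) B.X) y
    have h2 : (MulAction.orbitRel (Multiplicative ℤ × S) B.X).r y (rep y) :=
      (MulAction.orbitRel (Multiplicative ℤ × S) B.X).symm h1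
    exact h2
  have hrep2 : ∀ (γ : Multiplicative ℤ × S) y, rep (γ • y) = rep y := by
    intro γ y
    have h1 : Quotient.mk (MulAction.orbitRel (Multiplicative ℤ × S) B.X) (γ • y)
        = Quotient.mk (MulAction.orbitRel (Multiplicative ℤ × S) B.X) y :=
      Quotient.sound ⟨γ, rfl⟩
    show (Quotient.mk (MulAction.orbitRel (Multiplicative ℤ × S) B.X) (γ • y)).out = _
    rw [h1]
  choose gy hgy using hrep
  let c : B.X → C := fun y => tw g (gy y).2 (c0 (rep y))
  have hc : ∀ (γ : Multiplicative ℤ × S) y, c (γ • y) = tw g γ.2 (c y) := by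
    intro γ y
    have h1 : (γ * gy y)⁻¹ * gy (γ • y) ∈
        MulAction.stabilizer (Multiplicative ℤ × S) (rep y) := by
      rw [MulAction.mem_stabilizer_iff, mul_smul]
      have h2 := hgy (γ • y)
      rw [hrep2] at h2
      rw [h2, inv_smul_eq_iff, mul_smul, hgy y]
    have h3 := hc0 (rep y) _ h1
    show tw g (gy (γ • y)).2 (c0 (rep (γ • y))) = tw g γ.2 (tw g (gy y).2 (c0 (rep y)))
    rw [hrep2, ← tw_mul]
    have h4 : (gy (γ • y)).2 = (γ.2 * (gy y).2) * ((γ * gy y)⁻¹ * gy (γ • y)).2 := by
      simp [mul_assoc]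
    rw [h4, tw_mul g (γ.2 * (gy y).2), h3]
  refine ⟨c, fun s x => ?_, fun x => ?_⟩
  · have h := hc ((1 : Multiplicative ℤ), s) x
    have e : ((1 : Multiplicative ℤ), s) • x = s • x := by
      rw [hA]; simp
    rw [e] at h
    exact h
  · have h := hc (Multiplicative.ofAdd (1 : ℤ), (1 : S)) x
    have e : (Multiplicative.ofAdd (1 : ℤ), (1 : S)) • x = p • x := by
      rw [hA]; simp
    rw [e] at h
    rw [h]
    exact tw_one g _

end N_pconj

alias pconj := N_pconj.pconj

end Pool.CS
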