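import Pool.Agent.Helper694.CS.Defs
import Pool.Agent.Helper694.CS.J_pconj
set_option autoImplicit false

namespace Pool.CS


namespace N_pconj2

theorem pconj2 {S C P : Type} [Group S] [Group C] [Group P] (g : Gadget S C) (B : Bdl S P)
    (b : B.X → C) (hb : IsTw g B b) (p : P) :
    ∃ h : KK g B, (SemidirectProduct.inr p : KK g B) = h * i2 g B b hb p * h⁻¹ := by
  obtain ⟨c, hc, hcp⟩ := pconj g B p
  let θ : EqF g B := ⟨fun x => c x * (b x)⁻¹, fun s x => by
    show c (s • x) * (b (s • x))⁻¹ = g.act s (c x * (b x)⁻¹)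
    rw [hc, hb, map_mul, map_inv]
    group⟩
  refine ⟨SemidirectProduct.inl θ, ?_⟩
  have hcp' : ∀ x, c (p⁻¹ • x) = c x := by
    intro x
    have := hcp (p⁻¹ • x)
    rw [smul_inv_smul] at this
    exact this.symm
  rw [← map_inv]
  apply SemidirectProduct.ext
  · ext x
    show (1 : C) = (c x * (b x)⁻¹) * (tr g B 1 ((i2 g B b hb p).left) : B.X → C) x *
      (tr g B (1 * p) (θ⁻¹) : B.X → C) x
    rw [map_one, one_mul, tr_apply]
    show (1 : C) = (c x * (b x)⁻¹) * (b x * (b (p⁻¹ • x))⁻¹) *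
      (c (p⁻¹ • x) * (b (p⁻¹ • x))⁻¹)⁻¹
    rw [hcp']
    group
  · show p = 1 * p * 1
    rw [one_mul, mul_one]

end N_pconj2

alias pconj2 := N_pconj2.pconj2

end Pool.CS
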