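import Pool.Agent.Helper694.CS.Defs
set_option autoImplicit false

namespace Pool.CS


namespace N_amp

open scoped InnerProductSpace

theorem mem_iff {α : Type} (f : α → ℂ) :
    Memℓp (E := fun _ : α => ℂ) f 2 ↔ Summable (fun i => ‖f i‖ ^ 2) := by
  rw [memℓp_gen_iff (by norm_num)]
  constructor
  · intro h
    exact_mod_cast h
  · intro h
    exact_mod_cast h

theorem norm_sq {α : Type} (f : l2 α) : ‖f‖ ^ 2 = ∑' i, ‖f i‖ ^ 2 := by
  have h := lp.norm_rpow_eq_tsum (p := 2) (by norm_num) f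
  exact_mod_cast h

theorem summ {α : Type} (f : l2 α) : Summable (fun i => ‖f i‖ ^ 2) :=
  (mem_iff _).mp (lp.memℓp f)

variable {I A : Type}

/-- slices -/
noncomputable def sl (f : l2 (I × A)) (i : I) : l2 A :=
  ⟨fun a => f (i, a), (mem_iff _).mpr
    (((summable_prod_of_nonneg (fun _ => by positivity)).mp (summ f)).1 i)⟩

theorem sl_apply (f : l2 (I × A)) (i : I) (a : A) : sl f i a = f (i, a) := rfl

theorem summ_sl (f : l2 (I × A)) : Summable (fun i => ‖sl f i‖ ^ 2) := by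
  have h := ((summable_prod_of_nonneg (fun _ => by positivity)).mp (summ f)).2
  refine h.congr (fun i => ?_)
  rw [norm_sq]
  rfl

theorem norm_sq_sl (f : l2 (I × A)) : ‖f‖ ^ 2 = ∑' i, ‖sl f i‖ ^ 2 := by
  rw [norm_sq, (summ f).tsum_prod]
  congr 1
  funext i
  rw [norm_sq]
  rfl

theorem mem_amp (T : l2 A →L[ℂ] l2 A) (f : l2 (I × A)) :
    Memℓp (E := fun _ : I × A => ℂ) (fun q => T (sl f q.1) q.2) 2 := by
  rw [mem_iff, summable_prod_of_nonneg (fun _ => by positivity)]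
  constructor
  · intro i
    exact summ (T (sl f i))
  · have h1 : Summable (fun i => ‖T‖ ^ 2 * ‖sl f i‖ ^ 2) := (summ_sl f).mul_left _
    refine Summable.of_nonneg_of_le (fun i => tsum_nonneg (fun a => by positivity)) (fun i => ?_) h1
    show ∑' a, ‖T (sl f i) a‖ ^ 2 ≤ _
    rw [← norm_sq, ← mul_pow]
    exact pow_le_pow_left₀ (norm_nonneg _) (T.le_opNorm _) 2

/-- amplified operator, as a function -/
noncomputable def ampF (T : l2 A →L[ℂ] l2 A) (f : l2 (I × A)) : l2 (I × A) :=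
  ⟨fun q => T (sl f q.1) q.2, mem_amp T f⟩

theorem sl_ampF (T : l2 A →L[ℂ] l2 A) (f : l2 (I × A)) (i : I) : sl (ampF T f) i = T (sl f i) := by
  ext a
  rfl

theorem sl_ext {f g : l2 (I × A)} (h : ∀ i, sl f i = sl g i) : f = g := by
  ext q
  have := congrArg (fun u : l2 A => u q.2) (h q.1)
  exact this

theorem sl_add (f g : l2 (I × A)) (i : I) : sl (f + g) i = sl f i + sl g i := by
  ext a
  rfl

theorem sl_smul (c : ℂ) (f : l2 (I × A)) (i : I) : sl (c • f) i = c • sl f i := by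
  ext a
  rfl

theorem norm_ampF (T : l2 A →L[ℂ] l2 A) (f : l2 (I × A)) : ‖ampF T f‖ ≤ ‖T‖ * ‖f‖ := by
  have h1 : ‖ampF T f‖ ^ 2 ≤ (‖T‖ * ‖f‖) ^ 2 := by
    rw [norm_sq_sl, mul_pow, norm_sq_sl f, ← tsum_mul_left]
    apply Summable.tsum_le_tsum _ (summ_sl _) ((summ_sl f).mul_left _)
    intro i
    rw [sl_ampF, ← mul_pow]
    exact pow_le_pow_left₀ (norm_nonneg _) (T.le_opNorm _) 2
  exact le_of_sq_le_sq h1 (by positivity)

/-- amplified operator -/
noncomputable def ampL (T : l2 A →L[ℂ] l2 A) : l2 (I × A) →L[ℂ] l2 (I × A) :=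
  LinearMap.mkContinuous
    { toFun := ampF T
      map_add' := fun f g => sl_ext (fun i => by
        rw [sl_add, sl_ampF, sl_ampF, sl_ampF, sl_add, map_add])
      map_smul' := fun c f => sl_ext (fun i => by
        rw [RingHom.id_apply, sl_smul, sl_ampF, sl_ampF, sl_smul, map_smul]) }
    ‖T‖ (norm_ampF T)

theorem sl_ampL (T : l2 A →L[ℂ] l2 A) (f : l2 (I × A)) (i : I) : sl (ampL T f) i = T (sl f i) :=
  sl_ampF T f i

theorem norm_ampL (T : l2 A →L[ℂ] l2 A) : ‖(ampL T : l2 (I × A) →L[ℂ] l2 (I × A))‖ ≤ ‖T‖ :=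
  LinearMap.mkContinuous_norm_le _ (norm_nonneg _) _

theorem inner_sl (f g : l2 (I × A)) : ⟪f, g⟫_ℂ = ∑' i, ⟪sl f i, sl g i⟫_ℂ := by
  have h1 : Summable (fun q : I × A => ⟪f q, g q⟫_ℂ) := lp.summable_inner f g
  have h2 : ∑' q : I × A, ⟪f q, g q⟫_ℂ = ∑' i, ∑' a, ⟪f (i, a), g (i, a)⟫_ℂ := h1.tsum_prod
  have h3 : ⟪f, g⟫_ℂ = ∑' q : I × A, ⟪f q, g q⟫_ℂ := lp.inner_eq_tsum f g
  rw [h3, h2]
  refine tsum_congr (fun i => ?_)
  have h4 : ⟪sl f i, sl g i⟫_ℂ = ∑' a : A, ⟪sl f i a, sl g i a⟫_ℂ := lp.inner_eq_tsum (sl f i) (sl g i)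
  exact h4.symm

theorem ext_sl {S T : l2 (I × A) →L[ℂ] l2 (I × A)} (h : ∀ f i, sl (S f) i = sl (T f) i) : S = T := by
  apply ContinuousLinearMap.ext
  intro f
  exact sl_ext (h f)

theorem ampL_one : (ampL (1 : l2 A →L[ℂ] l2 A) : l2 (I × A) →L[ℂ] l2 (I × A)) = 1 := by
  apply ext_sl
  intro f i
  rw [sl_ampL, one_apply_eq_self, one_apply_eq_self]

theorem ampL_mul (S T : l2 A →L[ℂ] l2 A) :
    (ampL (S * T) : l2 (I × A) →L[ℂ] l2 (I × A)) = ampL S * ampL T := by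
  apply ext_sl
  intro f i
  rw [sl_ampL, ContinuousLinearMap.mul_apply, ContinuousLinearMap.mul_apply, sl_ampL, sl_ampL]

theorem ampL_add (S T : l2 A →L[ℂ] l2 A) :
    (ampL (S + T) : l2 (I × A) →L[ℂ] l2 (I × A)) = ampL S + ampL T := by
  apply ext_sl
  intro f i
  rw [sl_ampL, ContinuousLinearMap.add_apply, ContinuousLinearMap.add_apply, sl_add, sl_ampL,
    sl_ampL]

theorem ampL_smul (c : ℂ) (T : l2 A →L[ℂ] l2 A) :
    (ampL (c • T) : l2 (I × A) →L[ℂ] l2 (I × A)) = c • ampL T := by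
  apply ext_sl
  intro f i
  rw [sl_ampL, ContinuousLinearMap.smul_apply, ContinuousLinearMap.smul_apply, sl_smul, sl_ampL]

theorem ampL_star (T : l2 A →L[ℂ] l2 A) :
    (ampL (star T) : l2 (I × A) →L[ℂ] l2 (I × A)) = star (ampL T) := by
  rw [ContinuousLinearMap.star_eq_adjoint, ContinuousLinearMap.star_eq_adjoint,
    ContinuousLinearMap.eq_adjoint_iff]
  intro f g
  rw [inner_sl, inner_sl]
  congr 1
  funext i
  rw [sl_ampL, sl_ampL, ContinuousLinearMap.adjoint_inner_left]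

/-- the amplification star homomorphism -/
noncomputable def AmpH : (l2 A →L[ℂ] l2 A) →⋆ₐ[ℂ] (l2 (I × A) →L[ℂ] l2 (I × A)) where
  toFun := ampL
  map_one' := ampL_one
  map_mul' := ampL_mul
  map_zero' := by
    have := ampL_smul (I := I) 0 (0 : l2 A →L[ℂ] l2 A)
    rwa [zero_smul, zero_smul] at this
  map_add' := ampL_add
  commutes' c := by
    rw [Algebra.algebraMap_eq_smul_one, Algebra.algebraMap_eq_smul_one, ampL_smul, ampL_one]
  map_star' := ampL_star

theorem AmpH_cont : Continuous (AmpH : (l2 A →L[ℂ] l2 A) →⋆ₐ[ℂ] (l2 (I × A) →L[ℂ] l2 (I × A))) :=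
  AddMonoidHomClass.continuous_of_bound AmpH 1 (fun T => by rw [one_mul]; exact norm_ampL T)

section
variable {H G : Type} [Group H] [Group G] (j : H →* G)

/-- coset coordinates -/
noncomputable def ef (p : (G ⧸ j.range) × H) : G := j p.2 * (p.1.out)⁻¹

theorem ef_bij (hj : Function.Injective j) : Function.Bijective (ef j) := by
  constructor
  · rintro ⟨q, h⟩ ⟨q', h'⟩ he
    have he1 : j h * (q.out)⁻¹ = j h' * (q'.out)⁻¹ := he
    have he2 : q.out * j h⁻¹ = q'.out * j h'⁻¹ := by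
      have := congrArg (fun x => x⁻¹) he1
      simpa [mul_inv_rev] using this
    have hq : q = q' := by
      have h1 : (QuotientGroup.mk (q.out * j h⁻¹) : G ⧸ j.range) = q := by
        rw [QuotientGroup.mk_mul_of_mem _ (MonoidHom.mem_range.mpr ⟨h⁻¹, rfl⟩), QuotientGroup.out_eq']
      have h2 : (QuotientGroup.mk (q'.out * j h'⁻¹) : G ⧸ j.range) = q' := by
        rw [QuotientGroup.mk_mul_of_mem _ (MonoidHom.mem_range.mpr ⟨h'⁻¹, rfl⟩), QuotientGroup.out_eq']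
      rw [← h1, ← h2, he2]
    subst hq
    have h3 : j h = j h' := mul_right_cancel he1
    rw [hj h3]
  · intro g
    obtain ⟨k, hK⟩ := QuotientGroup.mk_out_eq_mul j.range g⁻¹
    obtain ⟨h0, hk⟩ := MonoidHom.mem_range.mp k.2
    refine ⟨(QuotientGroup.mk g⁻¹, h0), ?_⟩
    show j h0 * ((QuotientGroup.mk g⁻¹ : G ⧸ j.range).out)⁻¹ = g
    rw [hK, hk]
    simp

/-- coset coordinates -/
noncomputable def ee (hj : Function.Injective j) : (G ⧸ j.range) × H ≃ G :=
  Equiv.ofBijective (ef j) (ef_bij j hj)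

theorem ee_mul (hj : Function.Injective j) (q : G ⧸ j.range) (h' h : H) :
    ee j hj (q, h' * h) = j h' * ee j hj (q, h) := by
  show j (h' * h) * (q.out)⁻¹ = j h' * (j h * (q.out)⁻¹)
  rw [map_mul, mul_assoc]

end

/-- amplification along an injective homomorphism. -/
theorem amp {H G : Type} [Group H] [Group G] (j : H →* G) (hj : Function.Injective j) :
    ∃ Φ : (l2 H →L[ℂ] l2 H) →⋆ₐ[ℂ] (l2 G →L[ℂ] l2 G),
      Continuous Φ ∧ ∀ h, Φ (lam h) = lam (j h) := by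
  let e := ee j hj
  let Ψ : (l2 ((G ⧸ j.range) × H) →L[ℂ] l2 ((G ⧸ j.range) × H)) →⋆ₐ[ℂ] (l2 G →L[ℂ] l2 G) :=
    ((pm e).conjStarAlgEquiv : _ →⋆ₐ[ℂ] _)
  have hΨ : ∀ T f, Ψ T f = pm e (T ((pm e).symm f)) := fun T f => rfl
  refine ⟨Ψ.comp AmpH, ?_, ?_⟩
  · have h1 : Continuous Ψ := by
      apply AddMonoidHomClass.continuous_of_bound Ψ 1
      intro T
      rw [one_mul]
      apply ContinuousLinearMap.opNorm_le_bound _ (norm_nonneg _)
      intro f
      rw [hΨ, LinearIsometryEquiv.norm_map]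
      refine (T.le_opNorm _).trans ?_
      rw [LinearIsometryEquiv.norm_map]
    exact h1.comp AmpH_cont
  · intro h
    apply ContinuousLinearMap.ext
    intro f
    ext x
    obtain ⟨⟨q, k⟩, rfl⟩ := e.surjective x
    show (Ψ (AmpH (lam h)) f) (e (q, k)) = lam (j h) f (e (q, k))
    rw [hΨ]
    show (AmpH (lam h) ((pm e).symm f)) (e.symm (e (q, k))) = f ((j h)⁻¹ * e (q, k))
    rw [Equiv.symm_apply_apply, ← map_inv, ← ee_mul j hj q h⁻¹ k]
    rfl

end N_amp

alias amp := N_amp.amp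

end Pool.CS
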