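import Pool.Agent.Helper694.CS.Defs
import Pool.Agent.Helper694.CS.J_amp
set_option autoImplicit false

namespace Pool.CS


namespace N_gut

theorem gut_ext {S T : Type} [Group S] [Group T]
    (Ψ1 Ψ2 : (l2 S →L[ℂ] l2 S) →ₐ[ℂ] (l2 T →L[ℂ] l2 T))
    (h1 : Continuous Ψ1) (h2 : Continuous Ψ2) (h : ∀ c, Ψ1 (lam c) = Ψ2 (lam c))
    (x : l2 S →L[ℂ] l2 S) (hx : x ∈ CR S) : Ψ1 x = Ψ2 x := by
  have hcl : IsClosed {x | Ψ1 x = Ψ2 x} := isClosed_eq h1 h2
  have hx' : x ∈ closure ((StarAlgebra.adjoin ℂ (lam '' (Set.univ : Set S)) :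
      StarSubalgebra ℂ (l2 S →L[ℂ] l2 S)) : Set (l2 S →L[ℂ] l2 S)) := hx
  refine closure_minimal ?_ hcl hx'
  intro y hy
  have key : Ψ1 y = Ψ2 y ∧ Ψ1 (star y) = Ψ2 (star y) := by
    refine StarAlgebra.adjoin_induction
      (p := fun y _ => Ψ1 y = Ψ2 y ∧ Ψ1 (star y) = Ψ2 (star y)) ?_ ?_ ?_ ?_ ?_ hy
    · rintro _ ⟨c, _, rfl⟩
      exact ⟨h c, by rw [star_lam]; exact h _⟩
    · intro r
      refine ⟨by rw [AlgHom.commutes, AlgHom.commutes], ?_⟩
      rw [← algebraMap_star_comm, AlgHom.commutes, AlgHom.commutes]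
    · rintro a b _ _ ⟨ha, ha'⟩ ⟨hb, hb'⟩
      exact ⟨by rw [map_add, map_add, ha, hb], by rw [star_add, map_add, map_add, ha', hb']⟩
    · rintro a b _ _ ⟨ha, ha'⟩ ⟨hb, hb'⟩
      exact ⟨by rw [map_mul, map_mul, ha, hb], by rw [star_mul, map_mul, map_mul, ha', hb']⟩
    · rintro a _ ⟨ha, ha'⟩
      exact ⟨ha', by rw [star_star]; exact ha⟩
  exact key.1

/-- conjugation -/
noncomputable def gut_conj {T : Type} (P Q : l2 T →L[ℂ] l2 T) (h : Q * P = 1) (h' : P * Q = 1) :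
    (l2 T →L[ℂ] l2 T) →ₐ[ℂ] (l2 T →L[ℂ] l2 T) :=
  AlgHom.ofLinearMap
    { toFun := fun x => P * x * Q
      map_add' := fun x y => by rw [mul_add, add_mul]
      map_smul' := fun c x => by
        rw [RingHom.id_apply, mul_smul_comm, smul_mul_assoc] }
    (by
      show P * 1 * Q = 1
      rw [mul_one, h'])
    (fun x y => by
      show P * (x * y) * Q = (P * x * Q) * (P * y * Q)
      calc P * (x * y) * Q = P * x * 1 * y * Q := by rw [mul_one, mul_assoc P x y]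
        _ = P * x * (Q * P) * y * Q := by rw [h]
        _ = (P * x * Q) * (P * y * Q) := by simp only [mul_assoc])

theorem gut_conj_apply {T : Type} (P Q : l2 T →L[ℂ] l2 T) (h : Q * P = 1) (h' : P * Q = 1)
    (x : l2 T →L[ℂ] l2 T) : gut_conj P Q h h' x = P * x * Q := rfl

theorem gut_conj_cont {T : Type} (P Q : l2 T →L[ℂ] l2 T) (h : Q * P = 1) (h' : P * Q = 1) :
    Continuous (gut_conj P Q h h') := by
  show Continuous (fun x : l2 T →L[ℂ] l2 T => P * x * Q)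
  fun_prop

theorem gut_range {S T : Type} [Group S] [Group T] (j : S →* T)
    (Φ : (l2 S →L[ℂ] l2 S) →⋆ₐ[ℂ] (l2 T →L[ℂ] l2 T)) (hΦ : Continuous Φ)
    (h : ∀ c, Φ (lam c) = lam (j c)) (x : l2 S →L[ℂ] l2 S) (hx : x ∈ CR S) :
    Φ x ∈ CRs (Set.range j) := by
  have hcl : IsClosed {x | Φ x ∈ (CRs (Set.range j) : StarSubalgebra ℂ (l2 T →L[ℂ] l2 T))} := by
    have h1 : IsClosed ((CRs (Set.range j) : StarSubalgebra ℂ (l2 T →L[ℂ] l2 T)) :
        Set (l2 T →L[ℂ] l2 T)) := by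
      unfold CRs
      exact StarSubalgebra.isClosed_topologicalClosure _
    exact h1.preimage hΦ
  have hx' : x ∈ closure ((StarAlgebra.adjoin ℂ (lam '' (Set.univ : Set S)) :
      StarSubalgebra ℂ (l2 S →L[ℂ] l2 S)) : Set (l2 S →L[ℂ] l2 S)) := hx
  refine closure_minimal ?_ hcl hx'
  intro y hy
  refine StarAlgebra.adjoin_induction
    (p := fun y _ => Φ y ∈ (CRs (Set.range j) : StarSubalgebra ℂ (l2 T →L[ℂ] l2 T)))
    ?_ ?_ ?_ ?_ ?_ hy
  · rintro _ ⟨c, _, rfl⟩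
    rw [h c]
    unfold CRs
    apply StarSubalgebra.le_topologicalClosure
    exact StarAlgebra.subset_adjoin ℂ _ ⟨j c, ⟨c, rfl⟩, rfl⟩
  · intro r
    rw [AlgHomClass.commutes]
    exact algebraMap_mem _ r
  · rintro a b _ _ ha hb
    rw [map_add]
    exact add_mem ha hb
  · rintro a b _ _ ha hb
    rw [map_mul]
    exact mul_mem ha hb
  · rintro a _ ha
    rw [map_star]
    exact star_mem ha

theorem gut_pm {C : Type} [Group C] (e : C ≃* C) (c : C) :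
    pmL e.toEquiv * lam c * pmL e.toEquiv.symm = lam (e c) := by
  ext f x
  have h : e (c⁻¹ * e.symm x) = (e c)⁻¹ * x := by
    rw [map_mul, map_inv, MulEquiv.apply_symm_apply]
  show f (e (c⁻¹ * e.symm x)) = f ((e c)⁻¹ * x)
  rw [h]

/-- copies of a twisted-equivariant unitary in bigger groups. -/
theorem gut {S C : Type} [Group S] [Group C] (act : S →* MulAut C) (k : S → C)
    (u : l2 C →L[ℂ] l2 C) (hu : u ∈ CR C) (huu : u ∈ unitary (l2 C →L[ℂ] l2 C))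
    (hk : ∀ s, u = lam (k s) * (pmL (act s).toEquiv * u * pmL (act s).toEquiv.symm))
    (G : Type) [Group G] :
    ∃ U : (C →* G) → (l2 G →L[ℂ] l2 G), ∀ j : C →* G, Function.Injective j →
      U j ∈ CRs (Set.range j) ∧ U j ∈ unitary (l2 G →L[ℂ] l2 G) ∧
      (∀ s, U j = lam (j (k s)) * U (j.comp (act s).toMonoidHom)) ∧
      (∀ g, lam g * U j * lam g⁻¹ = U ((MulAut.conj g).toMonoidHom.comp j)) := by
  classical
  let Φ : ∀ j : C →* G, Function.Injective j →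
      ((l2 C →L[ℂ] l2 C) →⋆ₐ[ℂ] (l2 G →L[ℂ] l2 G)) := fun j hj => (amp j hj).choose
  have hΦc : ∀ j hj, Continuous (Φ j hj) := fun j hj => (amp j hj).choose_spec.1
  have hΦl : ∀ j hj h, Φ j hj (lam h) = lam (j h) := fun j hj => (amp j hj).choose_spec.2
  let U : (C →* G) → (l2 G →L[ℂ] l2 G) := fun j =>
    if hj : Function.Injective j then Φ j hj u else 1
  have hU : ∀ j hj, U j = Φ j hj u := fun j hj => dif_pos hj
  refine ⟨U, fun j hj => ⟨?_, ?_, ?_, ?_⟩⟩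
  · rw [hU j hj]
    exact gut_range j (Φ j hj) (hΦc j hj) (hΦl j hj) u hu
  · rw [hU j hj]
    rw [Unitary.mem_iff] at huu ⊢
    rw [← map_star, ← map_mul, ← map_mul, huu.1, huu.2, map_one]
    exact ⟨rfl, rfl⟩
  · intro s
    have hj' : Function.Injective (j.comp (act s).toMonoidHom) := hj.comp (act s).injective
    rw [hU j hj, hU _ hj']
    conv_lhs => rw [hk s]
    rw [map_mul, hΦl _ hj]
    congr 1
    have hP : pmL (act s).toEquiv.symm * pmL (act s).toEquiv = 1 := by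
      rw [pmL_mul, Equiv.self_trans_symm]
      ext f x
      rfl
    have hQ : pmL (act s).toEquiv * pmL (act s).toEquiv.symm = 1 := by
      rw [pmL_mul, Equiv.symm_trans_self]
      ext f x
      rfl
    refine gut_ext (((Φ j hj) : (l2 C →L[ℂ] l2 C) →ₐ[ℂ] (l2 G →L[ℂ] l2 G)).comp
      (gut_conj _ _ hP hQ)) ((Φ _ hj') : (l2 C →L[ℂ] l2 C) →ₐ[ℂ] (l2 G →L[ℂ] l2 G))
      ((hΦc j hj).comp (gut_conj_cont _ _ hP hQ)) (hΦc _ hj') ?_ u hu
    intro c
    show Φ j hj (pmL (act s).toEquiv * lam c * pmL (act s).toEquiv.symm) = Φ _ hj' (lam c)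
    rw [gut_pm (act s) c, hΦl _ hj, hΦl _ hj']
    rfl
  · intro g
    have hj' : Function.Injective ((MulAut.conj g).toMonoidHom.comp j) :=
      (MulAut.conj g).injective.comp hj
    rw [hU j hj, hU _ hj']
    have hP : lam g⁻¹ * lam g = (1 : l2 G →L[ℂ] l2 G) := by
      rw [← lam_mul, inv_mul_cancel, lam_one]
    have hQ : lam g * lam g⁻¹ = (1 : l2 G →L[ℂ] l2 G) := by
      rw [← lam_mul, mul_inv_cancel, lam_one]
    refine gut_ext ((gut_conj _ _ hP hQ).comp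
      ((Φ j hj) : (l2 C →L[ℂ] l2 C) →ₐ[ℂ] (l2 G →L[ℂ] l2 G)))
      ((Φ _ hj') : (l2 C →L[ℂ] l2 C) →ₐ[ℂ] (l2 G →L[ℂ] l2 G))
      ((gut_conj_cont _ _ hP hQ).comp (hΦc j hj)) (hΦc _ hj') ?_ u hu
    intro c
    show lam g * Φ j hj (lam c) * lam g⁻¹ = Φ _ hj' (lam c)
    rw [hΦl _ hj, hΦl _ hj', ← lam_mul, ← lam_mul]
    rfl

end N_gut

alias gut := N_gut.gut

end Pool.CS
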