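import Pool.Agent.Helper694.CS.Defs
import Pool.Agent.Helper694.CS.J_gut
set_option autoImplicit false

namespace Pool.CS


namespace N_stepU

section gen
variable {G : Type} [Group G]

/-- `lam` as a monoid hom -/
noncomputable def lamH : G →* (l2 G →L[ℂ] l2 G) where
  toFun := lam
  map_one' := lam_one
  map_mul' := lam_mul

theorem lam_mem_CRs {s : Set G} {g : G} (h : g ∈ s) : lam g ∈ CRs s :=
  StarSubalgebra.le_topologicalClosure _ (StarAlgebra.subset_adjoin ℂ _ ⟨g, h, rfl⟩)

theorem CRs_mono {s t : Set G} (h : s ⊆ t) : CRs s ≤ CRs t :=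
  StarSubalgebra.topologicalClosure_mono (StarAlgebra.adjoin_mono (Set.image_mono h))

theorem CRs_key {s : Set G} {T : l2 G →L[ℂ] l2 G}
    (h : ∀ a ∈ s, T * lam a = lam a * T ∧ star T * lam a = lam a * star T)
    {X : l2 G →L[ℂ] l2 G} (hX : X ∈ CRs s) : T * X = X * T ∧ star T * X = X * star T := by
  have h1 : CRs s ≤ StarSubalgebra.centralizer ℂ {T} := by
    refine StarSubalgebra.topologicalClosure_minimal (StarAlgebra.adjoin_le ?_) ?_
    · rintro _ ⟨a, ha, rfl⟩
      rw [SetLike.mem_coe, StarSubalgebra.mem_centralizer_iff]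
      rintro _ rfl
      exact h a ha
    · exact Set.isClosed_centralizer _
  have h2 := h1 hX
  rw [StarSubalgebra.mem_centralizer_iff] at h2
  exact h2 T rfl

theorem CRs_comm {s t : Set G} (h : ∀ a ∈ s, ∀ b ∈ t, Commute a b)
    (ht : ∀ b ∈ t, b⁻¹ ∈ t) {X Y : l2 G →L[ℂ] l2 G}
    (hX : X ∈ CRs s) (hY : Y ∈ CRs t) : Commute X Y := by
  have h1 : ∀ b ∈ t, X * lam b = lam b * X := by
    intro b hb
    have := CRs_key (s := s) (T := lam b) (fun a ha => by
      constructor
      · rw [← lam_mul, ← lam_mul, (h a ha b hb).eq]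
      · rw [star_lam, ← lam_mul, ← lam_mul, (h a ha _ (ht b hb)).eq]) hX
    exact this.1.symm
  have h2 : ∀ b ∈ t, star X * lam b = lam b * star X := by
    intro b hb
    have h3 := h1 _ (ht b hb)
    have h4 := congrArg star h3
    rw [star_mul, star_mul, star_lam, inv_inv] at h4
    exact h4.symm
  exact (CRs_key (fun b hb => ⟨h1 b hb, h2 b hb⟩) hY).1

theorem npr_reindex {M Q : Type} [Monoid M] [Fintype Q] (f : Q → M) (σ : Q ≃ Q)
    (h1 : ((Finset.univ : Finset Q) : Set Q).Pairwise (Function.onFun Commute f))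
    (h2 : ((Finset.univ : Finset Q) : Set Q).Pairwise (Function.onFun Commute (f ∘ σ))) :
    Finset.univ.noncommProd (f ∘ σ) h2 = Finset.univ.noncommProd f h1 := by
  unfold Finset.noncommProd
  have : Multiset.map (f ∘ σ) (Finset.univ : Finset Q).val = Multiset.map f Finset.univ.val := by
    rw [← Multiset.map_map]
    congr 1
    have := congrArg Finset.val (Finset.map_univ_equiv σ)
    simpa using this
  congr 1

end gen

section fam
variable {S C P : Type} [Group S] [Group C] [Group P] (g : Gadget S C) (B : Bdl S P)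
variable {H : Type} [Group H] (j : KK g B →* H)

theorem k_one : g.k 1 = 1 := by
  have h := g.coc 1 1
  rw [map_one, mul_one] at h
  simpa using h

theorem act_k_inv (s : S) : g.act s⁻¹ (g.k s) = (g.k s⁻¹)⁻¹ := by
  have h := g.coc s⁻¹ s
  rw [inv_mul_cancel, k_one] at h
  exact (inv_eq_of_mul_eq_one_right h.symm).symm

/-- the embeddings -/
noncomputable def JJ (x : B.X) : C →* H := (j.comp SemidirectProduct.inl).comp (jx g B x)

theorem JJ_apply (x : B.X) (c : C) : JJ g B j x c = j (SemidirectProduct.inl (jx g B x c)) := rfl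

theorem JJ_inj (hj : Function.Injective j) (x : B.X) : Function.Injective (JJ g B j x) := by
  intro c d h
  rw [JJ_apply, JJ_apply] at h
  have h2 := SemidirectProduct.inl_injective (hj h)
  have h3 := jx_self g B x c
  rw [h2, jx_self] at h3
  exact h3.symm

theorem jx_smul (s : S) (x : B.X) (c : C) : jx g B (s • x) c = jx g B x (g.act s⁻¹ c) := by
  ext y
  by_cases h : ∃ r : S, r • (s • x) = y
  · obtain ⟨r, rfl⟩ := h
    rw [jx_apply, ← mul_smul, jx_apply, map_mul]
    show g.act r c = g.act r (g.act s (g.act s⁻¹ c))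
    have : g.act s (g.act s⁻¹ c) = (g.act s * g.act s⁻¹) c := rfl
    rw [this, ← map_mul, mul_inv_cancel, map_one]
    rfl
  · rw [jx_ne g B (s • x) y c (fun r hr => h ⟨r, hr⟩), jx_ne]
    intro r hr
    exact h ⟨r * s⁻¹, by rw [mul_smul, inv_smul_smul, hr]⟩

theorem JJ_smul (s : S) (x : B.X) :
    JJ g B j (s • x) = (JJ g B j x).comp (g.act s⁻¹).toMonoidHom := by
  ext c
  show JJ g B j (s • x) c = JJ g B j x (g.act s⁻¹ c)
  rw [JJ_apply, JJ_apply, jx_smul]

theorem tr_jx (p : P) (x : B.X) (c : C) : tr g B p (jx g B x c) = jx g B (p • x) c := by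
  ext y
  rw [tr_apply]
  by_cases h : ∃ r : S, r • (p • x) = y
  · obtain ⟨r, rfl⟩ := h
    rw [jx_apply, ← B.comm, inv_smul_smul, jx_apply]
  · rw [jx_ne g B (p • x) y c (fun r hr => h ⟨r, hr⟩), jx_ne]
    intro r hr
    exact h ⟨r, by rw [← B.comm, hr, smul_inv_smul]⟩

theorem JJ_conj (p : P) (x : B.X) :
    (MulAut.conj (j (SemidirectProduct.inr p))).toMonoidHom.comp (JJ g B j x) =
      JJ g B j (p • x) := by
  ext c
  show j (SemidirectProduct.inr p) * JJ g B j x c * (j (SemidirectProduct.inr p))⁻¹ = _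
  rw [JJ_apply, JJ_apply, ← tr_jx, SemidirectProduct.inl_aut, ← map_inv, ← map_inv, ← map_mul,
    ← map_mul]

theorem JJ_comm (x y : B.X) (h : ∀ s : S, s • x ≠ y) (c d : C) :
    Commute (JJ g B j x c) (JJ g B j y d) := by
  have h1 : jx g B x c * jx g B y d = jx g B y d * jx g B x c := by
    ext z
    show (jx g B x c : B.X → C) z * (jx g B y d : B.X → C) z =
      (jx g B y d : B.X → C) z * (jx g B x c : B.X → C) z
    by_cases hz : ∃ r : S, r • x = z
    · obtain ⟨r, rfl⟩ := hz
      rw [jx_ne g B y (r • x) d, mul_one, one_mul]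
      intro t ht
      exact h (t⁻¹ * r) (by rw [mul_smul, ← ht, inv_smul_smul])
    · rw [jx_ne g B x z c (fun r hr => hz ⟨r, hr⟩), mul_one, one_mul]
  show JJ g B j x c * JJ g B j y d = JJ g B j y d * JJ g B j x c
  simp only [JJ_apply]
  rw [← map_mul, ← map_mul, h1, map_mul, map_mul]

/-- orbits -/
abbrev QQ (B : Bdl S P) : Type := Quotient (MulAction.orbitRel S B.X)

/-- orbit of a point -/
def qm (B : Bdl S P) (x : B.X) : QQ B := Quotient.mk _ x

theorem qm_out (q : QQ B) : qm B q.out = q := Quotient.out_eq q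

theorem qm_eq (x y : B.X) : qm B x = qm B y ↔ ∃ s : S, s • y = x := by
  unfold qm
  rw [Quotient.eq]
  exact MulAction.orbitRel_apply

/-- the unitaries at points -/
noncomputable def VV (U : (C →* H) → (l2 H →L[ℂ] l2 H)) (b : B.X → C) (x : B.X) :
    l2 H →L[ℂ] l2 H := lam (JJ g B j x (b x)) * U (JJ g B j x)

/-- properties of `U` -/
def UP (U : (C →* H) → (l2 H →L[ℂ] l2 H)) : Prop := ∀ j : C →* H, Function.Injective j →
      U j ∈ CRs (Set.range j) ∧ U j ∈ unitary (l2 H →L[ℂ] l2 H) ∧
      (∀ s, U j = lam (j (g.k s)) * U (j.comp (g.act s).toMonoidHom)) ∧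
      (∀ g, lam g * U j * lam g⁻¹ = U ((MulAut.conj g).toMonoidHom.comp j))

variable {g B j}
variable {U : (C →* H) → (l2 H →L[ℂ] l2 H)} (hU : UP g U) (hj : Function.Injective j)

include hU hj in
theorem VV_smul {b : B.X → C} (hb : IsTw g B b) (s : S) (x : B.X) :
    VV g B j U b (s • x) = VV g B j U b x := by
  unfold VV
  have h1 := (hU (JJ g B j x) (JJ_inj g B j hj x)).2.2.1 s⁻¹
  conv_rhs => rw [h1]
  rw [JJ_smul, ← mul_assoc, ← lam_mul, ← map_mul]
  have h2 : g.act s⁻¹ (b (s • x)) = b x * g.k s⁻¹ := by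
    rw [hb, map_mul, map_inv (g.act s⁻¹) (g.k s), act_k_inv, inv_inv]
    have : g.act s⁻¹ (g.act s (b x)) = (g.act s⁻¹ * g.act s) (b x) := rfl
    rw [this, ← map_mul, inv_mul_cancel, map_one]
    rfl
  have h3 : ((JJ g B j x).comp (g.act s⁻¹).toMonoidHom) (b (s • x)) =
      JJ g B j x (b x * g.k s⁻¹) := congrArg (JJ g B j x) h2
  rw [h3]

include hU hj in
theorem VV_out {b : B.X → C} (hb : IsTw g B b) (x : B.X) :
    VV g B j U b (qm B x).out = VV g B j U b x := by
  obtain ⟨s, hs⟩ := (qm_eq B _ _).1 (qm_out B (qm B x))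
  rw [← hs, VV_smul hU hj hb]

include hU hj in
theorem VV_mem (b : B.X → C) (x : B.X) : VV g B j U b x ∈ CRs (Set.range (JJ g B j x)) :=
  mul_mem (lam_mem_CRs ⟨_, rfl⟩) (hU _ (JJ_inj g B j hj x)).1

include hU hj in
theorem VV_uni (b : B.X → C) (x : B.X) : VV g B j U b x ∈ unitary (l2 H →L[ℂ] l2 H) :=
  mul_mem (lam_mem_unitary _) (hU _ (JJ_inj g B j hj x)).2.1

theorem range_comm (x y : B.X) (h : ∀ s : S, s • x ≠ y) {X Y : l2 H →L[ℂ] l2 H}
    (hX : X ∈ CRs (Set.range (JJ g B j x))) (hY : Y ∈ CRs (Set.range (JJ g B j y))) :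
    Commute X Y := by
  refine CRs_comm ?_ ?_ hX hY
  · rintro _ ⟨c, rfl⟩ _ ⟨d, rfl⟩
    exact JJ_comm g B j x y h c d
  · rintro _ ⟨c, rfl⟩
    exact ⟨c⁻¹, map_inv _ _⟩

theorem out_ne {q r : QQ B} (h : q ≠ r) (s : S) : s • q.out ≠ r.out := by
  intro hs
  apply h
  rw [← qm_out B q, ← qm_out B r, eq_comm, qm_eq]
  exact ⟨s, hs⟩

include hU hj in
theorem VV_pair (b : B.X → C) (A : Set (QQ B)) :
    A.Pairwise (Function.onFun Commute (fun q : QQ B => VV g B j U b q.out)) := by
  intro q _ r _ hqr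
  exact range_comm _ _ (out_ne hqr) (VV_mem hU hj b _) (VV_mem hU hj b _)

open Classical in
/-- the product over all orbits -/
noncomputable def WW (hU : UP g U) (hj : Function.Injective j) (b : B.X → C) :
    l2 H →L[ℂ] l2 H :=
  letI : Fintype (QQ B) := Fintype.ofFinite _
  Finset.univ.noncommProd (fun q : QQ B => VV g B j U b q.out) (VV_pair hU hj b _)

theorem WW_mem (b : B.X → C) : WW hU hj b ∈ CRs (Set.range j) := by
  classical
  letI : Fintype (QQ B) := Fintype.ofFinite _
  refine Submonoid.noncommProd_mem (CRs (Set.range j)).toSubalgebra.toSubmonoid _ _ _ ?_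
  intro q _
  refine CRs_mono ?_ (VV_mem hU hj b _)
  rintro _ ⟨c, rfl⟩
  exact ⟨_, rfl⟩

theorem WW_uni (b : B.X → C) : WW hU hj b ∈ unitary (l2 H →L[ℂ] l2 H) := by
  classical
  letI : Fintype (QQ B) := Fintype.ofFinite _
  refine Submonoid.noncommProd_mem (unitary (l2 H →L[ℂ] l2 H)) _ _ _ ?_
  intro q _
  exact VV_uni hU hj b _

theorem isTw_shift {b : B.X → C} (hb : IsTw g B b) (p : P) :
    IsTw g B (fun x => b (p⁻¹ • x)) := by
  intro s x
  show b (p⁻¹ • s • x) = _
  rw [B.comm, hb]

theorem isTw_mul {b : B.X → C} (hb : IsTw g B b) (f : EqF g B) :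
    IsTw g B (fun x => (f : B.X → C) x * b x) := by
  intro s x
  show (f : B.X → C) (s • x) * b (s • x) = _
  rw [hb, EqF_apply, map_mul, mul_assoc]

/-- conjugation -/
noncomputable def cj (h : H) : (l2 H →L[ℂ] l2 H) →* (l2 H →L[ℂ] l2 H) where
  toFun T := lam h * T * lam h⁻¹
  map_one' := by rw [mul_one, ← lam_mul, mul_inv_cancel, lam_one]
  map_mul' X Y := by
    have h1 : lam h⁻¹ * lam h = (1 : l2 H →L[ℂ] l2 H) := by
      rw [← lam_mul, inv_mul_cancel, lam_one]
    calc lam h * (X * Y) * lam h⁻¹ = lam h * X * 1 * Y * lam h⁻¹ := by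
          simp only [mul_assoc, one_mul]
      _ = lam h * X * (lam h⁻¹ * lam h) * Y * lam h⁻¹ := by rw [h1]
      _ = lam h * X * lam h⁻¹ * (lam h * Y * lam h⁻¹) := by simp only [mul_assoc]

/-- permutation of the orbits -/
def sg (B : Bdl S P) (p : P) : QQ B ≃ QQ B :=
  Quotient.congr (MulAction.toPerm p) (fun x y => by
    rw [MulAction.orbitRel_apply, MulAction.orbitRel_apply]
    constructor
    · rintro ⟨s, hs⟩
      refine ⟨s, ?_⟩
      show s • p • y = p • x
      rw [← B.comm]
      congr 1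
    · rintro ⟨s, hs⟩
      refine ⟨s, ?_⟩
      have hs' : s • p • y = p • x := hs
      rw [← B.comm] at hs'
      exact smul_left_cancel p hs')

theorem sg_mk (p : P) (x : B.X) : sg B p (qm B x) = qm B (p • x) := rfl

include hU hj in
theorem VV_conj {b : B.X → C} (hb : IsTw g B b) (p : P) (q : QQ B) :
    cj (j (SemidirectProduct.inr p)) (VV g B j U b q.out) =
      VV g B j U (fun x => b (p⁻¹ • x)) (sg B p q).out := by
  have h1 : sg B p q = qm B (p • q.out) := by
    rw [← sg_mk, qm_out]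
  rw [h1, VV_out hU hj (isTw_shift hb p)]
  unfold VV
  rw [map_mul]
  congr 1
  · show lam _ * lam _ * lam _ = _
    rw [← lam_mul, ← lam_mul]
    congr 1
    rw [← JJ_conj]
    show _ = j (SemidirectProduct.inr p) * JJ g B j q.out (b (p⁻¹ • p • q.out)) *
      (j (SemidirectProduct.inr p))⁻¹
    rw [inv_smul_smul]
  · show lam _ * U _ * lam _ = _
    rw [(hU _ (JJ_inj g B j hj q.out)).2.2.2, JJ_conj]

theorem WW_conj {b : B.X → C} (hb : IsTw g B b) (p : P) :
    lam (j (SemidirectProduct.inr p)) * WW hU hj b * lam (j (SemidirectProduct.inr p))⁻¹ =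
      WW hU hj (fun x => b (p⁻¹ • x)) := by
  classical
  letI : Fintype (QQ B) := Fintype.ofFinite _
  have h0 : cj (j (SemidirectProduct.inr p)) (WW hU hj b) =
      WW hU hj (fun x => b (p⁻¹ • x)) := by
    unfold WW
    rw [Finset.map_noncommProd]
    have h1 := npr_reindex (fun q : QQ B => VV g B j U (fun x => b (p⁻¹ • x)) q.out) (sg B p)
      (VV_pair hU hj _ _) (by
        have := VV_pair hU hj (fun x => b (p⁻¹ • x)) (Set.univ : Set (QQ B))
        intro q _ r _ hqr
        exact this (Set.mem_univ _) (Set.mem_univ _) (fun h => hqr ((sg B p).injective h)))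
    refine Eq.trans ?_ h1
    refine Finset.noncommProd_congr rfl (fun q _ => ?_) _
    exact VV_conj hU hj hb p q
  exact h0

theorem eq_prod (f : EqF g B) [Fintype (QQ B)]
    (h : ((Finset.univ : Finset (QQ B)) : Set (QQ B)).Pairwise (Function.onFun Commute
      (fun q : QQ B => jx g B q.out ((f : B.X → C) q.out)))) :
    Finset.univ.noncommProd (fun q : QQ B => jx g B q.out ((f : B.X → C) q.out)) h = f := by
  classical
  ext y
  let ev : EqF g B →* C := (Pi.evalMonoidHom (fun _ : B.X => C) y).comp (EqF g B).subtype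
  show ev _ = ev f
  rw [Finset.map_noncommProd]
  have h1 : (Finset.univ : Finset (QQ B)) = insert (qm B y) (Finset.univ.erase (qm B y)) := by
    simp
  have h2 : ∀ q ∈ (Finset.univ.erase (qm B y)),
      ev (jx g B q.out ((f : B.X → C) q.out)) = 1 := by
    intro q hq
    have hne := Finset.ne_of_mem_erase hq
    refine jx_ne g B q.out y _ ?_
    intro s hs
    apply hne
    rw [← qm_out B q, eq_comm, qm_eq]
    exact ⟨s, hs⟩
  have h3 : ev (jx g B (qm B y).out ((f : B.X → C) (qm B y).out)) = ev f := by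
    obtain ⟨s, hs⟩ := (qm_eq B _ _).1 (qm_out B (qm B y)).symm
    have h5 := jx_apply g B (qm B y).out ((f : B.X → C) (qm B y).out) s
    have h6 := EqF_apply g B f s (qm B y).out
    rw [hs] at h5 h6
    exact h5.trans h6.symm
  refine (Finset.noncommProd_congr h1 (fun q _ => rfl) _).trans ?_
  refine (Finset.noncommProd_insert_of_notMem _ _ _ _ (Finset.notMem_erase _ _)).trans ?_
  exact (congrArg₂ (· * ·) h3 ((Finset.noncommProd_eq_pow_card _ _ _ 1 h2).trans
    (one_pow _))).trans (mul_one _)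

theorem WW_mul (b : B.X → C) (f : EqF g B) :
    lam (j (SemidirectProduct.inl f)) * WW hU hj b =
      WW hU hj (fun x => (f : B.X → C) x * b x) := by
  classical
  letI : Fintype (QQ B) := Fintype.ofFinite _
  have hc : ((Finset.univ : Finset (QQ B)) : Set (QQ B)).Pairwise (Function.onFun Commute
      (fun q : QQ B => jx g B q.out ((f : B.X → C) q.out))) := by
    intro q _ r _ hqr
    have h1 := JJ_comm g B (MonoidHom.id (KK g B)) q.out r.out (out_ne hqr)
      ((f : B.X → C) q.out) ((f : B.X → C) r.out)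
    have h2 : SemidirectProduct.inl (φ := tr g B) (jx g B q.out ((f : B.X → C) q.out) *
        jx g B r.out ((f : B.X → C) r.out)) = SemidirectProduct.inl (jx g B r.out
        ((f : B.X → C) r.out) * jx g B q.out ((f : B.X → C) q.out)) := by
      rw [map_mul, map_mul]
      exact h1
    exact SemidirectProduct.inl_injective h2
  let L : EqF g B →* (l2 H →L[ℂ] l2 H) := (lamH.comp j).comp SemidirectProduct.inl
  have h1 : lam (j (SemidirectProduct.inl f)) = L f := rfl
  have hLm : ∀ q : QQ B, L (jx g B q.out ((f : B.X → C) q.out)) ∈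
      CRs (Set.range (JJ g B j q.out)) := fun q => lam_mem_CRs ⟨_, rfl⟩
  rw [h1]
  conv_lhs => rw [← eq_prod f hc]
  rw [Finset.map_noncommProd]
  unfold WW
  refine (Finset.noncommProd_mul_distrib _ _ _ _ ?_).symm.trans ?_
  rotate_left
  · refine Finset.noncommProd_congr rfl (fun q _ => ?_) _
    show L (jx g B q.out ((f : B.X → C) q.out)) * VV g B j U b q.out = _
    unfold VV
    rw [← mul_assoc]
    congr 1
    show lam _ * lam _ = _
    rw [← lam_mul]
    congr 1
    rw [map_mul]
    rfl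
  · intro q _ r _ hqr
    exact range_comm _ _ (out_ne hqr) (VV_mem hU hj b _) (hLm r)

end fam

theorem stepU {S C P : Type} [Group S] [Group C] [Group P] (g : Gadget S C)
    (u : l2 C →L[ℂ] l2 C) (hu : u ∈ CR C) (huu : u ∈ unitary (l2 C →L[ℂ] l2 C))
    (hk : ∀ s, u = lam (g.k s) * (pmL (g.act s).toEquiv * u * pmL (g.act s).toEquiv.symm))
    (B : Bdl S P) (b : B.X → C) (hb : IsTw g B b) (H : Type) [Group H] (j : KK g B →* H)
    (hj : Function.Injective j) :
    ∃ W ∈ CRs (Set.range j), W ∈ unitary (l2 H →L[ℂ] l2 H) ∧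
      ∀ p : P, W * lam (j (SemidirectProduct.inr p)) * star W = lam (j (i2 g B b hb p)) := by
  obtain ⟨U, hU⟩ := gut g.act g.k u hu huu hk H
  have hU' : UP g U := hU
  refine ⟨WW hU' hj b, WW_mem hU' hj b, WW_uni hU' hj b, fun p => ?_⟩
  have h1 := WW_conj hU' hj hb p
  let f : EqF g B := (i2 g B b hb p).left
  have hf : (fun x => (f : B.X → C) x * b (p⁻¹ • x)) = b := by
    funext x
    show b x * (b (p⁻¹ • x))⁻¹ * b (p⁻¹ • x) = b x
    rw [inv_mul_cancel_right]
  have h2 := WW_mul hU' hj (fun x => b (p⁻¹ • x)) f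
  simp only [hf] at h2
  have h3 : i2 g B b hb p = SemidirectProduct.inl f * SemidirectProduct.inr p := by
    apply SemidirectProduct.ext
    · simp [f]
    · simp only [SemidirectProduct.mul_right, SemidirectProduct.right_inl,
        SemidirectProduct.right_inr, one_mul]
      rfl
  have h4 : lam (j (SemidirectProduct.inr p))⁻¹ * lam (j (SemidirectProduct.inr p)) =
      (1 : l2 H →L[ℂ] l2 H) := by
    rw [← lam_mul, inv_mul_cancel, lam_one]
  have h5 : WW hU' hj b * star (WW hU' hj b) = 1 := (Unitary.mem_iff.1 (WW_uni hU' hj b)).2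
  rw [h3, map_mul, lam_mul]
  calc WW hU' hj b * lam (j (SemidirectProduct.inr p)) * star (WW hU' hj b)
      = lam (j (SemidirectProduct.inl f)) * (lam (j (SemidirectProduct.inr p)) * WW hU' hj b *
          lam (j (SemidirectProduct.inr p))⁻¹) * lam (j (SemidirectProduct.inr p)) *
          star (WW hU' hj b) := by rw [h1, h2]
    _ = lam (j (SemidirectProduct.inl f)) * lam (j (SemidirectProduct.inr p)) *
          (WW hU' hj b * (lam (j (SemidirectProduct.inr p))⁻¹ *
          lam (j (SemidirectProduct.inr p))) * star (WW hU' hj b)) := by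
        simp only [mul_assoc]
    _ = _ := by rw [h4, mul_one, h5, mul_one]

end N_stepU

alias stepU := N_stepU.stepU

end Pool.CS
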