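import Pool.Agent.Helper694.CS.Defs
import Pool.Agent.Helper694.CS.J_b_exists
import Pool.Agent.Helper694.CS.J_pconj2
import Pool.Agent.Helper694.CS.J_KK_tf
import Pool.Agent.Helper694.CS.J_KK_cnt
import Pool.Agent.Helper694.CS.J_centK
import Pool.Agent.Helper694.CS.J_kill
import Pool.Agent.Helper694.CS.J_constz
import Pool.Agent.Helper694.CS.J_KK_rf
import Pool.Agent.Helper694.CS.J_KK_sep1
import Pool.Agent.Helper694.CS.J_KK_sep2
import Pool.Agent.Helper694.CS.J_align
import Pool.Agent.Helper694.CS.J_KK_ret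
import Pool.Agent.Helper694.CS.J_ret_sep
import Pool.Agent.Helper694.CS.J_ret_boost
import Pool.Agent.Helper694.CS.J_boost_ne
import Pool.Agent.Helper694.CS.J_bdl_ex
import Pool.Agent.Helper694.CS.J_cyciso
import Pool.Agent.Helper694.CS.J_genK
import Pool.Agent.Helper694.CS.J_stepU
import Pool.Agent.Helper694.CS.J_hnn_rf
import Pool.Agent.Helper694.CS.J_hnn_tf
import Pool.Agent.Helper694.CS.J_hnn_cent
import Pool.Agent.Helper694.CS.J_hnn_cnt
import Pool.Agent.Helper694.CS.J_boostN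
import Pool.Agent.Helper694.CS.J_bunN
set_option autoImplicit false

namespace Pool.CS


namespace N_step

theorem CRs_mono {H : Type} [Group H] {s t : Set H} (h : s ⊆ t) : CRs s ≤ CRs t := by
  unfold CRs
  exact StarSubalgebra.topologicalClosure_mono (StarAlgebra.adjoin_mono (Set.image_mono h))

theorem i2_right {S C P : Type} [Group S] [Group C] [Group P] (g : Gadget S C) (B : Bdl S P)
    (b : B.X → C) (hb : IsTw g B b) (p : P) : (i2 g B b hb p).right = p := rfl

theorem i2_inj {S C P : Type} [Group S] [Group C] [Group P] (g : Gadget S C) (B : Bdl S P)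
    (b : B.X → C) (hb : IsTw g B b) : Function.Injective (i2 g B b hb) := by
  intro p q h
  have := congrArg SemidirectProduct.right h
  exact this

theorem ofAdd_one_ne : (Multiplicative.ofAdd (1 : ℤ)) ≠ 1 := by
  intro h
  have : (1 : ℤ) = 0 := Multiplicative.ofAdd.injective h
  exact one_ne_zero this

theorem ee_ne {S C P : Type} [Group S] [Group C] [Group P] (g : Gadget S C) (B : Bdl S P)
    (x0 x1 : B.X) (h : ∀ s : S, x1 ≠ s • x0) : ee g B x0 x1 ≠ 1 := by
  intro h1
  have h2 : (ee g B x0 x1).left = 1 := by rw [h1]; rfl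
  have h3 : ((ee g B x0 x1).left : B.X → C) x1 = 1 := by rw [h2]; rfl
  have h4 : ((ee g B x0 x1).left : B.X → C) x1 =
      (jx g B x1 g.z : B.X → C) x1 * ((jx g B x0 g.z : B.X → C) x1)⁻¹ := rfl
  rw [h4, jx_self, jx_ne g B x0 x1 g.z (fun s hs => h s hs.symm), inv_one, mul_one] at h3
  have h5 := g.eZ_z
  rw [h3, map_one] at h5
  exact ofAdd_one_ne h5.symm

theorem cyc_ind {K : Type} [Group K] {u v : K} (φ : Subgroup.zpowers u ≃* Subgroup.zpowers v)
    (hφ : φ ⟨u, Subgroup.mem_zpowers u⟩ = ⟨v, Subgroup.mem_zpowers v⟩) (a : Subgroup.zpowers u) :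
    ∃ n : ℤ, (a : K) = u ^ n ∧ ((φ a : Subgroup.zpowers v) : K) = v ^ n := by
  obtain ⟨a, n, rfl⟩ := a
  refine ⟨n, rfl, ?_⟩
  have h1 : (⟨(fun x : ℤ => u ^ x) n, ⟨n, rfl⟩⟩ : Subgroup.zpowers u) =
      (⟨u, Subgroup.mem_zpowers u⟩ : Subgroup.zpowers u) ^ n := by
    apply Subtype.ext
    simp
  rw [h1, map_zpow, hφ]
  simp

/-- extension of a retraction -/
theorem ext_ret {K : Type} [Group K] {u v : K} (φ : Subgroup.zpowers u ≃* Subgroup.zpowers v)
    (hφ : φ ⟨u, Subgroup.mem_zpowers u⟩ = ⟨v, Subgroup.mem_zpowers v⟩)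
    (r : K →* Multiplicative ℤ) (hu : r u = 1) (hv : r v = 1) (c : Multiplicative ℤ) :
    ∃ r' : HNNExtension K (Subgroup.zpowers u) (Subgroup.zpowers v) φ →* Multiplicative ℤ,
      (∀ k, r' (HNNExtension.of k) = r k) ∧ r' HNNExtension.t = c := by
  refine ⟨HNNExtension.lift r c ?_, fun k => HNNExtension.lift_of _ _ _ k,
    HNNExtension.lift_t _ _ _⟩
  intro a
  obtain ⟨n, h1, h2⟩ := cyc_ind φ hφ a
  rw [h1, h2, map_zpow, map_zpow, hu, hv]
  simp

theorem hal_aux {S C P : Type} [Group S] [Group C] [Group P] (g : Gadget S C) (B : Bdl S P)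
    (b : B.X → C) (hb : IsTw g B b) (J : F2 →* P) (y : P) (hy : Boost J y) (x0 x1 : B.X)
    (h : ∀ s : S, x1 ≠ s • x0) (q : FQ (KK g B)) :
    ∃ r : FQ (KK g B), r.φ.ker ≤ q.φ.ker ∧
      orderOf (r.φ (i2 g B b hb y)) = orderOf (r.φ (ee g B x0 x1)) := by
  obtain ⟨q2, h1, h2⟩ := hy ⟨Equiv.Perm B.X, MulAction.toPermHom P B.X⟩
  obtain ⟨q3, h3, -, h4⟩ := h2 (orderOf (q.φ (i2 g B b hb y)) * orderOf (q.φ (ee g B x0 x1)))
    (Nat.mul_pos (orderOf_pos _) (orderOf_pos _))
  obtain ⟨r, hr1, hr2, hr3⟩ := align g B b hb y x0 x1 h q q3 ((Nat.dvd_mul_right _ _).trans h4)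
    ((Nat.dvd_mul_left _ _).trans h4) (by
      intro x
      have h5 : y ^ orderOf (q3.φ y) ∈ q3.φ.ker := by
        rw [MonoidHom.mem_ker, map_pow, pow_orderOf_eq_one]
      have h6 := h1 (h3 h5)
      have h7 : (MulAction.toPermHom P B.X) (y ^ orderOf (q3.φ y)) = 1 := h6
      have h8 := congrArg (fun e : Equiv.Perm B.X => e x) h7
      exact h8)
  refine ⟨r, ?_, by rw [hr2, hr3]⟩
  intro κ hκ
  exact ((hr1 κ).1 hκ).1

theorem f2_ne : (FreeGroup.of (0 : Fin 2)) * FreeGroup.of 1 ≠ FreeGroup.of 1 * FreeGroup.of 0 := by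
  intro h
  have h1 := congrArg FreeGroup.toWord h
  revert h1
  decide

theorem step {S C : Type} [Group S] [Group C] (g : Gadget S C)
    (u : l2 C →L[ℂ] l2 C) (hu : u ∈ CR C) (huu : u ∈ unitary (l2 C →L[ℂ] l2 C))
    (hk : ∀ s, u = lam (g.k s) * (pmL (g.act s).toEquiv * u * pmL (g.act s).toEquiv.symm))
    (P : Type) [Group P] (J : F2 →* P) (G : Set P) (hG : Good S J G) (x y : P) (hx : x ≠ 1)
    (hy : y ∈ G) : ∃ (P' : Type) (_ : Group P') (G' : Set P') (e1 e2 : P →* P'),
        StepRel S J G G' e1 e2 ∧ e2 y ∈ Subgroup.normalClosure {e2 x} := by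
  classical
  have := g.finS
  obtain ⟨B, full, hxB, trans⟩ := bdl_ex J hG.rf hG.bun x hx
  obtain ⟨x0⟩ : Nonempty B.X := inferInstance
  have h01 : ∀ s : S, x • x0 ≠ s • x0 := fun s => hxB x0 s
  obtain ⟨b, hb⟩ := b_exists g B
  have hyb := hG.boost y hy
  have hy1 : y ≠ 1 := boost_ne J y hyb
  have hu1 : i2 g B b hb y ≠ 1 := by
    intro h
    exact hy1 (congrArg SemidirectProduct.right h)
  have hv1 : ee g B x0 (x • x0) ≠ 1 := ee_ne g B x0 _ h01
  obtain ⟨φ, hφ⟩ := cyciso (i2 g B b hb y) (ee g B x0 (x • x0)) (KK_tf g B hG.tf _ hu1)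
    (KK_tf g B hG.tf _ hv1)
  have hrf := hnn_rf _ _ φ hφ (KK_rf g B hG.rf)
    (KK_sep1 g B b hb hG.rf J y (hG.sep y hy) hyb) (KK_sep2 g B hG.rf x0 (x • x0) h01)
    (hal_aux g B b hb J y hyb x0 (x • x0) h01)
  -- the homomorphisms
  let of' : KK g B →* HNNExtension (KK g B) (Subgroup.zpowers (i2 g B b hb y))
    (Subgroup.zpowers (ee g B x0 (x • x0))) φ := HNNExtension.of
  have hof : Function.Injective of' := HNNExtension.of_injective φ
  let e1 : P →* HNNExtension (KK g B) (Subgroup.zpowers (i2 g B b hb y))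
    (Subgroup.zpowers (ee g B x0 (x • x0))) φ := of'.comp SemidirectProduct.inr
  let e2 : P →* HNNExtension (KK g B) (Subgroup.zpowers (i2 g B b hb y))
    (Subgroup.zpowers (ee g B x0 (x • x0))) φ := of'.comp (i2 g B b hb)
  have he2 : Function.Injective e2 := hof.comp (i2_inj g B b hb)
  -- retractions
  have hret : ∀ (e : C →* Multiplicative ℤ), (∀ s c, e (g.act s c) = e c) →
      (∀ s, e (g.k s) = 1) → ∀ c : Multiplicative ℤ,
      ∃ r' : HNNExtension (KK g B) (Subgroup.zpowers (i2 g B b hb y))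
        (Subgroup.zpowers (ee g B x0 (x • x0))) φ →* Multiplicative ℤ,
        (∀ p, r' (e2 p) = 1) ∧ (∀ x c, r' (of' (SemidirectProduct.inl (jx g B x c))) = e c) ∧
        r' HNNExtension.t = c := by
    intro e he hk' c
    obtain ⟨r, hr1, hr2⟩ := KK_ret g B b hb e he hk'
    obtain ⟨r', h1, h2⟩ := ext_ret φ hφ r (hr1 y) (by
      unfold ee
      rw [map_mul, map_inv, map_mul, map_inv, hr2, hr2, mul_inv_cancel]) c
    refine ⟨r', fun p => ?_, fun x c => ?_, h2⟩
    · exact (h1 _).trans (hr1 p)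
    · exact (h1 _).trans (hr2 x c)
  obtain ⟨rA, hA1, hA2, hA3⟩ := hret g.eA g.eA_act g.eA_k 1
  obtain ⟨rZ, hZ1, hZ2, hZ3⟩ := hret g.eZ g.eZ_act g.eZ_k 1
  obtain ⟨rT, hT1, hT2, hT3⟩ := hret 1 (fun _ _ => rfl) (fun _ => rfl) (Multiplicative.ofAdd 1)
  let aa := of' (SemidirectProduct.inl (jx g B x0 g.a))
  let zz := of' (SemidirectProduct.inl (jx g B x0 g.z))
  have hrA : rA aa = Multiplicative.ofAdd 1 := (hA2 _ _).trans g.eA_a
  have hrZ : rZ zz = Multiplicative.ofAdd 1 := (hZ2 _ _).trans g.eZ_z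
  let G' : Set (HNNExtension (KK g B) (Subgroup.zpowers (i2 g B b hb y))
    (Subgroup.zpowers (ee g B x0 (x • x0))) φ) := (e2 '' G) ∪ {aa, zz, HNNExtension.t}
  refine ⟨HNNExtension (KK g B) (Subgroup.zpowers (i2 g B b hb y))
    (Subgroup.zpowers (ee g B x0 (x • x0))) φ, inferInstance, G', e1, e2, ⟨?_, ?_, he2, ?_, ?_, ?_,
      ?_⟩, ?_⟩
  · refine ⟨?_, ?_, ?_, ?_, hrf.1, ?_, ?_, ?_, ?_⟩
    · exact fun k hk => hnn_tf φ (KK_tf g B hG.tf) k hk
    · have := hG.cnt
      have := KK_cnt g B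
      exact hnn_cnt φ
    · exact he2.comp hG.inj
    · intro w hw
      have hne : i2 g B b hb (J (FreeGroup.of 0)) * i2 g B b hb (J (FreeGroup.of 1)) ≠
          i2 g B b hb (J (FreeGroup.of 1)) * i2 g B b hb (J (FreeGroup.of 0)) := by
        rw [← map_mul, ← map_mul, ← map_mul, ← map_mul]
        intro h
        exact f2_ne (hG.inj (i2_inj g B b hb h))
      obtain ⟨κ, rfl⟩ := hnn_cent _ _ φ _ _ hne w (hw (FreeGroup.of 0)) (hw (FreeGroup.of 1))
      have h1 : κ = 1 := by
        apply centK g B b hb J hG.cent full κ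
        intro q
        apply hof
        rw [map_mul, map_mul]
        exact hw q
      rw [h1, map_one]
    · rintro w (⟨y', hy', rfl⟩ | rfl | rfl | rfl)
      · exact hrf.2 _ (KK_sep1 g B b hb hG.rf J y' (hG.sep y' hy') (hG.boost y' hy'))
      · exact ret_sep hrf.1 rA _ hrA
      · exact ret_sep hrf.1 rZ _ hrZ
      · exact ret_sep hrf.1 rT _ hT3
    · rintro w (⟨y', hy', rfl⟩ | rfl | rfl | rfl)
      · exact boostN g B b hb J y x0 (x • x0) h01 φ hφ y' (hG.boost y' hy')
      · exact ret_boost _ rA _ hrA (fun p => hA1 _)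
      · exact ret_boost _ rZ _ hrZ (fun p => hZ1 _)
      · exact ret_boost _ rT _ hT3 (fun p => hT1 _)
    · exact bunN g B b hb J y x0 (x • x0) h01 φ hφ hyb hG.bun
    · have hN0 : (Subgroup.normalClosure G').comap of' = ⊤ := by
        apply genK g B b hb J full trans G hG.gen x0
        · exact Subgroup.Normal.comap inferInstance _
        · intro y' hy'
          exact Subgroup.subset_normalClosure (Or.inl ⟨y', hy', rfl⟩)
        · exact Subgroup.subset_normalClosure (Or.inr (Or.inl rfl))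
        · exact Subgroup.subset_normalClosure (Or.inr (Or.inr (Or.inl rfl)))
      rw [eq_top_iff]
      intro w _
      induction w using HNNExtension.induction_on with
      | of k =>
        have : k ∈ (Subgroup.normalClosure G').comap of' := by rw [hN0]; trivial
        exact this
      | t => exact Subgroup.subset_normalClosure (Or.inr (Or.inr (Or.inr rfl)))
      | mul w1 w2 h1 h2 => exact Subgroup.mul_mem _ (h1 trivial) (h2 trivial)
      | inv w h1 => exact Subgroup.inv_mem _ (h1 trivial)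
  · exact hof.comp SemidirectProduct.inr_injective
  · intro p
    obtain ⟨h, hh⟩ := pconj2 g B b hb p
    refine ⟨of' h, ?_⟩
    have h1 : e1 p = of' (SemidirectProduct.inr p) := rfl
    rw [h1, hh, map_mul, map_mul, map_inv]
    rfl
  · obtain ⟨c, hc, hc'⟩ := constz g B
    refine ⟨of' c, fun h => hc (hof (h.trans (map_one of').symm)), fun p => ?_⟩
    have h1 : e1 p = of' (SemidirectProduct.inr p) := rfl
    rw [h1, ← map_mul, ← map_mul, hc' p]
  · intro y' hy'
    exact Or.inl ⟨y', hy', rfl⟩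
  · intro H _ j hj
    obtain ⟨W, hW1, hW2, hW3⟩ := stepU g u hu huu hk B b hb H (j.comp of') (hj.comp hof)
    refine ⟨W, CRs_mono ?_ hW1, hW2, hW3⟩
    rintro _ ⟨k, rfl⟩
    exact ⟨of' k, rfl⟩
  · have h1 := kill g B b hb x x0 h01
    have h2 : Subgroup.normalClosure {i2 g B b hb x} ≤
        (Subgroup.normalClosure {e2 x}).comap of' := by
      have : ((Subgroup.normalClosure {e2 x}).comap of').Normal :=
        Subgroup.Normal.comap inferInstance _
      apply Subgroup.normalClosure_le_normal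
      rintro _ rfl
      exact Subgroup.subset_normalClosure rfl
    have h3 : of' (ee g B x0 (x • x0)) ∈ Subgroup.normalClosure {e2 x} := h2 h1
    have h4 := HNNExtension.t_mul_of (φ := φ) ⟨i2 g B b hb y, Subgroup.mem_zpowers _⟩
    rw [hφ] at h4
    have h5 : e2 y = HNNExtension.t⁻¹ * of' (ee g B x0 (x • x0)) * HNNExtension.t⁻¹⁻¹ := by
      rw [inv_inv, mul_assoc]
      rw [eq_inv_mul_iff_mul_eq]
      exact h4
    rw [h5]
    exact Subgroup.normalClosure_normal.conj_mem _ h3 _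

end N_step

alias step := N_step.step

end Pool.CS
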