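import Pool.Agent.Helper694.CS.Defs
set_option autoImplicit false

namespace Pool.CS


namespace N_tower


theorem push_one {P : ℕ → Type} [∀ n, Group (P n)] (e : ∀ n, P n →* P (n + 1)) (m d : ℕ) :
    push e m d 1 = 1 := map_one _

/-- a stage of the construction. -/
structure St (S : Type) [Group S] where
  P : Type
  [grp : Group P]
  J : F2 →* P
  G : Set P
  good : Good S J G
  T : ℕ → ℕ → P × P
  hT : ∀ m i, (T m i).1 ≠ 1 → (T m i).2 ∈ G

attribute [instance] St.grp

theorem good_nontriv {S P : Type} [Group S] [Group P] {J : F2 →* P} {G : Set P}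
    (h : Good S J G) : ∃ x : P, x ≠ 1 := by
  refine ⟨J (FreeGroup.of 0), ?_⟩
  intro h1
  have h2 : J (FreeGroup.of 0) = J 1 := by rw [h1, map_one]
  exact FreeGroup.of_ne_one 0 (h.inj h2)

theorem good_nonempty {S P : Type} [Group S] [Group P] {J : F2 →* P} {G : Set P}
    (h : Good S J G) : ∃ y : P, y ∈ G := by
  by_contra hne
  have hG : G = ∅ := by
    ext y
    constructor
    · intro hy; exact (hne ⟨y, hy⟩).elim
    · intro hy; exact hy.elim
  have hg := h.gen
  rw [hG] at hg
  obtain ⟨x, hx⟩ := good_nontriv h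
  have h1 : Subgroup.normalClosure (∅ : Set P) = ⊥ := by
    apply le_antisymm
    · exact Subgroup.normalClosure_le_normal (by simp)
    · exact bot_le
  have h2 : x ∈ Subgroup.normalClosure (∅ : Set P) := by rw [hg]; trivial
  rw [h1, Subgroup.mem_bot] at h2
  exact hx h2

theorem good_enum {S P : Type} [Group S] [Group P] {J : F2 →* P} {G : Set P}
    (h : Good S J G) : ∃ en : ℕ → P × P, (∀ i, (en i).2 ∈ G) ∧
      ∀ x y : P, y ∈ G → ∃ i, en i = (x, y) := by
  have : Countable P := h.cnt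
  obtain ⟨y0, hy0⟩ := good_nonempty h
  let A := {q : P × P // q.2 ∈ G}
  have : Nonempty A := ⟨⟨(1, y0), hy0⟩⟩
  have : Countable A := Subtype.countable
  obtain ⟨f, hf⟩ := exists_surjective_nat A
  refine ⟨fun i => (f i).1, fun i => (f i).2, fun x y hy => ?_⟩
  obtain ⟨i, hi⟩ := hf ⟨(x, y), hy⟩
  exact ⟨i, by simp only [hi]⟩

theorem step_ex (S : Type) [Group S]
    (hstep : ∀ (P : Type) [Group P] (J : F2 →* P) (G : Set P), Good S J G →
      ∀ x y : P, x ≠ 1 → y ∈ G → ∃ (P' : Type) (_ : Group P') (G' : Set P') (e1 e2 : P →* P'),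
        StepRel S J G G' e1 e2 ∧ e2 y ∈ Subgroup.normalClosure {e2 x}) (n : ℕ) (s : St S) :
    ∃ (s' : St S) (e1 e2 : s.P →* s'.P), s'.J = e2.comp s.J ∧ StepRel S s.J s.G s'.G e1 e2 ∧
      (∀ m i, m ≤ n → s'.T m i = (e2 (s.T m i).1, e2 (s.T m i).2)) ∧
      (∀ x y, y ∈ s'.G → ∃ i, s'.T (n + 1) i = (x, y)) ∧
      ((s.T (Nat.unpair n).1 (Nat.unpair n).2).1 ≠ 1 →
        e2 (s.T (Nat.unpair n).1 (Nat.unpair n).2).2 ∈
          Subgroup.normalClosure {e2 (s.T (Nat.unpair n).1 (Nat.unpair n).2).1}) := by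
  classical
  have key : ∃ (P' : Type) (_ : Group P') (G' : Set P') (e1 e2 : s.P →* P'),
      StepRel S s.J s.G G' e1 e2 ∧ ((s.T (Nat.unpair n).1 (Nat.unpair n).2).1 ≠ 1 →
        e2 (s.T (Nat.unpair n).1 (Nat.unpair n).2).2 ∈
          Subgroup.normalClosure {e2 (s.T (Nat.unpair n).1 (Nat.unpair n).2).1}) := by
    by_cases hx : (s.T (Nat.unpair n).1 (Nat.unpair n).2).1 ≠ 1
    · obtain ⟨P', g', G', e1, e2, h1, h2⟩ := hstep s.P s.J s.G s.good _ _ hx (s.hT _ _ hx)
      exact ⟨P', g', G', e1, e2, h1, fun _ => h2⟩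
    · obtain ⟨x0, hx0⟩ := good_nontriv s.good
      obtain ⟨y0, hy0⟩ := good_nonempty s.good
      obtain ⟨P', g', G', e1, e2, h1, h2⟩ := hstep s.P s.J s.G s.good x0 y0 hx0 hy0
      exact ⟨P', g', G', e1, e2, h1, fun h => (hx h).elim⟩
  obtain ⟨P', g', G', e1, e2, hrel, hx⟩ := key
  have hgood : Good S (e2.comp s.J) G' := hrel.1
  have he2 : Function.Injective e2 := hrel.2.2.1
  have hGG : ∀ y ∈ s.G, e2 y ∈ G' := hrel.2.2.2.2.2.1
  obtain ⟨en, hen1, hen2⟩ := good_enum hgood
  refine ⟨⟨P', e2.comp s.J, G', hgood,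
    fun m i => if m ≤ n then (e2 (s.T m i).1, e2 (s.T m i).2) else en i, ?_⟩, e1, e2, rfl, hrel,
    ?_, ?_, hx⟩
  · intro m i
    by_cases hm : m ≤ n
    · simp only [if_pos hm]
      intro h
      apply hGG
      apply s.hT
      intro h'
      apply h
      rw [h', map_one]
    · simp only [if_neg hm]
      intro _
      exact hen1 i
  · intro m i hm
    show (if m ≤ n then (e2 (s.T m i).1, e2 (s.T m i).2) else en i) = _
    rw [if_pos hm]
  · intro x y hy
    obtain ⟨i, hi⟩ := hen2 x y hy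
    refine ⟨i, ?_⟩
    show (if n + 1 ≤ n then (e2 (s.T (n + 1) i).1, e2 (s.T (n + 1) i).2) else en i) = _
    rw [if_neg (by omega), hi]

theorem tower (S : Type) [Group S]
    (hbase : ∃ (P : Type) (_ : Group P) (J : F2 →* P) (G : Set P), Good S J G)
    (hstep : ∀ (P : Type) [Group P] (J : F2 →* P) (G : Set P), Good S J G →
      ∀ x y : P, x ≠ 1 → y ∈ G → ∃ (P' : Type) (_ : Group P') (G' : Set P') (e1 e2 : P →* P'),
        StepRel S J G G' e1 e2 ∧ e2 y ∈ Subgroup.normalClosure {e2 x}) :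
    Nonempty (Tower S) := by
  classical
  obtain ⟨P0, g0, J0, G0, h0⟩ := hbase
  obtain ⟨en, hen1, hen2⟩ := good_enum h0
  let s0 : St S := ⟨P0, J0, G0, h0, fun _ i => en i, fun _ i _ => hen1 i⟩
  have hstep' := step_ex S hstep
  choose nxt E1 E2 hJ hrel hT hen hx using hstep'
  let seq : ℕ → St S := fun n => Nat.rec s0 (fun n s => nxt n s) n
  have hseq : ∀ n, seq (n + 1) = nxt n (seq n) := fun n => rfl
  have hrow : ∀ m, ∀ x y : (seq m).P, y ∈ (seq m).G → ∃ i, (seq m).T m i = (x, y) := by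
    intro m
    cases m with
    | zero => intro x y hy; exact hen2 x y hy
    | succ n => intro x y hy; exact hen n (seq n) x y hy
  have hinj : ∀ (m d : ℕ), Function.Injective
      (@push (fun n => (seq n).P) (fun n => (seq n).grp) (fun n => E2 n (seq n)) m d) := by
    intro m d
    induction d with
    | zero => intro a b hab; exact hab
    | succ d ih =>
      intro a b hab
      exact ih ((hrel (m + d) (seq (m + d))).2.2.1 hab)
  refine ⟨{ P := fun n => (seq n).P, grp := fun n => (seq n).grp, J := fun n => (seq n).J, G := fun n => (seq n).G,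
            e1 := fun n => E1 n (seq n), e2 := fun n => E2 n (seq n),
            good := fun n => (seq n).good, hJ := fun n => hJ n (seq n),
            rel := fun n => hrel n (seq n), task := ?_ }⟩
  intro m x y hx1 hy
  obtain ⟨i, hi⟩ := hrow m x y hy
  have claim : ∀ d, (seq (m + d)).T m i =
      (@push (fun n => (seq n).P) (fun n => (seq n).grp) (fun n => E2 n (seq n)) m d x,
       @push (fun n => (seq n).P) (fun n => (seq n).grp) (fun n => E2 n (seq n)) m d y) := by
    intro d
    induction d with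
    | zero => exact hi
    | succ d ih =>
      have h := hT (m + d) (seq (m + d)) m i (by omega)
      rw [ih] at h
      exact h
  obtain ⟨d, hd⟩ := Nat.exists_eq_add_of_le (Nat.left_le_pair m i)
  refine ⟨d + 1, ?_⟩
  have h := hx (m + d) (seq (m + d))
  have hu : Nat.unpair (m + d) = (m, i) := by rw [← hd, Nat.unpair_pair]
  rw [hu] at h
  simp only [claim d] at h
  apply h
  intro h1
  apply hx1
  apply hinj m d
  exact h1.trans (@push_one (fun n => (seq n).P) (fun n => (seq n).grp)
    (fun n => E2 n (seq n)) m d).symm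

end N_tower

alias tower := N_tower.tower

end Pool.CS
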