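import Pool.Agent.Helper694.CS.Defs
import Pool.Agent.Helper694.CS.J_mainU
import Pool.Agent.Helper694.CS.J_gadget_ex
import Pool.Agent.Helper694.CS.J_base
import Pool.Agent.Helper694.CS.J_tower
import Pool.Agent.Helper694.CS.J_step
import Pool.Agent.Helper694.CS.J_lim_ex
import Pool.Agent.Helper694.CS.J_lim_tf
import Pool.Agent.Helper694.CS.J_lim_simple1
import Pool.Agent.Helper694.CS.J_lim_simple2
import Pool.Agent.Helper694.CS.J_lim_noniso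
import Pool.Agent.Helper694.CS.J_lim_iso
set_option autoImplicit false

namespace Pool.CS

theorem final :
    ∃ (Γ₁ Γ₂ : Type) (_ : Group Γ₁) (_ : Group Γ₂),
      IsSimpleGroup Γ₁ ∧ IsSimpleGroup Γ₂ ∧
      (∀ g : Γ₁, g ≠ 1 → ¬ IsOfFinOrder g) ∧
      (∀ g : Γ₂, g ≠ 1 → ¬ IsOfFinOrder g) ∧
      IsEmpty (Γ₁ ≃* Γ₂) ∧
      Nonempty
        (↥((StarAlgebra.adjoin ℂ
              {T : lp (fun _ : Γ₁ => ℂ) 2 →L[ℂ] lp (fun _ : Γ₁ => ℂ) 2 |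
                ∃ g : Γ₁, ∀ (f : lp (fun _ : Γ₁ => ℂ) 2) (h : Γ₁),
                  T f h = f (g⁻¹ * h)}).topologicalClosure)
          ≃⋆ₐ[ℂ]
         ↥((StarAlgebra.adjoin ℂ
              {T : lp (fun _ : Γ₂ => ℂ) 2 →L[ℂ] lp (fun _ : Γ₂ => ℂ) 2 |
                ∃ g : Γ₂, ∀ (f : lp (fun _ : Γ₂ => ℂ) 2) (h : Γ₂),
                  T f h = f (g⁻¹ * h)}).topologicalClosure)) := by
  obtain ⟨g, hact, hkk⟩ := gadget_ex
  obtain ⟨u, hu, huu, hk⟩ := mainU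
  have hk' : ∀ s, u = lam (g.k s) *
      (pmL (g.act s).toEquiv * u * pmL (g.act s).toEquiv.symm) := by
    intro s
    rw [hact, hkk]
    exact hk s
  obtain ⟨T⟩ := tower D3 (base D3) (fun P _ J G hG x y hx hy =>
    step g u hu huu hk' P J G hG x y hx hy)
  obtain ⟨L1⟩ := lim_ex T.e1 (fun n => (T.rel n).2.1)
  obtain ⟨L2⟩ := lim_ex T.e2 (fun n => (T.rel n).2.2.1)
  refine ⟨L1.Γ, L2.Γ, L1.grp, L2.grp, lim_simple1 T L1, lim_simple2 T L2,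
    fun x hx => lim_tf T T.e1 L1 x hx, fun x hx => lim_tf T T.e2 L2 x hx,
    lim_noniso T L1 L2, ?_⟩
  have h := lim_iso T L1 L2
  rw [CR_eq, CR_eq] at h
  exact h

end Pool.CS
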