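import Pool.Agent.Helper694.CS.Defs
set_option autoImplicit false

namespace Pool.CS


namespace N_KK_ret

section
variable {S C P : Type} [Group S] [Group C] [Group P]

/-- orbits of `S` -/
abbrev QQ (B : Bdl S P) : Type := MulAction.orbitRel.Quotient S B.X

instance (B : Bdl S P) : Finite (QQ B) := Quotient.finite _

/-- product over the orbits -/
noncomputable def pr (B : Bdl S P) (F : B.X → Multiplicative ℤ) : Multiplicative ℤ :=
  letI := Fintype.ofFinite (QQ B)
  ∏ q : QQ B, F (Quotient.out q)

theorem pr_mul (B : Bdl S P) (F G : B.X → Multiplicative ℤ) :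
    pr B (fun x => F x * G x) = pr B F * pr B G := by
  unfold pr
  exact Finset.prod_mul_distrib

theorem pr_one (B : Bdl S P) : pr B (fun _ => 1) = 1 := by
  unfold pr
  exact Finset.prod_const_one

theorem out_eq (B : Bdl S P) (F : B.X → Multiplicative ℤ) (hF : ∀ (s : S) x, F (s • x) = F x)
    (x : B.X) : F (Quotient.out (Quotient.mk (MulAction.orbitRel S B.X) x)) = F x := by
  have h := Quotient.mk_out (s := MulAction.orbitRel S B.X) x
  obtain ⟨s, hs⟩ := h
  have : F (s • x) = F x := hF s x
  rw [← this]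
  exact congrArg F hs.symm

/-- the action of `P` on the orbits -/
noncomputable def qe (B : Bdl S P) (p : P) : QQ B ≃ QQ B where
  toFun q := Quotient.map' (s₁ := MulAction.orbitRel S B.X) (s₂ := MulAction.orbitRel S B.X)
    (fun x => p • x) (by
      rintro x y ⟨s, hs⟩
      refine ⟨s, ?_⟩
      have hs' : s • y = x := hs
      show s • p • y = p • x
      rw [← B.comm, hs']) q
  invFun q := Quotient.map' (s₁ := MulAction.orbitRel S B.X) (s₂ := MulAction.orbitRel S B.X)
    (fun x => p⁻¹ • x) (by
      rintro x y ⟨s, hs⟩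
      refine ⟨s, ?_⟩
      have hs' : s • y = x := hs
      show s • p⁻¹ • y = p⁻¹ • x
      rw [← B.comm, hs']) q
  left_inv := by
    intro q
    induction q using Quotient.inductionOn' with
    | h x =>
      show Quotient.mk'' (p⁻¹ • p • x) = _
      rw [inv_smul_smul]
  right_inv := by
    intro q
    induction q using Quotient.inductionOn' with
    | h x =>
      show Quotient.mk'' (p • p⁻¹ • x) = _
      rw [smul_inv_smul]

theorem pr_tr (B : Bdl S P) (F : B.X → Multiplicative ℤ) (hF : ∀ (s : S) x, F (s • x) = F x)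
    (p : P) : pr B (fun x => F (p • x)) = pr B F := by
  unfold pr
  letI := Fintype.ofFinite (QQ B)
  refine Fintype.prod_equiv (qe B p) _ _ ?_
  intro q
  have h1 : qe B p q = Quotient.mk (MulAction.orbitRel S B.X) (p • Quotient.out q) := by
    conv_lhs => rw [← Quotient.out_eq q]
    rfl
  rw [h1, out_eq B F hF]

end

theorem KK_ret {S C P : Type} [Group S] [Group C] [Group P] (g : Gadget S C) (B : Bdl S P)
    (b : B.X → C) (hb : IsTw g B b) (e : C →* Multiplicative ℤ) (he : ∀ s c, e (g.act s c) = e c)
    (hk : ∀ s, e (g.k s) = 1) :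
    ∃ r : KK g B →* Multiplicative ℤ, (∀ p, r (i2 g B b hb p) = 1) ∧
      ∀ x c, r (SemidirectProduct.inl (jx g B x c)) = e c := by
  classical
  have hinv : ∀ f : EqF g B, ∀ (s : S) (x : B.X),
      e ((f : B.X → C) (s • x)) = e ((f : B.X → C) x) := by
    intro f s x
    rw [EqF_apply, he]
  refine ⟨{ toFun := fun κ => pr B (fun x => e ((κ.left : B.X → C) x))
            map_one' := ?_
            map_mul' := ?_ }, ?_, ?_⟩
  · show pr B (fun x => e (((1 : EqF g B) : B.X → C) x)) = 1
    have : (fun x : B.X => e (((1 : EqF g B) : B.X → C) x)) = fun _ => 1 := by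
      funext x
      exact map_one e
    rw [this, pr_one]
  · intro κ μ
    show pr B (fun x => e (((κ.left : B.X → C) x) * ((μ.left : B.X → C) (κ.right⁻¹ • x)))) =
      pr B (fun x => e ((κ.left : B.X → C) x)) * pr B (fun x => e ((μ.left : B.X → C) x))
    rw [← pr_tr B (fun x => e ((μ.left : B.X → C) x)) (hinv μ.left) κ.right⁻¹, ← pr_mul]
    congr 1
    funext x
    exact map_mul e _ _
  · intro p
    show pr B (fun x => e (b x * (b (p⁻¹ • x))⁻¹)) = 1
    have hbi : ∀ (s : S) (x : B.X), e (b (s • x)) = e (b x) := by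
      intro s x
      rw [hb s x, map_mul, map_inv, hk, he, inv_one, mul_one]
    have h2 : (fun x => e (b x * (b (p⁻¹ • x))⁻¹)) * (fun x => e (b (p⁻¹ • x))) =
        fun x => e (b x) := by
      funext x
      show e (b x * (b (p⁻¹ • x))⁻¹) * e (b (p⁻¹ • x)) = e (b x)
      rw [← map_mul, inv_mul_cancel_right]
    have h3 := pr_mul B (fun x => e (b x * (b (p⁻¹ • x))⁻¹)) (fun x => e (b (p⁻¹ • x)))
    have h4 : pr B (fun x => e (b x * (b (p⁻¹ • x))⁻¹) * e (b (p⁻¹ • x))) =
        pr B (fun x => e (b x)) := congrArg (pr B) h2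
    rw [h4, pr_tr B (fun x => e (b x)) hbi p⁻¹] at h3
    exact (mul_eq_right.mp h3.symm)
  · intro x c
    show pr B (fun y => e ((jx g B x c : B.X → C) y)) = e c
    unfold pr
    letI := Fintype.ofFinite (QQ B)
    rw [Finset.prod_eq_single (Quotient.mk (MulAction.orbitRel S B.X) x)]
    · refine (out_eq B (fun y => e ((jx g B x c : B.X → C) y)) (hinv (jx g B x c)) x).trans ?_
      show e ((jx g B x c : B.X → C) x) = e c
      rw [jx_self]
    · intro q _ hq
      show e ((jx g B x c : B.X → C) (Quotient.out q)) = 1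
      rw [jx_ne, map_one]
      intro s hs
      apply hq
      rw [← Quotient.out_eq q, ← hs]
      apply Quotient.sound
      exact ⟨s, rfl⟩
    · intro h
      exact absurd (Finset.mem_univ _) h

end N_KK_ret

alias KK_ret := N_KK_ret.KK_ret

end Pool.CS
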