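import Pool.Agent.Helper694.CS.Defs
import Pool.Agent.Helper694.CS.J_align
import Pool.Agent.Helper694.CS.J_hnnA
set_option autoImplicit false

namespace Pool.CS


namespace N_boostN

def fqProd {H : Type} [Group H] (q1 q2 : FQ H) : FQ H :=
  { Q := q1.Q × q2.Q, φ := q1.φ.prod q2.φ }

theorem fqProd_eq_one {H : Type} [Group H] (q1 q2 : FQ H) (x : H) :
    (fqProd q1 q2).φ x = 1 ↔ (q1.φ x = 1 ∧ q2.φ x = 1) := by
  show ((q1.φ x, q2.φ x) : q1.Q × q2.Q) = 1 ↔ _
  rw [Prod.mk_eq_one]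

def fqTriv (H : Type) [Group H] : FQ H :=
  { Q := Unit, φ := 1 }

theorem exR {S C P : Type} [Group S] [Group C] [Group P] (g : Gadget S C) (B : Bdl S P)
    (b : B.X → C) (hb : IsTw g B b) (y : P) (x0 x1 : B.X)
    (h : ∀ s : S, x1 ≠ s • x0)
    (φ : Subgroup.zpowers (i2 g B b hb y) ≃* Subgroup.zpowers (ee g B x0 x1))
    (hφ : φ ⟨i2 g B b hb y, Subgroup.mem_zpowers _⟩ = ⟨ee g B x0 x1, Subgroup.mem_zpowers _⟩)
    (qp : FQ P) (hqp : ∀ p, qp.φ p = 1 → ∀ x : B.X, p • x = x) :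
    ∃ R : FQ (HNNExtension (KK g B) (Subgroup.zpowers (i2 g B b hb y))
        (Subgroup.zpowers (ee g B x0 x1)) φ),
      ∀ k : KK g B, R.φ (HNNExtension.of k) = 1 ↔
        (qp.φ k.right = 1 ∧ Pm g B (thZ g (orderOf (qp.φ y))) k = 1) := by
  obtain ⟨r, hr1, hr2, hr3⟩ := align g B b hb y x0 x1 h (fqTriv (KK g B)) qp
    (by
      show orderOf (1 : Unit) ∣ _
      rw [orderOf_one]; exact one_dvd _)
    (by
      show orderOf (1 : Unit) ∣ _
      rw [orderOf_one]; exact one_dvd _)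
    (by
      intro x
      apply hqp
      rw [map_pow, pow_orderOf_eq_one])
  obtain ⟨ρ, hρ⟩ := hnnA (i2 g B b hb y) (ee g B x0 x1) φ hφ r (hr2.trans hr3.symm)
  refine ⟨{ Q := Equiv.Perm r.Q, φ := ρ }, fun k => ?_⟩
  show ρ (HNNExtension.of k) = 1 ↔ _
  have h1 : ρ (HNNExtension.of k) = 1 ↔ r.φ k = 1 := by
    constructor
    · intro h2
      have h3 := hρ k 1
      rw [h2, mul_one] at h3
      exact h3.symm
    · intro h2
      ext z
      rw [hρ, h2, one_mul]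
      rfl
  rw [h1, hr1]
  constructor
  · rintro ⟨_, h2, h3⟩
    exact ⟨h2, h3⟩
  · rintro ⟨h2, h3⟩
    exact ⟨rfl, h2, h3⟩

theorem boostN {S C P : Type} [Group S] [Group C] [Group P] (g : Gadget S C) (B : Bdl S P)
    (b : B.X → C) (hb : IsTw g B b) (J : F2 →* P) (y : P) (x0 x1 : B.X)
    (h : ∀ s : S, x1 ≠ s • x0)
    (φ : Subgroup.zpowers (i2 g B b hb y) ≃* Subgroup.zpowers (ee g B x0 x1))
    (hφ : φ ⟨i2 g B b hb y, Subgroup.mem_zpowers _⟩ = ⟨ee g B x0 x1, Subgroup.mem_zpowers _⟩)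
    (y' : P) (hy' : Boost J y') :
    Boost (((HNNExtension.of (φ := φ)).comp (i2 g B b hb)).comp J)
      (HNNExtension.of (i2 g B b hb y')) := by
  intro q
  obtain ⟨φ2, hφ2, hφ3⟩ := hy'
    { Q := Equiv.Perm B.X, φ := MulAction.toPermHom P B.X }
  have hact : ∀ p, φ2.φ p = 1 → ∀ x : B.X, p • x = x := by
    intro p hp x
    have h1 : p ∈ (MulAction.toPermHom P B.X).ker := hφ2 (MonoidHom.mem_ker.2 hp)
    have h2 := MonoidHom.mem_ker.1 h1
    have h3 := congrArg (fun e : Equiv.Perm B.X => e x) h2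
    exact h3
  obtain ⟨R2, hR2⟩ := exR g B b hb y x0 x1 h φ hφ φ2 hact
  refine ⟨fqProd q R2, ?_, ?_⟩
  · intro k hk
    rw [MonoidHom.mem_ker] at hk ⊢
    exact ((fqProd_eq_one q R2 k).1 hk).1
  · intro M hM
    obtain ⟨φ3, h31, h32, h33⟩ := hφ3 M hM
    have hact3 : ∀ p, φ3.φ p = 1 → ∀ x : B.X, p • x = x := by
      intro p hp
      exact hact p (MonoidHom.mem_ker.1 (h31 (MonoidHom.mem_ker.2 hp)))
    obtain ⟨R3, hR3⟩ := exR g B b hb y x0 x1 h φ hφ φ3 hact3
    refine ⟨fqProd (fqProd q R2) R3, ?_, ?_, ?_⟩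
    · intro k hk
      rw [MonoidHom.mem_ker] at hk ⊢
      exact ((fqProd_eq_one (fqProd q R2) R3 k).1 hk).1
    · intro p hp
      refine (fqProd_eq_one (fqProd q R2) R3 _).2 ⟨hp, ?_⟩
      have h1 := ((fqProd_eq_one q R2 _).1 hp).2
      have h2 : R2.φ (HNNExtension.of (i2 g B b hb (J p))) = 1 := h1
      rw [hR2] at h2
      have h3 : φ2.φ (J p) = 1 := h2.1
      show R3.φ (HNNExtension.of (i2 g B b hb (J p))) = 1
      rw [hR3]
      refine ⟨h32 p h3, ?_⟩
      have hJ := hact (J p) h3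
      have hJ' : ∀ x : B.X, (J p)⁻¹ • x = x := fun x => by
        rw [inv_smul_eq_iff]; exact (hJ x).symm
      ext z
      · rw [Pm_apply]
        exact hJ z.1
      · rw [Pm_apply]
        have h5 : ((i2 g B b hb (J p)).left : B.X → C) ((i2 g B b hb (J p)).right • z.1) = 1 := by
          show b ((J p) • z.1) * (b ((J p)⁻¹ • (J p) • z.1))⁻¹ = 1
          rw [hJ, hJ', mul_inv_cancel]
        show thZ g (orderOf (φ3.φ y)) (((i2 g B b hb (J p)).left : B.X → C)
          ((i2 g B b hb (J p)).right • z.1)) * z.2 = z.2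
        rw [h5, map_one, one_mul]
    · refine h33.trans (orderOf_dvd_of_pow_eq_one ?_)
      set n := orderOf ((fqProd (fqProd q R2) R3).φ (HNNExtension.of (i2 g B b hb y'))) with hn
      have h1 : (fqProd (fqProd q R2) R3).φ (HNNExtension.of (i2 g B b hb y')) ^ n = 1 :=
        pow_orderOf_eq_one _
      rw [← map_pow, ← map_pow, ← map_pow] at h1
      have h2 := ((fqProd_eq_one (fqProd q R2) R3 _).1 h1).2
      rw [hR3] at h2
      have h3 : φ3.φ (y' ^ n) = 1 := h2.1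
      rw [← map_pow]
      exact h3

end N_boostN

alias boostN := N_boostN.boostN

end Pool.CS
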