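import Pool.Agent.Helper694.CS.Defs
set_option autoImplicit false

namespace Pool.CS


namespace N_lim_noniso

theorem lift_idx {P : ℕ → Type} [∀ n, Group (P n)] {e : ∀ n, P n →* P (n + 1)} (L : Lim e)
    (m n : ℕ) (h : m ≤ n) (p : P m) : ∃ p' : P n, L.j n p' = L.j m p := by
  induction n, h using Nat.le_induction with
  | base => exact ⟨p, rfl⟩
  | succ n _ ih =>
    obtain ⟨p', hp'⟩ := ih
    exact ⟨e n p', by rw [L.comm, hp']⟩

theorem common_comm {S : Type} [Group S] (T : Tower S) (L1 : Lim T.e1) (a b : L1.Γ) :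
    ∃ z : L1.Γ, z ≠ 1 ∧ z * a = a * z ∧ z * b = b * z := by
  obtain ⟨m, p0, hp0⟩ := L1.surj a
  obtain ⟨k, q0, hq0⟩ := L1.surj b
  obtain ⟨p, hp⟩ := lift_idx L1 m (max m k) (le_max_left _ _) p0
  obtain ⟨q, hq⟩ := lift_idx L1 k (max m k) (le_max_right _ _) q0
  obtain ⟨_, _, _, _, ⟨z, hz1, hz⟩, _, _⟩ := T.rel (max m k)
  refine ⟨L1.j (max m k + 1) z, ?_, ?_, ?_⟩
  · intro h
    apply hz1
    apply L1.inj
    rw [h, map_one]
  · rw [← hp0, ← hp, ← L1.comm (max m k) p, ← map_mul, hz, map_mul]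
  · rw [← hq0, ← hq, ← L1.comm (max m k) q, ← map_mul, hz, map_mul]

theorem J_const {S : Type} [Group S] (T : Tower S) (L2 : Lim T.e2) (n : ℕ) (q : F2) :
    L2.j n (T.J n q) = L2.j 0 (T.J 0 q) := by
  induction n with
  | zero => rfl
  | succ n ih => rw [T.hJ n, MonoidHom.comp_apply, L2.comm, ih]

theorem central_triv {S : Type} [Group S] (T : Tower S) (L2 : Lim T.e2) (w : L2.Γ)
    (h : ∀ i : Fin 2, w * L2.j 0 (T.J 0 (FreeGroup.of i)) = L2.j 0 (T.J 0 (FreeGroup.of i)) * w) :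
    w = 1 := by
  obtain ⟨n, p, rfl⟩ := L2.surj w
  have h1 : ∀ i : Fin 2, p * T.J n (FreeGroup.of i) = T.J n (FreeGroup.of i) * p := by
    intro i
    apply L2.inj n
    rw [map_mul, map_mul, J_const, h i]
  have h2 : ((MulAut.conj p).toMonoidHom.comp (T.J n)) = T.J n := by
    apply FreeGroup.ext_hom
    intro i
    change p * T.J n (FreeGroup.of i) * p⁻¹ = T.J n (FreeGroup.of i)
    rw [h1 i, mul_inv_cancel_right]
  have h3 : ∀ q, p * T.J n q = T.J n q * p := by
    intro q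
    have h4 : p * T.J n q * p⁻¹ = T.J n q := DFunLike.congr_fun h2 q
    rw [mul_inv_eq_iff_eq_mul] at h4
    exact h4
  rw [(T.good n).cent p h3, map_one]

theorem lim_noniso {S : Type} [Group S] (T : Tower S) (L1 : Lim T.e1) (L2 : Lim T.e2) :
    IsEmpty (L1.Γ ≃* L2.Γ) := by
  constructor
  intro e
  obtain ⟨z, hz1, ha, hb⟩ := common_comm T L1 (e.symm (L2.j 0 (T.J 0 (FreeGroup.of 0))))
    (e.symm (L2.j 0 (T.J 0 (FreeGroup.of 1))))
  apply hz1
  have h1 : e z = 1 := by
    apply central_triv T L2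
    intro i
    fin_cases i
    · have := congrArg e ha
      rw [map_mul, map_mul, e.apply_symm_apply] at this
      exact this
    · have := congrArg e hb
      rw [map_mul, map_mul, e.apply_symm_apply] at this
      exact this
  exact (map_eq_one_iff e e.injective).mp h1

end N_lim_noniso

alias lim_noniso := N_lim_noniso.lim_noniso

end Pool.CS
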